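import Pool.Agent.Lib.MP_bc213e_ag.Hyp.Defs

/-! Auxiliary definitions (not part of the final statement). -/

namespace Pool.Agent.Lib.MP_bc213e_ag.Hyp

open Filter Topology WithZero
open scoped TensorProduct

variable {K ι : Type} [Field K] [Algebra ℂ K]

/-- Integer valued valuations. -/
abbrev Val (K : Type) [Field K] := Valuation K (WithZero (Multiplicative ℤ))

/-- The consequence of cohomological hyperbolicity that is used. -/
def HYP (n : ℕ) (V : Submodule ℂ K) (φ : K →ₐ[ℂ] K) : Prop :=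
  ∀ C k₀ : ℕ, 0 < C → ∃ k T : ℕ, k₀ ≤ k ∧ 0 < T ∧ ∀ᶠ μ : ℕ in atTop,
    C * (dm V (φ ^ k) (C * μ) (C * T * μ) * dm V (φ ^ k) (C * T * μ) (C * μ)) ^ 2 <
      T * μ ^ (2 * n) * dm V (φ ^ (2 * k)) (T * μ) (T * μ) ^ 2

/-- `v` is trivial on the constants. -/
def Triv (v : Val K) : Prop := ∀ c : ℂ, v (algebraMap ℂ K c) ≤ 1

/-- Sections of the divisor `D`, tested on the set `W` of valuations. -/
def Gam (W : Set (Val K)) (D : Val K → ℤ) : Submodule ℂ K where
  carrier := {z | ∀ w ∈ W, Triv w → w z ≤ exp (D w)}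
  add_mem' := fun ha hb w hw ht => (w.map_add _ _).trans (max_le (ha w hw ht) (hb w hw ht))
  zero_mem' := fun w _ _ => by simp
  smul_mem' := fun c z hz w hw ht => by
    rw [Algebra.smul_def, map_mul]
    exact (mul_le_mul' (ht c) (hz w hw ht)).trans_eq (one_mul _)

/-- Elements whose poles are bounded by `μ` times the poles of `(1, y)`. -/
def Bd {κ : Type} (y : κ → K) (μ : ℕ) : Submodule ℂ K where
  carrier := {r | ∀ (O : ValuationSubring K) (c : K), (∀ z : ℂ, algebraMap ℂ K z ∈ O) → c ≠ 0 →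
    c⁻¹ ∈ O → (∀ l, y l / c ∈ O) → r / c ^ μ ∈ O}
  add_mem' := fun ha hb O c h1 h2 h3 h4 => by
    rw [add_div]
    exact O.add_mem _ _ (ha O c h1 h2 h3 h4) (hb O c h1 h2 h3 h4)
  zero_mem' := fun O c _ _ _ _ => by simp
  smul_mem' := fun a z hz O c h1 h2 h3 h4 => by
    rw [Algebra.smul_def, mul_div_assoc]
    exact O.mul_mem _ _ (h1 a) (hz O c h1 h2 h3 h4)

/-- A place of `F` with values in `ℂ`; `ρ` is a linear extension of the residue map. -/
structure Place (F : Type) [Field F] [Algebra ℂ F] where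
  O : ValuationSubring F
  ρ : F →ₗ[ℂ] ℂ
  const : ∀ c : ℂ, algebraMap ℂ F c ∈ O
  res : ∀ z ∈ O, O.valuation (z - algebraMap ℂ F (ρ z)) < 1

section

variable {N F : Type} [AddCommGroup N] [Module ℂ N] [AddCommGroup F] [Module ℂ F]

/-- Contraction of the left factor. -/
noncomputable def co (ℓ : N →ₗ[ℂ] ℂ) : N ⊗[ℂ] F →ₗ[ℂ] F :=
  (TensorProduct.lid ℂ F).toLinearMap ∘ₗ ℓ.rTensor F

/-- Contraction of the right factor. -/
noncomputable def oc (ρ : F →ₗ[ℂ] ℂ) : N ⊗[ℂ] F →ₗ[ℂ] N :=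
  (TensorProduct.rid ℂ N).toLinearMap ∘ₗ ρ.lTensor N

@[simp] theorem co_tmul (ℓ : N →ₗ[ℂ] ℂ) (a : N) (f : F) : co ℓ (a ⊗ₜ[ℂ] f) = ℓ a • f := by
  simp [co]

@[simp] theorem oc_tmul (ρ : F →ₗ[ℂ] ℂ) (a : N) (f : F) : oc ρ (a ⊗ₜ[ℂ] f) = ρ f • a := by
  simp [oc]

end

/-- `G` is the Gauss extension of the place `π` to `N ⊗ F`. -/
def IsGauss {N F : Type} [CommRing N] [Algebra ℂ N] [Field F] [Algebra ℂ F] (π : Place F)
    (G : Valuation (N ⊗[ℂ] F) π.O.ValueGroup) : Prop :=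
  ∀ y, IsGreatest (Set.range fun ℓ : N →ₗ[ℂ] ℂ => π.O.valuation (co ℓ y)) (G y)

/-- `L` is the function field of `X × X`, and `ψ` is the pull-back by `f × f`. -/
structure Two (φ : K →ₐ[ℂ] K) (L : Type) [Field L] [Algebra ℂ L] where
  ι₁ : K →ₐ[ℂ] L
  ι₂ : K →ₐ[ℂ] L
  ψ : L →ₐ[ℂ] L
  comm₁ : ∀ a, ψ (ι₁ a) = ι₁ (φ a)
  comm₂ : ∀ a, ψ (ι₂ a) = ι₂ (φ a)
  inj : Function.Injective (Algebra.TensorProduct.productMap ι₁ ι₂)
  frac : ∀ l : L, ∃ a d : K ⊗[ℂ] K, d ≠ 0 ∧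
    l * Algebra.TensorProduct.productMap ι₁ ι₂ d = Algebra.TensorProduct.productMap ι₁ ι₂ a

/-- The data of the theorem, after the Jacobian step and the dynamical degree step. -/
structure Su (K ι : Type) [Field K] [Algebra ℂ K] (n : ℕ) where
  x : ι → Kˣ
  g : ι → Kˣ
  φ : K →ₐ[ℂ] K
  h : K
  i₀ : ι
  npos : 0 < n
  one : x i₀ = 1
  hne : h ≠ 0
  frac : ∀ i, IsFractionRing (chart x i) K
  norm : ∀ i, IsIntegrallyClosed (chart x i)
  dim : Algebra.trdeg ℂ K = n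
  cart : ∀ i j, ∃ e : ℕ, (g i : K) / g j * ((x i : K) / x j) ^ e ∈ chart x j
  nef : ∀ t : ℕ, ∃ N : ℕ, 0 < N ∧ Free x g (N * t) N
  pull : ∀ i j w, PrimeDiv (chart x i) w → (∀ r ∈ chart x j, w (φ r) ≤ 1) →
    w (φ (g j) * h) ≤ w (g i)
  hyp : HYP n (Submodule.span ℂ (Set.range fun i => (x i : K))) φ

namespace Su

variable [Fintype ι] {n : ℕ} (S : Su K ι n)

/-- The coordinates as elements of `K`. -/
def X : ι → K := fun i => S.x i

/-- The linear system of hyperplane sections. -/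
def V : Submodule ℂ K := Submodule.span ℂ (Set.range S.X)

/-- The prime divisors of `X`. -/
def W : Set (Val K) := {w | ∃ i, PrimeDiv (chart S.x i) w}

/-- Sections of a Weil divisor on `X`. -/
def Γ (D : Val K → ℤ) : Submodule ℂ K := Gam S.W D

/-- A chart that contains the centre of `v`. -/
noncomputable def ctr (v : Val K) : ι :=
  haveI : Nonempty ι := ⟨S.i₀⟩
  (Finite.exists_max fun i => v (S.x i)).choose

/-- The hyperplane divisor `x i₀ = 0`. -/
noncomputable def H (v : Val K) : ℤ := log (v (S.x (S.ctr v)))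

/-- The divisor `m (K + Δ)`. -/
noncomputable def M (v : Val K) : ℤ := log (v (S.g (S.ctr v)))

/-- The Jacobian cocycle of the iterates. -/
noncomputable def hh : ℕ → K
  | 0 => 1
  | k + 1 => hh k * (S.φ ^ k) S.h

/-- Pull-back of `H` by the `k`-th iterate. -/
noncomputable def Hk (k : ℕ) (v : Val K) : ℤ := S.H (v.comap (S.φ ^ k).toRingHom)

/-- Pull-back of `M` by the `k`-th iterate. -/
noncomputable def Mk (k : ℕ) (v : Val K) : ℤ :=
  S.M (v.comap (S.φ ^ k).toRingHom) + log (v (S.hh k))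

end Su

end Pool.Agent.Lib.MP_bc213e_ag.Hyp
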