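import Pool.Agent.Lib.MP_bc213e_ag.Hyp.ADefs

/-! Prime divisors of a normal Noetherian domain. -/

namespace Pool.Agent.Lib.MP_bc213e_ag.Hyp

open WithZero

variable {K : Type} [Field K] [Algebra ℂ K] {A : Subalgebra ℂ K}

theorem PrimeDiv.triv {w : Val K} (h : PrimeDiv A w) : Triv w := by
  exact fun c => h.2.1 _ (A.algebraMap_mem c)

/-- A prime `𝔭` whose localisation has principal nonzero maximal ideal gives a prime divisor.
Sketch: `Localization.AtPrime 𝔭` (or `Localization.subalgebra.ofField K _ _`) is a Noetherian local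
domain with principal maximal ideal, not a field, so a discrete valuation ring
(`IsDiscreteValuationRing.TFAE`); take the adic valuation
(`IsDedekindDomain.HeightOneSpectrum.valuation`, `valuation_exists_uniformizer`,
`valuation_le_one`, `valuation_lt_one_iff_mem`, `IsDiscreteValuationRing.exists_lift_of_le_one`). -/
theorem primeDiv_of_principal [IsNoetherianRing A] [IsFractionRing A K] (𝔭 : Ideal A) [𝔭.IsPrime]
    (π : A) (hπ : π ∈ 𝔭) (h0 : π ≠ 0) (h : ∀ a ∈ 𝔭, ∃ b, b ∉ 𝔭 ∧ π ∣ b * a) :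
    ∃ w : Val K, PrimeDiv A w ∧ ∀ a : A, w a < 1 ↔ a ∈ 𝔭 := by
  set B := Localization.subalgebra.ofField K 𝔭.primeCompl 𝔭.primeCompl_le_nonZeroDivisors with hB
  have i1 : IsLocalization.AtPrime B 𝔭 := Localization.subalgebra.isLocalization_ofField K _ _
  have i2 : IsLocalRing B := IsLocalization.AtPrime.isLocalRing B 𝔭
  have i3 : IsNoetherianRing B := IsLocalization.isNoetherianRing 𝔭.primeCompl B inferInstance
  have hmem : ∀ a : A, algebraMap A B a ∈ IsLocalRing.maximalIdeal B ↔ a ∈ 𝔭 := fun a =>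
    IsLocalization.AtPrime.to_map_mem_maximal_iff B 𝔭 a
  have hmax : IsLocalRing.maximalIdeal B = Ideal.span {algebraMap A B π} := by
    refine le_antisymm ?_ ((Ideal.span_singleton_le_iff_mem _).2 ((hmem π).2 hπ))
    rw [← IsLocalization.AtPrime.map_eq_maximalIdeal 𝔭 B, Ideal.map_le_iff_le_comap]
    intro a ha
    obtain ⟨b, hb, hd⟩ := h a ha
    have h1 := map_dvd (algebraMap A B) hd
    rw [map_mul, ((IsLocalization.AtPrime.isUnit_to_map_iff B 𝔭 b).2 hb).dvd_mul_left] at h1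
    exact Ideal.mem_comap.2 (Ideal.mem_span_singleton.2 h1)
  have hnf : ¬ IsField B := by
    rw [IsLocalRing.isField_iff_maximalIdeal_eq]
    intro h1
    have h2 := (hmem π).2 hπ
    rw [h1, Ideal.mem_bot] at h2
    exact h0 (Subtype.ext (congrArg (fun x : B => (x : K)) h2))
  have hpr : (IsLocalRing.maximalIdeal B).IsPrincipal := ⟨⟨_, hmax⟩⟩
  have i4 : IsDiscreteValuationRing B := ((IsDiscreteValuationRing.TFAE B hnf).out 0 4).2 hpr
  set w := (IsDiscreteValuationRing.maximalIdeal B).valuation K with hw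
  have hle : ∀ a : A, w a ≤ 1 := fun a =>
    (IsDiscreteValuationRing.maximalIdeal B).valuation_le_one (K := K) (algebraMap A B a)
  have hlt : ∀ a : A, w a < 1 ↔ a ∈ 𝔭 := fun a =>
    ((IsDiscreteValuationRing.maximalIdeal B).valuation_lt_one_iff_mem (K := K)
      (algebraMap A B a)).trans (hmem a)
  refine ⟨w, ⟨(IsDiscreteValuationRing.maximalIdeal B).valuation_exists_uniformizer K,
    fun r hr => hle ⟨r, hr⟩, fun z hz => ?_⟩, hlt⟩
  obtain ⟨x, rfl⟩ := IsDiscreteValuationRing.exists_lift_of_le_one hz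
  obtain ⟨a, s, hs, e⟩ := x.2
  have hs1 : w s = 1 := (hle s).eq_of_not_lt fun h1 => hs ((hlt s).1 h1)
  have hs0 : (s : K) ≠ 0 := by
    intro h1
    rw [h1, map_zero] at hs1
    exact zero_ne_one hs1
  refine ⟨s, s.2, hs1, ?_⟩
  have e2 : (s : K) * algebraMap B K x = a := by
    change (s : K) * (x : K) = a
    rw [e]
    change (s : K) * ((a : K) * (s : K)⁻¹) = a
    field_simp
  rw [e2]
  exact a.2

/-- The ideal of denominators. -/
def primeDen (A : Subalgebra ℂ K) (y : K) : Ideal A where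
  carrier := {r | (r : K) * y ∈ A}
  add_mem' := fun {a b} ha hb => by
    change ((a : K) + b) * y ∈ A
    rw [add_mul]
    exact A.add_mem ha hb
  zero_mem' := by
    change (0 : K) * y ∈ A
    rw [zero_mul]
    exact A.zero_mem
  smul_mem' := fun c a ha => by
    change ((c : K) * a) * y ∈ A
    rw [mul_assoc]
    exact A.mul_mem c.2 ha

theorem mem_primeDen {y : K} {r : A} : r ∈ primeDen A y ↔ (r : K) * y ∈ A := Iff.rfl

/-- Algebraic Hartogs lemma. Sketch: suppose `z ∉ A`. Among the ideals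
`J c = {r | r c z ∈ A}`, `c ∈ A`, `c z ∉ A`, pick a maximal one `𝔭 = J c` (Noetherian); it is prime
and nonzero. Put `y = c z`. If `y 𝔭 ≤ 𝔭` then `y` is integral
(`isIntegral_of_smul_mem_submodule`), so in `A`. Hence some `π ∈ 𝔭` has `y π ∈ A \ 𝔭`, and
`(y π) a = π (y a)` for `a ∈ 𝔭`. The prime divisor `w` of `primeDiv_of_principal` has
`w y * w π = 1`, `w π < 1`, so `1 < w y ≤ w z`. -/
theorem hartogs [IsNoetherianRing A] [IsFractionRing A K] [IsIntegrallyClosed A] {z : K}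
    (h : ∀ w : Val K, PrimeDiv A w → w z ≤ 1) : z ∈ A := by
  by_contra hz
  obtain ⟨𝔭, ⟨c, hc, hy, e⟩, hmax⟩ := set_has_maximal_iff_noetherian.2
    (inferInstance : IsNoetherian A A) {I | ∃ c ∈ A, c * z ∉ A ∧ I = primeDen A (c * z)}
    ⟨_, 1, A.one_mem, by rwa [one_mul], rfl⟩
  have hm : ∀ r : A, r ∈ 𝔭 ↔ (r : K) * (c * z) ∈ A := fun r => by rw [e, mem_primeDen]
  have i1 : Ideal.IsPrime 𝔭 := by
    refine ⟨fun h1 => hy ?_, fun {a b} hab => ?_⟩
    · have h2 := (hm 1).1 (by rw [h1]; trivial)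
      simpa using h2
    · by_contra hn
      rw [not_or] at hn
      refine hmax (primeDen A (b * c * z)) ⟨b * c, A.mul_mem b.2 hc, fun h1 => hn.2 ?_, rfl⟩
        (lt_of_le_of_ne (fun r hr => ?_) fun h1 => hn.1 ?_)
      · rwa [hm, ← mul_assoc]
      · have h2 := A.mul_mem b.2 ((hm r).1 hr)
        rw [mem_primeDen]
        rwa [show (r : K) * (b * c * z) = b * (r * (c * z)) by ring]
      · have h2 := (hm _).1 hab
        rw [h1, mem_primeDen]
        rwa [show (a : K) * (b * c * z) = ((a * b : A) : K) * (c * z) by push_cast; ring]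
  have h1 : ∃ π, ∃ hπ : π ∈ 𝔭, (⟨_, (hm π).1 hπ⟩ : A) ∉ 𝔭 := by
    by_contra hn
    push Not at hn
    obtain ⟨n, d, hd, e1⟩ := IsFractionRing.div_surjective A (c * z)
    have hd0 : (d : K) ≠ 0 := fun h1 => nonZeroDivisors.ne_zero hd (Subtype.ext h1)
    have hd1 : d ∈ 𝔭 := by
      rw [hm, ← e1]
      change (d : K) * ((n : K) / d) ∈ A
      rw [mul_div_cancel₀ _ hd0]
      exact n.2
    have h2 := isIntegral_of_smul_mem_submodule (R := A) (A := K)
      (Submodule.map (Algebra.linearMap A K) 𝔭)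
      ((Submodule.ne_bot_iff _).2 ⟨d, ⟨d, hd1, rfl⟩, hd0⟩)
      ((IsNoetherian.noetherian 𝔭).map _) (c * z) (by
        rintro _ ⟨r, hr, rfl⟩
        exact ⟨_, hn r hr, mul_comm _ _⟩)
    obtain ⟨y, hy'⟩ := IsIntegrallyClosed.algebraMap_eq_of_integral h2
    exact hy (hy' ▸ y.2)
  obtain ⟨π, hπ, hb⟩ := h1
  obtain ⟨w, hw, hw'⟩ := primeDiv_of_principal 𝔭 π hπ (by
    rintro rfl
    refine hb ?_
    have : (⟨_, (hm 0).1 hπ⟩ : A) = 0 := Subtype.ext (by simp)
    rw [this]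
    exact hπ) fun a ha => ⟨_, hb, ⟨_, (hm a).1 ha⟩, Subtype.ext (by push_cast; ring)⟩
  refine hb ((hw' _).1 ?_)
  change w ((π : K) * (c * z)) < 1
  rw [map_mul, map_mul]
  exact mul_lt_one_of_lt_of_le ((hw' π).2 hπ) (mul_le_one' (hw.2.1 c hc) (h w hw))

theorem primeLe {w w' : Val K} (h : PrimeDiv A w) (h' : PrimeDiv A w')
    (e : ∀ a ∈ A, w a < 1 ↔ w' a < 1) {z : K} (hz : w z ≤ 1) : w' z ≤ 1 := by
  obtain ⟨b, hb, h1, h2⟩ := h.2.2 z hz
  have h3 : w' b = 1 := (h'.2.1 b hb).eq_of_not_lt fun h4 => h1.not_lt ((e b hb).2 h4)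
  have h4 := h'.2.1 _ h2
  rwa [map_mul, h3, one_mul] at h4

theorem primeExp {x : WithZero (Multiplicative ℤ)} (h : x < 1) : x ≤ exp (-1) := by
  by_cases h0 : x = 0
  · rw [h0]
    exact zero_le
  · rw [← exp_log h0, ← exp_zero, exp_lt_exp] at h
    rw [← exp_log h0, exp_le_exp]
    omega

/-- A prime divisor is determined by its centre. Sketch: both valuation rings are the
localisation, so `w z ≤ 1 ↔ w' z ≤ 1`; compare uniformisers. -/
theorem PrimeDiv.eq_of_centre {w w' : Val K} (h : PrimeDiv A w) (h' : PrimeDiv A w')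
    (e : ∀ a ∈ A, w a < 1 ↔ w' a < 1) : w = w' := by
  have hE : w.IsEquiv w' := Valuation.isEquiv_iff_val_le_one.2
    ⟨primeLe h h' e, primeLe h' h fun a ha => (e a ha).symm⟩
  obtain ⟨π, hπ⟩ := h.1
  obtain ⟨π', hπ'⟩ := h'.1
  have h1 : (exp (-1) : WithZero (Multiplicative ℤ)) < 1 := by
    rw [← exp_zero, exp_lt_exp]
    omega
  have h2 : w' π = exp (-1) := by
    refine le_antisymm (primeExp (hE.lt_one_iff_lt_one.1 (hπ ▸ h1))) ?_
    rw [← hπ', ← hE, hπ]
    exact primeExp (hE.lt_one_iff_lt_one.2 (hπ' ▸ h1))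
  ext z
  by_cases hz : z = 0
  · rw [hz, map_zero, map_zero]
  have h3 : w z ≠ 0 := (Valuation.ne_zero_iff w).2 hz
  have h4 : ∀ n : ℤ, (exp (-1) : WithZero (Multiplicative ℤ)) ^ (-n) = exp n := by
    intro n
    rw [← exp_zsmul]
    simp
  have h5 : w z = w (π ^ (-log (w z))) := by rw [map_zpow₀, hπ, h4, exp_log h3]
  rw [hE.eq_iff.1 h5, map_zpow₀, h2, h4, exp_log h3]

/-- The centre of a prime divisor has height one. Sketch: let `a ∈ 𝔮`, `a ≠ 0`, `r ∈ A` with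
`w r < 1`; then `w (r ^ j / a) ≤ 1` for large `j`, so `b r ^ j = a a'` with `w b = 1`, so `b ∉ 𝔮`. -/
theorem PrimeDiv.mem_of_prime {w : Val K} (h : PrimeDiv A w) (𝔮 : Ideal A) [𝔮.IsPrime]
    (h0 : 𝔮 ≠ ⊥) (hq : ∀ a ∈ 𝔮, w (a : A) < 1) (r : A) (hr : w r < 1) : r ∈ 𝔮 := by
  obtain ⟨a, ha, ha0⟩ := (Submodule.ne_bot_iff _).1 h0
  have h1 : (a : K) ≠ 0 := fun h1 => ha0 (Subtype.ext h1)
  have h2 : w a ≠ 0 := (Valuation.ne_zero_iff w).2 h1
  obtain ⟨j, hj⟩ := exists_pow_lt₀ hr (Units.mk0 _ h2)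
  obtain ⟨b, hb, h3, h4⟩ := h.2.2 ((r : K) ^ j / a) (by
    rw [map_div₀, map_pow]
    exact div_le_one_of_le₀ hj.le zero_le)
  have h5 : (⟨b, hb⟩ : A) * r ^ j = a * ⟨_, h4⟩ := Subtype.ext (by
    push_cast
    field_simp)
  have h6 : (⟨b, hb⟩ : A) * r ^ j ∈ 𝔮 := h5 ▸ 𝔮.mul_mem_right _ ha
  rcases Ideal.IsPrime.mem_or_mem inferInstance h6 with h7 | h7
  · exact absurd (hq _ h7) h3.not_lt
  · exact Ideal.IsPrime.mem_of_pow_mem inferInstance j h7

theorem primeCentre {w : Val K} (h : PrimeDiv A w) :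
    ∃ 𝔭 : Ideal A, 𝔭.IsPrime ∧ ∀ r : A, r ∈ 𝔭 ↔ w r < 1 := by
  let 𝔭 : Ideal A :=
    { carrier := {r | w r < 1}
      add_mem' := fun {a b} ha hb => (w.map_add (a : K) b).trans_lt (max_lt ha hb)
      zero_mem' := by
        change w (0 : K) < 1
        rw [map_zero]
        exact zero_lt_one
      smul_mem' := fun c a ha => by
        change w ((c : K) * a) < 1
        rw [map_mul, mul_comm]
        exact mul_lt_one_of_lt_of_le ha (h.2.1 _ c.2) }
  have hm : ∀ r : A, r ∈ 𝔭 ↔ w r < 1 := fun _ => Iff.rfl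
  refine ⟨𝔭, ⟨fun h1 => ?_, fun {a b} hab => ?_⟩, hm⟩
  · have h2 := (hm 1).1 (by rw [h1]; trivial)
    simp at h2
  · by_contra hn
    rw [not_or, hm, hm] at hn
    have h1 := (hm _).1 hab
    rw [MulMemClass.coe_mul, map_mul, (h.2.1 _ a.2).eq_of_not_lt hn.1,
      (h.2.1 _ b.2).eq_of_not_lt hn.2, mul_one] at h1
    exact lt_irrefl _ h1

/-- Sketch: the centre is a minimal prime over `a` (`mem_of_prime`),
`Ideal.finite_minimalPrimes_of_isNoetherianRing`, `eq_of_centre`. -/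
theorem finite_zeros [IsNoetherianRing A] {a : K} (ha : a ∈ A) (h0 : a ≠ 0) :
    {w : Val K | PrimeDiv A w ∧ w a < 1}.Finite := by
  choose! c hc using fun (w : Val K) (h : PrimeDiv A w) => primeCentre h
  refine Set.Finite.of_injOn (f := c) (fun w hw => ?_) (fun w hw w' hw' e => ?_)
    (Ideal.finite_minimalPrimes_of_isNoetherianRing A (Ideal.span {(⟨a, ha⟩ : A)}))
  · obtain ⟨h1, h2⟩ := hc w hw.1
    refine ⟨⟨h1, (Ideal.span_singleton_le_iff_mem _).2 ((h2 _).2 hw.2)⟩, fun 𝔮 h𝔮 hle r hr => ?_⟩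
    have := h𝔮.1
    refine hw.1.mem_of_prime 𝔮 ((Submodule.ne_bot_iff _).2 ⟨⟨a, ha⟩,
      (Ideal.span_singleton_le_iff_mem _).1 h𝔮.2, fun h3 => h0 (congrArg Subtype.val h3)⟩)
      (fun b hb => (h2 b).1 (hle hb)) r ((h2 r).1 hr)
  · refine hw.1.eq_of_centre hw'.1 fun r hr => ?_
    rw [← (hc w hw.1).2 ⟨r, hr⟩, ← (hc w' hw'.1).2 ⟨r, hr⟩, e]

theorem finite_supp [IsNoetherianRing A] [IsFractionRing A K] {z : K} (h0 : z ≠ 0) :
    {w : Val K | PrimeDiv A w ∧ w z ≠ 1}.Finite := by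
  obtain ⟨n, d, hd, rfl⟩ := IsFractionRing.div_surjective A z
  have hn0 : (n : K) ≠ 0 := (div_ne_zero_iff.1 h0).1
  have hd0 : (d : K) ≠ 0 := (div_ne_zero_iff.1 h0).2
  refine ((finite_zeros n.2 hn0).union (finite_zeros d.2 hd0)).subset fun w hw => ?_
  by_contra hn
  simp only [Set.mem_union, Set.mem_ofPred_eq, hw.1, true_and, not_or] at hn
  refine hw.2 ?_
  change w ((n : K) / d) = 1
  rw [map_div₀, (hw.1.2.1 _ n.2).eq_of_not_lt hn.1, (hw.1.2.1 _ d.2).eq_of_not_lt hn.2, div_one]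

end Pool.Agent.Lib.MP_bc213e_ag.Hyp
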