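import Pool.Agent.Lib.MP_bc213e_ag.Hyp.ADefs

/-! Frobenius components of polynomials and the uniform section in positive characteristic. -/

namespace Pool.Agent.Lib.MP_bc213e_ag.Hyp

open MvPolynomial

variable {k σ ι : Type} [Field k] [Fintype σ] (p : ℕ) [Fact p.Prime] [CharP k p] [PerfectRing k p]

/-- Coordinatewise quotient of an exponent vector. -/
noncomputable def FT1quo (q : ℕ) (m : σ →₀ ℕ) : σ →₀ ℕ :=
  Finsupp.equivFunOnFinite.symm fun s => m s / q

theorem FT1quo_apply (q : ℕ) (m : σ →₀ ℕ) (s : σ) : FT1quo q m s = m s / q := rfl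

open Classical in
/-- The component of one monomial. -/
noncomputable def FT1term (e : ℕ) (α : σ → ℕ) (m : σ →₀ ℕ) : k →+ MvPolynomial σ k :=
  if ∀ s, m s % p ^ e = α s then
    (monomial (FT1quo (p ^ e) m) : k →ₗ[k] MvPolynomial σ k).toAddMonoidHom.comp
      ((iterateFrobeniusEquiv k p e).symm : k →+* k).toAddMonoidHom
  else 0

/-- The Frobenius component. -/
noncomputable def FT1comp (e : ℕ) (α : σ → ℕ) : MvPolynomial σ k →+ MvPolynomial σ k :=
  (Finsupp.liftAddHom (FT1term p e α)).comp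
    (basisMonomials σ k).repr.toLinearMap.toAddMonoidHom

theorem FT1comp_monomial (e : ℕ) (α : σ → ℕ) (m : σ →₀ ℕ) (c : k) :
    FT1comp p e α (monomial m c) = FT1term p e α m c := by
  have h : (monomial m c : MvPolynomial σ k) = c • basisMonomials σ k m := by
    rw [coe_basisMonomials]
    simp [smul_monomial]
  have h2 : (basisMonomials σ k).repr (monomial m c) = Finsupp.single m c := by
    rw [h, map_smul, Module.Basis.repr_self]
    simp
  unfold FT1comp
  simp only [AddMonoidHom.comp_apply, LinearMap.toAddMonoidHom_coe, LinearEquiv.coe_coe, h2]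
  simp

theorem FT1comp_pos (e : ℕ) (α : σ → ℕ) (m : σ →₀ ℕ) (c : k) (h : ∀ s, m s % p ^ e = α s) :
    FT1comp p e α (monomial m c) =
      monomial (FT1quo (p ^ e) m) ((iterateFrobeniusEquiv k p e).symm c) := by
  rw [FT1comp_monomial, FT1term, if_pos h]
  rfl

theorem FT1comp_neg (e : ℕ) (α : σ → ℕ) (m : σ →₀ ℕ) (c : k) (h : ¬ ∀ s, m s % p ^ e = α s) :
    FT1comp p e α (monomial m c) = 0 := by
  rw [FT1comp_monomial, FT1term, if_neg h]
  rfl

theorem FT1root_pow (e : ℕ) (c : k) : ((iterateFrobeniusEquiv k p e).symm c) ^ p ^ e = c := by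
  have := (iterateFrobeniusEquiv k p e).apply_symm_apply c
  rwa [iterateFrobeniusEquiv_def] at this

theorem FT1root_of_pow (e : ℕ) (c : k) : (iterateFrobeniusEquiv k p e).symm (c ^ p ^ e) = c := by
  have := (iterateFrobeniusEquiv k p e).symm_apply_apply c
  rwa [iterateFrobeniusEquiv_def] at this

theorem FT1comp_mul (e : ℕ) (α : σ → ℕ) (f g : MvPolynomial σ k) :
    FT1comp p e α (f ^ p ^ e * g) = f * FT1comp p e α g := by
  have hq : 0 < p ^ e := pow_pos (Fact.out : p.Prime).pos e
  induction f using MvPolynomial.induction_on' with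
  | add f₁ f₂ h₁ h₂ => rw [add_pow_char_pow, add_mul, map_add, h₁, h₂, add_mul]
  | monomial a c =>
    induction g using MvPolynomial.induction_on' with
    | add g₁ g₂ h₁ h₂ => rw [mul_add, map_add, h₁, h₂, map_add, mul_add]
    | monomial m d =>
      rw [monomial_pow, monomial_mul]
      have hmod : ∀ s, (p ^ e • a + m) s % p ^ e = m s % p ^ e := fun s => by
        simp [Finsupp.add_apply, Finsupp.smul_apply]
      by_cases h : ∀ s, m s % p ^ e = α s
      · rw [FT1comp_pos p e α _ _ (fun s => (hmod s).trans (h s)), FT1comp_pos p e α _ _ h,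
          monomial_mul, map_mul, FT1root_of_pow]
        congr 2
        ext s
        simp only [FT1quo_apply, Finsupp.add_apply, Finsupp.smul_apply, smul_eq_mul]
        rw [Nat.mul_add_div hq]
      · rw [FT1comp_neg p e α _ _ (fun h' => h fun s => (hmod s).symm.trans (h' s)),
          FT1comp_neg p e α _ _ h, mul_zero]

theorem FT1comp_deg (e : ℕ) (α : σ → ℕ) (g : MvPolynomial σ k) :
    p ^ e * (FT1comp p e α g).totalDegree ≤ g.totalDegree := by
  have hq : 0 < p ^ e := pow_pos (Fact.out : p.Prime).pos e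
  have h1 : (FT1comp p e α g).totalDegree ≤ g.totalDegree / p ^ e := by
    conv_lhs => rw [g.as_sum, map_sum]
    refine totalDegree_finsetSum_le fun m hm => ?_
    by_cases h : ∀ s, m s % p ^ e = α s
    · rw [FT1comp_pos p e α _ _ h]
      refine (totalDegree_monomial_le _ _).trans ?_
      rw [Nat.le_div_iff_mul_le hq]
      refine le_trans ?_ (le_totalDegree hm)
      rw [Finsupp.sum_fintype _ _ (fun _ => rfl), Finsupp.sum_fintype _ _ (fun _ => rfl),
        Finset.sum_mul]
      exact Finset.sum_le_sum fun s _ => Nat.div_mul_le_self _ _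
    · rw [FT1comp_neg p e α _ _ h]
      simp
  exact (Nat.mul_le_mul_left _ h1).trans (Nat.mul_div_le _ _)

open Classical in
theorem FT1comp_sum (e : ℕ) (g : MvPolynomial σ k) :
    g = ∑ α ∈ Fintype.piFinset (fun _ : σ => Finset.range (p ^ e)),
      FT1comp p e α g ^ p ^ e * monomial (Finsupp.equivFunOnFinite.symm α) 1 := by
  have hq : 0 < p ^ e := pow_pos (Fact.out : p.Prime).pos e
  induction g using MvPolynomial.induction_on' with
  | add g₁ g₂ h₁ h₂ =>
    simp only [map_add, add_pow_char_pow, add_mul, Finset.sum_add_distrib]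
    rw [← h₁, ← h₂]
  | monomial m c =>
    rw [Finset.sum_eq_single (fun s => m s % p ^ e)]
    · rw [FT1comp_pos p e _ _ _ (fun _ => rfl), monomial_pow, monomial_mul, FT1root_pow, mul_one]
      congr 2
      ext s
      simp only [Finsupp.add_apply, Finsupp.smul_apply, smul_eq_mul, FT1quo_apply,
        Finsupp.equivFunOnFinite_symm_apply_apply]
      exact (Nat.div_add_mod _ _).symm
    · intro α _ hα
      rw [FT1comp_neg p e α _ _ (fun h => hα (funext fun s => (h s).symm)), zero_pow hq.ne',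
        zero_mul]
    · intro h
      exact absurd (Fintype.mem_piFinset.2 fun s => Finset.mem_range.2 (Nat.mod_lt _ hq)) h

/-- Sketch: `q = p ^ e`. Let `r = (iterateFrobeniusEquiv k p e).symm` and let `comp α` be the
additive map (`Finsupp.liftAddHom`, or `f.sum`) with
`comp α (monomial m c) = if ∀ s, m s % q = α s then monomial (m / q) (r c) else 0`, where
`m / q = m.mapRange (· / q)`. The first identity is additive in `f` (`add_pow_char_pow`) and in
`g`; check it on monomials. For the last one prove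
`g = ∑ α ∈ Fintype.piFinset fun _ => range q, comp α g ^ q * monomial α 1` (additive in `g`). -/
theorem exists_comp (e : ℕ) :
    ∃ comp : (σ → ℕ) → MvPolynomial σ k →+ MvPolynomial σ k,
      (∀ α f g, comp α (f ^ p ^ e * g) = f * comp α g) ∧
      (∀ α g, p ^ e * (comp α g).totalDegree ≤ g.totalDegree) ∧
      ∀ P g, (∀ α, P ∣ comp α g) → P ^ p ^ e ∣ g := by
  classical
  refine ⟨FT1comp p e, FT1comp_mul p e, FT1comp_deg p e, fun P g h => ?_⟩
  rw [FT1comp_sum p e g]
  exact Finset.dvd_sum fun α _ => Dvd.dvd.mul_right (pow_dvd_pow_of_dvd (h α) _) _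

include p in
/-- Sketch: `q = p ^ e ≥ N b`, `q = N j + r`, `r < N`, `θ i = η i ^ j * η' i ^ r`. Then
`P ∣ θ i * η' l ^ q - θ l * η' i ^ q`; with `u i = comp α (P ^ (q - 1) * θ i)`,
`u i * η' l - u l * η' i = comp α (P ^ q * _) = P * comp α _`. The degree of `P ^ (q - 1) * θ i` is
at most `q (deg P + a + c + 1)`. If `P ∣ u i₀` for all `α` then `P ^ q ∣ P ^ (q - 1) * θ i₀`, so
`P ∣ θ i₀`, so `P ∣ ρ ^ q` (`j, r ≤ q`), impossible by `degreeOf_mul_eq`. -/
theorem ft_char (P : MvPolynomial σ k) (v₀ : σ) (hP : P.degreeOf v₀ ≠ 0) (i₀ : ι)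
    (η η' : ι → MvPolynomial σ k) (N a b c : ℕ) (hN : 0 < N)
    (hη : ∀ i, (η i).totalDegree ≤ N * a + c) (hη' : ∀ i, (η' i).totalDegree ≤ a + b)
    (rel : ∀ i j, P ∣ η i * η' j ^ N - η j * η' i ^ N) (γ ρ : MvPolynomial σ k) (hρ : ρ ≠ 0)
    (hρ' : ρ.degreeOf v₀ = 0) (cert : P ∣ η i₀ * η' i₀ * γ - ρ) :
    ∃ u : ι → MvPolynomial σ k, (∀ i, (u i).totalDegree ≤ a + c + P.totalDegree + 1) ∧
      (∀ i j, P ∣ u i * η' j - u j * η' i) ∧ ¬ P ∣ u i₀ := by
  classical
  have hp : p.Prime := Fact.out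
  obtain ⟨comp, hmul, hdeg, hdvd⟩ := exists_comp (k := k) (σ := σ) p (N * b)
  set q := p ^ (N * b) with hqdef
  have hq : 0 < q := pow_pos hp.pos _
  have hqb : N * b ≤ q := (Nat.lt_pow_self hp.one_lt).le
  set j := q / N with hj
  set r := q % N with hr
  have hqjr : N * j + r = q := Nat.div_add_mod q N
  have hrN : r < N := Nat.mod_lt _ hN
  have hjq : j ≤ q := Nat.div_le_self _ _
  have hrq : r ≤ q := Nat.mod_le _ _
  have hP0 : P ≠ 0 := by
    rintro rfl
    exact hP (by simp)
  set θ : ι → MvPolynomial σ k := fun i => η i ^ j * η' i ^ r with hθ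
  have hPq : P ^ q = P ^ (q - 1) * P := by
    rw [← pow_succ, Nat.sub_add_cancel hq]
  have hrel : ∀ i l, P ∣ θ i * η' l ^ q - θ l * η' i ^ q := by
    intro i l
    have h1 : θ i * η' l ^ q - θ l * η' i ^ q =
        ((η i * η' l ^ N) ^ j - (η l * η' i ^ N) ^ j) * (η' i * η' l) ^ r := by
      simp only [hθ]
      rw [← hqjr]
      ring
    rw [h1]
    exact Dvd.dvd.mul_right ((rel i l).trans (sub_dvd_pow_sub_pow _ _ _)) _
  have hθdeg : ∀ i, (P ^ (q - 1) * θ i).totalDegree ≤ q * (a + c + P.totalDegree + 1) := by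
    intro i
    have h1 : (P ^ (q - 1)).totalDegree ≤ q * P.totalDegree :=
      (totalDegree_pow _ _).trans (Nat.mul_le_mul_right _ (Nat.sub_le _ _))
    have h2 : (η i ^ j).totalDegree ≤ j * (N * a + c) :=
      (totalDegree_pow _ _).trans (Nat.mul_le_mul_left _ (hη i))
    have h3 : (η' i ^ r).totalDegree ≤ r * (a + b) :=
      (totalDegree_pow _ _).trans (Nat.mul_le_mul_left _ (hη' i))
    have h4 : (θ i).totalDegree ≤ j * (N * a + c) + r * (a + b) :=
      (totalDegree_mul _ _).trans (add_le_add h2 h3)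
    have h5 : j * c ≤ q * c := Nat.mul_le_mul_right _ hjq
    have h6 : r * b ≤ N * b := Nat.mul_le_mul_right _ hrN.le
    have h7 : j * (N * a + c) + r * (a + b) = q * a + j * c + r * b := by
      rw [← hqjr]; ring
    have h8 := totalDegree_mul (P ^ (q - 1)) (θ i)
    have h9 : q * (a + c + P.totalDegree + 1) = q * a + q * c + q * P.totalDegree + q := by ring
    omega
  have hnot : ¬ ∀ α, P ∣ comp α (P ^ (q - 1) * θ i₀) := by
    intro hall
    have h1 := hdvd P _ hall
    rw [hPq] at h1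
    have h2 : P ∣ θ i₀ := (mul_dvd_mul_iff_left (pow_ne_zero _ hP0)).1 h1
    have h3 : θ i₀ ∣ (η i₀ * η' i₀ * γ) ^ q := by
      rw [mul_pow, mul_pow]
      exact Dvd.dvd.mul_right (mul_dvd_mul (pow_dvd_pow _ hjq) (pow_dvd_pow _ hrq)) _
    have h4 : P ∣ (η i₀ * η' i₀ * γ) ^ q - ρ ^ q := cert.trans (sub_dvd_pow_sub_pow _ _ _)
    have h5 : P ∣ ρ ^ q := by
      have := dvd_sub (h2.trans h3) h4
      rwa [sub_sub_cancel] at this
    obtain ⟨w, hw⟩ := h5
    have hw0 : w ≠ 0 := by
      rintro rfl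
      exact pow_ne_zero q hρ (by rw [hw, mul_zero])
    have h6 : (ρ ^ q).degreeOf v₀ = 0 := by
      have := degreeOf_pow_le v₀ ρ q
      rw [hρ', mul_zero] at this
      exact Nat.le_zero.1 this
    rw [hw, degreeOf_mul_eq hP0 hw0] at h6
    omega
  obtain ⟨α, hα⟩ := not_forall.1 hnot
  refine ⟨fun i => comp α (P ^ (q - 1) * θ i), fun i => ?_, fun i l => ?_, hα⟩
  · exact Nat.le_of_mul_le_mul_left ((hdeg α _).trans (hθdeg i)) hq
  · obtain ⟨w, hw⟩ := hrel i l
    have h1 : comp α (P ^ (q - 1) * θ i) * η' l - comp α (P ^ (q - 1) * θ l) * η' i =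
        P * comp α w := by
      rw [mul_comm _ (η' l), mul_comm _ (η' i), ← hmul, ← hmul, ← map_sub, ← hmul]
      congr 1
      rw [hPq, mul_assoc, ← hw]
      ring
    exact ⟨_, h1⟩

end Pool.Agent.Lib.MP_bc213e_ag.Hyp
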