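import Pool.Agent.Lib.MP_bc213e_ag.Hyp.CD
import Pool.Agent.Lib.MP_bc213e_ag.Hyp.Prime

/-! A crude Bezout bound on one affine chart. -/

namespace Pool.Agent.Lib.MP_bc213e_ag.Hyp

open WithZero MvPolynomial IntermediateField

variable {K κ : Type} [Field K] [Algebra ℂ K] {n : ℕ}

/-- Ramification bound. Sketch: if all nonzero elements of `F` have `w`-value in `exp (e ℤ)`, then
`1, π, …, π ^ (e - 1)` are `F`-linearly independent (the nonzero terms of a relation have
different values, `Valuation.map_sum_eq_of_lt`). -/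
theorem ram_le (F : IntermediateField ℂ K) [FiniteDimensional F K] (w : Val K)
    (hw : ∃ π, w π = exp (-1)) (e : ℕ) (he : ∀ a ∈ F, a ≠ 0 → (e : ℤ) ∣ log (w a)) :
    e ≤ Module.finrank F K := by
  classical
  obtain ⟨π, hπ⟩ := hw
  have hli : LinearIndependent F (fun i : Fin e => π ^ (i : ℕ)) := by
    rw [Fintype.linearIndependent_iff]
    intro g hg
    by_contra hcon
    push Not at hcon
    obtain ⟨i₁, hi₁⟩ := hcon
    have hval : ∀ i : Fin e, g i ≠ 0 →
        w (g i • π ^ (i : ℕ)) = exp (log (w (g i : K)) - ((i : ℕ) : ℤ)) := by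
      intro i hi
      have h1 : w (g i : K) ≠ 0 := by
        rw [Ne, Valuation.zero_iff]
        exact fun h => hi (Subtype.ext h)
      rw [IntermediateField.smul_def, smul_eq_mul, map_mul, map_pow, hπ, sub_eq_add_neg, exp_add,
        exp_log h1, ← exp_nsmul]
      simp
    obtain ⟨i₀, -, hmax⟩ := Finset.exists_max_image (Finset.univ : Finset (Fin e))
      (fun i => w (g i • π ^ (i : ℕ))) ⟨i₁, Finset.mem_univ _⟩
    have hi₀ : g i₀ ≠ 0 := by
      intro h
      have h2 := hmax i₁ (Finset.mem_univ _)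
      rw [hval i₁ hi₁, h, zero_smul, map_zero] at h2
      exact absurd h2 (not_le.mpr exp_pos)
    have hsum : w (∑ i, g i • π ^ (i : ℕ)) = w (g i₀ • π ^ (i₀ : ℕ)) := by
      refine w.map_sum_eq_of_lt (Finset.mem_univ _) fun i hi => ?_
      have hne : i ≠ i₀ := by simpa using hi
      refine lt_of_le_of_ne (hmax i (Finset.mem_univ _)) fun heq => ?_
      by_cases hgi : g i = 0
      · rw [hval i₀ hi₀, hgi, zero_smul, map_zero] at heq
        exact exp_ne_zero heq.symm
      · rw [hval i hgi, hval i₀ hi₀, exp_inj] at heq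
        have d1 := he _ (g i).2 fun h => hgi (Subtype.ext h)
        have d2 := he _ (g i₀).2 fun h => hi₀ (Subtype.ext h)
        have d3 : (e : ℤ) ∣ ((i : ℕ) : ℤ) - ((i₀ : ℕ) : ℤ) := by
          have h3 : ((i : ℕ) : ℤ) - ((i₀ : ℕ) : ℤ) = log (w (g i : K)) - log (w (g i₀ : K)) := by
            linarith
          rw [h3]
          exact dvd_sub d1 d2
        have h4 := Int.eq_zero_of_abs_lt_dvd d3 (by
          have := i.2
          have := i₀.2
          rw [abs_lt]
          constructor <;> omega)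
        exact hne (Fin.ext (by omega))
    rw [hg, map_zero, hval i₀ hi₀] at hsum
    exact exp_ne_zero hsum.symm
  simpa using hli.fintype_card_le_finrank

/-- The centre on `ℂ[y]` of a prime divisor is principal. Sketch: `𝔭` the centre on `A`, `𝔮` its
preimage in `R = MvPolynomial (Fin n) ℂ`; `𝔮 ≠ ⊥` as `A` is integral over `R` and `𝔭 ≠ ⊥`
(`Ideal.comap_ne_bot_of_integral_mem`); take an irreducible (prime) `ρ ∈ 𝔮`; going down
(`Algebra.HasGoingDown`, see `Mathlib.RingTheory.IntegralClosure.GoingDown`,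
`Ideal.exists_ideal_le_liesOver_of_le`) gives a prime `𝔭' ≤ 𝔭` over `(ρ)`, nonzero, so `𝔭' = 𝔭`
by `PrimeDiv.mem_of_prime`. -/
theorem centre_principal {A : Subalgebra ℂ K} [IsFractionRing A K] (y : Fin n → K)
    (hy : AlgebraicIndependent ℂ y) (hyA : ∀ l, y l ∈ A)
    (int : ∀ a ∈ A, IsIntegral (Algebra.adjoin ℂ (Set.range y)) a) {w : Val K} (h : PrimeDiv A w) :
    ∃ ρ : MvPolynomial (Fin n) ℂ, Prime ρ ∧ ∀ q, w (aeval y q) < 1 ↔ ρ ∣ q := by
  obtain ⟨⟨π, hπ⟩, hA, hloc⟩ := id h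
  let f : MvPolynomial (Fin n) ℂ →ₐ[ℂ] A := aeval fun l => (⟨y l, hyA l⟩ : A)
  have hf : ∀ q, (f q : K) = aeval y q := by
    intro q
    have h1 : A.val.comp f = aeval y := by
      ext l
      simp [f]
    exact DFunLike.congr_fun h1 q
  let : Algebra (MvPolynomial (Fin n) ℂ) A := f.toRingHom.toAlgebra
  let : Algebra (MvPolynomial (Fin n) ℂ) K :=
    (aeval y : MvPolynomial (Fin n) ℂ →ₐ[ℂ] K).toRingHom.toAlgebra
  have : IsScalarTower (MvPolynomial (Fin n) ℂ) A K :=
    IsScalarTower.of_algebraMap_eq fun q => (hf q).symm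
  have hinj : Function.Injective (algebraMap (MvPolynomial (Fin n) ℂ) A) := by
    intro p q hpq
    apply algebraicIndependent_iff_injective_aeval.mp hy
    rw [← hf, ← hf]
    exact congrArg Subtype.val hpq
  have : FaithfulSMul (MvPolynomial (Fin n) ℂ) A :=
    (faithfulSMul_iff_algebraMap_injective _ _).mpr hinj
  have : Algebra.IsIntegral (MvPolynomial (Fin n) ℂ) A := by
    constructor
    intro a
    have h1 : IsIntegral (MvPolynomial (Fin n) ℂ) (RingHom.id K (a : K)) := by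
      refine IsIntegral.map_of_comp_eq hy.aevalEquiv.symm.toAlgHom.toRingHom (RingHom.id K) ?_
        (int a a.2)
      ext b
      obtain ⟨q, rfl⟩ := hy.aevalEquiv.surjective b
      simp only [RingHom.comp_apply, RingHom.id_apply]
      rw [hy.algebraMap_aevalEquiv]
      simp
      rfl
    exact (isIntegral_algebraMap_iff (A := A) (B := K) Subtype.val_injective).mp h1
  let P : Ideal A :=
    { carrier := {a | w (a : K) < 1}
      add_mem' := fun ha hb => w.map_add_lt ha hb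
      zero_mem' := by simp
      smul_mem' := fun c a ha => by
        change w ((c : K) * a) < 1
        rw [map_mul]
        exact mul_lt_one_of_nonneg_of_lt_one_right (hA c c.2) zero_le ha }
  have hP : ∀ a : A, a ∈ P ↔ w (a : K) < 1 := fun a => Iff.rfl
  have hPp : P.IsPrime := by
    constructor
    · rw [Ideal.ne_top_iff_one, hP]
      simp
    · intro a b hab
      by_contra hcon
      rw [not_or, hP, hP, not_lt, not_lt] at hcon
      rw [hP] at hab
      have h1 : w ((a : K) * b) < 1 := hab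
      rw [map_mul, le_antisymm (hA a a.2) hcon.1, le_antisymm (hA b b.2) hcon.2, one_mul] at h1
      exact lt_irrefl _ h1
  have hlt : exp (-1 : ℤ) < (1 : WithZero (Multiplicative ℤ)) := by
    rw [← exp_zero, exp_lt_exp]
    norm_num
  obtain ⟨b, -, hb1, hbπ⟩ := hloc π (hπ ▸ hlt.le)
  have hv : w (b * π) = exp (-1) := by rw [map_mul, hb1, one_mul, hπ]
  have hQ : P.comap (algebraMap (MvPolynomial (Fin n) ℂ) A) ≠ ⊥ := by
    refine Ideal.comap_ne_bot_of_integral_mem (x := ⟨b * π, hbπ⟩) ?_ ?_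
      (Algebra.IsIntegral.isIntegral _)
    · intro h0
      have h1 : b * π = 0 := congrArg Subtype.val h0
      rw [h1, map_zero] at hv
      exact exp_ne_zero hv.symm
    · rw [hP]
      exact hv ▸ hlt
  obtain ⟨ρ, hρQ, hρ⟩ :=
    (Ideal.comap_isPrime (algebraMap (MvPolynomial (Fin n) ℂ) A) P).exists_mem_prime_of_ne_bot hQ
  have : (Ideal.span {ρ}).IsPrime := (Ideal.span_singleton_prime hρ.ne_zero).mpr hρ
  obtain ⟨P', hle, hP'p, hover⟩ := Ideal.exists_ideal_le_liesOver_of_le (p := Ideal.span {ρ})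
    (q := P.under (MvPolynomial (Fin n) ℂ)) P ((Ideal.span_singleton_le_iff_mem _).mpr hρQ)
  have hmem : ∀ q, algebraMap (MvPolynomial (Fin n) ℂ) A q ∈ P' ↔ ρ ∣ q := by
    intro q
    rw [← Ideal.mem_span_singleton, P'.over_def (Ideal.span {ρ})]
    rfl
  have hP'0 : P' ≠ ⊥ := by
    intro h0
    have h1 := (hmem ρ).mpr dvd_rfl
    rw [h0, Ideal.mem_bot] at h1
    exact hρ.ne_zero (hinj (h1.trans (map_zero _).symm))
  refine ⟨ρ, hρ, fun q => ?_⟩
  rw [← hmem, ← hf]
  exact ⟨fun hq => h.mem_of_prime P' hP'0 (fun a ha => hle ha) _ hq, fun hq => hle hq⟩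

theorem BZ_le_totalDegree_pow {ρ : MvPolynomial (Fin n) ℂ} (hρ : Prime ρ) (a : ℕ) :
    a ≤ (ρ ^ a).totalDegree := by
  have h1 : 1 ≤ ρ.totalDegree := by
    rw [Nat.one_le_iff_ne_zero]
    intro h0
    rw [totalDegree_eq_zero_iff_eq_C] at h0
    have h2 : ρ.coeff 0 ≠ 0 := by
      intro h3
      rw [h3, map_zero] at h0
      exact hρ.ne_zero h0
    exact hρ.not_isUnit (h0 ▸ (Ne.isUnit h2).map C)
  induction a with
  | zero => simp
  | succ a ih =>
    rw [pow_succ, totalDegree_mul_of_isDomain (pow_ne_zero _ hρ.ne_zero) hρ.ne_zero]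
    exact add_le_add ih h1

/-- Sketch: the `ρ w ^ a w` are pairwise relatively prime, so their product divides `p`; primes of
a polynomial ring over a field have total degree at least one; `totalDegree_mul_of_isDomain`. -/
theorem sum_mult_le {J : Type} (Z : Finset J) (ρ : J → MvPolynomial (Fin n) ℂ)
    (hρ : ∀ j ∈ Z, Prime (ρ j)) (hne : ∀ j ∈ Z, ∀ j' ∈ Z, j ≠ j' → ¬ ρ j ∣ ρ j') (a : J → ℕ)
    {p : MvPolynomial (Fin n) ℂ} (hp : p ≠ 0) (h : ∀ j ∈ Z, ρ j ^ a j ∣ p) :
    ∑ j ∈ Z, a j ≤ p.totalDegree := by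
  classical
  induction Z using Finset.induction_on generalizing p with
  | empty => simp
  | insert j Z hj ih =>
    have hρj := hρ j (Finset.mem_insert_self _ _)
    obtain ⟨p', rfl⟩ := h j (Finset.mem_insert_self _ _)
    have hp' : p' ≠ 0 := right_ne_zero_of_mul hp
    have h1 : ∑ j ∈ Z, a j ≤ p'.totalDegree := by
      refine ih (fun i hi => hρ i (Finset.mem_insert_of_mem hi))
        (fun i hi i' hi' => hne i (Finset.mem_insert_of_mem hi) i' (Finset.mem_insert_of_mem hi'))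
        hp' fun i hi => ?_
      have hρi := hρ i (Finset.mem_insert_of_mem hi)
      refine hρi.pow_dvd_of_dvd_mul_left _ (fun hd => ?_) (h i (Finset.mem_insert_of_mem hi))
      exact hne i (Finset.mem_insert_of_mem hi) j (Finset.mem_insert_self _ _)
        (fun e => hj (e ▸ hi)) (hρi.dvd_of_dvd_pow hd)
    rw [Finset.sum_insert hj, totalDegree_mul_of_isDomain (pow_ne_zero _ hρj.ne_zero) hp']
    exact add_le_add (BZ_le_totalDegree_pow hρj _) h1

/-- The order of a polynomial in `y` is at most the degree of `K` over `ℂ(y)` times the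
multiplicity of the centre. -/
theorem BZ_log_le (y : Fin n → K) [FiniteDimensional (adjoin ℂ (Set.range y)) K]
    (hne : ∀ q : MvPolynomial (Fin n) ℂ, q ≠ 0 → aeval y q ≠ 0) (w : Val K)
    (hw : ∃ π, w π = exp (-1)) (hle : ∀ q : MvPolynomial (Fin n) ℂ, w (aeval y q) ≤ 1)
    {ρ : MvPolynomial (Fin n) ℂ} (hρ : Prime ρ) (h : ∀ q, w (aeval y q) < 1 ↔ ρ ∣ q)
    {p : MvPolynomial (Fin n) ℂ} (hp : p ≠ 0) :
    ∃ a : ℕ, ρ ^ a ∣ p ∧
      - log (w (aeval y p)) ≤ Module.finrank (adjoin ℂ (Set.range y)) K * a := by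
  have hv : ∀ q : MvPolynomial (Fin n) ℂ, q ≠ 0 → w (aeval y q) ≠ 0 := fun q hq =>
    (Valuation.ne_zero_iff w).mpr (hne q hq)
  have hneg : log (w (aeval y ρ)) ≤ 0 := by
    rw [← log_one (M := ℤ)]
    exact (log_le_log (hv ρ hρ.ne_zero) one_ne_zero).mpr (hle ρ)
  obtain ⟨e, he⟩ : ∃ e : ℕ, log (w (aeval y ρ)) = - (e : ℤ) :=
    ⟨(- log (w (aeval y ρ))).toNat, by omega⟩
  have hq : ∀ q : MvPolynomial (Fin n) ℂ, q ≠ 0 →
      ∃ a : ℕ, ρ ^ a ∣ q ∧ log (w (aeval y q)) = - ((e : ℤ) * a) := by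
    intro q hq
    obtain ⟨a, q', hq', rfl⟩ := WfDvdMonoid.max_power_factor hq hρ.irreducible
    refine ⟨a, dvd_mul_right _ _, ?_⟩
    have h1 : w (aeval y q') = 1 := le_antisymm (hle q') (not_lt.mp fun h2 => hq' ((h q').mp h2))
    rw [map_mul, map_mul, h1, mul_one, map_pow, map_pow, log_pow, he]
    simp [mul_comm]
  have hed : e ≤ Module.finrank (adjoin ℂ (Set.range y)) K := by
    refine ram_le _ w hw e fun a ha ha0 => ?_
    obtain ⟨r, s, rfl⟩ := (mem_adjoin_range_iff ℂ y a).mp ha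
    have hr : r ≠ 0 := by
      rintro rfl
      simp at ha0
    have hs : s ≠ 0 := by
      rintro rfl
      simp at ha0
    obtain ⟨a, -, ha⟩ := hq r hr
    obtain ⟨b, -, hb⟩ := hq s hs
    rw [map_div₀, log_div (hv r hr) (hv s hs), ha, hb]
    exact dvd_sub (dvd_neg.mpr (dvd_mul_right _ _)) (dvd_neg.mpr (dvd_mul_right _ _))
  obtain ⟨a, ha, hlog⟩ := hq p hp
  refine ⟨a, ha, ?_⟩
  rw [hlog, neg_neg]
  exact_mod_cast Nat.mul_le_mul_right a hed

/-- Sketch: `y` from `nn`, `F = ℂ(y)`, `d = finrank F K`, `δ = d * d`;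
`cls w = {q | w (aeval y q) < 1} = (ρ w)`. Fibres are finite by `finite_zeros` applied to
`aeval y ρ`. With `e w = - log (w (aeval y (ρ w)))`, every `q ≠ 0` has
`- log (w (aeval y q)) = e w * multiplicity (ρ w) q`, so `e w ≤ d` by `ram_le`. For `r` take `p` from
`kl_norm`: `w (aeval y p) ≤ w r`, so `- log (w r) ≤ d * multiplicity (ρ w) p`; `sum_mult_le`. -/
theorem bz [Fintype κ] (x : κ → K) [IsFractionRing (Algebra.adjoin ℂ (Set.range x)) K]
    (dim : Algebra.trdeg ℂ K = n) :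
    ∃ (δ : ℕ) (cls : Val K → Set (MvPolynomial (Fin n) ℂ)),
      (∀ q, {w | PrimeDiv (Algebra.adjoin ℂ (Set.range x)) w ∧ cls w = q}.Finite) ∧
      ∀ (μ : ℕ) (r : K), r ≠ 0 → r ∈ Bd x μ → ∀ Z : Finset (Val K),
        (∀ w ∈ Z, PrimeDiv (Algebra.adjoin ℂ (Set.range x)) w) → Set.InjOn cls Z →
          ∑ w ∈ Z, - log (w r) ≤ δ * μ := by
  classical
  have gen : adjoin ℂ (Set.range x) = ⊤ := by
    rw [eq_top_iff]
    intro z _
    obtain ⟨a, b, -, rfl⟩ := IsFractionRing.div_surjective (A := Algebra.adjoin ℂ (Set.range x)) z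
    exact div_mem (algebra_adjoin_le_adjoin ℂ _ a.2) (algebra_adjoin_le_adjoin ℂ _ b.2)
  obtain ⟨y, hyx, hy, hxy⟩ := nn x gen dim
  have := fd_of_gen x gen y hy
  have : IsNoetherianRing (Algebra.adjoin ℂ (Set.range x)) :=
    isNoetherianRing_of_fg (Subalgebra.fg_def.mpr ⟨_, Set.finite_range x, rfl⟩)
  have hyA : ∀ l, y l ∈ Algebra.adjoin ℂ (Set.range x) := fun l =>
    Algebra.span_le_adjoin ℂ _ (hyx l)
  have hqA : ∀ q : MvPolynomial (Fin n) ℂ, aeval y q ∈ Algebra.adjoin ℂ (Set.range x) := by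
    intro q
    have h1 : Algebra.adjoin ℂ (Set.range y) ≤ Algebra.adjoin ℂ (Set.range x) :=
      Algebra.adjoin_le (Set.range_subset_iff.mpr hyA)
    refine h1 ?_
    rw [Algebra.adjoin_range_eq_range_aeval]
    exact ⟨q, rfl⟩
  have int : ∀ a ∈ Algebra.adjoin ℂ (Set.range x),
      IsIntegral (Algebra.adjoin ℂ (Set.range y)) a := by
    have h1 : Algebra.adjoin ℂ (Set.range x) ≤
        (integralClosure (Algebra.adjoin ℂ (Set.range y)) K).restrictScalars ℂ :=
      Algebra.adjoin_le (Set.range_subset_iff.mpr fun i => isIntegral_of_Bd y (hxy i))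
    exact fun a ha => h1 ha
  have hex : ∀ w : Val K, ∃ ρ : MvPolynomial (Fin n) ℂ,
      PrimeDiv (Algebra.adjoin ℂ (Set.range x)) w →
        Prime ρ ∧ ∀ q, w (aeval y q) < 1 ↔ ρ ∣ q := by
    intro w
    by_cases hw : PrimeDiv (Algebra.adjoin ℂ (Set.range x)) w
    · obtain ⟨ρ, hρ⟩ := centre_principal y hy.1 hyA int hw
      exact ⟨ρ, fun _ => hρ⟩
    · exact ⟨0, fun h => absurd h hw⟩
  choose ρ hρ using hex
  have hne0 : ∀ q : MvPolynomial (Fin n) ℂ, q ≠ 0 → aeval y q ≠ 0 := fun q hq h0 =>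
    hq (algebraicIndependent_iff_injective_aeval.mp hy.1 (h0.trans (map_zero _).symm))
  refine ⟨Module.finrank (adjoin ℂ (Set.range y)) K * Module.finrank (adjoin ℂ (Set.range y)) K,
    fun w => {q | w (aeval y q) < 1}, fun Q => ?_, fun μ r hr0 hr Z hZ hinj => ?_⟩
  · rcases Set.eq_empty_or_nonempty
      {w | PrimeDiv (Algebra.adjoin ℂ (Set.range x)) w ∧ {q | w (aeval y q) < 1} = Q} with h | h
    · rw [h]
      exact Set.finite_empty
    · obtain ⟨w₀, hw₀, rfl⟩ := h
      refine (finite_zeros (hqA (ρ w₀)) (hne0 _ (hρ w₀ hw₀).1.ne_zero)).subset ?_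
      rintro w ⟨hw, he⟩
      refine ⟨hw, ?_⟩
      have h1 : ρ w₀ ∈ {q | w₀ (aeval y q) < 1} := ((hρ w₀ hw₀).2 _).mpr dvd_rfl
      rw [← he] at h1
      exact h1
  · obtain ⟨p, hp0, hpd, hpO⟩ := kl_norm y hy.1 (Bd_le_Bd x y hxy μ hr) hr0
    have key : ∀ w : Val K, ∃ a : ℕ, w ∈ Z → ρ w ^ a ∣ p ∧
        - log (w r) ≤ Module.finrank (adjoin ℂ (Set.range y)) K * a := by
      intro w
      by_cases hwZ : w ∈ Z
      swap
      · exact ⟨0, fun h => absurd h hwZ⟩
      have hw := hZ w hwZ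
      obtain ⟨a, ha, hlog⟩ := BZ_log_le y hne0 w hw.1 (fun q => hw.2.1 _ (hqA q)) (hρ w hw).1
        (hρ w hw).2 hp0
      refine ⟨a, fun _ => ⟨ha, le_trans ?_ hlog⟩⟩
      have h1 : w (aeval y p / r) ≤ 1 :=
        hpO w.valuationSubring (fun z => hw.triv z) fun l => hw.2.1 _ (hyA l)
      have h2 : w r ≠ 0 := (Valuation.ne_zero_iff w).mpr hr0
      have h3 : w (aeval y p) ≠ 0 := (Valuation.ne_zero_iff w).mpr (hne0 p hp0)
      rw [map_div₀, div_le_one₀ (zero_lt_iff.mpr h2)] at h1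
      exact neg_le_neg ((log_le_log h3 h2).mpr h1)
    choose a ha using key
    have hsum : ∑ w ∈ Z, a w ≤ p.totalDegree := by
      refine sum_mult_le Z ρ (fun w hw => (hρ w (hZ w hw)).1) (fun w hw w' hw' hww hd => hww ?_) a
        hp0 fun w hw => (ha w hw).1
      have has : Associated (ρ w) (ρ w') :=
        (hρ w (hZ w hw)).1.associated_of_dvd (hρ w' (hZ w' hw')).1 hd
      refine hinj hw hw' (Set.ext fun q => ?_)
      exact ((hρ w (hZ w hw)).2 q).trans (has.dvd_iff_dvd_left.trans ((hρ w' (hZ w' hw')).2 q).symm)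
    refine (Finset.sum_le_sum fun w hw => (ha w hw).2).trans ?_
    rw [← Finset.mul_sum, ← Nat.cast_sum]
    have h1 := Nat.mul_le_mul_left (Module.finrank (adjoin ℂ (Set.range y)) K) (hsum.trans hpd)
    have h2 : Module.finrank (adjoin ℂ (Set.range y)) K * ∑ w ∈ Z, a w ≤
        Module.finrank (adjoin ℂ (Set.range y)) K * Module.finrank (adjoin ℂ (Set.range y)) K * μ :=
      h1.trans_eq (by ring)
    exact_mod_cast h2

/-- Stabilisation. Sketch: the union `U` of the supports has finite image under `cls` (otherwise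
`B + 1` points with different classes lie in one support), so `U` is finite; each `D · w` is
monotone and bounded by `B`. -/
theorem stab {α β : Type} (W : Set α) (cls : α → β) (fin : ∀ q, {w | w ∈ W ∧ cls w = q}.Finite)
    (D : ℕ → α → ℤ) (h0 : ∀ k, ∀ w ∈ W, 0 ≤ D k w) (mono : ∀ k, ∀ w ∈ W, D k w ≤ D (k + 1) w)
    (B : ℕ) (bd : ∀ k, ∀ Z : Finset α, (∀ w ∈ Z, w ∈ W) → Set.InjOn cls Z → ∑ w ∈ Z, D k w ≤ B) :
    ∃ k₀, ∀ k, k₀ ≤ k → ∀ w ∈ W, D k w = D k₀ w := by
  classical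
  have hmono : ∀ w ∈ W, Monotone fun k => D k w := fun w hw =>
    monotone_nat_of_le_succ fun k => mono k w hw
  have hU : {w | w ∈ W ∧ ∃ k, D k w ≠ 0}.Finite := by
    refine Set.Finite.of_finite_fibers cls ?_ fun q _ =>
      (fin q).subset fun w hw => ⟨hw.1.1, hw.2⟩
    obtain ⟨U', hU', hbij⟩ := Set.exists_subset_bijOn {w | w ∈ W ∧ ∃ k, D k w ≠ 0} cls
    rw [← hbij.image_eq]
    refine Set.Finite.image _ ?_
    by_contra hinf
    obtain ⟨Z, hZ, hcard⟩ := Set.Infinite.exists_subset_card_eq hinf (B + 1)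
    have hev : ∀ w ∈ Z, ∀ᶠ k in Filter.atTop, 1 ≤ D k w := by
      intro w hw
      obtain ⟨hW, k, hk⟩ := hU' (hZ hw)
      filter_upwards [Filter.eventually_ge_atTop k] with j hj
      have h1 := h0 k w hW
      have h2 : D k w ≤ D j w := hmono w hW hj
      omega
    obtain ⟨k, hk⟩ := ((Filter.eventually_all_finset Z).mpr hev).exists
    have h1 := bd k Z (fun w hw => (hU' (hZ hw)).1) (hbij.injOn.mono hZ)
    have h2 := Finset.card_nsmul_le_sum Z (fun w => D k w) 1 hk
    rw [hcard] at h2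
    simp only [nsmul_eq_mul, mul_one, Nat.cast_add, Nat.cast_one] at h2
    omega
  have hst : ∀ w, ∃ c, w ∈ W → ∀ᶠ k in Filter.atTop, D k w = c := by
    intro w
    by_cases hw : w ∈ W
    swap
    · exact ⟨0, fun h => absurd h hw⟩
    obtain ⟨c, ⟨k, hk⟩, hc⟩ := Int.exists_greatest_of_bdd (P := fun c => ∃ k, D k w = c)
      ⟨B, by
        rintro _ ⟨k, rfl⟩
        simpa using bd k {w} (by simpa using hw) (by simp)⟩ ⟨_, 0, rfl⟩
    refine ⟨c, fun _ => ?_⟩
    filter_upwards [Filter.eventually_ge_atTop k] with j hj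
    exact le_antisymm (hc _ ⟨j, rfl⟩) (hk ▸ hmono w hw hj)
  choose c hc using hst
  obtain ⟨k₀, hk₀⟩ := Filter.eventually_atTop.mp
    ((Filter.eventually_all_finite hU).mpr fun w hw => hc w hw.1)
  refine ⟨k₀, fun k hk w hw => ?_⟩
  by_cases hz : ∃ k, D k w ≠ 0
  · rw [hk₀ k hk w ⟨hw, hz⟩, hk₀ k₀ le_rfl w ⟨hw, hz⟩]
  · push Not at hz
    rw [hz, hz]

end Pool.Agent.Lib.MP_bc213e_ag.Hyp
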