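import Pool.Agent.Lib.MP_bc213e_ag.Hyp.PR

/-! Spaces of sections; the pencil trick. -/

namespace Pool.Agent.Lib.MP_bc213e_ag.Hyp

open WithZero Module

variable {K : Type} [Field K] [Algebra ℂ K] {W : Set (Val K)} {D E : Val K → ℤ}

theorem mem_Gam {z : K} : z ∈ Gam W D ↔ ∀ w ∈ W, Triv w → w z ≤ exp (D w) := Iff.rfl

theorem Gam_mono (h : ∀ w ∈ W, Triv w → D w ≤ E w) : Gam W D ≤ Gam W E := by
  exact fun z hz w hw ht => (hz w hw ht).trans (exp_le_exp.2 (h w hw ht))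

theorem mul_mem_Gam {a b : K} (ha : a ∈ Gam W D) (hb : b ∈ Gam W E) :
    a * b ∈ Gam W fun w => D w + E w := by
  intro w hw ht
  rw [map_mul, exp_add]
  exact mul_le_mul' (ha w hw ht) (hb w hw ht)

theorem pow_mem_Gam {a : K} (ha : a ∈ Gam W D) (j : ℕ) : a ^ j ∈ Gam W fun w => j * D w := by
  intro w hw ht
  beta_reduce
  rw [map_pow, ← nsmul_eq_mul, exp_nsmul]
  exact pow_le_pow_left' (ha w hw ht) j

theorem mul_le_Gam {A B : Submodule ℂ K} (hA : A ≤ Gam W D) (hB : B ≤ Gam W E) :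
    A * B ≤ Gam W fun w => D w + E w := by
  exact Submodule.mul_le.2 fun a ha b hb => mul_mem_Gam (hA ha) (hB hb)

theorem pow_le_Gam {A : Submodule ℂ K} (hA : A ≤ Gam W D) (j : ℕ) :
    A ^ j ≤ Gam W fun w => j * D w := by
  induction j with
  | zero =>
    rw [pow_zero, Submodule.one_le]
    intro w _ _
    simp
  | succ j ih =>
    rw [pow_succ]
    exact (mul_le_Gam ih hA).trans (Gam_mono fun w _ _ => le_of_eq (by push_cast; ring))

theorem Div_rank (A : Submodule ℂ K) {z : K} (hz : z ≠ 0) :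
    finrank ℂ (A.map (LinearMap.mulLeft ℂ z)) = finrank ℂ A :=
  (Submodule.equivMapOfInjective _ (mul_right_injective₀ hz) A).finrank_eq.symm

theorem Div_step {u₀ u₁ : K} (h₀ : u₀ ≠ 0) (h₁ : u₁ ≠ 0) (m₀ : u₀ ∈ Gam W E) (m₁ : u₁ ∈ Gam W E)
    (cop : ∀ w ∈ W, Triv w → w u₀ = exp (E w) ∨ w u₁ = exp (E w))
    [FiniteDimensional ℂ (Gam W D)] [FiniteDimensional ℂ (Gam W fun w => D w - E w)] (μ : ℕ) :
    (μ + 1) * finrank ℂ (Gam W D) ≤ finrank ℂ ↥(Gam W D * Submodule.span ℂ {u₀, u₁} ^ μ) +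
      μ * finrank ℂ (Gam W fun w => D w - E w) := by
  set U : Submodule ℂ K := Submodule.span ℂ {u₀, u₁}
  have hU : U ≤ Gam W E := Submodule.span_le.2 (Set.pair_subset m₀ m₁)
  have e₀ : u₀ ∈ U := Submodule.subset_span (by simp)
  have e₁ : u₁ ∈ U := Submodule.subset_span (by simp)
  have : FiniteDimensional ℂ U := FiniteDimensional.span_of_finite ℂ (Set.toFinite _)
  have : ∀ μ, FiniteDimensional ℂ ↥(Gam W D * U ^ μ) := fun μ =>
    haveI := fd_pow U μ
    fd_mul _ _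
  induction μ with
  | zero => rw [pow_zero, mul_one]; simp
  | succ μ ih =>
    have h1 := Submodule.finrank_sup_add_finrank_inf_eq
      ((Gam W D * U ^ μ).map (LinearMap.mulLeft ℂ u₀))
      ((Gam W D).map (LinearMap.mulLeft ℂ (u₁ ^ (μ + 1))))
    rw [Div_rank _ h₀, Div_rank _ (pow_ne_zero _ h₁)] at h1
    have h2 : (Gam W D * U ^ μ).map (LinearMap.mulLeft ℂ u₀) ⊔
        (Gam W D).map (LinearMap.mulLeft ℂ (u₁ ^ (μ + 1))) ≤ Gam W D * U ^ (μ + 1) := by
      refine sup_le ?_ ?_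
      · rintro _ ⟨b, hb, rfl⟩
        rw [pow_succ, ← mul_assoc, LinearMap.mulLeft_apply, mul_comm u₀]
        exact Submodule.mul_mem_mul hb e₀
      · rintro _ ⟨a, ha, rfl⟩
        rw [LinearMap.mulLeft_apply, mul_comm _ a]
        exact Submodule.mul_mem_mul ha (Submodule.pow_mem_pow _ e₁ _)
    have h3 := (finrank_le_of_mul ((Gam W D * U ^ μ).map (LinearMap.mulLeft ℂ u₀) ⊓
        (Gam W D).map (LinearMap.mulLeft ℂ (u₁ ^ (μ + 1)))) (Gam W fun w => D w - E w)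
        (inv_ne_zero (mul_ne_zero h₀ (pow_ne_zero (μ + 1) h₁))) (by
      rintro z ⟨⟨b, hb, e1⟩, ⟨a, ha, e2⟩⟩ w hw ht
      rw [LinearMap.mulLeft_apply] at e1 e2
      beta_reduce
      rcases cop w hw ht with e | e
      · rw [← e2, show (u₀ * u₁ ^ (μ + 1))⁻¹ * (u₁ ^ (μ + 1) * a) = a / u₀ by field_simp,
          map_div₀, e, exp_sub]
        exact div_le_div_of_nonneg_right (ha w hw ht) zero_le
      · rw [← e1, show (u₀ * u₁ ^ (μ + 1))⁻¹ * (u₀ * b) = b / u₁ ^ (μ + 1) by field_simp,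
          map_div₀, map_pow, e, ← exp_nsmul,
          show D w - E w = D w + μ * E w - (μ + 1) • E w by simp; ring, exp_sub]
        exact div_le_div_of_nonneg_right (mul_le_Gam le_rfl (pow_le_Gam hU μ) hb w hw ht)
          zero_le)).2
    have h4 := Submodule.finrank_mono h2
    rw [add_mul (μ + 1), add_mul μ 1 (finrank ℂ (Gam W fun w => D w - E w))]
    omega

/-- Lower bound by the pencil trick. Sketch: `G i = Gam W (D - i E)` is finite dimensional
(`u₀ ^ i G i ≤ G 0`), `u₀ G (i + 1) ≤ G i`, `G ν = ⊥`; so for some `i < ν`,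
`finrank (G 0) ≤ ν * (finrank (G i) - finrank (G (i + 1)))`. Let `C ≤ G i` be a complement of
`u₀ G (i + 1)` in `G i`. The linear map `(Fin (μ + 1) → C) → G 0 * U ^ μ`,
`c ↦ ∑ a, (c a * u₁ ^ i) * (u₀ ^ a * u₁ ^ (μ - a))` is injective: for the least `a₀` with
`c a₀ ≠ 0`, `c a₀ / u₀ ∈ G (i + 1)` (check at `w` with `w u₀ = exp (E w)` directly and at `w` with
`w u₁ = exp (E w)` through the relation). -/
theorem lb {u₀ u₁ : K} (h₀ : u₀ ≠ 0) (h₁ : u₁ ≠ 0) (m₀ : u₀ ∈ Gam W E) (m₁ : u₁ ∈ Gam W E)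
    (cop : ∀ w ∈ W, Triv w → w u₀ = exp (E w) ∨ w u₁ = exp (E w))
    [FiniteDimensional ℂ (Gam W D)] (ν μ : ℕ) (hν : Gam W (fun w => D w - ν * E w) = ⊥) :
    (μ + 1) * finrank ℂ (Gam W D) ≤
      ν * finrank ℂ ↥(Gam W D * Submodule.span ℂ {u₀, u₁} ^ μ) := by
  have hG : ∀ i : ℕ, (Gam W fun w => D w - (i + 1 : ℕ) * E w) =
      Gam W fun w => D w - i * E w - E w := fun i => by
    congr 1
    funext w
    push_cast
    ring
  have hP : ∀ i : ℕ, ∀ a ∈ Gam W fun w => D w - i * E w, u₀ ^ i * a ∈ Gam W D := fun i a ha =>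
    Gam_mono (fun w _ _ => le_of_eq (by ring)) (mul_mem_Gam (pow_mem_Gam m₀ i) ha)
  have : ∀ i : ℕ, FiniteDimensional ℂ (Gam W fun w => D w - i * E w) := fun i =>
    (finrank_le_of_mul _ _ (pow_ne_zero i h₀) (hP i)).1
  have : FiniteDimensional ℂ (Submodule.span ℂ {u₀, u₁} : Submodule ℂ K) :=
    FiniteDimensional.span_of_finite ℂ (Set.toFinite _)
  have := fd_pow (Submodule.span ℂ {u₀, u₁} : Submodule ℂ K) μ
  have := fd_mul (Gam W D) (Submodule.span ℂ {u₀, u₁} ^ μ)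
  have key : ∀ i : ℕ, (μ + 1) * finrank ℂ (Gam W D) ≤
      i * finrank ℂ ↥(Gam W D * Submodule.span ℂ {u₀, u₁} ^ μ) +
        (μ + 1) * finrank ℂ (Gam W fun w => D w - i * E w) := fun i => by
    induction i with
    | zero =>
      rw [show (fun w => D w - (0 : ℕ) * E w) = D from funext fun w => by simp, zero_mul, zero_add]
    | succ i ih =>
      have : FiniteDimensional ℂ (Gam W fun w => D w - i * E w - E w) := hG i ▸ inferInstance
      have h1 := Div_step (D := fun w => D w - i * E w) h₀ h₁ m₀ m₁ cop μ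
      have h2 := (finrank_le_of_mul
        ((Gam W fun w => D w - i * E w) * Submodule.span ℂ {u₀, u₁} ^ μ)
        (Gam W D * Submodule.span ℂ {u₀, u₁} ^ μ) (pow_ne_zero i h₀) fun a ha =>
          Submodule.mul_induction_on ha (fun a ha b hb => by
            rw [← mul_assoc]
            exact Submodule.mul_mem_mul (hP i a ha) hb) fun a b ha hb => by
            rw [mul_add]
            exact add_mem ha hb).2
      rw [hG i, add_mul i, add_mul μ 1 (finrank ℂ (Gam W fun w => D w - i * E w - E w))]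
      omega
  have h := key ν
  rwa [hν, finrank_bot, mul_zero, add_zero] at h

/-- A generating family contains a generating pencil. Sketch: `u₀ ∈ T` arbitrary; outside the
finite set `Z` where some `s ∈ T` has `w s ≠ 1` we have `w u₀ = 1 = exp (E w)`. For `w ∈ Z`
(`Triv w`) the subspace `{u ∈ span T | w u < exp (E w)}` is proper, and so is `⊥`; take `u₁`
outside all of them (`Submodule.exists_forall_notMem_of_forall_ne_top`). -/
theorem exists_pencil (fin : ∀ z : K, z ≠ 0 → {w | w ∈ W ∧ w z ≠ 1}.Finite) (T : Finset K)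
    (hT : T.Nonempty) (h0 : ∀ s ∈ T, s ≠ 0) (hE : ∀ s ∈ T, s ∈ Gam W E)
    (gen : ∀ w ∈ W, Triv w → ∃ s ∈ T, w s = exp (E w)) :
    ∃ u₀ u₁ : K, u₀ ≠ 0 ∧ u₁ ≠ 0 ∧ u₀ ∈ Submodule.span ℂ (T : Set K) ∧
      u₁ ∈ Submodule.span ℂ (T : Set K) ∧
      ∀ w ∈ W, Triv w → w u₀ = exp (E w) ∨ w u₁ = exp (E w) := by
  obtain ⟨u₀, hu₀⟩ := hT
  have hS : Submodule.span ℂ (T : Set K) ≤ Gam W E := Submodule.span_le.2 hE
  have hZ : {w | w ∈ W ∧ Triv w ∧ w u₀ ≠ exp (E w)}.Finite := by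
    refine (T.finite_toSet.biUnion fun s hs => fin s (h0 s hs)).subset fun w hw => ?_
    obtain ⟨s, hs, e⟩ := gen w hw.1 hw.2.1
    by_cases h1 : w s = 1
    · exact Set.mem_biUnion hu₀ ⟨hw.1, fun h2 => hw.2.2 (by rw [h2, ← e, h1])⟩
    · exact Set.mem_biUnion hs ⟨hw.1, h1⟩
  have := hZ.to_subtype
  obtain ⟨u₁, hu₁⟩ := Submodule.exists_forall_notMem_of_forall_ne_top
    (fun o : Option {w | w ∈ W ∧ Triv w ∧ w u₀ ≠ exp (E w)} =>
      (o.elim ⊥ fun w => Gam {w.1} fun w => E w - 1).comap (Submodule.span ℂ (T : Set K)).subtype)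
    (by
      rintro (_ | w) h
      · exact h0 u₀ hu₀ (h.ge (Submodule.mem_top (x := ⟨u₀, Submodule.subset_span hu₀⟩)))
      · obtain ⟨s, hs, e⟩ := gen w w.2.1 w.2.2.1
        have h1 : w.1 s ≤ exp (E w - 1) :=
          h.ge (Submodule.mem_top (x := ⟨s, Submodule.subset_span hs⟩)) w rfl w.2.2.1
        rw [e, exp_le_exp] at h1
        omega)
  refine ⟨u₀, u₁, h0 u₀ hu₀, hu₁ none, Submodule.subset_span hu₀, u₁.2, fun w hw ht => ?_⟩
  refine or_iff_not_imp_left.2 fun h => le_antisymm (hS u₁.2 w hw ht) (not_lt.1 fun h1 => ?_)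
  refine hu₁ (some ⟨w, hw, ht, h⟩) fun w' e _ => ?_
  obtain rfl : w' = w := e
  show w' u₁ ≤ exp (E w' - 1)
  rw [← lt_mul_exp_iff_le exp_ne_zero, ← exp_add, sub_add_cancel]
  exact h1

end Pool.Agent.Lib.MP_bc213e_ag.Hyp
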