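import Pool.Agent.Lib.MP_bc213e_ag.Hyp.PR

/-! Counting monomials, exchange, common denominators. -/

namespace Pool.Agent.Lib.MP_bc213e_ag.Hyp

open Module

variable {K κ : Type} [Field K] [Algebra ℂ K] [Fintype κ]

/-- Sketch: the monomials indexed by `(l : κ) → Fin (β l + 1)` are linearly independent (images of
monomials of `MvPolynomial κ ℂ` under the injective `aeval y`);
`LinearIndependent.fintype_card_le_finrank`. -/
theorem mon (y : κ → K) (hy : AlgebraicIndependent ℂ y) (β : κ → ℕ) (W : Submodule ℂ K)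
    [FiniteDimensional ℂ W] (h : ∀ a : κ → ℕ, (∀ l, a l ≤ β l) → ∏ l, y l ^ a l ∈ W) :
    ∏ l, (β l + 1) ≤ finrank ℂ W := by
  classical
  have h1 : LinearIndependent ℂ fun d : κ →₀ ℕ => MvPolynomial.aeval y (MvPolynomial.monomial d (1 : ℂ)) :=
    (MvPolynomial.basisMonomials κ ℂ).linearIndependent.map' (MvPolynomial.aeval y).toLinearMap
      (LinearMap.ker_eq_bot.mpr hy)
  let e : ((l : κ) → Fin (β l + 1)) → κ →₀ ℕ := fun a => Finsupp.equivFunOnFinite.symm fun l => a l
  have he : Function.Injective e := fun a a' h => funext fun l =>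
    Fin.ext (congrFun (Finsupp.equivFunOnFinite.symm.injective h) l)
  have h2 : LinearIndependent ℂ fun a : (l : κ) → Fin (β l + 1) =>
      (⟨∏ l, y l ^ (a l : ℕ), h _ fun l => (a l).is_le⟩ : W) := by
    refine LinearIndependent.of_comp W.subtype ?_
    convert h1.comp e he using 1
    funext a
    simp [e, MvPolynomial.aeval_monomial, Finsupp.prod_fintype]
  simpa using h2.fintype_card_le_finrank

/-- Exchange. Sketch: matroid augmentation (`AlgebraicIndependent.matroid`), or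
`exists_isTranscendenceBasis_between` in the field generated by `b` and `θ`; if `θ` is
transcendental over `ℂ[b]` any `l₀` works. -/
theorem ind [DecidableEq κ] [Nonempty κ] (b : κ → K) (hb : AlgebraicIndependent ℂ b) {θ : K}
    (hθ : Transcendental ℂ θ) : ∃ l₀, AlgebraicIndependent ℂ (Function.update b l₀ θ) := by
  set M := AlgebraicIndependent.matroid ℂ K
  have hI : M.Indep (Set.range b) := hb.to_subtype_range
  have hsub : ∀ l : κ, b '' {l}ᶜ ⊆ Set.range b := fun l => Set.image_subset_range _ _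
  obtain ⟨l₀, hl⟩ : ∃ l₀, θ ∉ M.closure (b '' {l₀}ᶜ) := by
    by_contra hcon
    push Not at hcon
    have h1 : θ ∈ M.closure (⋂ l, b '' {l}ᶜ) := by
      rw [hI.closure_iInter_eq_biInter_closure_of_forall_subset hsub]
      exact Set.mem_iInter.mpr hcon
    have h2 : ⋂ l, b '' {l}ᶜ = ∅ := by
      refine Set.eq_empty_of_forall_notMem fun x hx => ?_
      obtain ⟨l, -, rfl⟩ := Set.mem_iInter.mp hx (Classical.arbitrary κ)
      obtain ⟨l', h3, h4⟩ := Set.mem_iInter.mp hx l
      exact h3 (hb.injective h4)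
    have h3 : M.Indep (insert θ ∅) := by
      rw [LawfulSingleton.insert_empty_eq]
      exact (algebraicIndependent_singleton_iff (⟨θ, rfl⟩ : ({θ} : Set K))).mpr hθ
    rw [h2] at h1
    exact (M.empty_indep.notMem_closure_iff (Set.mem_univ _)).mpr ⟨h3, Set.notMem_empty _⟩ h1
  obtain ⟨h1, h2⟩ := ((hI.subset (hsub l₀)).notMem_closure_iff (Set.mem_univ _)).mp hl
  have hinj : Function.Injective (Function.update b l₀ θ) := by
    intro i j hij
    by_cases hi : i = l₀ <;> by_cases hj : j = l₀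
    · rw [hi, hj]
    · rw [hi, Function.update_self, Function.update_of_ne hj] at hij
      exact absurd ⟨j, hj, hij.symm⟩ h2
    · rw [hj, Function.update_self, Function.update_of_ne hi] at hij
      exact absurd ⟨i, hi, hij⟩ h2
    · rw [Function.update_of_ne hi, Function.update_of_ne hj] at hij
      exact hb.injective hij
  refine ⟨l₀, (algebraicIndependent_subtype_range hinj).mp (h1.subset ?_)⟩
  rintro _ ⟨i, rfl⟩
  by_cases hi : i = l₀
  · rw [hi, Function.update_self]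
    exact Set.mem_insert _ _
  · rw [Function.update_of_ne hi]
    exact Set.mem_insert_of_mem _ ⟨i, hi, rfl⟩

theorem prod_pow_mem (V : Submodule ℂ K) (h1 : (1 : K) ∈ V) (y : κ → K) (s : Finset κ)
    (hy : ∀ l ∈ s, y l ∈ V) (a : κ → ℕ) {μ : ℕ} (h : ∑ l ∈ s, a l ≤ μ) :
    ∏ l ∈ s, y l ^ a l ∈ V ^ μ := by
  refine pow_mono_of_one V h1 h ?_
  rw [← Finset.prod_pow_eq_pow_sum]
  exact Finset.prod_induction (fun l => (y l ^ a l, V ^ a l)) (fun q : K × Submodule ℂ K => q.1 ∈ q.2)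
    (fun _ _ => Submodule.mul_mem_mul) (Submodule.one_le.mp le_rfl)
    (fun l hl => Submodule.pow_mem_pow V (hy l hl) _) |> fun h2 => by
      simpa only [Prod.fst_prod, Prod.snd_prod] using h2

/-- Sketch: `mon` with `β l = μ / n`, and `μ ≤ n * (μ / n + 1)`. -/
theorem pow_le_finrank {n : ℕ} (npos : 0 < n) (V : Submodule ℂ K) [FiniteDimensional ℂ V]
    (h1 : (1 : K) ∈ V) (y : Fin n → K) (hy : AlgebraicIndependent ℂ y) (hV : ∀ l, y l ∈ V)
    (μ : ℕ) : μ ^ n ≤ n ^ n * finrank ℂ ↥(V ^ μ) := by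
  have := fd_pow V μ
  have h2 := mon y hy (fun _ => μ / n) (V ^ μ) fun a ha =>
    prod_pow_mem V h1 y _ (fun l _ => hV l) a ((Finset.sum_le_card_nsmul _ _ _ fun l _ => ha l).trans
      (by simpa using Nat.mul_div_le μ n))
  rw [Finset.prod_const, Finset.card_univ, Fintype.card_fin] at h2
  calc μ ^ n ≤ (n * (μ / n + 1)) ^ n := Nat.pow_le_pow_left (Nat.lt_mul_div_succ μ npos).le n
    _ ≤ _ := by
      rw [mul_pow]
      exact Nat.mul_le_mul_left _ h2

/-- Every element of `K` is a quotient of two elements of a power of `V`. -/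
def Den (V : Submodule ℂ K) : Prop := ∀ r : K, ∃ (b : ℕ) (d : K), d ∈ V ^ b ∧ d ≠ 0 ∧ d * r ∈ V ^ b

theorem mem_pow_of_adjoin (V : Submodule ℂ K) (h1 : (1 : K) ∈ V) {s : Set K} (hs : s ⊆ V) {r : K}
    (hr : r ∈ Algebra.adjoin ℂ s) : ∃ b, r ∈ V ^ b := by
  induction hr using Algebra.adjoin_induction with
  | mem x hx => exact ⟨1, by simpa using hs hx⟩
  | algebraMap c => exact ⟨1, by simpa [Algebra.algebraMap_eq_smul_one] using V.smul_mem c h1⟩
  | add x y _ _ hx hy =>
    obtain ⟨a, ha⟩ := hx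
    obtain ⟨b, hb⟩ := hy
    exact ⟨a + b, add_mem (pow_mono_of_one V h1 (Nat.le_add_right a b) ha)
      (pow_mono_of_one V h1 (Nat.le_add_left b a) hb)⟩
  | mul x y _ _ hx hy =>
    obtain ⟨a, ha⟩ := hx
    obtain ⟨b, hb⟩ := hy
    exact ⟨a + b, pow_add V a b ▸ Submodule.mul_mem_mul ha hb⟩

theorem den_of_frac (V : Submodule ℂ K) (h1 : (1 : K) ∈ V) {s : Set K} (hs : s ⊆ V)
    (h : IsFractionRing (Algebra.adjoin ℂ s) K) : Den V := by
  intro r
  obtain ⟨x, d, hd, rfl⟩ := IsFractionRing.div_surjective (A := Algebra.adjoin ℂ s) r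
  have hd0 : (d : K) ≠ 0 := fun e => nonZeroDivisors.ne_zero hd (Subtype.ext e)
  obtain ⟨a, ha⟩ := mem_pow_of_adjoin V h1 hs x.2
  obtain ⟨b, hb⟩ := mem_pow_of_adjoin V h1 hs d.2
  refine ⟨a + b, d, pow_mono_of_one V h1 (Nat.le_add_left b a) hb, hd0, ?_⟩
  have e : (d : K) * (algebraMap _ K x / algebraMap _ K d) = x := mul_div_cancel₀ (x : K) hd0
  rw [e]
  exact pow_mono_of_one V h1 (Nat.le_add_right a b) ha

theorem den_fin (V : Submodule ℂ K) (h1 : (1 : K) ∈ V) (h : Den V) (r : κ → K) :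
    ∃ (b : ℕ) (d : K), d ∈ V ^ b ∧ d ≠ 0 ∧ ∀ j, d * r j ∈ V ^ b := by
  classical
  suffices H : ∀ s : Finset κ, ∃ (b : ℕ) (d : K), d ∈ V ^ b ∧ d ≠ 0 ∧ ∀ j ∈ s, d * r j ∈ V ^ b by
    obtain ⟨b, d, h2, h3, h4⟩ := H Finset.univ
    exact ⟨b, d, h2, h3, fun j => h4 j (Finset.mem_univ j)⟩
  intro s
  induction s using Finset.induction_on with
  | empty => exact ⟨1, 1, by simpa using h1, one_ne_zero, by simp⟩
  | insert i s _ ih =>
    obtain ⟨b, d, h2, h3, h4⟩ := ih
    obtain ⟨b', d', h5, h6, h7⟩ := h (r i)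
    refine ⟨b + b', d * d', pow_add V b b' ▸ Submodule.mul_mem_mul h2 h5, mul_ne_zero h3 h6,
      fun j hj => ?_⟩
    rw [pow_add]
    rcases Finset.mem_insert.mp hj with rfl | hj
    · rw [mul_assoc]
      exact Submodule.mul_mem_mul h2 h7
    · rw [mul_right_comm]
      exact Submodule.mul_mem_mul (h4 j hj) h5

end Pool.Agent.Lib.MP_bc213e_ag.Hyp
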