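import Pool.Agent.Lib.MP_bc213e_ag.Hyp.CDb
import Pool.Agent.Lib.MP_bc213e_ag.Hyp.Mon
import Pool.Agent.Lib.MP_bc213e_ag.Hyp.BZ
import Pool.Agent.Lib.MP_bc213e_ag.Hyp.Div

/-! The divisors `H` and `M` and their sections. -/

namespace Pool.Agent.Lib.MP_bc213e_ag.Hyp

open WithZero Module

variable {K ι : Type} [Field K] [Algebra ℂ K]

theorem Basic_mem (x : ι → Kˣ) (i j : ι) : (x j : K) / x i ∈ chart x i :=
  Algebra.subset_adjoin ⟨j, rfl⟩

omit [Algebra ℂ K] in
theorem Basic_pos {Γ : Type} [LinearOrderedCommGroupWithZero Γ] (v : Valuation K Γ) (u : Kˣ) :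
    0 < v u := zero_lt_iff.2 ((Valuation.ne_zero_iff v).2 u.ne_zero)

theorem Basic_le {Γ : Type} [LinearOrderedCommGroupWithZero Γ] (v : Valuation K Γ)
    (hv : ∀ c : ℂ, v (algebraMap ℂ K c) ≤ 1) (x : ι → Kˣ) (i : ι) (h : ∀ j, v (x j) ≤ v (x i)) :
    ∀ r ∈ chart x i, v r ≤ 1 := by
  intro r hr
  induction hr using Algebra.adjoin_induction with
  | mem r hr =>
    obtain ⟨l, rfl⟩ := hr
    rw [map_div₀, div_le_one₀ (Basic_pos v (x i))]
    exact h l
  | algebraMap c => exact hv c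
  | add a b _ _ ha hb => exact (v.map_add a b).trans (max_le ha hb)
  | mul a b _ _ ha hb =>
    rw [map_mul]
    exact mul_le_one' ha hb

theorem chart_noeth [Finite ι] (x : ι → Kˣ) (i : ι) : IsNoetherianRing (chart x i) := by
  exact isNoetherianRing_of_fg (Subalgebra.fg_def.2 ⟨_, Set.finite_range _, rfl⟩)

/-- The chart `i` lies in the valuation ring of `v` iff `v (x i)` is maximal. -/
theorem chart_le_iff (x : ι → Kˣ) (i : ι) {v : Val K} (hv : Triv v) :
    (∀ r ∈ chart x i, v r ≤ 1) ↔ ∀ j, v (x j) ≤ v (x i) := by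
  refine ⟨fun h j => ?_, Basic_le v hv x i⟩
  have := h _ (Basic_mem x i j)
  rwa [map_div₀, div_le_one₀ (Basic_pos v (x i))] at this

theorem chart_trans (x : ι → Kˣ) (i j : ι) {r : K} (hr : r ∈ chart x i) :
    ∃ e : ℕ, r * ((x i : K) / x j) ^ e ∈ chart x j := by
  have hu := Basic_mem x j i
  induction hr using Algebra.adjoin_induction with
  | mem r hr =>
    obtain ⟨l, rfl⟩ := hr
    refine ⟨1, ?_⟩
    rw [pow_one, div_mul_div_cancel₀ (x i).ne_zero]
    exact Basic_mem x j l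
  | algebraMap c =>
    refine ⟨0, ?_⟩
    rw [pow_zero, mul_one]
    exact Subalgebra.algebraMap_mem _ c
  | add a b _ _ ha hb =>
    obtain ⟨e, ha⟩ := ha
    obtain ⟨f, hb⟩ := hb
    refine ⟨e + f, ?_⟩
    have := add_mem (mul_mem ha (pow_mem hu f)) (mul_mem hb (pow_mem hu e))
    rwa [mul_assoc, mul_assoc, ← pow_add, ← pow_add, add_comm f e, ← add_mul] at this
  | mul a b _ _ ha hb =>
    obtain ⟨e, ha⟩ := ha
    obtain ⟨f, hb⟩ := hb
    refine ⟨e + f, ?_⟩
    have := mul_mem ha hb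
    rwa [mul_mul_mul_comm, ← pow_add] at this

theorem Triv.comap {v : Val K} (hv : Triv v) (ψ : K →ₐ[ℂ] K) : Triv (v.comap ψ.toRingHom) := by
  intro c
  have : v (ψ (algebraMap ℂ K c)) ≤ 1 := by
    rw [AlgHom.commutes]
    exact hv c
  exact this

namespace Su

variable [Fintype ι] {n : ℕ} (S : Su K ι n)

theorem one_mem : (1 : K) ∈ S.V := by
  exact Submodule.subset_span ⟨S.i₀, by rw [X, S.one, Units.val_one]⟩

theorem X_mem (i : ι) : (S.x i : K) ∈ S.V := by
  exact Submodule.subset_span ⟨i, rfl⟩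

instance : FiniteDimensional ℂ S.V := by
  exact FiniteDimensional.span_of_finite ℂ (Set.finite_range _)

theorem chart_zero : chart S.x S.i₀ = Algebra.adjoin ℂ (Set.range S.X) := by
  simp only [chart, S.one, Units.val_one, div_one]
  rfl

theorem gen : IntermediateField.adjoin ℂ (Set.range S.X) = ⊤ := by
  have := S.frac S.i₀
  refine eq_top_iff.2 fun z _ => ?_
  obtain ⟨a, b, -, rfl⟩ := IsFractionRing.div_surjective (chart S.x S.i₀) z
  have h : ∀ r : chart S.x S.i₀, algebraMap (chart S.x S.i₀) K r ∈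
      IntermediateField.adjoin ℂ (Set.range S.X) := fun r =>
    IntermediateField.algebra_adjoin_le_adjoin ℂ _ (S.chart_zero ▸ r.2)
  exact div_mem (h a) (h b)

theorem den : Den S.V := by
  exact den_of_frac S.V S.one_mem Submodule.subset_span (S.chart_zero ▸ S.frac S.i₀)

theorem div_mem_chart {μ : ℕ} {r : K} (hr : r ∈ S.V ^ μ) (i : ι) :
    r / (S.x i : K) ^ μ ∈ chart S.x i := by
  have h1 : ∀ r ∈ S.V, r / (S.x i : K) ∈ chart S.x i := fun r hr => by
    induction hr using Submodule.span_induction with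
    | mem r hr =>
      obtain ⟨l, rfl⟩ := hr
      exact Basic_mem S.x i l
    | zero => rw [zero_div]; exact zero_mem _
    | add a b _ _ ha hb => rw [add_div]; exact add_mem ha hb
    | smul c a _ ha => rw [smul_div_assoc]; exact Subalgebra.smul_mem _ ha c
  induction μ generalizing r with
  | zero =>
    rw [pow_zero, Submodule.mem_one] at hr
    obtain ⟨c, rfl⟩ := hr
    rw [pow_zero, div_one]
    exact Subalgebra.algebraMap_mem _ c
  | succ μ ih =>
    rw [pow_succ] at hr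
    refine Submodule.mul_induction_on hr (fun a ha b hb => ?_) fun a b ha hb => ?_
    · rw [pow_succ, mul_div_mul_comm]
      exact mul_mem (ih ha) (h1 b hb)
    · rw [add_div]
      exact add_mem ha hb

theorem triv {w : Val K} (hw : w ∈ S.W) : Triv w := by
  obtain ⟨i, hi⟩ := hw
  exact hi.triv

theorem ctr_max (v : Val K) (j : ι) : v (S.x j) ≤ v (S.x (S.ctr v)) := by
  have : Nonempty ι := ⟨S.i₀⟩
  exact (Finite.exists_max fun i => v (S.x i)).choose_spec j

theorem exp_H {v : Val K} {i : ι} (hi : ∀ j, v (S.x j) ≤ v (S.x i)) : v (S.x i) = exp (S.H v) := by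
  rw [H, exp_log (Basic_pos v _).ne']
  exact le_antisymm (S.ctr_max v i) (hi _)

omit [Fintype ι] in
theorem Basic_g {v : Val K} (hv : Triv v) {i j : ι} (hi : ∀ l, v (S.x l) ≤ v (S.x i))
    (hj : ∀ l, v (S.x l) ≤ v (S.x j)) : v (S.g i) ≤ v (S.g j) := by
  obtain ⟨e, he⟩ := S.cart i j
  have := (chart_le_iff S.x j hv).2 hj _ he
  rwa [map_mul, map_pow, map_div₀, map_div₀, le_antisymm (hj i) (hi j),
    div_self (Basic_pos v _).ne', one_pow, mul_one, div_le_one₀ (Basic_pos v _)] at this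

/-- Sketch: `v (x i) = v (x j)` for `j = ctr v`; `cart` in both directions. -/
theorem exp_M {v : Val K} (hv : Triv v) {i : ι} (hi : ∀ j, v (S.x j) ≤ v (S.x i)) :
    v (S.g i) = exp (S.M v) := by
  rw [M, exp_log (Basic_pos v _).ne']
  exact le_antisymm (S.Basic_g hv hi (S.ctr_max v)) (S.Basic_g hv (S.ctr_max v) hi)

theorem H_nonneg (v : Val K) : 0 ≤ S.H v := by
  have := S.ctr_max v S.i₀
  rwa [S.one, Units.val_one, map_one, S.exp_H (S.ctr_max v), ← exp_zero, exp_le_exp] at this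

theorem Basic_val {v : Val K} (hv : Triv v) {i : ι} (hi : ∀ j, v (S.x j) ≤ v (S.x i)) (t : ℤ)
    (a : ℕ) : v ((S.g i : K) ^ t * (S.x i : K) ^ a) = exp (t * S.M v + a * S.H v) := by
  rw [map_mul, map_zpow₀, map_pow, S.exp_M hv hi, S.exp_H hi, exp_add, ← exp_zsmul, ← exp_nsmul,
    nsmul_eq_mul, smul_eq_mul]

/-- Sections of a Cartier divisor satisfy the bound at every valuation. -/
theorem le_of_sec {t : ℤ} {a : ℕ} {s : K} (h : Sec S.x S.g t a s) {v : Val K} (hv : Triv v) :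
    v s ≤ exp (t * S.M v + a * S.H v) := by
  have := (chart_le_iff S.x (S.ctr v) hv).2 (S.ctr_max v) _ (h _)
  rwa [map_div₀, S.Basic_val hv (S.ctr_max v), div_le_one₀ exp_pos] at this

/-- Sketch: `hartogs` on each chart. -/
theorem sec_iff {t : ℤ} {a : ℕ} {s : K} :
    Sec S.x S.g t a s ↔ s ∈ S.Γ fun w => t * S.M w + a * S.H w := by
  refine ⟨fun h w _ hw => S.le_of_sec h hw, fun h i => ?_⟩
  have := chart_noeth S.x i
  have := S.frac i
  have := S.norm i
  refine hartogs fun w hw => ?_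
  rw [map_div₀, S.Basic_val hw.triv ((chart_le_iff S.x i hw.triv).1 hw.2.1), div_le_one₀ exp_pos]
  exact h w ⟨i, hw⟩ hw.triv

theorem le_of_mem {t : ℤ} {a : ℕ} {s : K} (h : s ∈ S.Γ fun w => t * S.M w + a * S.H w)
    {v : Val K} (hv : Triv v) : v s ≤ exp (t * S.M v + a * S.H v) :=
  S.le_of_sec (S.sec_iff.2 h) hv

theorem le_of_mem_pow {μ : ℕ} {r : K} (hr : r ∈ S.V ^ μ) {v : Val K} (hv : Triv v) :
    v r ≤ exp (μ * S.H v) := by
  have := (chart_le_iff S.x (S.ctr v) hv).2 (S.ctr_max v) _ (S.div_mem_chart hr _)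
  rwa [map_div₀, map_pow, S.exp_H (S.ctr_max v), ← exp_nsmul, nsmul_eq_mul,
    div_le_one₀ exp_pos] at this

theorem pow_le_Γ (μ : ℕ) : S.V ^ μ ≤ S.Γ fun w => μ * S.H w := by
  exact fun r hr w _ hw => S.le_of_mem_pow hr hw

/-- Sketch: `s / x i ^ μ ∈ chart i` for all `i`; given `O, c` choose `i` with `O.valuation (x i)`
maximal, then `chart i ≤ O`. -/
theorem Γ_le_Bd (μ : ℕ) : (S.Γ fun w => μ * S.H w) ≤ Bd S.X μ := by
  intro s hs O c h1 h2 _ h4
  have hsec : Sec S.x S.g 0 μ s := S.sec_iff.2 (by simpa only [zero_mul, zero_add] using hs)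
  have : Nonempty ι := ⟨S.i₀⟩
  obtain ⟨i, hi⟩ := Finite.exists_max fun i => O.valuation (S.x i)
  have h5 := Basic_le O.valuation (fun z => (O.valuation_le_one_iff _).2 (h1 z)) S.x i hi _ (hsec i)
  rw [O.valuation_le_one_iff, zpow_zero, one_mul] at h5
  have h6 := O.mul_mem _ _ h5 (pow_mem (h4 i) μ)
  rwa [X, div_pow, div_mul_div_cancel₀ (pow_ne_zero μ (S.x i).ne_zero)] at h6

theorem supp_finite {z : K} (hz : z ≠ 0) : {w | w ∈ S.W ∧ w z ≠ 1}.Finite := by
  refine (Set.finite_iUnion fun i => ?_ :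
    (⋃ i, {w : Val K | PrimeDiv (chart S.x i) w ∧ w z ≠ 1}).Finite).subset ?_
  · have := chart_noeth S.x i
    have := S.frac i
    exact finite_supp hz
  · rintro w ⟨⟨i, hi⟩, hw⟩
    exact Set.mem_iUnion.2 ⟨i, hi, hw⟩

theorem H_finite : {w | w ∈ S.W ∧ S.H w ≠ 0}.Finite := by
  refine (Set.finite_iUnion fun i => S.supp_finite (S.x i).ne_zero).subset fun w hw => ?_
  refine Set.mem_iUnion.2 ⟨S.ctr w, hw.1, fun h => hw.2 ?_⟩
  rw [H, h, log_one]

end Su

end Pool.Agent.Lib.MP_bc213e_ag.Hyp
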