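import Pool.Agent.Lib.MP_bc213e_ag.Hyp.Basic

/-! Global forms of the conductor, dimension and Bezout bounds. -/

namespace Pool.Agent.Lib.MP_bc213e_ag.Hyp

open WithZero Module

variable {K ι : Type} [Field K] [Algebra ℂ K]

namespace Su

variable [Fintype ι] {n : ℕ} (S : Su K ι n)

theorem cond : ∃ (e : K) (c₀ : ℕ), e ≠ 0 ∧
    ∀ μ : ℕ, ∀ r ∈ S.Γ fun w => μ * S.H w, e * r ∈ S.V ^ (μ + c₀) := by
  obtain ⟨e, c₀, he, h⟩ := cd_cond S.X S.gen S.dim S.V S.one_mem S.X_mem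
  exact ⟨e, c₀, he, fun μ r hr => h μ r (S.Γ_le_Bd μ hr)⟩

theorem dim_le : ∃ B : ℕ, ∀ μ : ℕ, FiniteDimensional ℂ (S.Γ fun w => μ * S.H w) ∧
    finrank ℂ (S.Γ fun w => μ * S.H w) ≤ B * (μ + 1) ^ n := by
  obtain ⟨B, h⟩ := cd_dim S.X S.gen S.dim
  refine ⟨B, fun μ => ?_⟩
  have := (h μ).1
  exact ⟨Submodule.finiteDimensional_of_le (S.Γ_le_Bd μ),
    (Submodule.finrank_mono (S.Γ_le_Bd μ)).trans (h μ).2⟩

theorem exists_indep : ∃ y : Fin n → K, AlgebraicIndependent ℂ y ∧ ∀ l, y l ∈ S.V := by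
  obtain ⟨y, h1, h2, -⟩ := nn S.X S.gen S.dim
  exact ⟨y, h2.1, h1⟩

theorem le_dim (μ : ℕ) : μ ^ n ≤ n ^ n * finrank ℂ (S.Γ fun w => μ * S.H w) := by
  obtain ⟨y, h1, h2⟩ := S.exists_indep
  obtain ⟨B, h⟩ := S.dim_le
  have := (h μ).1
  exact (pow_le_finrank S.npos S.V S.one_mem y h1 h2 μ).trans
    (Nat.mul_le_mul_left _ (Submodule.finrank_mono (S.pow_le_Γ μ)))

omit [Fintype ι] in
theorem basicB_max {i : ι} {w : Val K} (h : PrimeDiv (chart S.x i) w) (j : ι) :
    w (S.x j) ≤ w (S.x i) :=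
  (chart_le_iff S.x i h.triv).1 h.2.1 j

theorem basicB_Bd {μ : ℕ} {s : K} (hs : s ∈ S.Γ fun w => μ * S.H w) (i : ι) :
    s / (S.x i : K) ^ μ ∈ Bd (fun j => (S.x j : K) / S.x i) μ := by
  intro O c h1 h2 h3 h4
  have hx : (S.x i : K) ≠ 0 := (S.x i).ne_zero
  have h5 := S.Γ_le_Bd μ hs O (c * S.x i) h1 (mul_ne_zero h2 hx) ?_ ?_
  · rwa [mul_pow, mul_comm, ← div_div] at h5
  · have h6 := h4 S.i₀
    simp only [S.one, Units.val_one] at h6
    rwa [div_div, mul_comm, one_div] at h6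
  · intro l
    have h6 := h4 l
    simp only at h6
    rwa [div_div, mul_comm] at h6

/-- Sketch: `bz` for each chart `i` and the family `x j / x i` gives `δ i`, `cls i`. Choose for
`w ∈ W` a chart `i w`; `cls w = (i w, cls (i w) w)`, `δ = ∑ i, δ i`; split `Z` along `i w`
(`Finset.sum_fiberwise`). For `s ∈ Γ (μ H)`, `r = s / x i ^ μ` lies in
`Bd (fun j => x j / x i) μ` (apply `Γ_le_Bd` with `c * x i`), and
`μ * H w - log (w s) = - log (w r)` for `PrimeDiv (chart x i) w`. -/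
theorem bz : ∃ (δ : ℕ) (cls : Val K → ι × Set (MvPolynomial (Fin n) ℂ)),
    (∀ q, {w | w ∈ S.W ∧ cls w = q}.Finite) ∧
    ∀ (μ : ℕ) (s : K), s ≠ 0 → (s ∈ S.Γ fun w => μ * S.H w) → ∀ Z : Finset (Val K),
      (∀ w ∈ Z, w ∈ S.W) → Set.InjOn cls Z → ∑ w ∈ Z, (μ * S.H w - log (w s)) ≤ δ * μ := by
  classical
  have key := fun i => @Pool.Agent.Lib.MP_bc213e_ag.Hyp.bz K ι _ _ n _
    (fun j => (S.x j : K) / S.x i) (S.frac i) S.dim
  choose δ cls hfin hbd using key
  have hch : ∀ w : Val K, ∃ i, w ∈ S.W → PrimeDiv (chart S.x i) w := by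
    intro w
    by_cases hw : w ∈ S.W
    · obtain ⟨i, hi⟩ := hw
      exact ⟨i, fun _ => hi⟩
    · exact ⟨S.i₀, fun h => (hw h).elim⟩
  choose ch hch using hch
  refine ⟨∑ i, δ i, fun w => (ch w, cls (ch w) w), fun q => ?_, fun μ s hs0 hs Z hZ hinj => ?_⟩
  · refine (hfin q.1 q.2).subset ?_
    rintro w ⟨hw, rfl⟩
    exact ⟨hch w hw, rfl⟩
  · rw [← Finset.sum_fiberwise Z ch, Nat.cast_sum, Finset.sum_mul]
    refine Finset.sum_le_sum fun i _ => ?_
    have hx : (S.x i : K) ≠ 0 := (S.x i).ne_zero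
    have hP : ∀ w ∈ Z.filter fun w => ch w = i, PrimeDiv (chart S.x i) w := by
      intro w hw
      obtain ⟨h1, rfl⟩ := Finset.mem_filter.1 hw
      exact hch w (hZ w h1)
    refine le_of_eq_of_le (Finset.sum_congr rfl fun w hw => ?_)
      (hbd i μ _ (div_ne_zero hs0 (pow_ne_zero _ hx)) (S.basicB_Bd hs i) _ hP ?_)
    · have h1 : w s ≠ 0 := (Valuation.ne_zero_iff w).2 hs0
      rw [map_div₀, map_pow, S.exp_H (S.basicB_max (hP w hw)), ← exp_nsmul,
        log_div h1 exp_ne_zero, log_exp, nsmul_eq_mul, neg_sub]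
    · intro w hw w' hw' e
      obtain ⟨h1, h2⟩ := Finset.mem_filter.1 (Finset.mem_coe.1 hw)
      obtain ⟨h3, h4⟩ := Finset.mem_filter.1 (Finset.mem_coe.1 hw')
      refine hinj (Finset.mem_coe.2 h1) (Finset.mem_coe.2 h3) ?_
      show (ch w, cls (ch w) w) = (ch w', cls (ch w') w')
      rw [h2, h4, e]

/-- Sketch: `den_fin` for the family `(g i ^ t)⁻¹`: `d * (g i ^ t)⁻¹ ∈ V ^ b`. -/
theorem exists_sec (t : ℤ) : ∃ (b : ℕ) (s : K), s ≠ 0 ∧ Sec S.x S.g t b s := by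
  obtain ⟨b, d, -, h0, h⟩ := den_fin S.V S.one_mem S.den fun i => ((S.g i : K) ^ t)⁻¹
  refine ⟨b, d, h0, fun i => ?_⟩
  have h1 := S.div_mem_chart (h i) i
  rwa [← div_eq_mul_inv, div_div] at h1

theorem cart_zpow (t : ℤ) : ∃ e : ℕ, ∀ i j,
    ((S.g j : K) / S.g i) ^ t * ((S.x i : K) / S.x j) ^ e ∈ chart S.x j := by
  classical
  have hx : ∀ i j, (S.x i : K) / S.x j ∈ chart S.x j := fun i j =>
    Algebra.subset_adjoin ⟨i, rfl⟩
  have h1 : ∀ i j, ∃ e : ℕ, (S.g j : K) / S.g i * ((S.x i : K) / S.x j) ^ e ∈ chart S.x j := by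
    intro i j
    obtain ⟨e, he⟩ := S.cart j i
    obtain ⟨e', he'⟩ := chart_trans S.x i j he
    refine ⟨e', ?_⟩
    have h2 := (chart S.x j).mul_mem he' ((chart S.x j).pow_mem (hx i j) e)
    have h3 : ((S.x j : K) / S.x i) ^ e * ((S.x i : K) / S.x j) ^ e = 1 := by
      rw [← mul_pow, div_mul_div_cancel₀ (S.x i).ne_zero, div_self (S.x j).ne_zero, one_pow]
    convert h2 using 1
    linear_combination (-((S.g j : K) / S.g i * ((S.x i : K) / S.x j) ^ e')) * h3
  have h2 : ∀ p : ι × ι, ∃ e : ℕ,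
      ((S.g p.2 : K) / S.g p.1) ^ t * ((S.x p.1 : K) / S.x p.2) ^ e ∈ chart S.x p.2 := by
    rintro ⟨i, j⟩
    obtain ⟨m, rfl | rfl⟩ := t.eq_nat_or_neg
    · obtain ⟨e, he⟩ := h1 i j
      refine ⟨e * m, ?_⟩
      rw [zpow_natCast, pow_mul, ← mul_pow]
      exact (chart S.x j).pow_mem he m
    · obtain ⟨e, he⟩ := S.cart i j
      refine ⟨e * m, ?_⟩
      rw [zpow_neg, zpow_natCast, ← inv_pow, inv_div, pow_mul, ← mul_pow]
      exact (chart S.x j).pow_mem he m
  choose e he using h2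
  refine ⟨Finset.univ.sup e, fun i j => ?_⟩
  obtain ⟨c, hc⟩ := Nat.exists_eq_add_of_le (Finset.le_sup (f := e) (Finset.mem_univ (i, j)))
  rw [hc, pow_add, ← mul_assoc]
  exact (chart S.x j).mul_mem (he (i, j)) ((chart S.x j).pow_mem (hx i j) c)

/-- A finite generating family of sections. Sketch: `nef`; for each `i` the generator is a finite
combination (`Submodule.mem_span_finite_of_mem_span`, `mem_span_finset`) of sections with
coefficients in the chart; drop zero sections; at `v` with `i = ctr v` some section has value at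
least that of the generator (`Valuation.map_sum_lt`). -/
theorem exists_gen (t : ℕ) : ∃ (N : ℕ) (T : Finset K), 0 < N ∧ T.Nonempty ∧
    (∀ s ∈ T, s ≠ 0 ∧ Sec S.x S.g (N * t) N s) ∧
    ∀ v : Val K, Triv v → ∃ s ∈ T, v s = exp (N * t * S.M v + N * S.H v) := by
  classical
  obtain ⟨N, hN, hF⟩ := S.nef t
  choose T hT hsp using fun i => Submodule.mem_span_finite_of_mem_span (hF i)
  have key : ∀ v : Val K, Triv v → ∃ s ∈ (Finset.univ.biUnion T).erase 0,
      v s = exp (N * t * S.M v + N * S.H v) := by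
    intro v hv
    have hmax := S.ctr_max v
    have hch := (chart_le_iff S.x (S.ctr v) hv).2 hmax
    have h1 : ∃ s ∈ T (S.ctr v), exp (N * t * S.M v + N * S.H v) ≤ v s := by
      by_contra hcon
      push Not at hcon
      have h2 : ∀ z ∈ Submodule.span (chart S.x (S.ctr v)) (T (S.ctr v) : Set K),
          v z < exp (N * t * S.M v + N * S.H v) := by
        intro z hz
        induction hz using Submodule.span_induction with
        | mem z hz => exact hcon z hz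
        | zero =>
          rw [map_zero]
          exact zero_lt_iff.2 exp_ne_zero
        | add a b _ _ ha hb => exact (v.map_add a b).trans_lt (max_lt ha hb)
        | smul c z _ hz =>
          refine lt_of_le_of_lt ?_ hz
          rw [Subalgebra.smul_def, smul_eq_mul, map_mul]
          exact mul_le_of_le_one_left' (hch c c.2)
      have h3 := h2 _ (hsp (S.ctr v))
      rw [map_mul, map_zpow₀, map_pow, S.exp_M hv hmax, S.exp_H hmax, ← exp_nsmul, ← exp_zsmul,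
        ← exp_add, nsmul_eq_mul, smul_eq_mul] at h3
      exact lt_irrefl _ h3
    obtain ⟨s, hs, h4⟩ := h1
    have h5 := S.le_of_sec (hT _ hs) hv
    have h6 : v s = exp (N * t * S.M v + N * S.H v) := le_antisymm h5 h4
    refine ⟨s, Finset.mem_erase.2 ⟨?_, Finset.mem_biUnion.2 ⟨_, Finset.mem_univ _, hs⟩⟩, h6⟩
    rintro rfl
    rw [map_zero] at h6
    exact exp_ne_zero h6.symm
  refine ⟨N, (Finset.univ.biUnion T).erase 0, hN, ?_, fun s hs => ?_, key⟩
  · obtain ⟨s, hs, -⟩ := key 1 fun c => Valuation.one_apply_le_one _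
    exact ⟨s, hs⟩
  · obtain ⟨h1, h2⟩ := Finset.mem_erase.1 hs
    obtain ⟨i, -, hi⟩ := Finset.mem_biUnion.1 h2
    exact ⟨h1, hT i hi⟩

/-- The conclusion from its valuative form (`hartogs` on each chart). -/
theorem concl {N : ℕ} {s : K} (hs : s ≠ 0) (h : ∀ w ∈ S.W, w s = exp (N * S.M w)) (i : ι) :
    s / (S.g i : K) ^ N ∈ chart S.x i ∧ (S.g i : K) ^ N / s ∈ chart S.x i := by
  have := chart_noeth S.x i
  have := S.frac i
  have := S.norm i
  have key : ∀ w : Val K, PrimeDiv (chart S.x i) w → w s = w ((S.g i : K) ^ N) := by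
    intro w hw
    rw [h w ⟨i, hw⟩, map_pow, S.exp_M hw.triv (S.basicB_max hw), ← exp_nsmul, nsmul_eq_mul]
  refine ⟨hartogs fun w hw => ?_, hartogs fun w hw => ?_⟩
  · rw [map_div₀, key w hw]
    exact div_self_le_one _
  · rw [map_div₀, key w hw]
    exact div_self_le_one _

/-- Pigeonhole. Sketch: `f t w = t M w + a H w - log (w (s t))` lies between `0` and
`F w = 2 a H w - log (w r)`, which vanishes outside a finite subset `Z` of `W`. So the restrictions
of `f t` to `Z` take finitely many values, and two of them agree, `t < t'`; take `s t' / s t`. -/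
theorem pigeon (a : ℕ) {r : K} (hr : r ≠ 0) (T : Set ℕ) (hT : T.Infinite)
    (h : ∀ t ∈ T, ∃ s s' : K, (s ∈ S.Γ fun w => (t : ℤ) * S.M w + a * S.H w) ∧
      (s' ∈ S.Γ fun w => - (t : ℤ) * S.M w + a * S.H w) ∧ s * s' = r) :
    ∃ (N : ℕ) (s : K), 0 < N ∧ s ≠ 0 ∧ ∀ w ∈ S.W, w s = exp (N * S.M w) := by
  classical
  choose! s s' h1 h2 h3 using h
  have hs0 : ∀ t ∈ T, s t ≠ 0 := fun t ht e => hr (by rw [← h3 t ht, e, zero_mul])
  have hs0' : ∀ t ∈ T, s' t ≠ 0 := fun t ht e => hr (by rw [← h3 t ht, e, mul_zero])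
  set f : ℕ → Val K → ℤ := fun t w => t * S.M w + a * S.H w - log (w (s t)) with hf
  set F : Val K → ℤ := fun w => 2 * a * S.H w - log (w r) with hF
  have hb : ∀ t ∈ T, ∀ w ∈ S.W, f t w ∈ Set.Icc 0 (F w) := by
    intro t ht w hw
    have e1 : w (s t) ≠ 0 := (Valuation.ne_zero_iff w).2 (hs0 t ht)
    have e2 : w (s' t) ≠ 0 := (Valuation.ne_zero_iff w).2 (hs0' t ht)
    have a1 : log (w (s t)) ≤ t * S.M w + a * S.H w :=
      (log_le_iff_le_exp e1).2 (h1 t ht w hw (S.triv hw))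
    have a2 : log (w (s' t)) ≤ - (t : ℤ) * S.M w + a * S.H w :=
      (log_le_iff_le_exp e2).2 (h2 t ht w hw (S.triv hw))
    have a3 : log (w r) = log (w (s t)) + log (w (s' t)) := by
      rw [← h3 t ht, map_mul, log_mul e1 e2]
    simp only [hf, hF, Set.mem_Icc]
    constructor <;> linarith
  set Z : Set (Val K) := {w | w ∈ S.W ∧ w r ≠ 1} ∪ {w | w ∈ S.W ∧ S.H w ≠ 0} with hZ
  have hZf : Z.Finite := (S.supp_finite hr).union S.H_finite
  have hZW : ∀ w ∈ Z, w ∈ S.W := by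
    rintro w (hw | hw) <;> exact hw.1
  have := hZf.to_subtype
  obtain ⟨t, ht, t', ht', hlt, heq⟩ := hT.exists_lt_map_eq_of_mapsTo
    (f := fun t => fun w : Z => f t w) (t := {φ : Z → ℤ | ∀ w : Z, φ w ∈ Set.Icc 0 (F w)})
    (fun t ht w => hb t ht w (hZW w w.2)) (Set.Finite.pi' fun w => Set.finite_Icc _ _)
  have hall : ∀ w ∈ S.W, f t w = f t' w := by
    intro w hw
    by_cases hz : w ∈ Z
    · exact congrFun heq ⟨w, hz⟩
    · have b1 : w r = 1 := by
        by_contra hcon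
        exact hz (Or.inl ⟨hw, hcon⟩)
      have b2 : S.H w = 0 := by
        by_contra hcon
        exact hz (Or.inr ⟨hw, hcon⟩)
      have b3 : F w = 0 := by simp [hF, b1, b2]
      have b4 := hb t ht w hw
      have b5 := hb t' ht' w hw
      rw [b3] at b4 b5
      rw [le_antisymm b4.2 b4.1, le_antisymm b5.2 b5.1]
  refine ⟨t' - t, s t' / s t, Nat.sub_pos_of_lt hlt, div_ne_zero (hs0 t' ht') (hs0 t ht),
    fun w hw => ?_⟩
  have e1 : w (s t) ≠ 0 := (Valuation.ne_zero_iff w).2 (hs0 t ht)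
  have e2 : w (s t') ≠ 0 := (Valuation.ne_zero_iff w).2 (hs0 t' ht')
  have e3 := hall w hw
  simp only [hf] at e3
  rw [map_div₀, ← exp_log e1, ← exp_log e2, ← exp_sub, Nat.cast_sub hlt.le]
  congr 1
  linarith

end Su

end Pool.Agent.Lib.MP_bc213e_ag.Hyp
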