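import Pool.Agent.Lib.MP_bc213e_ag.Hyp.KL

/-! The conductor of a hypersurface model. -/

namespace Pool.Agent.Lib.MP_bc213e_ag.Hyp

open MvPolynomial IntermediateField

variable {K κ : Type} [Field K] [Algebra ℂ K] [Fintype κ] {n : ℕ}

/-- `K` is finite over `ℂ(y)`. -/
theorem fd_of_gen (x : κ → K) (gen : adjoin ℂ (Set.range x) = ⊤) (y : Fin n → K)
    (hy : IsTranscendenceBasis ℂ y) : FiniteDimensional (adjoin ℂ (Set.range y)) K := by
  have := hy.isAlgebraic_field
  have h := finiteDimensional_adjoin (K := adjoin ℂ (Set.range y)) (S := Set.range x)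
    fun a _ => (Algebra.IsAlgebraic.isAlgebraic a).isIntegral
  rw [adjoin_eq_top_of_adjoin_eq_top ℂ gen] at h
  exact topEquiv.toLinearEquiv.finiteDimensional

/-- A primitive element in the `ℂ`-span of the generators. Sketch: for two different
`F`-algebra homs `σ ≠ σ'` from `K` to `AlgebraicClosure F` the equaliser is a `ℂ`-subspace that
does not contain all `x i`; a finite union of proper subspaces of the span is not everything
(`Submodule.exists_forall_notMem_of_forall_ne_top` or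
`Subspace.biUnion_ne_univ_of_top_notMem`); conclude by
`Field.primitive_element_iff_algHom_eq_of_eval'`. -/
theorem exists_primitive (x : κ → K) (gen : adjoin ℂ (Set.range x) = ⊤)
    (F : IntermediateField ℂ K) [FiniteDimensional F K] :
    ∃ z ∈ Submodule.span ℂ (Set.range x), adjoin F {z} = ⊤ := by
  have : CharZero F := algebraRat.charZero F
  have h1 : Algebra.adjoin F (Set.range x) = ⊤ :=
    (adjoin_eq_top_iff_of_isAlgebraic fun a _ => Algebra.IsAlgebraic.isAlgebraic a).1
      (adjoin_eq_top_of_adjoin_eq_top ℂ gen)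
  obtain ⟨z, hz⟩ := Submodule.exists_forall_notMem_of_forall_ne_top
    (fun p : {p : (K →ₐ[F] AlgebraicClosure F) × (K →ₐ[F] AlgebraicClosure F) // p.1 ≠ p.2} =>
      (LinearMap.eqLocus (p.1.1.toLinearMap.restrictScalars ℂ)
        (p.1.2.toLinearMap.restrictScalars ℂ)).comap (Submodule.span ℂ (Set.range x)).subtype)
    fun p hp => p.2 (AlgHom.ext_of_adjoin_eq_top h1 fun a ha =>
      (hp.ge (Submodule.mem_top (x := ⟨a, Submodule.subset_span ha⟩)) :))
  refine ⟨z, z.2, (Field.primitive_element_iff_algHom_eq_of_eval' F (AlgebraicClosure F)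
    (fun _ => IsAlgClosed.splits _) _).2 fun σ σ' h => ?_⟩
  by_contra hne
  exact hz ⟨(σ, σ'), hne⟩ h

/-- Sketch: `y` from `nn`, `F = ℂ(y)`, `z` from `exists_primitive`, `δ = finrank F K`; the powers
`z ^ j`, `j < δ`, are an `F`-basis of `K`. `G = (trace (z ^ i z ^ j))` has entries `aeval y (G₀ i j)`
(`kl_trace`) and nonzero determinant (`Algebra.discr_not_zero_of_basis`), `e = det G`. For
`r = ∑ c j z ^ j`, `G c = t` with `t i = trace (r z ^ i)` a polynomial of degree at most `μ + δ`;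
so `e c = adjugate G * t`, `p j = ∑ i, adjugate G₀ j i * t₀ i`, and `c₀` is `δ` plus a bound for
the degrees of the entries of `adjugate G₀`. -/
theorem cd (x : κ → K) (gen : adjoin ℂ (Set.range x) = ⊤) (dim : Algebra.trdeg ℂ K = n) :
    ∃ (y : Fin n → K) (z e : K) (δ c₀ : ℕ), (∀ l, y l ∈ Submodule.span ℂ (Set.range x)) ∧
      z ∈ Submodule.span ℂ (Set.range x) ∧ IsTranscendenceBasis ℂ y ∧ z ∈ Bd y 1 ∧ e ≠ 0 ∧
      adjoin (adjoin ℂ (Set.range y)) {z} = ⊤ ∧
      ∀ μ, ∀ r ∈ Bd x μ, ∃ p : Fin δ → MvPolynomial (Fin n) ℂ,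
        (∀ j, (p j).totalDegree ≤ μ + c₀) ∧ e * r = ∑ j, aeval y (p j) * z ^ (j : ℕ) := by
  classical
  obtain ⟨y, hy1, hy, hy2⟩ := nn x gen dim
  have := fd_of_gen x gen y hy
  have : CharZero (adjoin ℂ (Set.range y)) := algebraRat.charZero _
  obtain ⟨z, hz1, hz⟩ := exists_primitive x gen (adjoin ℂ (Set.range y))
  have hz2 : z ∈ Bd y 1 := Bd_le_Bd x y hy2 1 (span_le_Bd x hz1)
  obtain ⟨δ, b, hb⟩ : ∃ (δ : ℕ) (b : Module.Basis (Fin δ) (adjoin ℂ (Set.range y)) K),
      ∀ j, b j = z ^ (j : ℕ) := by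
    let pb := PowerBasis.ofAdjoinEqTop (IsIntegral.of_finite (adjoin ℂ (Set.range y)) z)
      ((adjoin_eq_top_iff_of_isAlgebraic fun a _ => Algebra.IsAlgebraic.isAlgebraic a).1 hz)
    exact ⟨pb.dim, pb.basis, fun j => by rw [pb.basis_eq_pow, PowerBasis.ofAdjoinEqTop_gen]⟩
  have hb1 : ∀ j, b j ∈ Bd y δ := fun j => by
    rw [hb]
    exact Bd_mono y (by omega) (pow_mem_Bd y hz2 j)
  choose G₀ _ hG using fun i j => kl_trace y hy.1 (mul_mem_Bd y (hb1 i) (hb1 j))
  have hG' : (aeval y).toRingHom.mapMatrix (Matrix.of G₀) =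
      (algebraMap (adjoin ℂ (Set.range y)) K).mapMatrix (Algebra.traceMatrix _ b) :=
    Matrix.ext fun i j => hG i j
  refine ⟨y, z, algebraMap (adjoin ℂ (Set.range y)) K (Algebra.discr _ b), δ,
    δ + Finset.univ.sup fun q : Fin δ × Fin δ => ((Matrix.of G₀).adjugate q.1 q.2).totalDegree,
    hy1, hz1, hy, hz2, (map_ne_zero _).2 (Algebra.discr_not_zero_of_basis _ b), hz,
    fun μ r hr => ?_⟩
  choose t₀ ht1 ht using fun i => kl_trace y hy.1 (mul_mem_Bd y (Bd_le_Bd x y hy2 μ hr) (hb1 i))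
  refine ⟨(Matrix.of G₀).adjugate.mulVec t₀, fun j => ?_, ?_⟩
  · refine totalDegree_finsetSum_le fun i _ => (totalDegree_mul _ _).trans ?_
    have h1 := Finset.le_sup (f := fun q : Fin δ × Fin δ =>
      ((Matrix.of G₀).adjugate q.1 q.2).totalDegree) (Finset.mem_univ (j, i))
    have h2 := ht1 i
    dsimp only at h1 ⊢
    omega
  · have h1 : (aeval y).toRingHom ∘ t₀ = algebraMap (adjoin ℂ (Set.range y)) K ∘
        (Algebra.traceMatrix _ b).mulVec (b.equivFun r) := by
      rw [Algebra.traceMatrix_of_basis_mulVec]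
      exact funext ht
    conv_lhs => rw [← b.sum_equivFun r, Finset.mul_sum]
    refine Finset.sum_congr rfl fun j _ => ?_
    have h2 := RingHom.map_mulVec (aeval y).toRingHom (Matrix.of G₀).adjugate t₀ j
    rw [← RingHom.mapMatrix_apply, RingHom.map_adjugate, hG', ← RingHom.map_adjugate, h1,
      RingHom.mapMatrix_apply, ← RingHom.map_mulVec, Matrix.mulVec_mulVec, Matrix.adjugate_mul,
      Matrix.smul_mulVec, Matrix.one_mulVec, Pi.smul_apply, smul_eq_mul, map_mul] at h2
    rw [← hb, Algebra.smul_def, ← mul_assoc]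
    exact congrArg (· * b j) h2.symm

end Pool.Agent.Lib.MP_bc213e_ag.Hyp
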