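import Pool.Agent.Lib.MP_bc213e_ag.Hyp.ADefs

/-! The linear Pluennecke-Ruzsa inequality. -/

namespace Pool.Agent.Lib.MP_bc213e_ag.Hyp

open Module

variable {K : Type} [Field K] [Algebra ℂ K]

theorem fd_mul (A B : Submodule ℂ K) [FiniteDimensional ℂ A] [FiniteDimensional ℂ B] :
    FiniteDimensional ℂ ↥(A * B) := by
  exact Module.Finite.iff_fg.2
    ((Module.Finite.iff_fg.1 ‹FiniteDimensional ℂ A›).mul (Module.Finite.iff_fg.1 ‹_›))

theorem fd_pow (A : Submodule ℂ K) [FiniteDimensional ℂ A] (a : ℕ) :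
    FiniteDimensional ℂ ↥(A ^ a) := by
  exact Module.Finite.iff_fg.2 ((Module.Finite.iff_fg.1 ‹_›).pow a)

/-- If `z A ≤ B` with `z ≠ 0` then `A` is finite dimensional of dimension at most `dim B`. -/
theorem finrank_le_of_mul (A B : Submodule ℂ K) [FiniteDimensional ℂ B] {z : K} (hz : z ≠ 0)
    (h : ∀ a ∈ A, z * a ∈ B) : FiniteDimensional ℂ A ∧ finrank ℂ A ≤ finrank ℂ B := by
  have hi : Function.Injective ((LinearMap.mulLeft ℂ z).restrict h) := fun a b e =>
    Subtype.ext (mul_left_cancel₀ hz (congrArg Subtype.val e))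
  exact ⟨Module.Finite.of_injective _ hi, LinearMap.finrank_le_finrank_of_injective hi⟩

theorem PR_span (M : Submodule ℂ K) [FiniteDimensional ℂ M] {c : K} (hc : c ≠ 0) :
    finrank ℂ ↥(M * Submodule.span ℂ {c}) = finrank ℂ M := by
  have := fd_mul M (Submodule.span ℂ {c})
  refine le_antisymm (finrank_le_of_mul _ _ (inv_ne_zero hc) fun a ha => ?_).2
    (finrank_le_of_mul _ _ hc fun a ha => Submodule.mem_mul_span_singleton.2 ⟨a, ha, mul_comm _ _⟩).2
  obtain ⟨x, hx, rfl⟩ := Submodule.mem_mul_span_singleton.1 ha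
  rwa [mul_comm x, inv_mul_cancel_left₀ hc]

theorem PR_key (X B : Submodule ℂ K) [FiniteDimensional ℂ X] [FiniteDimensional ℂ B]
    (h : ∀ Z ≤ X, finrank ℂ ↥(X * B) * finrank ℂ Z ≤ finrank ℂ ↥(Z * B) * finrank ℂ X)
    (t : Finset K) : finrank ℂ ↥(X * B * Submodule.span ℂ (t : Set K)) * finrank ℂ X ≤
      finrank ℂ ↥(X * B) * finrank ℂ ↥(X * Submodule.span ℂ (t : Set K)) := by
  classical
  induction t using Finset.induction_on with
  | empty =>
    rw [Finset.coe_empty, Submodule.span_empty, Submodule.mul_bot, finrank_bot, zero_mul]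
    exact Nat.zero_le _
  | insert c t _ ih =>
    rw [Finset.coe_insert, Submodule.span_insert]
    rcases eq_or_ne c 0 with rfl | hc
    · rwa [Submodule.span_zero_singleton, bot_sup_eq]
    have : FiniteDimensional ℂ (Submodule.span ℂ (t : Set K)) := inferInstance
    generalize Submodule.span ℂ (t : Set K) = C at *
    obtain ⟨Z, hZ⟩ : ∃ Z, Z = X ⊓ (X * B * C / (B * Submodule.span ℂ {c})) := ⟨_, rfl⟩
    have hZX : Z ≤ X := hZ ▸ inf_le_left
    have := Submodule.finiteDimensional_of_le hZX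
    have := fd_mul X B
    have := fd_mul Z B
    have := fd_mul X C
    have := fd_mul (X * B) C
    have := fd_mul X (Submodule.span ℂ {c})
    have := fd_mul Z (Submodule.span ℂ {c})
    have := fd_mul (X * B) (Submodule.span ℂ {c})
    have e1 := Submodule.finrank_sup_add_finrank_inf_eq (X * B * Submodule.span ℂ {c}) (X * B * C)
    have e3 := Submodule.finrank_sup_add_finrank_inf_eq (X * Submodule.span ℂ {c}) (X * C)
    have e2 : Z * B * Submodule.span ℂ {c} ≤ X * B * Submodule.span ℂ {c} ⊓ X * B * C := by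
      refine le_inf (mul_le_mul' (mul_le_mul' hZX le_rfl) le_rfl) ?_
      rw [mul_assoc]
      exact Submodule.le_div_iff_mul_le.1 (hZ ▸ inf_le_right)
    have e4 : X * Submodule.span ℂ {c} ⊓ X * C ≤ Z * Submodule.span ℂ {c} := by
      rintro u ⟨h1, h2⟩
      obtain ⟨x, hx, rfl⟩ := Submodule.mem_mul_span_singleton.1 h1
      refine Submodule.mem_mul_span_singleton.2 ⟨x, ?_, rfl⟩
      rw [hZ]
      refine ⟨hx, Submodule.mem_div_iff_forall_mul_mem.2 fun y hy => ?_⟩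
      obtain ⟨b, hb, rfl⟩ := Submodule.mem_mul_span_singleton.1 hy
      rw [mul_right_comm X, mul_comm b, ← mul_assoc]
      exact Submodule.mul_mem_mul h2 hb
    have e5 := Submodule.finrank_mono e2
    have e6 := Submodule.finrank_mono e4
    rw [PR_span _ hc] at e1 e3 e5 e6
    have e7 := h Z hZX
    have e8 := Nat.mul_le_mul_right (finrank ℂ X) e5
    have e9 := Nat.mul_le_mul_left (finrank ℂ ↥(X * B)) e6
    have f1 := congrArg (· * finrank ℂ X) e1
    have f3 := congrArg (finrank ℂ ↥(X * B) * ·) e3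
    simp only [add_mul, mul_add] at f1 f3
    rw [Submodule.mul_sup, Submodule.mul_sup]
    omega

/-- Sketch (Petridis). Trivial for `A = ⊥`. Otherwise choose `X ≤ A`, `X ≠ ⊥`, minimising
`dim (X B) / dim X` (finitely many values; or minimise over pairs of naturals), so that
`dim (X B) * dim Z ≤ dim (Z B) * dim X` for all `Z ≤ A`. Claim
`dim (X B C) * dim X ≤ dim (X B) * dim (X C)` for all finite dimensional `C`, by induction on a
finite generating set: `C' = C ⊔ span {c}`, `c ≠ 0`; `Z = {x ∈ X | ∀ b ∈ B, x c b ∈ X B C}`;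
`dim (X B C') = dim (X B C) + dim (X B) - dim (X B C ⊓ X B c)` and `Z B c ≤ X B C ⊓ X B c`;
`dim (X C') = dim (X C) + dim X - dim (X C ⊓ X c)` and `X C ⊓ X c ≤ Z c`. Finally
`dim (B C) ≤ dim (X B C)` (multiply by a nonzero element of `X`) and `X C ≤ A C`. -/
theorem pr (A B C : Submodule ℂ K) [FiniteDimensional ℂ A] [FiniteDimensional ℂ B]
    [FiniteDimensional ℂ C] :
    finrank ℂ A * finrank ℂ ↥(B * C) ≤ finrank ℂ ↥(A * B) * finrank ℂ ↥(A * C) := by
  rcases eq_or_ne A ⊥ with rfl | hA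
  · simp
  have := fd_mul A B
  have := fd_mul A C
  obtain ⟨_, ⟨X, hX, h0, rfl⟩, hmin⟩ := Set.exists_min_image
    {p : ℕ × ℕ | ∃ X ≤ A, X ≠ ⊥ ∧ p = (finrank ℂ X, finrank ℂ ↥(X * B))}
    (fun p => (p.2 : ℚ) / p.1) ((Set.finite_Iic (finrank ℂ A, finrank ℂ ↥(A * B))).subset (by
      rintro _ ⟨X, hX, -, rfl⟩
      exact ⟨Submodule.finrank_mono hX, Submodule.finrank_mono (mul_le_mul' hX le_rfl)⟩))
    ⟨_, A, le_rfl, hA, rfl⟩
  have pos : ∀ Z ≤ A, Z ≠ ⊥ → 0 < finrank ℂ Z := fun Z hZ h => by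
    have := Submodule.finiteDimensional_of_le hZ
    exact Nat.pos_of_ne_zero fun e => h (Submodule.finrank_eq_zero.1 e)
  have hm : ∀ Z ≤ A, finrank ℂ ↥(X * B) * finrank ℂ Z ≤ finrank ℂ ↥(Z * B) * finrank ℂ X := by
    intro Z hZ
    rcases eq_or_ne Z ⊥ with rfl | h
    · simp
    have e := hmin _ ⟨Z, hZ, h, rfl⟩
    rw [div_le_div_iff₀ (by exact_mod_cast pos X hX h0) (by exact_mod_cast pos Z hZ h)] at e
    exact_mod_cast e
  have := Submodule.finiteDimensional_of_le hX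
  obtain ⟨t, rfl⟩ : C.FG := Module.Finite.iff_fg.1 ‹_›
  have e1 := PR_key X B (fun Z hZ => hm Z (hZ.trans hX)) t
  generalize Submodule.span ℂ (t : Set K) = C at *
  have := fd_mul X B
  have := fd_mul (X * B) C
  obtain ⟨x, hx, hx0⟩ := Submodule.exists_mem_ne_zero_of_ne_bot h0
  have e2 := (finrank_le_of_mul (B * C) (X * B * C) hx0 fun a ha => by
    rw [mul_assoc]
    exact Submodule.mul_mem_mul hx ha).2
  have e3 : finrank ℂ ↥(X * C) ≤ finrank ℂ ↥(A * C) :=
    Submodule.finrank_mono (mul_le_mul' hX le_rfl)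
  refine Nat.le_of_mul_le_mul_right ?_ (pos X hX h0)
  calc finrank ℂ A * finrank ℂ ↥(B * C) * finrank ℂ X
      ≤ finrank ℂ A * (finrank ℂ ↥(X * B * C) * finrank ℂ X) := by
        rw [mul_assoc]
        gcongr
    _ ≤ finrank ℂ A * (finrank ℂ ↥(X * B) * finrank ℂ ↥(A * C)) :=
        Nat.mul_le_mul_left _ (e1.trans (Nat.mul_le_mul_left _ e3))
    _ = finrank ℂ ↥(X * B) * finrank ℂ A * finrank ℂ ↥(A * C) := by ring
    _ ≤ finrank ℂ ↥(A * B) * finrank ℂ X * finrank ℂ ↥(A * C) :=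
        Nat.mul_le_mul_right _ (hm A le_rfl)
    _ = _ := by ring

theorem pow_mono_of_one (V : Submodule ℂ K) (h1 : (1 : K) ∈ V) {a b : ℕ} (h : a ≤ b) :
    V ^ a ≤ V ^ b := by
  exact pow_le_pow_right' (Submodule.one_le.2 h1) h

theorem dm_mono (V : Submodule ℂ K) [FiniteDimensional ℂ V] (h1 : (1 : K) ∈ V) (ψ : K →ₐ[ℂ] K)
    {a b a' b' : ℕ} (ha : a ≤ a') (hb : b ≤ b') : dm V ψ a b ≤ dm V ψ a' b' := by
  have := fd_pow V a'
  have := fd_pow (V.map ψ.toLinearMap) b'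
  have := fd_mul (V ^ a') (V.map ψ.toLinearMap ^ b')
  exact Submodule.finrank_mono (mul_le_mul' (pow_mono_of_one V h1 ha)
    (pow_mono_of_one (V.map ψ.toLinearMap) ⟨1, h1, map_one ψ⟩ hb))

/-- Sketch: `pr` for `A.map ψ`, `V ^ τ`, `(V.map (ψ * ψ)) ^ τ`; `ψ` is injective and
`Submodule.map_mul`, `Submodule.map_pow` move it through products:
`ψ(A) ψψ(V) ^ τ = ψ(A ψ(V) ^ τ)`, `z A ψ(V) ^ τ ≤ V ^ α ψ(V) ^ (β + τ)` and
`z' ψ(A) V ^ τ ≤ V ^ (β + τ) ψ(V) ^ α`. -/
theorem prg (V A : Submodule ℂ K) [FiniteDimensional ℂ V] (ψ : K →ₐ[ℂ] K) (α β τ : ℕ) {z z' : K}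
    (hz : z ≠ 0) (hz' : z' ≠ 0) (h1 : ∀ a ∈ A, z * a ∈ V ^ α * V.map ψ.toLinearMap ^ β)
    (h2 : ∀ a ∈ A, z' * ψ a ∈ V.map ψ.toLinearMap ^ α * V ^ β) :
    finrank ℂ A * dm V (ψ * ψ) τ τ ≤ dm V ψ α (β + τ) * dm V ψ (β + τ) α := by
  have fd : ∀ a b : ℕ, FiniteDimensional ℂ ↥(V ^ a * V.map ψ.toLinearMap ^ b) := fun a b => by
    have := fd_pow V a
    have := fd_pow (V.map ψ.toLinearMap) b
    exact fd_mul _ _
  have hm : ∀ M : Submodule ℂ K, finrank ℂ (M.map ψ.toLinearMap) = finrank ℂ M := fun M =>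
    (Submodule.equivMapOfInjective ψ.toLinearMap ψ.injective M).finrank_eq.symm
  have := fd α β
  have := (finrank_le_of_mul A _ hz h1).1
  have := fd_pow V τ
  have := fd_pow (V.map (ψ * ψ).toLinearMap) τ
  have e := pr (A.map ψ.toLinearMap) (V ^ τ) (V.map (ψ * ψ).toLinearMap ^ τ)
  have e0 : V.map (ψ * ψ).toLinearMap = (V.map ψ.toLinearMap).map ψ.toLinearMap :=
    Submodule.map_comp ψ.toLinearMap ψ.toLinearMap V
  have e1 : finrank ℂ ↥(A.map ψ.toLinearMap * V.map (ψ * ψ).toLinearMap ^ τ) ≤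
      dm V ψ α (β + τ) := by
    rw [e0, ← Submodule.map_pow, ← Submodule.map_mul, hm]
    have := fd α (β + τ)
    refine (finrank_le_of_mul _ _ hz fun a ha => ?_).2
    refine Submodule.mul_induction_on ha (fun m hm n hn => ?_) fun u v hu hv => ?_
    · rw [← mul_assoc, pow_add, ← mul_assoc]
      exact Submodule.mul_mem_mul (h1 m hm) hn
    · rw [mul_add]
      exact add_mem hu hv
  have e2 : finrank ℂ ↥(A.map ψ.toLinearMap * V ^ τ) ≤ dm V ψ (β + τ) α := by
    have := fd (β + τ) α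
    refine (finrank_le_of_mul _ _ hz' fun a ha => ?_).2
    refine Submodule.mul_induction_on ha (fun m hm n hn => ?_) fun u v hu hv => ?_
    · obtain ⟨m, hm, rfl⟩ := hm
      rw [← mul_assoc, pow_add, mul_comm (V ^ β * V ^ τ), ← mul_assoc]
      exact Submodule.mul_mem_mul (h2 m hm) hn
    · rw [mul_add]
      exact add_mem hu hv
  rw [hm] at e
  exact e.trans ((Nat.mul_le_mul e2 e1).trans_eq (mul_comm _ _))

end Pool.Agent.Lib.MP_bc213e_ag.Hyp
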