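import Pool.Agent.Lib.MP_bc213e_ag.Hyp.CD
import Pool.Agent.Lib.MP_bc213e_ag.Hyp.PR

/-! Consequences of the conductor theorem. -/

namespace Pool.Agent.Lib.MP_bc213e_ag.Hyp

open MvPolynomial IntermediateField

variable {K κ : Type} [Field K] [Algebra ℂ K]

theorem aeval_mem_pow {σ : Type} (V : Submodule ℂ K) (h1 : (1 : K) ∈ V) (Y : σ → K)
    (hY : ∀ l, Y l ∈ V) (q : MvPolynomial σ ℂ) {d : ℕ} (hq : q.totalDegree ≤ d) :
    aeval Y q ∈ V ^ d := by
  have key : ∀ (m : σ →₀ ℕ) (s : Finset σ), ∏ i ∈ s, Y i ^ m i ∈ V ^ ∑ i ∈ s, m i := by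
    intro m s
    classical
    induction s using Finset.induction_on with
    | empty => simp
    | insert i s hi ih =>
      rw [Finset.prod_insert hi, Finset.sum_insert hi, pow_add]
      exact Submodule.mul_mem_mul (Submodule.pow_mem_pow V (hY i) _) ih
  rw [q.as_sum, map_sum]
  refine Submodule.sum_mem _ fun m hm => ?_
  rw [aeval_monomial, ← Algebra.smul_def]
  exact Submodule.smul_mem _ _ (pow_mono_of_one V h1 ((le_totalDegree hm).trans hq) (key m _))

variable [Fintype κ] {n : ℕ}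

theorem cd_cond (x : κ → K) (gen : adjoin ℂ (Set.range x) = ⊤) (dim : Algebra.trdeg ℂ K = n)
    (V : Submodule ℂ K) (h1 : (1 : K) ∈ V) (hx : ∀ i, x i ∈ V) :
    ∃ (e : K) (c₀ : ℕ), e ≠ 0 ∧ ∀ μ, ∀ r ∈ Bd x μ, e * r ∈ V ^ (μ + c₀) := by
  obtain ⟨y, z, e, δ, c₀, hy, hz, -, -, he, -, h⟩ := cd x gen dim
  have hV : Submodule.span ℂ (Set.range x) ≤ V := Submodule.span_le.2 (Set.range_subset_iff.2 hx)
  refine ⟨e, c₀ + δ, he, fun μ r hr => ?_⟩
  obtain ⟨p, hp, hr⟩ := h μ r hr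
  rw [hr, ← add_assoc, pow_add]
  exact Submodule.sum_mem _ fun j _ => Submodule.mul_mem_mul
    (aeval_mem_pow V h1 y (fun l => hV (hy l)) _ (hp j))
    (pow_mono_of_one V h1 j.2.le (Submodule.pow_mem_pow V (hV hz) _))

/-- Sketch: `e * Bd x μ` lies in the span of the `δ (μ + c₀ + 1) ^ n` elements
`(∏ l, y l ^ a l) * z ^ j`, `a : Fin n → Fin (μ + c₀ + 1)`; `B = δ (c₀ + 1) ^ n`. -/
theorem cd_dim (x : κ → K) (gen : adjoin ℂ (Set.range x) = ⊤) (dim : Algebra.trdeg ℂ K = n) :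
    ∃ B : ℕ, ∀ μ, FiniteDimensional ℂ (Bd x μ) ∧ Module.finrank ℂ (Bd x μ) ≤ B * (μ + 1) ^ n := by
  obtain ⟨y, z, e, δ, c₀, -, -, -, -, he, -, h⟩ := cd x gen dim
  refine ⟨δ * (c₀ + 1) ^ n, fun μ => ?_⟩
  let b : Fin δ × (Fin n → Fin (μ + c₀ + 1)) → K := fun a =>
    (∏ l, y l ^ (a.2 l : ℕ)) * z ^ (a.1 : ℕ)
  have : FiniteDimensional ℂ (Submodule.span ℂ (Set.range b)) :=
    FiniteDimensional.span_of_finite ℂ (Set.finite_range b)
  obtain ⟨h1, h2⟩ := finrank_le_of_mul (Bd x μ) (Submodule.span ℂ (Set.range b)) he fun r hr => by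
    obtain ⟨p, hp, hr⟩ := h μ r hr
    rw [hr]
    refine Submodule.sum_mem _ fun j _ => ?_
    rw [(p j).as_sum, map_sum, Finset.sum_mul]
    refine Submodule.sum_mem _ fun m hm => ?_
    rw [aeval_monomial, ← Algebra.smul_def, smul_mul_assoc, Finsupp.prod_fintype _ _ (by simp)]
    refine Submodule.smul_mem _ _ (Submodule.subset_span ⟨(j, fun l => ⟨m l, ?_⟩), rfl⟩)
    exact Nat.lt_succ_of_le (((monomial_le_degreeOf l hm).trans (degreeOf_le_totalDegree _ _)).trans
      (hp j))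
  refine ⟨h1, h2.trans ((finrank_range_le_card b).trans ?_)⟩
  rw [Fintype.card_prod, Fintype.card_fun, Fintype.card_fin, Fintype.card_fin, Fintype.card_fin,
    mul_assoc, ← mul_pow]
  exact Nat.mul_le_mul_left _ (Nat.pow_le_pow_left (by nlinarith) _)

/-- Sketch: `Y none = z`, `Y (some l) = y l`. Make `K` an algebra over `R = MvPolynomial (Fin n) ℂ`
through `aeval y` (injective); `z` is integral (`isIntegral_of_Bd`); `P` corresponds to
`minpoly R z` under `optionEquivLeft` (`minpoly.isIntegrallyClosed_dvd`,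
`natDegree_optionEquivLeft`). Certificate: `(aeval Y q)⁻¹` is a polynomial in `z` with
coefficients in `ℂ(y)`; clear denominators; `ρ = rename some ρ₀`. -/
theorem cd_hyp (x : κ → K) (gen : adjoin ℂ (Set.range x) = ⊤) (dim : Algebra.trdeg ℂ K = n) :
    ∃ (Y : Option (Fin n) → K) (P : MvPolynomial (Option (Fin n)) ℂ) (e : K) (c₀ : ℕ),
      (∀ l, Y l ∈ Submodule.span ℂ (Set.range x)) ∧ e ≠ 0 ∧ P.degreeOf none ≠ 0 ∧
      (∀ q, aeval Y q = 0 ↔ P ∣ q) ∧
      (∀ μ, ∀ r ∈ Bd x μ, ∃ q : MvPolynomial (Option (Fin n)) ℂ,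
        q.totalDegree ≤ μ + c₀ ∧ aeval Y q = e * r) ∧
      ∀ q, aeval Y q ≠ 0 → ∃ c ρ : MvPolynomial (Option (Fin n)) ℂ,
        ρ ≠ 0 ∧ ρ.degreeOf none = 0 ∧ P ∣ q * c - ρ := by
  obtain ⟨y, z, e, δ, c₀, hy, hz, htb, hzB, he, -, h⟩ := cd x gen dim
  let _ : Algebra (MvPolynomial (Fin n) ℂ) K := (aeval y).toRingHom.toAlgebra
  have hal : ∀ p : MvPolynomial (Fin n) ℂ, algebraMap (MvPolynomial (Fin n) ℂ) K p = aeval y p :=
    fun _ => rfl
  have hinj : Function.Injective (algebraMap (MvPolynomial (Fin n) ℂ) K) := htb.1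
  have : FaithfulSMul (MvPolynomial (Fin n) ℂ) K :=
    (faithfulSMul_iff_algebraMap_injective _ _).2 hinj
  have hint : IsIntegral (MvPolynomial (Fin n) ℂ) z :=
    IsIntegral.map_of_comp_eq (htb.1.aevalEquiv.symm : _ →+* _) (RingHom.id K) (by
      ext a
      obtain ⟨p, rfl⟩ := htb.1.aevalEquiv.surjective a
      simp [hal]) (isIntegral_of_Bd y hzB)
  let Y : Option (Fin n) → K := fun l => l.elim z y
  have hY : ∀ q, aeval Y q = Polynomial.aeval z (optionEquivLeft ℂ (Fin n) q) := by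
    intro q
    induction q using MvPolynomial.induction_on with
    | C a => simp [optionEquivLeft_C, hal]
    | add p q hp hq => rw [map_add, map_add, map_add, hp, hq]
    | mul_X p l hp =>
      rw [map_mul, map_mul, map_mul, hp]
      cases l <;> simp [optionEquivLeft_X_none, optionEquivLeft_X_some, hal, Y]
  have hP : ∀ q, aeval Y q = 0 ↔
      (optionEquivLeft ℂ (Fin n)).symm (minpoly (MvPolynomial (Fin n) ℂ) z) ∣ q := by
    intro q
    rw [hY, minpoly.isIntegrallyClosed_dvd_iff hint, ← map_dvd_iff (optionEquivLeft ℂ (Fin n)),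
      AlgEquiv.apply_symm_apply]
  refine ⟨Y, _, e, c₀ + δ, fun l => ?_, he, ?_, hP, fun μ r hr => ?_, fun q hq => ?_⟩
  · cases l
    exacts [hz, hy _]
  · rw [← natDegree_optionEquivLeft, AlgEquiv.apply_symm_apply]
    exact (minpoly.natDegree_pos hint).ne'
  · obtain ⟨p, hp, hr⟩ := h μ r hr
    refine ⟨∑ j, rename some (p j) * X none ^ (j : ℕ), ?_, ?_⟩
    · refine totalDegree_finsetSum_le fun j _ => (totalDegree_mul _ _).trans ?_
      have h1 := (totalDegree_rename_le some (p j)).trans (hp j)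
      have h2 := j.2
      rw [totalDegree_X_pow]
      omega
    · rw [hr, map_sum]
      refine Finset.sum_congr rfl fun j _ => ?_
      rw [map_mul, map_pow, aeval_X, aeval_rename]
      rfl
  · rw [hY] at hq
    have hw : IsIntegral (MvPolynomial (Fin n) ℂ)
        (Polynomial.aeval z (optionEquivLeft ℂ (Fin n) q)) :=
      IsIntegral.of_mem_of_fg _ hint.fg_adjoin_singleton _ (Polynomial.aeval_mem_adjoin_singleton _ _)
    obtain ⟨m, hm0, hm⟩ := hw.isAlgebraic.exists_nonzero_coeff_and_aeval_eq_zero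
      (mem_nonZeroDivisors_of_ne_zero hq)
    refine ⟨(optionEquivLeft ℂ (Fin n)).symm (-m.divX.comp (optionEquivLeft ℂ (Fin n) q)),
      (optionEquivLeft ℂ (Fin n)).symm (Polynomial.C (m.coeff 0)), ?_, ?_, ?_⟩
    · simpa using hm0
    · rw [← natDegree_optionEquivLeft, AlgEquiv.apply_symm_apply, Polynomial.natDegree_C]
    · rw [← hP, hY, map_sub, map_mul, AlgEquiv.apply_symm_apply, AlgEquiv.apply_symm_apply, map_sub,
        map_mul, map_neg, Polynomial.aeval_comp, Polynomial.aeval_C]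
      rw [← m.divX_mul_X_add, map_add, map_mul, Polynomial.aeval_X, Polynomial.aeval_C] at hm
      linear_combination -hm

end Pool.Agent.Lib.MP_bc213e_ag.Hyp
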