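import Mathlib

/-!
Definitions for the theorem on pairs with a cohomologically hyperbolic rational self-map.

`K` is the function field of `X`, and `X` is the closure of the image of `[x i]` in projective space.
-/

namespace Pool.Agent.Lib.MP_bc213e_ag.Hyp

open Filter Topology WithZero

variable {K ι : Type} [Field K] [Algebra ℂ K]

/-- Coordinate ring of the affine chart `x i ≠ 0` of `X`. -/
def chart (x : ι → Kˣ) (i : ι) : Subalgebra ℂ K :=
  Algebra.adjoin ℂ (Set.range fun j => (x j : K) / x i)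

/-- `s` is a global section of `t L + a H`, where `g i` generates `L` and `x i` generates the
hyperplane bundle `H` on the chart `i`. -/
def Sec (x g : ι → Kˣ) (t : ℤ) (a : ℕ) (s : K) : Prop :=
  ∀ i, s / ((g i : K) ^ t * (x i : K) ^ a) ∈ chart x i

/-- `t L + a H` is generated by its global sections. -/
def Free (x g : ι → Kˣ) (t : ℤ) (a : ℕ) : Prop :=
  ∀ i, (g i : K) ^ t * (x i : K) ^ a ∈ Submodule.span (chart x i) {s | Sec x g t a s}

/-- `w` is the order of vanishing (written multiplicatively) along a prime divisor of `Spec A`: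
`w` is onto and its valuation ring is a localisation of `A`. -/
def PrimeDiv (A : Subalgebra ℂ K) (w : Valuation K (WithZero (Multiplicative ℤ))) : Prop :=
  (∃ π, w π = exp (-1)) ∧ (∀ r ∈ A, w r ≤ 1) ∧ ∀ z, w z ≤ 1 → ∃ b ∈ A, w b = 1 ∧ b * z ∈ A

/-- The Jacobian: `du₁ ∧ ⋯ ∧ duₙ = jac D u • dτ₁ ∧ ⋯ ∧ dτₙ` if `D a = ∂/∂τₐ`. -/
noncomputable def jac {n : ℕ} (D : Fin n → Derivation ℂ K K) (u : Fin n → K) : K :=
  (Matrix.of fun a b => D a (u b)).det

/-- The `m`-canonical form `g (dτ₁ ∧ ⋯ ∧ dτₙ)^m` has log order at least `c` at `w`: it is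
`r (du₁ ∧ ⋯ ∧ duₙ / uₐ)^m` with `u` regular at `w` and `r` of order at least `c` at `w`. -/
def LD {n : ℕ} (D : Fin n → Derivation ℂ K K) (m : ℕ)
    (w : Valuation K (WithZero (Multiplicative ℤ))) (g : K) (c : ℤ) : Prop :=
  ∃ (u : Fin n → K) (a : Fin n), (∀ b, w (u b) ≤ 1) ∧ jac D u ≠ 0 ∧
    w (g * u a ^ m / jac D u ^ m) ≤ exp (-c)

/-- `dim (V ^ a * ψ(V) ^ b)`, the bigraded Hilbert function of the graph of the rational map with
pull-back `ψ`. -/
noncomputable def dm (V : Submodule ℂ K) (ψ : K →ₐ[ℂ] K) (a b : ℕ) : ℕ :=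
  Module.finrank ℂ ↥(V ^ a * V.map ψ.toLinearMap ^ b)

/-- `d j` is the degree `H ^ (n - j) · (f^* H) ^ j`: the volume of `a H + b f^* H` on the graph of
`f` is `∑ j, (n choose j) (d j) a ^ (n - j) b ^ j`. -/
def IsDegrees (n : ℕ) (V : Submodule ℂ K) (ψ : K →ₐ[ℂ] K) (d : ℕ → ℕ) : Prop :=
  ∀ a b : ℕ, 0 < a → 0 < b →
    Tendsto (fun μ : ℕ => (n.factorial * dm V ψ (a * μ) (b * μ) : ℝ) / μ ^ n) atTop
      (𝓝 (∑ j ∈ Finset.range (n + 1), (n.choose j * d j * a ^ (n - j) * b ^ j : ℝ)))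

/-- `lam 0, …, lam n` are the dynamical degrees of the rational map with pull-back `φ`. -/
def IsDynDegrees (n : ℕ) (V : Submodule ℂ K) (φ : K →ₐ[ℂ] K) (lam : ℕ → ℝ) : Prop :=
  ∃ d : ℕ → ℕ → ℕ, (∀ k, IsDegrees n V (φ ^ k) (d k)) ∧
    ∀ j ≤ n, Tendsto (fun k : ℕ => (d k j : ℝ) ^ (1 / k : ℝ)) atTop (𝓝 (lam j))

end Pool.Agent.Lib.MP_bc213e_ag.Hyp
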