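import Pool.Agent.Lib.MP_bc213e_ag.Hyp.ADefs

/-! Places with values in `ℂ`. -/

namespace Pool.Agent.Lib.MP_bc213e_ag.Hyp

variable {F : Type} [Field F] [Algebra ℂ F]

theorem res_const {O : ValuationSubring F} (h : ∀ c : ℂ, algebraMap ℂ F c ∈ O) {c : ℂ}
    (hc : c ≠ 0) : O.valuation (algebraMap ℂ F c) = 1 := by
  have h1 := (O.valuation_le_one_iff _).2 (h c)
  have h2 := (O.valuation_le_one_iff _).2 (h c⁻¹)
  refine le_antisymm h1 ?_
  calc (1 : O.ValueGroup) = O.valuation (algebraMap ℂ F c) * O.valuation (algebraMap ℂ F c⁻¹) := by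
        rw [← map_mul, ← map_mul, mul_inv_cancel₀ hc, map_one, map_one]
    _ ≤ O.valuation (algebraMap ℂ F c) * 1 := mul_le_mul_right h2 _
    _ = _ := mul_one _

theorem res_uniq {O : ValuationSubring F} (h : ∀ c : ℂ, algebraMap ℂ F c ∈ O) {z : F} {c c' : ℂ}
    (h1 : O.valuation (z - algebraMap ℂ F c) < 1) (h2 : O.valuation (z - algebraMap ℂ F c') < 1) :
    c = c' := by
  by_contra hne
  have h3 := O.valuation.map_sub_lt h2 h1
  rw [sub_sub_sub_cancel_left, ← map_sub, res_const h (sub_ne_zero.2 hne)] at h3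
  exact lt_irrefl _ h3

omit [Algebra ℂ F] in
theorem res_mul_lt {O : ValuationSubring F} {a b : F} (ha : a ∈ O) (hb : O.valuation b < 1) :
    O.valuation (a * b) < 1 := by
  rw [map_mul]
  exact (mul_le_of_le_one_left' ((O.valuation_le_one_iff _).2 ha)).trans_lt hb

theorem res_aeval {O : ValuationSubring F} (h : ∀ c : ℂ, algebraMap ℂ F c ∈ O) {z : F}
    (hz : ∀ c : ℂ, O.valuation (z - algebraMap ℂ F c) = 1) {q : Polynomial ℂ} (hq : q ≠ 0) :
    O.valuation (Polynomial.aeval z q) = 1 := by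
  rw [(IsAlgClosed.splits q).eq_prod_roots, map_mul, map_mul, Polynomial.aeval_C,
    res_const h (Polynomial.leadingCoeff_ne_zero.2 hq), one_mul, map_multiset_prod,
    map_multiset_prod]
  refine Multiset.prod_eq_one fun x hx => ?_
  simp only [Multiset.map_map, Multiset.mem_map] at hx
  obtain ⟨c, -, rfl⟩ := hx
  simpa using hz c

theorem res_of_min {O : ValuationSubring F} (h : ∀ c : ℂ, algebraMap ℂ F c ∈ O)
    (hmin : ∀ O₁ : ValuationSubring F, (∀ c : ℂ, algebraMap ℂ F c ∈ O₁) → O₁ ≤ O → O ≤ O₁)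
    {z : F} (hz : z ∈ O) : ∃ c : ℂ, O.valuation (z - algebraMap ℂ F c) < 1 := by
  by_contra hc
  have h1 : ∀ c : ℂ, O.valuation (z - algebraMap ℂ F c) = 1 := fun c =>
    le_antisymm ((O.valuation_le_one_iff _).2 (O.sub_mem hz (h c)))
      (not_lt.1 fun e => hc ⟨c, e⟩)
  have h2 : ∀ p : Polynomial ℂ, Polynomial.aeval z p ∈ O := fun p => by
    rcases eq_or_ne p 0 with rfl | hp
    · simp
    · exact (O.valuation_le_one_iff _).1 (res_aeval h h1 hp).le
  have h3 : ∀ {r : F} {p : Polynomial ℂ}, O.valuation (r - Polynomial.aeval z p) < 1 → r ∈ O :=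
    fun {r p} e => by
      simpa using O.add_mem _ _ ((O.valuation_le_one_iff _).1 e.le) (h2 p)
  have h4 : ∀ {r r' : F} {p p' : Polynomial ℂ}, O.valuation (r - Polynomial.aeval z p) < 1 →
      O.valuation (r' - Polynomial.aeval z p') < 1 →
      O.valuation (r * r' - Polynomial.aeval z (p * p')) < 1 := fun {r r' p p'} e e' => by
    have := O.valuation.map_add_lt (res_mul_lt (h3 e) e') (res_mul_lt (h2 p') e)
    rwa [show r * (r' - Polynomial.aeval z p') + Polynomial.aeval z p' *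
      (r - Polynomial.aeval z p) = r * r' - Polynomial.aeval z (p * p') by
        rw [map_mul]; ring] at this
  have h5 : ∀ {r r' : F} {p p' : Polynomial ℂ}, O.valuation (r - Polynomial.aeval z p) < 1 →
      O.valuation (r' - Polynomial.aeval z p') < 1 →
      O.valuation (r + r' - Polynomial.aeval z (p + p')) < 1 := fun {r r' p p'} e e' => by
    have := O.valuation.map_add_lt e e'
    rwa [show r - Polynomial.aeval z p + (r' - Polynomial.aeval z p') =
      r + r' - Polynomial.aeval z (p + p') by rw [map_add]; ring] at this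
  let R : Subring F :=
    { carrier := {r | ∃ p : Polynomial ℂ, O.valuation (r - Polynomial.aeval z p) < 1}
      mul_mem' := fun ⟨p, e⟩ ⟨p', e'⟩ => ⟨p * p', h4 e e'⟩
      one_mem' := ⟨1, by simp⟩
      add_mem' := fun ⟨p, e⟩ ⟨p', e'⟩ => ⟨p + p', h5 e e'⟩
      zero_mem' := ⟨0, by simp⟩
      neg_mem' := fun {r} ⟨p, e⟩ => ⟨-p, by
        rwa [map_neg, ← neg_sub', Valuation.map_neg]⟩ }
  let I : Ideal R :=
    { carrier := {r | ∃ p : Polynomial ℂ,
        O.valuation ((r : F) - Polynomial.aeval z (Polynomial.X * p)) < 1}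
      add_mem' := fun ⟨p, e⟩ ⟨p', e'⟩ => ⟨p + p', by rw [mul_add]; exact h5 e e'⟩
      zero_mem' := ⟨0, by simp⟩
      smul_mem' := fun ⟨r, p, e⟩ r' ⟨p', e'⟩ => ⟨p * p', by
        rw [mul_left_comm]; exact h4 e e'⟩ }
  have hI : I ≠ ⊤ := fun e => by
    obtain ⟨p, hp⟩ : (1 : R) ∈ I := e ▸ Submodule.mem_top
    have h6 : (1 - Polynomial.X * p : Polynomial ℂ) ≠ 0 := fun e' => by
      simpa using congrArg (Polynomial.coeff · 0) e'
    have h7 := res_aeval h h1 h6
    rw [map_sub, map_one] at h7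
    exact hp.ne h7
  obtain ⟨O₁, k1, k2⟩ := I.image_subset_nonunits_valuationSubring hI
  have k3 : O₁ ≤ O := ValuationSubring.nonunits_le_nonunits.1 fun a ha =>
    k2 ⟨⟨a, 0, by simpa using O.mem_nonunits_iff.1 ha⟩,
      ⟨0, by simpa using O.mem_nonunits_iff.1 ha⟩, rfl⟩
  have k4 : O ≤ O₁ := hmin O₁ (fun c => k1 ⟨Polynomial.C c, by simp⟩) k3
  have k5 : z ∈ O₁.nonunits := k2 ⟨⟨z, Polynomial.X, by simp⟩, ⟨1, by simp⟩, rfl⟩
  have k6 : O.valuation z < 1 := ValuationSubring.nonunits_le_nonunits.2 k4 k5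
  exact k6.ne (by simpa using h1 0)

/-- Sketch: by Zorn (`zorn_ge_nonempty₀` or `zorn_superset_nonempty`; the intersection of a chain
of valuation subrings is a valuation subring) take `O ≤ O'` minimal among the valuation subrings
containing `ℂ`. Let `z ∈ O` with `z - c` a unit of `O` for all `c`. Put `u = z⁻¹ ∈ O` (`u - c` is a
unit for all `c`), `R = ℂ[u] + 𝔪_O` (subring), `I = u ℂ[u] + 𝔪_O`, a proper ideal of `R` because
`1 - u p(u)` is a product of units (`IsAlgClosed.splits`). A valuation subring `O₁ ⊇ R` with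
`I ⊆ nonunits O₁` (`Ideal.image_subset_nonunits_valuationSubring`) satisfies `O₁ ≤ O`
(`ValuationSubring.nonunits_le_nonunits`) and `z ∉ O₁`, a contradiction. The residue is unique and
linear on the subspace `O`; extend it (`LinearMap.exists_extend`). -/
theorem exists_place_le (O' : ValuationSubring F) (h : ∀ c : ℂ, algebraMap ℂ F c ∈ O') :
    ∃ π : Place F, π.O ≤ O' := by
  obtain ⟨O, hO, hm⟩ := zorn_le_nonempty₀ (α := (ValuationSubring F)ᵒᵈ)
    {O : ValuationSubring F | ∀ c : ℂ, algebraMap ℂ F c ∈ O} (fun c hc hch y hy => by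
      refine ⟨ValuationSubring.ofSubring (⨅ O : c, (OrderDual.ofDual O.1).toSubring) fun x => ?_,
        fun a => Subring.mem_iInf.2 fun O => hc O.2 a, fun O hO a ha => Subring.mem_iInf.1 ha ⟨O, hO⟩⟩
      by_contra hx
      simp only [Subring.mem_iInf, not_or, not_forall] at hx
      obtain ⟨⟨O₁, h1⟩, O₂, h2⟩ := hx
      rcases hch.total O₁.2 O₂.2 with e | e
      · exact h1 (e (((OrderDual.ofDual O₂.1).mem_or_inv_mem x).resolve_right h2))
      · exact h2 (e (((OrderDual.ofDual O₁.1).mem_or_inv_mem x).resolve_left h1))) O' h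
  revert hO hm
  change ∀ _ : OrderDual.ofDual O ≤ O', _
  intro hO hm
  have h1 : ∀ c : ℂ, algebraMap ℂ F c ∈ OrderDual.ofDual O := hm.1
  have h2 : ∀ O₁ : ValuationSubring F, (∀ c : ℂ, algebraMap ℂ F c ∈ O₁) →
      O₁ ≤ OrderDual.ofDual O → OrderDual.ofDual O ≤ O₁ := fun O₁ e e' => hm.2 (y := O₁) e e'
  generalize OrderDual.ofDual O = Q at hO h1 h2
  let M : Submodule ℂ F :=
    { carrier := Q
      add_mem' := fun ha hb => Q.add_mem _ _ ha hb
      zero_mem' := Q.zero_mem
      smul_mem' := fun c z hz => by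
        rw [Algebra.smul_def]
        exact Q.mul_mem _ _ (h1 c) hz }
  choose r hr using fun z : M => res_of_min h1 h2 (z := z) z.2
  let f : M →ₗ[ℂ] ℂ :=
    { toFun := r
      map_add' := fun a b => res_uniq h1 (hr (a + b)) (by
        have := Q.valuation.map_add_lt (hr a) (hr b)
        rwa [sub_add_sub_comm, ← map_add] at this)
      map_smul' := fun c a => res_uniq h1 (hr (c • a)) (by
        have := res_mul_lt (h1 c) (hr a)
        rwa [mul_sub, ← map_mul, ← Algebra.smul_def] at this) }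
  obtain ⟨g, hg⟩ := f.exists_extend
  exact ⟨⟨Q, g, h1, fun z hz => by
    rw [show g z = r ⟨z, hz⟩ from LinearMap.congr_fun hg ⟨z, hz⟩]
    exact hr ⟨z, hz⟩⟩, hO⟩

instance : Nonempty (Place F) := by
  obtain ⟨π, -⟩ := exists_place_le (⊤ : ValuationSubring F) fun _ => ValuationSubring.mem_top _
  exact ⟨π⟩

/-- Sketch: if `z` is not integral over `A`, then `z ≠ 0` and `z⁻¹` generates a proper ideal of
`A' = ℂ[s, z⁻¹]`; a maximal ideal `𝔫` containing it has residue field `ℂ` (Nullstellensatz: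
`finite_of_finite_type_of_isJacobsonRing`, `IsAlgClosed.algebraMap_bijective_of_isIntegral`). Take
`O' ⊇ A'` with `𝔫 ⊆ nonunits O'` and `π.O ≤ O'`; `nonunits O' ≤ nonunits π.O`, so
`A' ⊆ ℂ + 𝔫 ⊆ π.O` and `z ∉ π.O`. -/
theorem isIntegral_of_places {s : Set F} (hs : s.Finite) {z : F}
    (h : ∀ π : Place F, (∀ a ∈ s, a ∈ π.O) → z ∈ π.O) : IsIntegral (Algebra.adjoin ℂ s) z := by
  by_contra hz
  obtain ⟨V, hV, hzV⟩ := Subring.exists_le_valuationSubring_of_isIntegrallyClosedIn (x := z)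
    (R := (integralClosure (Algebra.adjoin ℂ s) F).toSubring) hz
  have h0 : z ≠ 0 := fun e => hzV (e ▸ V.zero_mem)
  have hA : ∀ a ∈ Algebra.adjoin ℂ s, a ∈ V := fun a ha =>
    hV ((integralClosure (Algebra.adjoin ℂ s) F).algebraMap_mem ⟨a, ha⟩)
  have h1 : z⁻¹ ∈ V.nonunits := V.inv_mem_nonunits_iff.2 (Or.inr hzV)
  let A' := Algebra.adjoin ℂ (insert z⁻¹ s)
  have hA' : ∀ a ∈ A', a ∈ V := fun a ha => by
    induction ha using Algebra.adjoin_induction with
    | mem x hx =>
      rcases hx with rfl | hx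
      · exact ValuationSubring.nonunits_le h1
      · exact hA x (Algebra.subset_adjoin hx)
    | algebraMap c => exact hA _ (Subalgebra.algebraMap_mem _ c)
    | add x y _ _ hx hy => exact V.add_mem _ _ hx hy
    | mul x y _ _ hx hy => exact V.mul_mem _ _ hx hy
  let u : A' := ⟨z⁻¹, Algebra.subset_adjoin (Set.mem_insert _ _)⟩
  have h2 : Ideal.span {u} ≠ ⊤ := fun e => by
    obtain ⟨a, ha⟩ := Ideal.mem_span_singleton'.1 (show (1 : A') ∈ Ideal.span {u} from
      e ▸ Submodule.mem_top)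
    have h3 := res_mul_lt (hA' a a.2) h1
    rw [show (a : F) * z⁻¹ = 1 from congrArg Subtype.val ha, map_one] at h3
    exact lt_irrefl _ h3
  obtain ⟨n, hn, hle⟩ := Ideal.exists_le_maximal _ h2
  have : Algebra.FiniteType ℂ A' :=
    (Subalgebra.fg_iff_finiteType _).1 (Subalgebra.fg_def.2 ⟨_, hs.insert _, rfl⟩)
  let _ := Ideal.Quotient.field n
  have : Module.Finite ℂ (A' ⧸ n) := finite_of_finite_type_of_isJacobsonRing ℂ _
  have h4 := (IsAlgClosed.algebraMap_bijective_of_isIntegral (k := ℂ) (K := A' ⧸ n)).2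
  obtain ⟨O', k1, k2⟩ := Ideal.image_subset_nonunits_valuationSubring (A := A'.toSubring) n hn.ne_top
  obtain ⟨π, hπ⟩ := exists_place_le O' fun c => k1 (A'.algebraMap_mem c)
  have k3 : ∀ a ∈ n, (a : F) ∈ π.O.nonunits := fun a ha =>
    ValuationSubring.nonunits_le_nonunits.2 hπ (k2 ⟨a, ha, rfl⟩)
  refine (π.O.inv_mem_nonunits_iff.1 (k3 u (hle (Ideal.subset_span rfl)))).resolve_left h0
    (h π fun a ha => ?_)
  obtain ⟨c, hc⟩ := h4 (Ideal.Quotient.mk n ⟨a, Algebra.subset_adjoin (Set.mem_insert_of_mem _ ha)⟩)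
  have k4 := ValuationSubring.nonunits_le
    (k3 _ (Ideal.Quotient.eq.1 (show Ideal.Quotient.mk n (algebraMap ℂ A' c) = _ from hc)))
  have k5 := π.O.sub_mem (π.const c) k4
  simpa using k5

namespace Place

variable (π : Place F)

theorem val_const {c : ℂ} (hc : c ≠ 0) : π.O.valuation (algebraMap ℂ F c) = 1 := by
  exact res_const π.const hc

theorem val_smul_le (c : ℂ) (z : F) : π.O.valuation (c • z) ≤ π.O.valuation z := by
  rw [Algebra.smul_def, map_mul]
  exact mul_le_of_le_one_left' ((π.O.valuation_le_one_iff _).2 (π.const c))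

theorem rho_eq_zero_iff {z : F} (hz : z ∈ π.O) : π.ρ z = 0 ↔ π.O.valuation z < 1 := by
  refine ⟨fun h => by simpa [h] using π.res z hz, fun h => res_uniq π.const (π.res z hz) ?_⟩
  simpa using h

theorem rho_one : π.ρ 1 = 1 := by
  exact res_uniq π.const (π.res 1 π.O.one_mem) (by simp)

theorem rho_mul {z z' : F} (hz : z ∈ π.O) (hz' : z' ∈ π.O) : π.ρ (z * z') = π.ρ z * π.ρ z' := by
  refine res_uniq π.const (π.res _ (π.O.mul_mem _ _ hz hz')) ?_
  have := π.O.valuation.map_add_lt (res_mul_lt hz (π.res z' hz'))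
    (res_mul_lt (π.const (π.ρ z')) (π.res z hz))
  rwa [show z * (z' - algebraMap ℂ F (π.ρ z')) + algebraMap ℂ F (π.ρ z') *
    (z - algebraMap ℂ F (π.ρ z)) = z * z' - algebraMap ℂ F (π.ρ z * π.ρ z') by
      rw [map_mul]; ring] at this

end Place

end Pool.Agent.Lib.MP_bc213e_ag.Hyp
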