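import Pool.Agent.Lib.MP_bc213e_ag.Hyp.CDb
import Pool.Agent.Lib.MP_bc213e_ag.Hyp.Res

/-! Finite dimensionality of spaces bounded at all places. -/

namespace Pool.Agent.Lib.MP_bc213e_ag.Hyp

variable {F κ : Type} [Field F] [Algebra ℂ F] [Fintype κ]

theorem FD_mem_of_integral (O : ValuationSubring F) (h1 : ∀ z : ℂ, algebraMap ℂ F z ∈ O)
    {s : Set F} (hs : ∀ a ∈ s, a ∈ O) {z : F} (hz : IsIntegral (Algebra.adjoin ℂ s) z) :
    z ∈ O := by
  have hle : ∀ a : Algebra.adjoin ℂ s, (a : F) ∈ O := by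
    rintro ⟨a, ha⟩
    show a ∈ O
    induction ha using Algebra.adjoin_induction with
    | mem x hx => exact hs x hx
    | algebraMap r => exact h1 r
    | add x y _ _ hx hy => exact O.add_mem _ _ hx hy
    | mul x y _ _ hx hy => exact O.mul_mem _ _ hx hy
  let f : Algebra.adjoin ℂ s →+* O :=
    ((Algebra.adjoin ℂ s).val.toRingHom).codRestrict O.toSubring hle
  have hint : IsIntegral O z := by
    obtain ⟨p, hp, hpz⟩ := hz
    refine ⟨p.map f, hp.map f, ?_⟩
    rw [Polynomial.eval₂_map]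
    exact hpz
  obtain ⟨y, hy⟩ := (IsIntegrallyClosed.isIntegral_iff (R := O) (K := F)).mp hint
  rw [← hy]
  exact y.2

/-- Sketch: if all `c i = 0` (or `κ` is empty) take `E = ⊥` (there is a place). Otherwise fix
`c i₁ ≠ 0`, let `x = Sum.elim (c i / c i₁) (generators)`; the transcendence degree is finite
(`exists_isTranscendenceBasis_subset`, or `Algebra.trdeg_lt_aleph0`); `E = c i₁ * Bd x 1` is finite
dimensional by `cd_dim`. Given `O, d` as in `Bd`, apply `isIntegral_of_places` to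
`s = insert d⁻¹ (range (x l / d))` and `z = e / c i₁ / d`; `O` is integrally closed. -/
theorem fd_places (gen : ∃ s : Finset F, IntermediateField.adjoin ℂ (s : Set F) = ⊤) (c : κ → F) :
    ∃ E : Submodule ℂ F, FiniteDimensional ℂ E ∧
      ∀ e : F, (∀ π : Place F, ∃ i, π.O.valuation e ≤ π.O.valuation (c i)) → e ∈ E := by
  classical
  by_cases hc : ∀ i, c i = 0
  · refine ⟨⊥, inferInstance, fun e he => ?_⟩
    obtain ⟨π⟩ := (inferInstance : Nonempty (Place F))
    obtain ⟨i, hi⟩ := he π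
    rw [hc i, map_zero, le_zero_iff, map_eq_zero] at hi
    simp [hi]
  push Not at hc
  obtain ⟨i₁, hi₁⟩ := hc
  obtain ⟨s, hs⟩ := gen
  let x : κ ⊕ s → F := Sum.elim (fun i => c i / c i₁) (fun a => (a : F))
  have hgen : IntermediateField.adjoin ℂ (Set.range x) = ⊤ := by
    rw [eq_top_iff, ← hs]
    apply IntermediateField.adjoin.mono
    intro a ha
    exact ⟨Sum.inr ⟨a, ha⟩, rfl⟩
  have hfin : Algebra.trdeg ℂ F < Cardinal.aleph0 := by
    have : Algebra.EssFiniteType ℂ F := IntermediateField.fg_top_iff.mp ⟨s, hs⟩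
    exact trdeg_lt_aleph0 ℂ F
  obtain ⟨n, hn⟩ := Cardinal.lt_aleph0.mp hfin
  obtain ⟨B, hB⟩ := cd_dim x hgen hn
  have := (hB 1).1
  refine ⟨(Bd x 1).map (LinearMap.mulLeft ℂ (c i₁)), inferInstance, fun e he => ?_⟩
  refine ⟨e / c i₁, ?_, by simp [mul_div_cancel₀ _ hi₁]⟩
  intro O d h1 hd0 hd hx
  rw [pow_one]
  refine FD_mem_of_integral O h1 (s := Set.range fun l => x l / d) ?_ ?_
  · rintro a ⟨l, rfl⟩
    exact hx l
  · refine isIntegral_of_places (Set.finite_range _) fun π hπ => ?_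
    obtain ⟨i, hi⟩ := he π
    have h2 : π.O.valuation (c i / c i₁ / d) ≤ 1 :=
      (π.O.valuation_le_one_iff _).mpr (hπ _ ⟨Sum.inl i, rfl⟩)
    rw [← π.O.valuation_le_one_iff]
    refine le_trans ?_ h2
    simp only [map_div₀]
    gcongr <;> exact zero_le

end Pool.Agent.Lib.MP_bc213e_ag.Hyp
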