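import Pool.Agent.Lib.MP_bc213e_ag.Hyp.ADefs

/-! Reduction to positive characteristic. -/

namespace Pool.Agent.Lib.MP_bc213e_ag.Hyp

open MvPolynomial

theorem PLC_int_jacobson : IsJacobsonRing ℤ := by
  rw [isJacobsonRing_iff_prime_eq]
  intro P hP
  by_cases h : P = ⊥
  · subst h
    rw [eq_bot_iff]
    intro x hx
    have := Ideal.mem_jacobson_bot.1 hx x
    rw [Int.isUnit_iff] at this
    have h0 : x = 0 := by rcases this with h | h <;> nlinarith
    simp [h0]
  · have : P.IsMaximal := Ring.DimensionLEOne.maximalOfPrime h hP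
    exact Ideal.jacobson_eq_self_of_isMaximal

/-- Sketch: `Λ' = Subring.closure (s ∪ s⁻¹)` is a nonzero finite type `ℤ`-algebra; for a maximal
ideal `𝔪` the field `Λ' ⧸ 𝔪` is finite over `ℤ` (`finite_of_finite_type_of_isJacobsonRing`), hence
not of characteristic zero (`ℤ` is not a field: `isField_of_isIntegral_of_isField`); `k` is its
algebraic closure; nonzero elements of `s` are units of `Λ'`. -/
theorem exists_reduction (s : Finset ℂ) : ∃ (Λ : Subring ℂ) (k : Type) (_ : Field k) (p : ℕ)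
    (_ : Fact p.Prime) (_ : CharP k p) (_ : PerfectRing k p) (f : Λ →+* k),
    (∀ a ∈ s, a ∈ Λ) ∧ ∀ a : Λ, (a : ℂ) ∈ s → a ≠ 0 → f a ≠ 0 := by
  classical
  let t : Finset ℂ := s ∪ s.image fun a => a⁻¹
  let A : Subalgebra ℤ ℂ := Algebra.adjoin ℤ (t : Set ℂ)
  have hA : Algebra.FiniteType ℤ A :=
    (Subalgebra.fg_iff_finiteType A).1 (Subalgebra.fg_adjoin_finset t)
  obtain ⟨𝔪, h𝔪⟩ := Ideal.exists_maximal A
  let _ : Field (A ⧸ 𝔪) := Ideal.Quotient.field 𝔪
  have hF : Algebra.FiniteType ℤ (A ⧸ 𝔪) :=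
    Algebra.FiniteType.of_surjective (Ideal.Quotient.mkₐ ℤ 𝔪) (Ideal.Quotient.mkₐ_surjective ℤ 𝔪)
  have hJ := PLC_int_jacobson
  have hfin : Module.Finite ℤ (A ⧸ 𝔪) := finite_of_finite_type_of_isJacobsonRing ℤ (A ⧸ 𝔪)
  obtain ⟨p, hp⟩ := CharP.exists (A ⧸ 𝔪)
  have hp0 : p ≠ 0 := by
    rintro rfl
    have : CharZero (A ⧸ 𝔪) := CharP.charP_to_charZero (A ⧸ 𝔪)
    exact Int.not_isField (isField_of_isIntegral_of_isField (R := ℤ) (S := A ⧸ 𝔪)
      (RingHom.injective_int _) (Field.toIsField _))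
  have hpp : p.Prime := (CharP.char_is_prime_or_zero (A ⧸ 𝔪) p).resolve_right hp0
  have : Fact p.Prime := ⟨hpp⟩
  refine ⟨A.toSubring, AlgebraicClosure (A ⧸ 𝔪), inferInstance, p, inferInstance, inferInstance,
    inferInstance, (algebraMap (A ⧸ 𝔪) (AlgebraicClosure (A ⧸ 𝔪))).comp (Ideal.Quotient.mk 𝔪),
    fun a ha => Algebra.subset_adjoin (Finset.mem_coe.2 (Finset.mem_union_left _ ha)),
    fun a ha ha0 => ?_⟩
  have hinv : (a : ℂ)⁻¹ ∈ A.toSubring := Algebra.subset_adjoin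
    (Finset.mem_coe.2 (Finset.mem_union_right _ (Finset.mem_image_of_mem _ ha)))
  have hu : a * ⟨(a : ℂ)⁻¹, hinv⟩ = 1 := by
    apply Subtype.ext
    exact mul_inv_cancel₀ (fun h => ha0 (Subtype.ext h))
  exact ((IsUnit.of_mul_eq_one _ hu).map _).ne_zero

/-- Reduction of a finite family of polynomials. Sketch: apply `exists_reduction` to the set of all
coefficients; `i = Λ.subtype`; `mem_range_map_iff_coeffs_subset`, `coeff_map`. -/
theorem exists_lift {σ : Type} (s : Set (MvPolynomial σ ℂ)) (hs : s.Finite) :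
    ∃ (Λ : Type) (_ : CommRing Λ) (i : Λ →+* ℂ) (k : Type) (_ : Field k) (p : ℕ) (_ : Fact p.Prime)
      (_ : CharP k p) (_ : PerfectRing k p) (f : Λ →+* k)
      (lift : MvPolynomial σ ℂ → MvPolynomial σ Λ), Function.Injective i ∧
      ∀ Q ∈ s, map i (lift Q) = Q ∧ (map f (lift Q)).support = Q.support := by
  classical
  obtain ⟨Λ, k, _, p, _, _, _, f, h1, h2⟩ := exists_reduction (hs.toFinset.biUnion fun Q => Q.coeffs)
  have key : ∀ Q : MvPolynomial σ ℂ, ∃ R : MvPolynomial σ Λ, Q ∈ s → map Λ.subtype R = Q := by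
    intro Q
    by_cases hQ : Q ∈ s
    · have : Q ∈ Set.range (map Λ.subtype : MvPolynomial σ Λ → MvPolynomial σ ℂ) := by
        refine mem_range_map_iff_coeffs_subset.2 fun a ha => ⟨⟨a, h1 a ?_⟩, rfl⟩
        exact Finset.mem_biUnion.2 ⟨Q, hs.mem_toFinset.2 hQ, ha⟩
      obtain ⟨R, hR⟩ := this
      exact ⟨R, fun _ => hR⟩
    · exact ⟨0, fun h => (hQ h).elim⟩
  choose lift hl using key
  refine ⟨Λ, inferInstance, Λ.subtype, k, inferInstance, p, inferInstance, inferInstance,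
    inferInstance, f, lift, Λ.subtype_injective, fun Q hQ => ⟨hl Q hQ, ?_⟩⟩
  ext m
  have hc : ((coeff m (lift Q) : Λ) : ℂ) = coeff m Q := by
    conv_rhs => rw [← hl Q hQ, coeff_map]
    rfl
  rw [mem_support_iff, mem_support_iff, coeff_map]
  constructor
  · intro h h0
    have : coeff m (lift Q) = 0 := Subtype.ext (hc.trans h0)
    exact h (by rw [this, map_zero])
  · intro h
    refine h2 _ ?_ fun h0 => h ?_
    · rw [hc]
      exact Finset.mem_biUnion.2 ⟨Q, hs.mem_toFinset.2 hQ, coeff_mem_coeffs m h⟩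
    · rw [← hc, h0]
      rfl

theorem PLC_section {V W : Type} [AddCommGroup V] [Module ℂ V] [AddCommGroup W] [Module ℂ W]
    (L : V →ₗ[ℂ] W) : ∃ g : W →ₗ[ℂ] V, ∀ v, L (g (L v)) = L v := by
  obtain ⟨g₀, h₀⟩ := L.rangeRestrict.exists_rightInverse_of_surjective L.range_rangeRestrict
  obtain ⟨g, hg⟩ := g₀.exists_extend
  refine ⟨g, fun v => ?_⟩
  have h1 : g (L v) = g₀ (L.rangeRestrict v) := LinearMap.congr_fun hg (L.rangeRestrict v)
  rw [h1]
  exact congrArg Subtype.val (LinearMap.congr_fun h₀ (L.rangeRestrict v))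

/-- The linear algebra certificate. Sketch: `L ξ = ∑ ε, ξ ε • A ε`, `Π ξ = ∑ ε, ξ ε • B ε`. The map
`mkQ ∘ Π` to the quotient by the subspace `P * _` kills `ker L`, so it factors through `L`
(`LinearMap.exists_extend`, `Submodule.liftQ`, or `LinearMap.range_dualMap`), and lifts along `mkQ`
(`Module.projective_lifting_property`) to a linear map `τ` with `P ∣ Π ξ - τ (L ξ)`; put
`T l m = τ (Pi.single l (monomial m 1))` and `M` the union of the supports of the `A ε l`. -/
theorem exists_cert {σ J κ : Type} [Fintype J] [Fintype κ] (A : J → κ → MvPolynomial σ ℂ)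
    (B : J → MvPolynomial σ ℂ) (P : MvPolynomial σ ℂ)
    (h : ∀ ξ : J → ℂ, (∀ l, ∑ ε, ξ ε • A ε l = 0) → P ∣ ∑ ε, ξ ε • B ε) :
    ∃ (M : Finset (σ →₀ ℕ)) (S : J → MvPolynomial σ ℂ) (T : κ → (σ →₀ ℕ) → MvPolynomial σ ℂ),
      ∀ ε, B ε = P * S ε + ∑ l, ∑ m ∈ M, C (coeff m (A ε l)) * T l m := by
  classical
  let L : (J → ℂ) →ₗ[ℂ] (κ → MvPolynomial σ ℂ) := Fintype.linearCombination ℂ A
  let Q : (J → ℂ) →ₗ[ℂ] MvPolynomial σ ℂ := Fintype.linearCombination ℂ B
  obtain ⟨g, hg⟩ := PLC_section L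
  have hdiv : ∀ ξ, P ∣ Q ξ - Q (g (L ξ)) := by
    intro ξ
    rw [← map_sub]
    refine h _ fun l => ?_
    have h0 : L (ξ - g (L ξ)) = 0 := by rw [map_sub, hg, sub_self]
    have h1 := congrFun h0 l
    simpa only [L, Fintype.linearCombination_apply, Finset.sum_apply, Pi.smul_apply,
      Pi.zero_apply] using h1
  choose S hS using hdiv
  let M : Finset (σ →₀ ℕ) := Finset.univ.biUnion fun ε => Finset.univ.biUnion fun l =>
    (A ε l).support
  refine ⟨M, fun ε => S (Pi.single ε 1), fun l m => Q (g (Pi.single l (monomial m 1))),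
    fun ε => ?_⟩
  have hQ : Q (Pi.single ε 1) = B ε := by
    simp only [Q, Fintype.linearCombination_apply_single, one_smul]
  have hL : L (Pi.single ε 1) = A ε := by
    simp only [L, Fintype.linearCombination_apply_single, one_smul]
  have hA : A ε = ∑ l, ∑ m ∈ M, coeff m (A ε l) • (Pi.single l (monomial m 1) :
      κ → MvPolynomial σ ℂ) := by
    funext l'
    rw [Finset.sum_apply, Finset.sum_eq_single l']
    · rw [Finset.sum_apply]
      simp only [Pi.smul_apply, Pi.single_eq_same, smul_monomial, smul_eq_mul, mul_one]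
      refine (A ε l').as_sum.trans (Finset.sum_subset (fun m hm => ?_) fun m _ hm => ?_)
      · exact Finset.mem_biUnion.2 ⟨ε, Finset.mem_univ _,
          Finset.mem_biUnion.2 ⟨l', Finset.mem_univ _, hm⟩⟩
      · rw [notMem_support_iff.1 hm, map_zero]
    · intro l _ hl
      rw [Finset.sum_apply]
      refine Finset.sum_eq_zero fun m _ => ?_
      rw [Pi.smul_apply, Pi.single_eq_of_ne hl.symm, smul_zero]
    · intro h'
      exact (h' (Finset.mem_univ _)).elim
  have h2 := hS (Pi.single ε 1)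
  rw [hQ, hL, sub_eq_iff_eq_add] at h2
  rw [h2]
  congr 1
  conv_lhs => rw [hA]
  simp only [map_sum, map_smul, smul_eq_C_mul]

end Pool.Agent.Lib.MP_bc213e_ag.Hyp
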