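import Pool.Agent.Lib.MP_bc213e_ag.Hyp.FT1
import Pool.Agent.Lib.MP_bc213e_ag.Hyp.PLC

/-! The uniform section over `ℂ`, polynomial form. -/

namespace Pool.Agent.Lib.MP_bc213e_ag.Hyp

open MvPolynomial

variable {σ ι : Type} [Fintype σ] [Fintype ι]

section aux

variable {R R' L : Type} [CommRing R] [CommRing R'] [DecidableEq L]

/-- The monomial basis of families of polynomials with bounded supports. -/
noncomputable def ft2U (R : Type) [CommRing R] (s : L → Finset (σ →₀ ℕ)) (ε : Σ l, s l) (l : L) :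
    MvPolynomial σ R := if ε.1 = l then monomial ε.2.1 1 else 0

/-- The linear conditions. -/
noncomputable def ft2A (U : ι ⊕ ι × ι → MvPolynomial σ R) (P : MvPolynomial σ R)
    (η' : ι → MvPolynomial σ R) (l : ι × ι) : MvPolynomial σ R :=
  U (.inl l.1) * η' l.2 - U (.inl l.2) * η' l.1 - P * U (.inr l)

omit [Fintype σ] in
theorem ft2U_sum [Fintype L] (s : L → Finset (σ →₀ ℕ)) (ξ : (Σ l, s l) → R) (l : L) :
    ∑ ε, ξ ε • ft2U R s ε l = ∑ m : s l, monomial m.1 (ξ ⟨l, m⟩) := by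
  rw [Fintype.sum_sigma, Finset.sum_eq_single l (fun b _ hb => by simp [ft2U, hb]) (by simp)]
  simp [ft2U, smul_monomial]

omit [Fintype σ] in
theorem ft2U_map (φ : R →+* R') (s : L → Finset (σ →₀ ℕ)) (ε : Σ l, s l) (l : L) :
    map φ (ft2U R s ε l) = ft2U R' s ε l := by
  unfold ft2U
  split_ifs <;> simp

omit [Fintype σ] [Fintype ι] in
theorem ft2A_map [DecidableEq ι] (φ : R →+* R') (s : ι ⊕ ι × ι → Finset (σ →₀ ℕ)) (ε : Σ l, s l)
    (P : MvPolynomial σ R) (η' : ι → MvPolynomial σ R) (l : ι × ι) (m : σ →₀ ℕ) :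
    map φ (C (coeff m (ft2A (ft2U R s ε) P η' l)) : MvPolynomial σ R) =
      C (coeff m (ft2A (ft2U R' s ε) (map φ P) (fun x => map φ (η' x)) l)) := by
  rw [map_C, ← coeff_map]
  simp only [ft2A, map_sub, map_mul, ft2U_map]

omit [Fintype σ] [Fintype ι] in
theorem ft2A_sum {J : Type} [Fintype J] (ξ : J → R) (U : J → ι ⊕ ι × ι → MvPolynomial σ R)
    (P : MvPolynomial σ R) (η' : ι → MvPolynomial σ R) (l : ι × ι) :
    ∑ ε, ξ ε • ft2A (U ε) P η' l = ft2A (fun x => ∑ ε, ξ ε • U ε x) P η' l := by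
  simp [ft2A, smul_sub, Finset.sum_mul, Finset.mul_sum]

omit [Fintype σ] in
theorem ft2_coeff {s : Finset (σ →₀ ℕ)} {u : MvPolynomial σ R} (h : u.support ⊆ s) :
    ∑ m : s, monomial m.1 (coeff m.1 u) = u := by
  rw [Finset.sum_coe_sort s fun m => monomial m (coeff m u)]
  conv_rhs => rw [u.as_sum]
  exact (Finset.sum_subset h fun m _ hm => by rw [notMem_support_iff.1 hm, map_zero]).symm

end aux

/-- Sketch: suppose not. Let `d = a + c + deg P + 1`, `d' = d + a + b`, `Mon d` the finite set of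
exponents of degree at most `d`, `J = (ι × Mon d) ⊕ (ι × ι × Mon d')`, `κ = ι × ι`. Over any
commutative ring define `A P η' (inl (i, m)) (r, s) = (if i = r then monomial m 1 * η' s else 0) -
(if i = s then monomial m 1 * η' r else 0)`, `A P η' (inr (r', s', m)) (r, s) =
if (r', s') = (r, s) then - (P * monomial m 1) else 0`, `B (inl (i, m)) = if i = i₀ then
monomial m 1 else 0`, `B (inr _) = 0`; both commute with `map`. The assumption gives the hypothesis
of `exists_cert`. Apply `exists_lift` to `P, γ, ρ, η, η'`, the quotients in `rel` and `cert`, `S`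
and `T l m` (`m ∈ M`); the identities hold over `Λ` (`map_injective`), hence over `k`; degrees only
depend on supports. `ft_char` gives `u` over `k` with quotients `w r s` of degree at most `d'`
(`totalDegree_mul_of_isDomain`); the coefficients of `u, w` form a vector `ξ` with
`∑ ξ ε • A ε l = 0`, and the certificate gives `P ∣ ∑ ξ ε • B ε = u i₀` over `k`. -/
theorem ft (P : MvPolynomial σ ℂ) (v₀ : σ) (hP : P.degreeOf v₀ ≠ 0) (i₀ : ι)
    (η η' : ι → MvPolynomial σ ℂ) (N a b c : ℕ) (hN : 0 < N)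
    (hη : ∀ i, (η i).totalDegree ≤ N * a + c) (hη' : ∀ i, (η' i).totalDegree ≤ a + b)
    (rel : ∀ i j, P ∣ η i * η' j ^ N - η j * η' i ^ N) (γ ρ : MvPolynomial σ ℂ) (hρ : ρ ≠ 0)
    (hρ' : ρ.degreeOf v₀ = 0) (cert : P ∣ η i₀ * η' i₀ * γ - ρ) :
    ∃ u : ι → MvPolynomial σ ℂ, (∀ i, (u i).totalDegree ≤ a + c + P.totalDegree + 1) ∧
      (∀ i j, P ∣ u i * η' j - u j * η' i) ∧ ¬ P ∣ u i₀ := by
  classical
  by_contra hn
  let D : ι ⊕ ι × ι → ℕ := Sum.elim (fun _ => a + c + P.totalDegree + 1)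
    fun _ => a + c + P.totalDegree + 1 + (a + b)
  let s : ι ⊕ ι × ι → Finset (σ →₀ ℕ) := fun l => (Finsupp.finite_of_degree_le (D l)).toFinset
  obtain ⟨M, S, T, hT⟩ := exists_cert (fun ε => ft2A (ft2U ℂ s ε) P η')
    (fun ε => ft2U ℂ s ε (.inl i₀)) P fun ξ hξ => by
      by_contra h
      refine hn ⟨fun i => ∑ ε, ξ ε • ft2U ℂ s ε (.inl i), fun i => ?_, fun i j => ?_, h⟩
      · beta_reduce
        rw [ft2U_sum]
        exact totalDegree_finsetSum_le fun m _ => (totalDegree_monomial_le _ _).trans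
          ((Finsupp.finite_of_degree_le (D (.inl i))).mem_toFinset.1 m.2)
      · have h1 := hξ (i, j)
        rw [ft2A_sum] at h1
        exact ⟨_, sub_eq_zero.1 h1⟩
  choose q hq using rel
  obtain ⟨g, hg⟩ := cert
  obtain ⟨Λ, _, i, k, _, p, _, _, _, f, lift, hi, h⟩ := exists_lift
    ({P, γ, ρ, g} ∪ Set.range η ∪ Set.range η' ∪ Set.range (fun l : ι × ι => q l.1 l.2) ∪
      Set.range S ∪ Set.range fun l : (ι × ι) × M => T l.1 l.2) (Set.toFinite _)
  have hP' := h P (by simp)
  have hγ := h γ (by simp)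
  have hρ1 := h ρ (by simp)
  have hg' := h g (by simp)
  have h1 := fun j => h (η j) (by simp)
  have h2 := fun j => h (η' j) (by simp)
  have h3 := fun j l => h (q j l) (.inl (.inl (.inr ⟨(j, l), rfl⟩)))
  have h4 := fun ε => h (S ε) (.inl (.inr ⟨ε, rfl⟩))
  have h5 := fun l (m : M) => h (T l m) (.inr ⟨(l, m), rfl⟩)
  have tr : ∀ x y : MvPolynomial σ Λ, map i x = map i y → map f x = map f y := fun x y e =>
    congrArg _ (map_injective i hi e)
  have td : ∀ {Q : MvPolynomial σ ℂ} {Q' : MvPolynomial σ k}, Q'.support = Q.support →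
      Q'.totalDegree = Q.totalDegree := fun e => by rw [totalDegree, totalDegree, e]
  have dg : ∀ {Q : MvPolynomial σ ℂ} {Q' : MvPolynomial σ k}, Q'.support = Q.support →
      Q'.degreeOf v₀ = Q.degreeOf v₀ := fun e => by rw [degreeOf_eq_sup, degreeOf_eq_sup, e]
  obtain ⟨u, hu, hu', hu''⟩ := ft_char p (map f (lift P)) v₀ (by rwa [dg hP'.2]) i₀
    (fun j => map f (lift (η j))) (fun j => map f (lift (η' j))) N a b c hN
    (fun j => (td (h1 j).2).trans_le (hη j)) (fun j => (td (h2 j).2).trans_le (hη' j))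
    (fun j l => ⟨map f (lift (q j l)), by
      simpa using tr (lift (η j) * lift (η' l) ^ N - lift (η l) * lift (η' j) ^ N)
        (lift P * lift (q j l))
        (by simpa only [map_sub, map_mul, map_pow, h1, h2, h3, hP'.1] using hq j l)⟩)
    (map f (lift γ)) (map f (lift ρ))
    (fun e => hρ (by rw [← support_eq_empty, ← hρ1.2, e, support_zero])) (by rwa [dg hρ1.2])
    ⟨map f (lift g), by
      simpa using tr (lift (η i₀) * lift (η' i₀) * lift γ - lift ρ) (lift P * lift g)
        (by simpa only [map_sub, map_mul, h1, h2, hγ.1, hρ1.1, hg'.1, hP'.1] using hg)⟩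
  choose w hw using hu'
  rw [td hP'.2] at hu
  have hP0 : map f (lift P) ≠ 0 := fun e => hP (by rw [← dg hP'.2, e, degreeOf_zero])
  have h6 : ∀ l, (Sum.elim u (fun l : ι × ι => w l.1 l.2) l).support ⊆ s l := by
    intro l m hm
    refine (Set.Finite.mem_toFinset _).2 ((le_totalDegree hm).trans ?_)
    rcases l with j | ⟨j, l⟩
    · exact hu j
    by_cases h0 : w j l = 0
    · simp [h0]
    refine (totalDegree_le_of_dvd_of_isDomain (Dvd.intro_left _ rfl) (mul_ne_zero hP0 h0)).trans ?_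
    rw [← hw]
    exact (totalDegree_sub _ _).trans (max_le
      ((totalDegree_mul _ _).trans (add_le_add (hu j) ((td (h2 l).2).trans_le (hη' l))))
      ((totalDegree_mul _ _).trans (add_le_add (hu l) ((td (h2 j).2).trans_le (hη' j)))))
  let ξ : (Σ l, s l) → k := fun ε => coeff ε.2.1 (Sum.elim u (fun l : ι × ι => w l.1 l.2) ε.1)
  have h7 : ∀ l, ∑ ε, ξ ε • ft2U k s ε l = Sum.elim u (fun l : ι × ι => w l.1 l.2) l := fun l =>
    (ft2U_sum s ξ l).trans (ft2_coeff (h6 l))
  have h8 : ∀ ε, ft2U k s ε (.inl i₀) = map f (lift P) * map f (lift (S ε)) +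
      ∑ l, ∑ m : M, C (coeff m.1 (ft2A (ft2U k s ε) (map f (lift P))
        (fun j => map f (lift (η' j))) l)) * map f (lift (T l m)) := fun ε => by
    have h9 := tr (ft2U Λ s ε (.inl i₀)) (lift P * lift (S ε) + ∑ l, ∑ m : M,
      C (coeff m.1 (ft2A (ft2U Λ s ε) (lift P) (fun j => lift (η' j)) l)) * lift (T l m)) (by
        simp only [map_add, map_mul, map_sum, ft2A_map, ft2U_map, h2, h4, h5, hP'.1]
        rw [hT]
        congr 1
        exact Finset.sum_congr rfl fun l _ => (Finset.sum_coe_sort M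
          fun m => C (coeff m (ft2A (ft2U ℂ s ε) P η' l)) * T l m).symm)
    simpa only [map_add, map_mul, map_sum, ft2A_map, ft2U_map] using h9
  refine hu'' ⟨∑ ε, ξ ε • map f (lift (S ε)), (h7 (.inl i₀)).symm.trans ?_⟩
  simp only [h8, smul_add, Finset.sum_add_distrib, Finset.mul_sum, mul_smul_comm, add_eq_left,
    Finset.smul_sum]
  rw [Finset.sum_comm]
  refine Finset.sum_eq_zero fun l _ => ?_
  rw [Finset.sum_comm]
  refine Finset.sum_eq_zero fun m _ => ?_
  simp only [← smul_mul_assoc, ← Finset.sum_mul, smul_eq_C_mul, ← C_mul, ← map_sum]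
  have h9 := congrArg (coeff m.1) (ft2A_sum ξ (ft2U k s) (map f (lift P))
    (fun j => map f (lift (η' j))) l)
  simp only [h7, coeff_sum, coeff_smul, smul_eq_mul] at h9
  rw [h9, ft2A, Sum.elim_inl, Sum.elim_inl, Sum.elim_inr, hw, sub_self, coeff_zero, map_zero,
    zero_mul]

end Pool.Agent.Lib.MP_bc213e_ag.Hyp
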