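import Pool.Agent.Lib.MP_bc213e_ag.Hyp.Res

/-! The Gauss extension of a place. -/

namespace Pool.Agent.Lib.MP_bc213e_ag.Hyp

open scoped TensorProduct

section

variable {N F : Type} [AddCommGroup N] [Module ℂ N] [AddCommGroup F] [Module ℂ F]

/-- Normal form. Sketch: a basis `b` of `N`; `y = ∑ i, b i ⊗ f i`
(`TensorProduct.equivFinsuppOfBasisLeft`, or induction on `y`), `ℓ i = b.coord i`. -/
theorem exists_nf (y : N ⊗[ℂ] F) : ∃ (J : Type) (_ : Fintype J) (a : J → N) (ℓ : J → N →ₗ[ℂ] ℂ),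
    y = ∑ j, a j ⊗ₜ[ℂ] co (ℓ j) y := by
  classical
  let b := Module.Basis.ofVectorSpace ℂ N
  have key : ∃ s : Finset (Module.Basis.ofVectorSpaceIndex ℂ N), ∀ t, s ⊆ t →
      y = ∑ i ∈ t, b i ⊗ₜ[ℂ] co (b.coord i) y := by
    induction y using TensorProduct.induction_on with
    | zero => exact ⟨∅, fun t _ => by simp⟩
    | tmul a f =>
      refine ⟨(b.repr a).support, fun t ht => ?_⟩
      have h1 : ∑ i ∈ t, b.repr a i • b i = a := by
        conv_rhs => rw [← b.linearCombination_repr a, Finsupp.linearCombination_apply]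
        exact (Finsupp.sum_of_support_subset _ ht (fun i c => c • b i) fun i _ => zero_smul _ _).symm
      conv_lhs => rw [← h1, TensorProduct.sum_tmul]
      refine Finset.sum_congr rfl fun i _ => ?_
      rw [co_tmul, Module.Basis.coord_apply, TensorProduct.smul_tmul]
    | add x y hx hy =>
      obtain ⟨s, hs⟩ := hx
      obtain ⟨s', hs'⟩ := hy
      refine ⟨s ∪ s', fun t ht => ?_⟩
      simp only [map_add, TensorProduct.tmul_add, Finset.sum_add_distrib]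
      rw [← hs t (Finset.subset_union_left.trans ht), ← hs' t (Finset.subset_union_right.trans ht)]
  obtain ⟨s, hs⟩ := key
  refine ⟨s, inferInstance, fun i => b i, fun i => b.coord i, ?_⟩
  rw [Finset.sum_coe_sort s fun i => b i ⊗ₜ[ℂ] co (b.coord i) y]
  exact hs s subset_rfl

theorem eq_zero_of_co {y : N ⊗[ℂ] F} (h : ∀ ℓ, co ℓ y = 0) : y = 0 := by
  obtain ⟨J, _, a, ℓ, e⟩ := exists_nf y
  rw [e]
  exact Finset.sum_eq_zero fun j _ => by rw [h, TensorProduct.tmul_zero]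

theorem co_oc (ℓ : N →ₗ[ℂ] ℂ) (ρ : F →ₗ[ℂ] ℂ) (y : N ⊗[ℂ] F) : ℓ (oc ρ y) = ρ (co ℓ y) := by
  induction y using TensorProduct.induction_on with
  | zero => simp
  | tmul a f => simp [mul_comm]
  | add x y hx hy => simp only [map_add, hx, hy]

end

variable {N F : Type} [CommRing N] [Algebra ℂ N] [Field F] [Algebra ℂ F] (π : Place F)

theorem co_one_tmul_mul (ℓ : N →ₗ[ℂ] ℂ) (c : F) (y : N ⊗[ℂ] F) :
    co ℓ (((1 : N) ⊗ₜ[ℂ] c) * y) = c * co ℓ y := by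
  induction y using TensorProduct.induction_on with
  | zero => simp
  | tmul a f => rw [Algebra.TensorProduct.tmul_mul_tmul, one_mul, co_tmul, co_tmul, mul_smul_comm]
  | add x y hx hy => simp only [mul_add, map_add, hx, hy]

theorem oc_tmul_one_mul (ρ : F →ₗ[ℂ] ℂ) (a : N) (y : N ⊗[ℂ] F) :
    oc ρ ((a ⊗ₜ[ℂ] (1 : F)) * y) = a * oc ρ y := by
  induction y using TensorProduct.induction_on with
  | zero => simp
  | tmul b f => rw [Algebra.TensorProduct.tmul_mul_tmul, one_mul, oc_tmul, oc_tmul, mul_smul_comm]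
  | add x y hx hy => simp only [mul_add, map_add, hx, hy]

theorem Gauss_smul_mem (c : ℂ) {z : F} (hz : z ∈ π.O) : c • z ∈ π.O := by
  rw [Algebra.smul_def]
  exact π.O.mul_mem _ _ (π.const c) hz

theorem Gauss_nf {y : N ⊗[ℂ] F} (h : ∀ ℓ, co ℓ y ∈ π.O) :
    ∃ (J : Type) (_ : Fintype J) (a : J → N) (f : J → F), (∀ j, f j ∈ π.O) ∧
      y = ∑ j, a j ⊗ₜ[ℂ] f j := by
  obtain ⟨J, _, a, ℓ, e⟩ := exists_nf y
  exact ⟨J, inferInstance, a, _, fun j => h _, e⟩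

/-- Sketch: normal forms of `y`, `y'` have coefficients in `O`; expand and use `rho_mul`. -/
theorem int_mul {y y' : N ⊗[ℂ] F} (h : ∀ ℓ, co ℓ y ∈ π.O) (h' : ∀ ℓ, co ℓ y' ∈ π.O) :
    (∀ ℓ, co ℓ (y * y') ∈ π.O) ∧ oc π.ρ (y * y') = oc π.ρ y * oc π.ρ y' := by
  obtain ⟨J, _, a, f, hf, rfl⟩ := Gauss_nf π h
  obtain ⟨J', _, a', f', hf', rfl⟩ := Gauss_nf π h'
  refine ⟨fun ℓ => ?_, ?_⟩
  · simp only [Finset.sum_mul_sum, Algebra.TensorProduct.tmul_mul_tmul, map_sum, co_tmul]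
    exact sum_mem fun j _ => sum_mem fun k _ =>
      Gauss_smul_mem π _ (π.O.mul_mem _ _ (hf j) (hf' k))
  · simp only [Finset.sum_mul_sum, Algebra.TensorProduct.tmul_mul_tmul, map_sum, oc_tmul]
    refine Finset.sum_congr rfl fun j _ => Finset.sum_congr rfl fun k _ => ?_
    rw [π.rho_mul (hf j) (hf' k), smul_mul_smul_comm]

/-- Sketch: `co_oc`, `rho_eq_zero_iff`, `Module.forall_dual_apply_eq_zero_iff`. -/
theorem oc_eq_zero_iff {y : N ⊗[ℂ] F} (h : ∀ ℓ, co ℓ y ∈ π.O) :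
    oc π.ρ y = 0 ↔ ∀ ℓ, π.O.valuation (co ℓ y) < 1 := by
  rw [← Module.forall_dual_apply_eq_zero_iff ℂ]
  exact forall_congr' fun ℓ => by rw [co_oc, π.rho_eq_zero_iff (h ℓ)]

theorem Gauss_ex (y : N ⊗[ℂ] F) :
    ∃ g, IsGreatest (Set.range fun ℓ : N →ₗ[ℂ] ℂ => π.O.valuation (co ℓ y)) g := by
  obtain ⟨J, _, a, ℓ, e⟩ := exists_nf y
  obtain ⟨o, ho⟩ := Finite.exists_max fun o : Option J => π.O.valuation (co (o.elim 0 ℓ) y)
  refine ⟨_, ⟨o.elim 0 ℓ, rfl⟩, ?_⟩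
  rintro _ ⟨ℓ', rfl⟩
  have e' : co ℓ' y = ∑ j, ℓ' (a j) • co (ℓ j) y := by
    conv_lhs => rw [e]
    simp only [map_sum, co_tmul]
  change π.O.valuation (co ℓ' y) ≤ _
  rw [e']
  exact Valuation.map_sum_le _ fun j _ => (π.val_smul_le _ _).trans (ho (some j))

section

variable {π} {g : N ⊗[ℂ] F → π.O.ValueGroup}
  (hg : ∀ y, IsGreatest (Set.range fun ℓ : N →ₗ[ℂ] ℂ => π.O.valuation (co ℓ y)) (g y))
include hg

theorem Gauss_le (ℓ : N →ₗ[ℂ] ℂ) (y : N ⊗[ℂ] F) : π.O.valuation (co ℓ y) ≤ g y := (hg y).2 ⟨ℓ, rfl⟩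

theorem Gauss_att (y : N ⊗[ℂ] F) : ∃ ℓ : N →ₗ[ℂ] ℂ, π.O.valuation (co ℓ y) = g y := (hg y).1

theorem Gauss_zero {y : N ⊗[ℂ] F} : g y = 0 ↔ y = 0 := by
  constructor
  · intro h
    refine eq_zero_of_co fun ℓ => ?_
    have h1 := Gauss_le hg ℓ y
    rw [h, le_zero_iff] at h1
    exact (Valuation.zero_iff _).1 h1
  · rintro rfl
    obtain ⟨ℓ, hℓ⟩ := Gauss_att hg 0
    rw [← hℓ, map_zero, map_zero]

theorem Gauss_le_one {y : N ⊗[ℂ] F} : g y ≤ 1 ↔ ∀ ℓ, co ℓ y ∈ π.O := by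
  constructor
  · intro h ℓ
    exact (π.O.valuation_le_one_iff _).1 ((Gauss_le hg ℓ y).trans h)
  · intro h
    obtain ⟨ℓ, hℓ⟩ := Gauss_att hg y
    rw [← hℓ]
    exact (π.O.valuation_le_one_iff _).2 (h ℓ)

theorem Gauss_scale (c : F) (y : N ⊗[ℂ] F) :
    g (((1 : N) ⊗ₜ[ℂ] c) * y) = π.O.valuation c * g y := by
  refine le_antisymm ?_ ?_
  · obtain ⟨ℓ, hℓ⟩ := Gauss_att hg (((1 : N) ⊗ₜ[ℂ] c) * y)
    rw [← hℓ, co_one_tmul_mul, map_mul]
    exact mul_le_mul_right (Gauss_le hg ℓ y) _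
  · obtain ⟨ℓ, hℓ⟩ := Gauss_att hg y
    rw [← hℓ, ← map_mul, ← co_one_tmul_mul]
    exact Gauss_le hg ℓ _

theorem Gauss_tmul_one {a : N} (ha : a ≠ 0) : g (a ⊗ₜ[ℂ] (1 : F)) = 1 := by
  refine le_antisymm ((Gauss_le_one hg).2 fun ℓ => ?_) ?_
  · rw [co_tmul]
    exact Gauss_smul_mem π _ π.O.one_mem
  · obtain ⟨ℓ, hℓ⟩ : ∃ ℓ : N →ₗ[ℂ] ℂ, ℓ a ≠ 0 := by
      by_contra h
      exact ha ((Module.forall_dual_apply_eq_zero_iff ℂ a).1 fun ℓ => by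
        by_contra h'
        exact h ⟨ℓ, h'⟩)
    have h1 := Gauss_le hg ℓ (a ⊗ₜ[ℂ] (1 : F))
    rwa [co_tmul, ← Algebra.algebraMap_eq_smul_one, π.val_const hℓ] at h1

theorem Gauss_lt_one {y : N ⊗[ℂ] F} (h : g y ≤ 1) : oc π.ρ y = 0 ↔ g y < 1 := by
  rw [oc_eq_zero_iff π ((Gauss_le_one hg).1 h)]
  constructor
  · intro h1
    obtain ⟨ℓ, hℓ⟩ := Gauss_att hg y
    rw [← hℓ]
    exact h1 ℓ
  · intro h1 ℓ
    exact (Gauss_le hg ℓ y).trans_lt h1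

theorem Gauss_norm {y : N ⊗[ℂ] F} (hy : y ≠ 0) :
    ∃ c : F, c ≠ 0 ∧ π.O.valuation c * g y = 1 := by
  obtain ⟨ℓ, hℓ⟩ := Gauss_att hg y
  have h1 : co ℓ y ≠ 0 := fun h => hy ((Gauss_zero hg).1 (by rw [← hℓ, h, map_zero]))
  exact ⟨(co ℓ y)⁻¹, inv_ne_zero h1, by rw [← hℓ, ← map_mul, inv_mul_cancel₀ h1, map_one]⟩

theorem Gauss_add (x y : N ⊗[ℂ] F) : g (x + y) ≤ max (g x) (g y) := by
  obtain ⟨ℓ, hℓ⟩ := Gauss_att hg (x + y)
  rw [← hℓ, map_add]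
  exact (Valuation.map_add _ _ _).trans (max_le_max (Gauss_le hg ℓ x) (Gauss_le hg ℓ y))

theorem Gauss_mul [IsDomain N] (x y : N ⊗[ℂ] F) : g (x * y) = g x * g y := by
  by_cases hx : x = 0
  · rw [hx, zero_mul, (Gauss_zero hg).2 rfl, zero_mul]
  by_cases hy : y = 0
  · rw [hy, mul_zero, (Gauss_zero hg).2 rfl, mul_zero]
  obtain ⟨c, hc, h1⟩ := Gauss_norm hg hx
  obtain ⟨c', hc', h1'⟩ := Gauss_norm hg hy
  have h2 := (Gauss_scale hg c x).trans h1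
  have h2' := (Gauss_scale hg c' y).trans h1'
  obtain ⟨h3, h4⟩ := int_mul π ((Gauss_le_one hg).1 h2.le) ((Gauss_le_one hg).1 h2'.le)
  have h5 := (Gauss_le_one hg).2 h3
  have h6 : ¬g (((1 : N) ⊗ₜ[ℂ] c) * x * (((1 : N) ⊗ₜ[ℂ] c') * y)) < 1 := fun h => by
    have h7 := (Gauss_lt_one hg h5).2 h
    rw [h4] at h7
    rcases mul_eq_zero.1 h7 with h8 | h8
    · exact ((Gauss_lt_one hg h2.le).1 h8).ne h2
    · exact ((Gauss_lt_one hg h2'.le).1 h8).ne h2'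
  have h7 := le_antisymm h5 (not_lt.1 h6)
  rw [mul_mul_mul_comm, Algebra.TensorProduct.tmul_mul_tmul, one_mul, Gauss_scale hg] at h7
  refine mul_left_cancel₀ ((Valuation.ne_zero_iff π.O.valuation).2 (mul_ne_zero hc hc')) ?_
  rw [h7, map_mul, mul_mul_mul_comm, h1, h1', one_mul]

end

/-- Sketch: by the normal form the greatest value `G y` exists (a maximum over the finitely many
coefficients, or `0`). `G (y + y') ≤ max`, `G 1 = 1`, `G ((1 ⊗ c) y) = v c * G y`. For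
multiplicativity scale `y, y' ≠ 0` by coefficients of greatest value, so that `G y = G y' = 1`;
then `oc ρ y, oc ρ y' ≠ 0`, the product is nonzero, and `G (y y') = 1`. -/
theorem exists_gauss [IsDomain N] : ∃ G : Valuation (N ⊗[ℂ] F) π.O.ValueGroup, IsGauss π G := by
  choose g hg using Gauss_ex (N := N) π
  exact ⟨{ toFun := g
           map_zero' := (Gauss_zero hg).2 rfl
           map_one' := Gauss_tmul_one hg one_ne_zero
           map_mul' := Gauss_mul hg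
           map_add_le_max' := Gauss_add hg }, hg⟩

namespace IsGauss

variable {π} {G : Valuation (N ⊗[ℂ] F) π.O.ValueGroup} (hG : IsGauss π G)
include hG

theorem le (ℓ : N →ₗ[ℂ] ℂ) (y : N ⊗[ℂ] F) : π.O.valuation (co ℓ y) ≤ G y := (hG y).2 ⟨ℓ, rfl⟩

theorem eq_zero_iff {y : N ⊗[ℂ] F} : G y = 0 ↔ y = 0 := by
  exact Gauss_zero hG

theorem le_one_iff {y : N ⊗[ℂ] F} : G y ≤ 1 ↔ ∀ ℓ, co ℓ y ∈ π.O := by
  exact Gauss_le_one hG

theorem one_tmul [Nontrivial N] (c : F) : G ((1 : N) ⊗ₜ[ℂ] c) = π.O.valuation c := by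
  have h := Gauss_scale hG c 1
  rwa [mul_one, map_one, mul_one] at h

theorem tmul_one {a : N} (ha : a ≠ 0) : G (a ⊗ₜ[ℂ] (1 : F)) = 1 := by
  exact Gauss_tmul_one hG ha

theorem oc_mul {y y' : N ⊗[ℂ] F} (h : G y ≤ 1) (h' : G y' ≤ 1) :
    oc π.ρ (y * y') = oc π.ρ y * oc π.ρ y' := by
  exact (int_mul π (hG.le_one_iff.1 h) (hG.le_one_iff.1 h')).2

theorem oc_ne_zero {y : N ⊗[ℂ] F} (h : G y = 1) : oc π.ρ y ≠ 0 := by
  exact fun h0 => ((Gauss_lt_one hG h.le).1 h0).ne h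

theorem oc_eq_zero {y : N ⊗[ℂ] F} (h : G y < 1) : oc π.ρ y = 0 := by
  exact (Gauss_lt_one hG h.le).2 h

theorem lt_one_of_oc {y : N ⊗[ℂ] F} (h : G y ≤ 1) (h0 : oc π.ρ y = 0) : G y < 1 := by
  exact (Gauss_lt_one hG h).1 h0

theorem exists_normalise [Nontrivial N] {y : N ⊗[ℂ] F} (hy : y ≠ 0) :
    ∃ c : F, c ≠ 0 ∧ G (((1 : N) ⊗ₜ[ℂ] c) * y) = 1 := by
  obtain ⟨c, hc, h⟩ := Gauss_norm hG hy
  exact ⟨c, hc, (Gauss_scale hG c y).trans h⟩

/-- Sketch: `co ℓ' (map θ id y) = co (ℓ' ∘ θ) y`, and every `ℓ` is of the form `ℓ' ∘ θ`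
(`LinearMap.exists_leftInverse_of_injective`). -/
theorem map_eq {N' : Type} [CommRing N'] [Algebra ℂ N']
    {G' : Valuation (N' ⊗[ℂ] F) π.O.ValueGroup} (hG' : IsGauss π G') (θ : N →ₐ[ℂ] N')
    (hθ : Function.Injective θ) (y : N ⊗[ℂ] F) :
    G' (Algebra.TensorProduct.map θ (AlgHom.id ℂ F) y) = G y := by
  have key : ∀ ℓ : N' →ₗ[ℂ] ℂ, co ℓ (Algebra.TensorProduct.map θ (AlgHom.id ℂ F) y) =
      co (ℓ ∘ₗ θ.toLinearMap) y := fun ℓ => by
    induction y using TensorProduct.induction_on with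
    | zero => simp
    | tmul a f => simp
    | add x y hx hy => simp only [map_add, hx, hy]
  obtain ⟨σ, hσ⟩ := LinearMap.exists_leftInverse_of_injective θ.toLinearMap
    (LinearMap.ker_eq_bot.2 hθ)
  refine le_antisymm ?_ ?_
  · obtain ⟨ℓ, hℓ⟩ := Gauss_att hG' (Algebra.TensorProduct.map θ (AlgHom.id ℂ F) y)
    rw [← hℓ, key]
    exact hG.le _ y
  · obtain ⟨ℓ, hℓ⟩ := Gauss_att hG y
    have h := hG'.le (ℓ ∘ₗ σ) (Algebra.TensorProduct.map θ (AlgHom.id ℂ F) y)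
    rwa [key, LinearMap.comp_assoc, hσ, LinearMap.comp_id, hℓ] at h

end IsGauss

/-- The tensor product of a domain and a field over `ℂ` is a domain. -/
theorem isDomain_tensor (N F : Type) [CommRing N] [IsDomain N] [Algebra ℂ N] [Field F]
    [Algebra ℂ F] : IsDomain (N ⊗[ℂ] F) := by
  obtain ⟨π⟩ : Nonempty (Place F) := inferInstance
  obtain ⟨G, hG⟩ := exists_gauss (N := N) π
  have : Nontrivial (N ⊗[ℂ] F) := ⟨1, 0, fun h => by
    have h1 := hG.eq_zero_iff.2 h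
    rw [map_one] at h1
    exact one_ne_zero h1⟩
  have : NoZeroDivisors (N ⊗[ℂ] F) := ⟨fun {a b} h => by
    have h1 := hG.eq_zero_iff.2 h
    rw [map_mul, mul_eq_zero] at h1
    exact h1.imp hG.eq_zero_iff.1 hG.eq_zero_iff.1⟩
  exact NoZeroDivisors.to_isDomain _

end Pool.Agent.Lib.MP_bc213e_ag.Hyp
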