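import Pool.Agent.Lib.MP_bc213e_ag.Hyp.Gauss

/-! Leaves, minimal values, specialisation, stable ideals. -/

namespace Pool.Agent.Lib.MP_bc213e_ag.Hyp

open scoped TensorProduct

variable {L F : Type} [Field L] [Algebra ℂ L] [Field F] [Algebra ℂ F]

theorem gaussB_smul (l : L) (y : L ⊗[ℂ] F) : l • y = (l ⊗ₜ[ℂ] (1 : F)) * y := by
  rw [Algebra.smul_def, Algebra.TensorProduct.algebraMap_apply]
  rfl

/-- One dimensional leaves. Sketch: normalise `y'` by `c`; `l = oc ρ (c y) / oc ρ (c y')`. -/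
theorem IsGauss.leaf {π : Place F} {G : Valuation (L ⊗[ℂ] F) π.O.ValueGroup} (hG : IsGauss π G)
    {y y' : L ⊗[ℂ] F} (h0 : y' ≠ 0) (h : G y = G y') :
    ∃ l : L, G (y - (l ⊗ₜ[ℂ] (1 : F)) * y') < G y' := by
  obtain ⟨c, hc, h1⟩ := hG.exists_normalise h0
  obtain ⟨u, hu⟩ : ∃ u : L ⊗[ℂ] F, u = (1 : L) ⊗ₜ[ℂ] c := ⟨_, rfl⟩
  rw [← hu] at h1
  have h2 : G (u * y) = 1 := by rw [map_mul, h, ← map_mul, h1]
  have h3 := hG.oc_ne_zero h1
  obtain ⟨l, hl⟩ : ∃ l : L, l = oc π.ρ (u * y) / oc π.ρ (u * y') := ⟨_, rfl⟩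
  refine ⟨l, ?_⟩
  have h4 : G ((l ⊗ₜ[ℂ] (1 : F)) * (u * y')) ≤ 1 := by
    by_cases hl0 : l = 0
    · simp [hl0]
    · rw [map_mul, h1, hG.tmul_one hl0, one_mul]
  have h5 : G (u * y - (l ⊗ₜ[ℂ] (1 : F)) * (u * y')) < 1 := by
    refine hG.lt_one_of_oc ((G.map_sub _ _).trans (max_le h2.le h4)) ?_
    rw [map_sub, oc_tmul_one_mul, hl, div_mul_cancel₀ _ h3, sub_self]
  rw [mul_left_comm, ← mul_sub, map_mul, ← h1, map_mul] at h5
  exact lt_of_mul_lt_mul_left' h5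

/-- Sketch: nonzero elements with pairwise different values are `L`-linearly independent
(`l • y = (l ⊗ 1) * y` has the value of `y` for `l ≠ 0`; `Valuation.map_sum_eq_of_lt`), so the set
of values is finite. -/
theorem IsGauss.exists_min {π : Place F} {G : Valuation (L ⊗[ℂ] F) π.O.ValueGroup}
    (hG : IsGauss π G) (W : Submodule L (L ⊗[ℂ] F)) [FiniteDimensional L W] (hW : W ≠ ⊥) :
    ∃ z ∈ W, z ≠ 0 ∧ ∀ z' ∈ W, z' ≠ 0 → G z ≤ G z' := by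
  classical
  by_contra hcon
  push Not at hcon
  obtain ⟨z₀, hz₀, hz₀'⟩ := Submodule.exists_mem_ne_zero_of_ne_bot hW
  have hstep : ∀ z : {z : L ⊗[ℂ] F // z ∈ W ∧ z ≠ 0}, ∃ z' : {z : L ⊗[ℂ] F // z ∈ W ∧ z ≠ 0},
      G z'.1 < G z.1 := fun z => by
    obtain ⟨z', h1, h2, h3⟩ := hcon z.1 z.2.1 z.2.2
    exact ⟨⟨z', h1, h2⟩, h3⟩
  choose nx hnx using hstep
  let z : ℕ → {z : L ⊗[ℂ] F // z ∈ W ∧ z ≠ 0} := fun n => nx^[n] ⟨z₀, hz₀, hz₀'⟩
  have hz : StrictAnti fun n => G (z n).1 := strictAnti_nat_of_succ_lt fun n => by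
    simp only [z, Function.iterate_succ_apply']
    exact hnx _
  have hsm : ∀ (l : L) (y : L ⊗[ℂ] F), l ≠ 0 → G (l • y) = G y := fun l y hl => by
    rw [gaussB_smul, map_mul, hG.tmul_one hl, one_mul]
  have hli : LinearIndependent L fun n => (z n).1 := by
    rw [linearIndependent_iff']
    intro s g hsum
    by_contra hne
    push Not at hne
    have hex : ∃ i, i ∈ s ∧ g i ≠ 0 := hne
    obtain ⟨hi, hg⟩ := Nat.find_spec hex
    have h0 : G (z (Nat.find hex)).1 ≠ 0 := fun h => (z _).2.2 (hG.eq_zero_iff.mp h)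
    have h1 := G.map_sum_eq_of_lt (f := fun i => g i • (z i).1) hi fun i hi' => by
      obtain ⟨a1, a2⟩ := Finset.mem_sdiff.mp hi'
      rw [hsm _ _ hg]
      by_cases hgi : g i = 0
      · rw [hgi, zero_smul, map_zero]
        exact zero_lt_iff.mpr h0
      · rw [hsm _ _ hgi]
        exact hz (lt_of_le_of_ne (Nat.find_min' hex ⟨a1, hgi⟩)
          fun e => a2 (Finset.mem_singleton.mpr e.symm))
    rw [hsum, map_zero, hsm _ _ hg] at h1
    exact h0 h1.symm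
  exact Module.Finite.not_linearIndependent_of_infinite (R := L)
    (fun n => (⟨(z n).1, (z n).2.1⟩ : W)) (LinearIndependent.of_comp W.subtype hli)

/-- Sketch: `W ≤ span L {1 ⊗ e j}` for a finite spanning family `e` of `E`, by `exists_nf`. -/
theorem fd_of_co (E : Submodule ℂ F) [FiniteDimensional ℂ E] (W : Submodule L (L ⊗[ℂ] F))
    (h : ∀ z ∈ W, ∀ ℓ, co ℓ z ∈ E) : FiniteDimensional L W := by
  obtain ⟨s, hs⟩ := (Submodule.fg_iff_finiteDimensional E).mpr inferInstance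
  have h1 : FiniteDimensional L
      (Submodule.span L ((fun f : F => (1 : L) ⊗ₜ[ℂ] f) '' (s : Set F))) :=
    FiniteDimensional.span_of_finite L (s.finite_toSet.image _)
  have h2 : ∀ f ∈ E, ∀ a : L, a ⊗ₜ[ℂ] f ∈
      Submodule.span L ((fun f : F => (1 : L) ⊗ₜ[ℂ] f) '' (s : Set F)) := by
    intro f hf
    rw [← hs] at hf
    induction hf using Submodule.span_induction with
    | mem x hx =>
      intro a
      have := Submodule.smul_mem _ a (Submodule.subset_span (R := L)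
        (Set.mem_image_of_mem (fun f : F => (1 : L) ⊗ₜ[ℂ] f) hx))
      rwa [TensorProduct.smul_tmul', smul_eq_mul, mul_one] at this
    | zero => simp
    | add x y _ _ hx hy =>
      intro a
      rw [TensorProduct.tmul_add]
      exact Submodule.add_mem _ (hx a) (hy a)
    | smul c x _ hx =>
      intro a
      rw [← TensorProduct.smul_tmul]
      exact hx _
  refine Submodule.finiteDimensional_of_le
    (S₂ := Submodule.span L ((fun f : F => (1 : L) ⊗ₜ[ℂ] f) '' (s : Set F))) fun z hz => ?_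
  obtain ⟨J, _, a, ℓ, hy⟩ := exists_nf z
  rw [hy]
  exact Submodule.sum_mem _ fun j _ => h2 _ (h z hz _) _

/-- A nonzero stable ideal is everything. Sketch: fix a basis `e` of `F` over `ℂ` and the basis
`Algebra.TensorProduct.basis L e` of `L ⊗ F` over `L`; the coordinates of `map ψ id z` are the
images under `ψ` of those of `z`. Take `z ∈ J`, `z ≠ 0`, with smallest support and one coordinate
equal to `1`; `map ψ id z - z ∈ J` has smaller support, so it vanishes; all coordinates are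
constants, `z = 1 ⊗ c` with `c ≠ 0` is a unit. -/
theorem ec (ψ : L →ₐ[ℂ] L) (fix : ∀ a, ψ a = a → ∃ c : ℂ, algebraMap ℂ L c = a)
    (J : Ideal (L ⊗[ℂ] F)) (h0 : J ≠ ⊥)
    (h : ∀ z ∈ J, Algebra.TensorProduct.map ψ (AlgHom.id ℂ F) z ∈ J) : J = ⊤ := by
  classical
  let e := Module.Basis.ofVectorSpace ℂ F
  let b := Algebra.TensorProduct.basis L e
  have hb : ∀ z i, b.repr (Algebra.TensorProduct.map ψ (AlgHom.id ℂ F) z) i = ψ (b.repr z i) := by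
    intro z i
    induction z with
    | zero => simp
    | tmul a f => simp [b]
    | add x y hx hy => simp only [map_add, Finsupp.add_apply, hx, hy]
  have hex : ∃ n, ∃ z ∈ J, z ≠ 0 ∧ (b.repr z).support.card = n := by
    obtain ⟨z, hz, hz'⟩ := Submodule.exists_mem_ne_zero_of_ne_bot h0
    exact ⟨_, z, hz, hz', rfl⟩
  obtain ⟨z, hz, hz0, hn⟩ := Nat.find_spec hex
  have hr : b.repr z ≠ 0 := fun hr => hz0 (b.repr.map_eq_zero_iff.mp hr)
  obtain ⟨i, hi⟩ := Finsupp.support_nonempty_iff.mpr hr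
  have hi0 := Finsupp.mem_support_iff.mp hi
  obtain ⟨w, hw⟩ : ∃ w, w = (b.repr z i)⁻¹ • z := ⟨_, rfl⟩
  have hwJ : w ∈ J := by
    rw [hw, gaussB_smul]
    exact J.mul_mem_left _ hz
  have hwc : ∀ j, b.repr w j = (b.repr z i)⁻¹ * b.repr z j := fun j => by
    rw [hw, map_smul, Finsupp.smul_apply, smul_eq_mul]
  have hw1 : b.repr w i = 1 := by rw [hwc, inv_mul_cancel₀ hi0]
  have hd : Algebra.TensorProduct.map ψ (AlgHom.id ℂ F) w - w = 0 := by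
    by_contra hd
    refine Nat.find_min hex ?_ ⟨_, J.sub_mem (h w hwJ) hwJ, hd, rfl⟩
    rw [← hn]
    refine lt_of_le_of_lt (Finset.card_le_card fun j hj => ?_) (Finset.card_erase_lt_of_mem hi)
    rw [Finsupp.mem_support_iff, map_sub, Finsupp.sub_apply, hb] at hj
    refine Finset.mem_erase.mpr ⟨fun hji => hj ?_, Finsupp.mem_support_iff.mpr fun hj0 => hj ?_⟩
    · rw [hji, hw1, map_one, sub_self]
    · rw [hwc, hj0, mul_zero, map_zero, sub_self]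
  have hc : ∀ j, ∃ c : ℂ, algebraMap ℂ L c = b.repr w j := fun j => fix _ (by
    rw [← hb, sub_eq_zero.mp hd])
  choose c hc using hc
  have hw2 : w = (1 : L) ⊗ₜ[ℂ] ∑ j ∈ (b.repr w).support, c j • e j := by
    conv_lhs => rw [← b.linearCombination_repr w, Finsupp.linearCombination_apply, Finsupp.sum]
    rw [TensorProduct.tmul_sum]
    refine Finset.sum_congr rfl fun j _ => ?_
    rw [← hc, algebraMap_smul, TensorProduct.tmul_smul, Algebra.TensorProduct.basis_apply]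
  generalize ∑ j ∈ (b.repr w).support, c j • e j = f at hw2
  have hf : f ≠ 0 := by
    intro hf
    rw [hw2, hf, TensorProduct.tmul_zero, map_zero] at hw1
    exact zero_ne_one hw1
  rw [Ideal.eq_top_iff_one]
  have := J.mul_mem_left ((1 : L) ⊗ₜ[ℂ] f⁻¹) hwJ
  rwa [hw2, Algebra.TensorProduct.tmul_mul_tmul, mul_one, inv_mul_cancel₀ hf] at this

theorem gaussB_oc_map {N B : Type} [CommRing N] [Algebra ℂ N] [CommRing B] [Algebra ℂ B]
    (ρ : F →ₗ[ℂ] ℂ) (θ : N →ₐ[ℂ] B) (s : N ⊗[ℂ] F) :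
    oc ρ (Algebra.TensorProduct.map θ (AlgHom.id ℂ F) s) = θ (oc ρ s) := by
  induction s with
  | zero => simp
  | tmul a f => simp
  | add a b ha hb => simp only [map_add, ha, hb]

theorem gaussB_mem {B : Type} [CommRing B] [Algebra ℂ B] (ρ : F →ₗ[ℂ] ℂ) (I : Ideal B)
    {y : B ⊗[ℂ] F} (hy : y ∈ I.map (Algebra.TensorProduct.includeLeft : B →ₐ[ℂ] B ⊗[ℂ] F))
    (z : B ⊗[ℂ] F) : oc ρ (z * y) ∈ I := by
  induction hy using Submodule.span_induction generalizing z with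
  | mem x hx =>
    obtain ⟨a, ha, rfl⟩ := hx
    rw [Algebra.TensorProduct.includeLeft_apply, mul_comm, oc_tmul_one_mul]
    exact I.mul_mem_right _ ha
  | zero => simp
  | add a b _ _ ha hb =>
    rw [mul_add, map_add]
    exact I.add_mem (ha z) (hb z)
  | smul a b _ hb =>
    rw [smul_eq_mul, ← mul_assoc]
    exact hb _

theorem gaussB_unit {B N : Type} [CommRing B] [IsDomain B] [Algebra ℂ B] [Field N] [Algebra ℂ N]
    {π : Place F} {G : Valuation (B ⊗[ℂ] F) π.O.ValueGroup} (hG : IsGauss π G) (θ : N →ₐ[ℂ] B)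
    {s : N ⊗[ℂ] F} (hs : s ≠ 0) : ∃ c : F, c ≠ 0 ∧
      G (((1 : B) ⊗ₜ[ℂ] c) * Algebra.TensorProduct.map θ (AlgHom.id ℂ F) s) = 1 ∧
      IsUnit (oc π.ρ (((1 : B) ⊗ₜ[ℂ] c) * Algebra.TensorProduct.map θ (AlgHom.id ℂ F) s)) := by
  obtain ⟨G₁, hG₁⟩ := exists_gauss (N := N) π
  obtain ⟨c, hc, h1⟩ := hG₁.exists_normalise hs
  have h2 : ((1 : B) ⊗ₜ[ℂ] c) * Algebra.TensorProduct.map θ (AlgHom.id ℂ F) s =
      Algebra.TensorProduct.map θ (AlgHom.id ℂ F) (((1 : N) ⊗ₜ[ℂ] c) * s) := by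
    rw [map_mul, Algebra.TensorProduct.map_tmul, map_one]
    rfl
  refine ⟨c, hc, ?_, ?_⟩
  · rw [h2, hG₁.map_eq hG θ θ.toRingHom.injective, h1]
  · rw [h2, gaussB_oc_map]
    exact (isUnit_iff_ne_zero.mpr (hG₁.oc_ne_zero h1)).map θ

/-- Specialisation at a place of `F`. Sketch: take a place `π` of `F` and the Gauss valuation `G`
on `B ⊗ F`; normalise `y, y', θ₁ s₁, θ₂ s₂` by `c, c', c₁, c₂`; with `γ = c c' / (c₁ c₂)`,
`ỹ ỹ' = (1 ⊗ γ) s̃₁ s̃₂ (σ ⊗ 1)`, so `v γ = 1`. Apply `oc ρ`: it maps `I.map includeLeft` into `I`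
(`oc_tmul_one_mul`; show `oc ρ (z * y) ∈ I` for all `z` by span induction), it commutes with
`map θ id`, so `oc ρ s̃ᵢ = θᵢ (nonzero)` is a unit, and `oc ρ (1 ⊗ γ) = ρ γ • 1` is a unit. -/
theorem spec {B N₁ N₂ : Type} [CommRing B] [IsDomain B] [Algebra ℂ B] [Field N₁] [Algebra ℂ N₁]
    [Field N₂] [Algebra ℂ N₂] (θ₁ : N₁ →ₐ[ℂ] B) (θ₂ : N₂ →ₐ[ℂ] B) (I I' : Ideal B) {σ : B}
    (hσ : σ ≠ 0) {y y' : B ⊗[ℂ] F}
    (hy : y ∈ I.map (Algebra.TensorProduct.includeLeft : B →ₐ[ℂ] B ⊗[ℂ] F))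
    (hy' : y' ∈ I'.map (Algebra.TensorProduct.includeLeft : B →ₐ[ℂ] B ⊗[ℂ] F))
    {s₁ : N₁ ⊗[ℂ] F} {s₂ : N₂ ⊗[ℂ] F} (h₁ : s₁ ≠ 0) (h₂ : s₂ ≠ 0)
    (e : y * y' = Algebra.TensorProduct.map θ₁ (AlgHom.id ℂ F) s₁ *
      Algebra.TensorProduct.map θ₂ (AlgHom.id ℂ F) s₂ * (σ ⊗ₜ[ℂ] (1 : F))) :
    ∃ b ∈ I, ∃ b' ∈ I', b * b' = σ := by
  obtain ⟨π⟩ : Nonempty (Place F) := inferInstance
  obtain ⟨G, hG⟩ := exists_gauss (N := B) π
  obtain ⟨c₁, hc₁, g₁, u₁⟩ := gaussB_unit hG θ₁ h₁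
  obtain ⟨c₂, hc₂, g₂, u₂⟩ := gaussB_unit hG θ₂ h₂
  generalize Algebra.TensorProduct.map θ₁ (AlgHom.id ℂ F) s₁ = t₁ at *
  generalize Algebra.TensorProduct.map θ₂ (AlgHom.id ℂ F) s₂ = t₂ at *
  have g₃ := hG.tmul_one hσ
  have n₁ : G t₁ ≠ 0 := fun h => by simp [h] at g₁
  have n₂ : G t₂ ≠ 0 := fun h => by simp [h] at g₂
  have n₃ : G y * G y' ≠ 0 := by
    rw [← map_mul, e, map_mul, map_mul, g₃, mul_one]
    exact mul_ne_zero n₁ n₂
  obtain ⟨c, hc, g⟩ := hG.exists_normalise (y := y) fun h => n₃ (by simp [h])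
  obtain ⟨c', hc', g'⟩ := hG.exists_normalise (y := y') fun h => n₃ (by simp [h])
  have e1 : ((1 : B) ⊗ₜ[ℂ] (c * c' / (c₁ * c₂))) * (((1 : B) ⊗ₜ[ℂ] c₁) * ((1 : B) ⊗ₜ[ℂ] c₂)) =
      ((1 : B) ⊗ₜ[ℂ] c) * ((1 : B) ⊗ₜ[ℂ] c') := by
    simp only [Algebra.TensorProduct.tmul_mul_tmul, mul_one]
    rw [div_mul_cancel₀ _ (mul_ne_zero hc₁ hc₂)]
  generalize c * c' / (c₁ * c₂) = γ at e1
  have e2 : (((1 : B) ⊗ₜ[ℂ] c) * y) * (((1 : B) ⊗ₜ[ℂ] c') * y') = (σ ⊗ₜ[ℂ] (1 : F)) *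
      (((1 : B) ⊗ₜ[ℂ] γ) * ((((1 : B) ⊗ₜ[ℂ] c₁) * t₁) * (((1 : B) ⊗ₜ[ℂ] c₂) * t₂))) := by
    linear_combination ((1 : B) ⊗ₜ[ℂ] c) * ((1 : B) ⊗ₜ[ℂ] c') * e -
      t₁ * t₂ * (σ ⊗ₜ[ℂ] (1 : F)) * e1
  have g₄ : G ((((1 : B) ⊗ₜ[ℂ] c₁) * t₁) * (((1 : B) ⊗ₜ[ℂ] c₂) * t₂)) = 1 := by
    rw [map_mul, g₁, g₂, one_mul]
  have g₅ : G ((1 : B) ⊗ₜ[ℂ] γ) = 1 := by
    have := congrArg G e2
    rw [map_mul, g, g', map_mul, g₃, map_mul, g₄, one_mul, one_mul, mul_one] at this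
    exact this.symm
  have u₃ : IsUnit (oc π.ρ ((1 : B) ⊗ₜ[ℂ] γ)) := by
    have h0 := hG.oc_ne_zero g₅
    rw [oc_tmul] at h0 ⊢
    rw [← Algebra.algebraMap_eq_smul_one]
    exact (isUnit_iff_ne_zero.mpr fun h => h0 (by rw [h, zero_smul])).map _
  have e3 := congrArg (oc π.ρ) e2
  rw [hG.oc_mul g.le g'.le, oc_tmul_one_mul, hG.oc_mul g₅.le g₄.le, hG.oc_mul g₁.le g₂.le] at e3
  obtain ⟨U, hU⟩ := (u₃.mul (u₁.mul u₂)).exists_right_inv
  refine ⟨U * oc π.ρ (((1 : B) ⊗ₜ[ℂ] c) * y), I.mul_mem_left _ (gaussB_mem _ I hy _), _,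
    gaussB_mem π.ρ I' hy' ((1 : B) ⊗ₜ[ℂ] c'), ?_⟩
  rw [mul_assoc, e3, mul_comm, mul_assoc, hU, mul_one]

end Pool.Agent.Lib.MP_bc213e_ag.Hyp
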