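import Pool.Agent.Lib.MP_bc213e_ag.Hyp.TT0

/-! An invariant family of divisor classes is constant. -/

namespace Pool.Agent.Lib.MP_bc213e_ag.Hyp

open Algebra.TensorProduct
open scoped TensorProduct

variable {K L F : Type} [Field K] [Algebra ℂ K] [Field L] [Algebra ℂ L] [Field F] [Algebra ℂ F]

theorem TT_retr (F₀ : IntermediateField ℂ F) : ∃ R : K ⊗[ℂ] F →ₗ[ℂ] K ⊗[ℂ] F₀, R 1 = 1 ∧
    ∀ a c, R (map (AlgHom.id ℂ K) F₀.val a * c) = a * R c := by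
  obtain ⟨r, hr⟩ := LinearMap.exists_leftInverse_of_injective (Algebra.linearMap F₀ F)
    (LinearMap.ker_eq_bot.2 (algebraMap F₀ F).injective)
  have r1 : r 1 = 1 := by simpa using LinearMap.congr_fun hr 1
  refine ⟨LinearMap.lTensor K (r.restrictScalars ℂ), by
    rw [one_def, LinearMap.lTensor_tmul, LinearMap.restrictScalars_apply, r1, one_def],
    fun a c => ?_⟩
  induction a with
  | zero => simp
  | add a a' h h' => rw [map_add, add_mul, map_add, h, h', add_mul]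
  | tmul k f =>
    induction c with
    | zero => simp
    | add c c' h h' => rw [mul_add, map_add, h, h', map_add, mul_add]
    | tmul k' f' =>
      have : r ((f : F) * f') = f * r f' := r.map_smul f f'
      simp [this]

/-- Sketch: an `F₀`-linear retraction `r : F → F₀` (`LinearMap.exists_leftInverse_of_injective`);
`R = lTensor K r` satisfies `R (incl a * c) = a * R c` and `R (incl b) = b`. -/
theorem descend (F₀ : IntermediateField ℂ F) {a b : K ⊗[ℂ] F₀} {c : K ⊗[ℂ] F}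
    (h : map (AlgHom.id ℂ K) F₀.val b = map (AlgHom.id ℂ K) F₀.val a * c) :
    ∃ c₀ : K ⊗[ℂ] F₀, b = a * c₀ := by
  obtain ⟨R, h1, hR⟩ := TT_retr (K := K) F₀
  refine ⟨R c, ?_⟩
  rw [← hR, ← h, ← mul_one (map _ _ b), hR, h1, mul_one]

theorem incl_inj (F₀ : IntermediateField ℂ F) :
    Function.Injective (map (AlgHom.id ℂ K) F₀.val : K ⊗[ℂ] F₀ → K ⊗[ℂ] F) := by
  obtain ⟨R, h1, hR⟩ := TT_retr (K := K) F₀
  intro a b h
  rw [← mul_one a, ← mul_one b, ← h1, ← hR, ← hR, h]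

theorem TT_one (y : K ⊗[ℂ] F) : ∃ t : Finset F, ∀ F₀ : IntermediateField ℂ F, (t : Set F) ⊆ F₀ →
    ∃ y₀ : K ⊗[ℂ] F₀, map (AlgHom.id ℂ K) F₀.val y₀ = y := by
  classical
  induction y with
  | zero => exact ⟨∅, fun F₀ _ => ⟨0, map_zero _⟩⟩
  | tmul k f => exact ⟨{f}, fun F₀ h => ⟨k ⊗ₜ ⟨f, h (by simp)⟩, rfl⟩⟩
  | add y y' h h' =>
    obtain ⟨t, ht⟩ := h
    obtain ⟨t', ht'⟩ := h'
    refine ⟨t ∪ t', fun F₀ h => ?_⟩
    rw [Finset.coe_union, Set.union_subset_iff] at h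
    obtain ⟨a, rfl⟩ := ht F₀ h.1
    obtain ⟨b, rfl⟩ := ht' F₀ h.2
    exact ⟨a + b, map_add _ _ _⟩

/-- Sketch: `F₀` is generated by the coefficients of the normal forms (`exists_nf`); it is
finitely generated over `ℂ` as a field (`IntermediateField.lift`, `lift_injective`, or
`IntermediateField.fg_top_iff`, `essFiniteType_iff`). -/
theorem exists_subfield (s : Finset (K ⊗[ℂ] F)) : ∃ F₀ : IntermediateField ℂ F,
    (∃ t : Finset F₀, IntermediateField.adjoin ℂ (t : Set F₀) = ⊤) ∧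
      ∀ y ∈ s, ∃ y₀ : K ⊗[ℂ] F₀, map (AlgHom.id ℂ K) F₀.val y₀ = y := by
  classical
  choose t ht using TT_one (K := K) (F := F)
  refine ⟨IntermediateField.adjoin ℂ (s.biUnion t : Set F), IntermediateField.fg_top_iff.2
    (IntermediateField.essFiniteType_iff.2 (IntermediateField.fg_adjoin_finset _)),
    fun y hy => ht y _ ?_⟩
  exact (Finset.coe_subset.2 (Finset.subset_biUnion_of_mem t hy)).trans
    (IntermediateField.subset_adjoin _ _)

theorem TT_comm (φ : K →ₐ[ℂ] K) (F₀ : IntermediateField ℂ F) (a : K ⊗[ℂ] F₀) :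
    map (AlgHom.id ℂ K) F₀.val (map φ (AlgHom.id ℂ F₀) a) =
      map φ (AlgHom.id ℂ F) (map (AlgHom.id ℂ K) F₀.val a) := by
  induction a with
  | zero => simp
  | tmul k f => simp
  | add a a' h h' => simp only [map_add, h, h']

theorem TT_stab (φ : K →ₐ[ℂ] K) (F₀ : IntermediateField ℂ F) (I : Ideal (K ⊗[ℂ] F))
    {σ o : K ⊗[ℂ] F₀} (h0 : map (AlgHom.id ℂ K) F₀.val σ ≠ 0)
    (hI : ∀ b ∈ I, ∃ c ∈ I, map (AlgHom.id ℂ K) F₀.val o * map φ (AlgHom.id ℂ F) b =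
      map φ (AlgHom.id ℂ F) (map (AlgHom.id ℂ K) F₀.val σ) * c) :
    ∀ b ∈ I.comap (map (AlgHom.id ℂ K) F₀.val), ∃ c ∈ I.comap (map (AlgHom.id ℂ K) F₀.val),
      o * map φ (AlgHom.id ℂ F₀) b = map φ (AlgHom.id ℂ F₀) σ * c := by
  intro b hb
  have := isDomain_tensor K F
  have inj : Function.Injective (map φ (AlgHom.id ℂ F)) :=
    Module.Flat.rTensor_preserves_injective_linearMap (M := F) φ.toLinearMap φ.toRingHom.injective
  obtain ⟨c, hc, e⟩ := hI _ (Ideal.mem_comap.1 hb)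
  rw [← TT_comm, ← TT_comm, ← map_mul] at e
  obtain ⟨c₀, e₀⟩ := descend F₀ e
  refine ⟨c₀, Ideal.mem_comap.2 ?_, e₀⟩
  rw [e₀, map_mul, TT_comm] at e
  rwa [mul_left_cancel₀ ((map_ne_zero_iff _ inj).2 h0) e]

/-- Sketch: `tt0` for the preimages of `I, I'` in `K ⊗ F₀`; `descend`, `incl_inj` and cancellation
of `Φ σ ≠ 0` in the domain `K ⊗ F`. -/
theorem tt {φ : K →ₐ[ℂ] K} (T : Two φ L)
    (fix : ∀ a, T.ψ a = a → ∃ c : ℂ, algebraMap ℂ L c = a) (I I' : Ideal (K ⊗[ℂ] F))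
    {σ o o' : K ⊗[ℂ] F} (h0 : σ ≠ 0) (hσ : σ ∈ I) (hσ' : σ ∈ I')
    (mul : o * o' = σ * map φ (AlgHom.id ℂ F) σ)
    (hI : ∀ b ∈ I, ∃ c ∈ I, o * map φ (AlgHom.id ℂ F) b = map φ (AlgHom.id ℂ F) σ * c)
    (hI' : ∀ b ∈ I', ∃ c ∈ I', o' * map φ (AlgHom.id ℂ F) b = map φ (AlgHom.id ℂ F) σ * c) :
    ∃ b ∈ I, ∃ b' ∈ I', b * b' = σ := by
  classical
  obtain ⟨F₀, gen, h⟩ := exists_subfield {σ, o, o'}
  obtain ⟨σ, rfl⟩ := h σ (by simp)
  obtain ⟨o, rfl⟩ := h o (by simp)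
  obtain ⟨o', rfl⟩ := h o' (by simp)
  obtain ⟨b, hb, b', hb', e⟩ := tt0 T gen fix (I.comap (map (AlgHom.id ℂ K) F₀.val))
    (I'.comap (map (AlgHom.id ℂ K) F₀.val)) (σ := σ) (o := o) (o' := o')
    (fun h => h0 (by rw [h, map_zero])) hσ hσ'
    (incl_inj F₀ (by rw [map_mul, map_mul, TT_comm, mul])) (TT_stab φ F₀ I h0 hI)
    (TT_stab φ F₀ I' h0 hI')
  exact ⟨_, hb, _, hb', by rw [← map_mul, e]⟩

end Pool.Agent.Lib.MP_bc213e_ag.Hyp
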