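import Pool.Agent.Lib.MP_bc213e_ag.Hyp.GermA
import Pool.Agent.Lib.MP_bc213e_ag.Hyp.TT

/-! From the constant family theorem to a bounded factorisation. -/

namespace Pool.Agent.Lib.MP_bc213e_ag.Hyp

open Filter Algebra.TensorProduct
open scoped TensorProduct

variable {K : Type} [Field K] [Algebra ℂ K]

/-- Quasi-invariance of the ideal. Sketch: let `j b = s`, `r s t / σ' t ∈ G t a`. Put
`c t = σ' t * η t * φ (s t) / φ (σ' t)`; `φ r * z ^ a * c t / σ' t = φ (r s t / σ' t) η t z ^ a`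
lies in `G t (a a₁)`, so `φ r * z ^ a * c t ∈ G₀ (a a₁ + a₀)` and `c` is the germ of an element
`c' = ((φ r * z ^ a)⁻¹ ⊗ 1) * _` of `K ⊗ F`, which lies in `I`; the identity holds after applying
the injective map `j` (`ultra_map`). -/
theorem germ_stab {U : Ultrafilter ℕ} {F : Type} [Field F] [Algebra ℂ F]
    (j : K ⊗[ℂ] F →+* Germ (U : Filter ℕ) K) (inj : Function.Injective j)
    (h₁ : ∀ a : K, j (a ⊗ₜ[ℂ] (1 : F)) = ((fun _ => a : ℕ → K) : Germ (U : Filter ℕ) K))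
    (h₂ : ∀ c : F, ∃ s : ℕ → ℂ, j ((1 : K) ⊗ₜ[ℂ] c) =
      ((fun t => algebraMap ℂ K (s t) : ℕ → K) : Germ (U : Filter ℕ) K))
    (h₃ : ∀ (W : Submodule ℂ K) (_ : FiniteDimensional ℂ W) (s : ℕ → K),
      (∀ᶠ t in (U : Filter ℕ), s t ∈ W) → ∃ b, j b = (s : Germ (U : Filter ℕ) K))
    (φ : K →ₐ[ℂ] K) {G₀ : ℕ → Submodule ℂ K} {G : ℕ → ℕ → Submodule ℂ K}
    (fd : ∀ a, FiniteDimensional ℂ (G₀ a)) {σ σ' η : ℕ → K} (h0 : ∀ t, σ' t ≠ 0) {a₀ a₁ : ℕ}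
    (mul : ∀ t a s, s ∈ G t a → σ' t * s ∈ G₀ (a + a₀)) {z : K} (hz : z ≠ 0)
    (inv : ∀ t a s, s ∈ G t a → φ s * η t * z ^ a ∈ G t (a * a₁)) (I : Ideal (K ⊗[ℂ] F))
    (hI : ∀ b, b ∈ I ↔ ∃ (r : K) (a : ℕ) (s : ℕ → K), r ≠ 0 ∧
      j b = (s : Germ (U : Filter ℕ) K) ∧ ∀ᶠ t in (U : Filter ℕ), r * s t / σ' t ∈ G t a)
    {ς o : K ⊗[ℂ] F} (hς : j ς = ((fun t => σ t * σ' t : ℕ → K) : Germ (U : Filter ℕ) K))
    (ho : j o = ((fun t => σ' t * φ (σ t) * η t : ℕ → K) : Germ (U : Filter ℕ) K)) :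
    ∀ b ∈ I, ∃ c ∈ I, o * map φ (AlgHom.id ℂ F) b = map φ (AlgHom.id ℂ F) ς * c := by
  intro b hb
  obtain ⟨r, a, s, hr, hs, hev⟩ := (hI b).1 hb
  have hφ : ∀ t, φ (σ' t) ≠ 0 := fun t => (_root_.map_ne_zero φ).2 (h0 t)
  have hu : φ r * z ^ a ≠ 0 := mul_ne_zero ((_root_.map_ne_zero φ).2 hr) (pow_ne_zero a hz)
  set c : ℕ → K := fun t => σ' t * η t * φ (s t) / φ (σ' t) with hc
  have key : ∀ t, φ r * z ^ a * c t / σ' t = φ (r * s t / σ' t) * η t * z ^ a := fun t => by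
    have := h0 t
    have := hφ t
    simp only [hc, map_div₀, map_mul]
    field_simp
  have hev' : ∀ᶠ t in (U : Filter ℕ), φ r * z ^ a * c t / σ' t ∈ G t (a * a₁) :=
    hev.mono fun t ht => key t ▸ inv t a _ ht
  obtain ⟨b₁, hb₁⟩ := h₃ (G₀ (a * a₁ + a₀)) (fd _) (fun t => φ r * z ^ a * c t)
    (hev'.mono fun t ht => by
      have := mul t _ _ ht
      rwa [mul_div_cancel₀ _ (h0 t)] at this)
  have hj : j (((φ r * z ^ a)⁻¹ ⊗ₜ[ℂ] (1 : F)) * b₁) = (c : Germ (U : Filter ℕ) K) := by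
    rw [map_mul, h₁, hb₁, ← Germ.coe_mul]
    congr 1
    funext t
    simp only [Pi.mul_apply]
    rw [inv_mul_cancel_left₀ hu]
  refine ⟨_, (hI _).2 ⟨_, _, c, hu, hj, hev'⟩, inj ?_⟩
  rw [map_mul, map_mul, hj, ho, ultra_map j h₁ h₂ φ b s hs, ultra_map j h₁ h₂ φ ς _ hς,
    ← Germ.coe_mul, ← Germ.coe_mul]
  congr 1
  funext t
  have := hφ t
  simp only [Pi.mul_apply, hc, map_mul]
  field_simp

/-- Sketch: `U = hyperfilter ℕ`, `exists_ultra`, `I` for `(G, σ')`, `I'` for `(G', σ)`;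
`ς, o, o'` are the elements with germs `σ σ'`, `σ' φ(σ) η`, `σ φ(σ') η⁻¹` (bounded after
multiplication by `z ^ a₀`); `germ_stab` twice and `tt` give `b ∈ I`, `b' ∈ I'`, `b b' = ς`; for
almost all `t`, `(r s t / σ' t) (r' s' t / σ t) = r r'`; a set in `hyperfilter ℕ` is infinite
(`Filter.notMem_hyperfilter_of_finite`). -/
theorem germ {φ : K →ₐ[ℂ] K} {L : Type} [Field L] [Algebra ℂ L] (T : Two φ L)
    (fix : ∀ a, T.ψ a = a → ∃ c : ℂ, algebraMap ℂ L c = a) {G₀ : ℕ → Submodule ℂ K}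
    {G G' : ℕ → ℕ → Submodule ℂ K} (hG : Fam G₀ G) (hG' : Fam G₀ G')
    (fd : ∀ a, FiniteDimensional ℂ (G₀ a))
    (den : ∀ r r' : K, ∃ (e : ℕ) (d : K), d ≠ 0 ∧ d * r ∈ G₀ e ∧ d * r' ∈ G₀ e)
    (mul : ∀ t a a' s s', s ∈ G t a → s' ∈ G' t a' → s * s' ∈ G₀ (a + a')) {a₀ a₁ : ℕ}
    (sec : ∀ t, ∃ s, s ≠ 0 ∧ s ∈ G t a₀) (sec' : ∀ t, ∃ s, s ≠ 0 ∧ s ∈ G' t a₀) {η : ℕ → K}
    (hη : ∀ t, η t ≠ 0) {z : K} (hz : z ≠ 0)
    (inv : ∀ t a s, s ∈ G t a → φ s * η t * z ^ a ∈ G t (a * a₁))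
    (inv' : ∀ t a s, s ∈ G' t a → φ s * (η t)⁻¹ * z ^ a ∈ G' t (a * a₁)) :
    ∃ (a : ℕ) (r : K) (A : Set ℕ), r ≠ 0 ∧ A.Infinite ∧
      ∀ t ∈ A, ∃ s s' : K, s ∈ G t a ∧ s' ∈ G' t a ∧ s * s' = r := by
  obtain ⟨F, _, _, j, inj, h₁, h₂, h₃⟩ := exists_ultra (K := K) (hyperfilter ℕ)
  choose σ h0 hσ using sec
  choose σ' h0' hσ' using sec'
  obtain ⟨I, hI⟩ := exists_ideal j h₁ h₂ hG den σ'
  obtain ⟨I', hI'⟩ := exists_ideal j h₁ h₂ hG' den σ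
  have bdd : ∀ (e : ℕ) (u : K) (s : ℕ → K), u ≠ 0 → (∀ t, u * s t ∈ G₀ e) →
      ∃ b, j b = (s : Germ (hyperfilter ℕ : Filter ℕ) K) := fun e u s hu h => by
    obtain ⟨b, hb⟩ := h₃ (G₀ e) (fd e) (fun t => u * s t) (Eventually.of_forall h)
    refine ⟨(u⁻¹ ⊗ₜ[ℂ] (1 : F)) * b, ?_⟩
    rw [map_mul, h₁, hb, ← Germ.coe_mul]
    congr 1
    funext t
    simp only [Pi.mul_apply]
    rw [inv_mul_cancel_left₀ hu]
  obtain ⟨ς, hς⟩ := bdd (a₀ + a₀) 1 (fun t => σ t * σ' t) one_ne_zero fun t => by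
    rw [one_mul]
    exact mul t _ _ _ _ (hσ t) (hσ' t)
  have hς' : j ς = ((fun t => σ' t * σ t : ℕ → K) : Germ (hyperfilter ℕ : Filter ℕ) K) := by
    rw [hς]
    congr 1
    funext t
    exact mul_comm _ _
  obtain ⟨o, ho⟩ := bdd (a₀ * a₁ + a₀) (z ^ a₀) (fun t => σ' t * φ (σ t) * η t)
    (pow_ne_zero _ hz) fun t => by
      have := mul t _ _ _ _ (inv t _ _ (hσ t)) (hσ' t)
      convert this using 1
      ring
  obtain ⟨o', ho'⟩ := bdd (a₀ + a₀ * a₁) (z ^ a₀) (fun t => σ t * φ (σ' t) * (η t)⁻¹)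
    (pow_ne_zero _ hz) fun t => by
      have := mul t _ _ _ _ (hσ t) (inv' t _ _ (hσ' t))
      convert this using 1
      ring
  have hne : ς ≠ 0 := fun e => by
    rw [e, map_zero, ← Germ.coe_zero, Germ.coe_eq] at hς
    obtain ⟨t, ht⟩ := hς.exists
    exact mul_ne_zero (h0 t) (h0' t) ht.symm
  obtain ⟨b, hb, b', hb', e⟩ := tt T fix I I' hne
    ((hI ς).2 ⟨1, a₀, _, one_ne_zero, hς, Eventually.of_forall fun t => by
      rw [one_mul, mul_div_cancel_right₀ _ (h0' t)]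
      exact hσ t⟩)
    ((hI' ς).2 ⟨1, a₀, _, one_ne_zero, hς', Eventually.of_forall fun t => by
      rw [one_mul, mul_div_cancel_right₀ _ (h0 t)]
      exact hσ' t⟩)
    (o := o) (o' := o')
    (inj (by
      rw [map_mul, map_mul, ho, ho', hς, ultra_map j h₁ h₂ φ ς _ hς, ← Germ.coe_mul,
        ← Germ.coe_mul]
      congr 1
      funext t
      have := hη t
      simp only [Pi.mul_apply, map_mul]
      field_simp))
    (germ_stab j inj h₁ h₂ h₃ φ fd h0' (a₀ := a₀)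
      (fun t a s hs => mul_comm s (σ' t) ▸ mul t _ _ _ _ hs (hσ' t)) hz inv I hI hς ho)
    (germ_stab j inj h₁ h₂ h₃ φ fd h0 (a₀ := a₀)
      (fun t a s hs => add_comm a₀ a ▸ mul t _ _ _ _ (hσ t) hs) hz inv' I' hI' hς' ho')
  obtain ⟨r, a, s, hr, hs, hev⟩ := (hI b).1 hb
  obtain ⟨r', a', s', hr', hs', hev'⟩ := (hI' b').1 hb'
  have hprod : ∀ᶠ t in (hyperfilter ℕ : Filter ℕ), s t * s' t = σ t * σ' t := by
    have := congrArg j e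
    rw [map_mul, hs, hs', hς, ← Germ.coe_mul, Germ.coe_eq] at this
    exact this
  have hall := hev.and (hev'.and hprod)
  refine ⟨a + a', r * r', _, mul_ne_zero hr hr',
    fun hfin => Filter.notMem_hyperfilter_of_finite hfin hall, fun t ht => ?_⟩
  obtain ⟨m, m', hp⟩ := ht
  refine ⟨_, _, hG.mono t _ _ (Nat.le_add_right a a') m, hG'.mono t _ _ (Nat.le_add_left a' a) m',
    ?_⟩
  have := h0 t
  have := h0' t
  field_simp
  linear_combination hp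

end Pool.Agent.Lib.MP_bc213e_ag.Hyp
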