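import Pool.Agent.Lib.MP_bc213e_ag.Hyp.ADefs

/-! Ultrapowers. -/

namespace Pool.Agent.Lib.MP_bc213e_ag.Hyp

open Filter Algebra.TensorProduct
open scoped TensorProduct

variable {K : Type} [Field K] [Algebra ℂ K]

/-- A synonym of the ultrapower that carries its own algebra structure. -/
def GermAU (U : Ultrafilter ℕ) (K : Type) : Type := Germ (U : Filter ℕ) K

noncomputable instance GermA_field (U : Ultrafilter ℕ) : Field (GermAU U K) :=
  inferInstanceAs (Field (Germ (U : Filter ℕ) K))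

/-- The class of a sequence. -/
noncomputable def GermAmk (U : Ultrafilter ℕ) (K : Type) [Field K] : (ℕ → K) →+* GermAU U K :=
  Germ.coeRingHom (U : Filter ℕ)

noncomputable instance GermA_alg (U : Ultrafilter ℕ) : Algebra ℂ (GermAU U K) :=
  ((GermAmk U K).comp ((Pi.constRingHom ℕ K).comp (algebraMap ℂ K))).toAlgebra

omit [Algebra ℂ K] in
lemma GermA_surj (U : Ultrafilter ℕ) (x : GermAU U K) : ∃ s, GermAmk U K s = x :=
  Germ.inductionOn (l := (U : Filter ℕ)) x fun f => ⟨f, rfl⟩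

omit [Algebra ℂ K] in
lemma GermA_eq {U : Ultrafilter ℕ} {s s' : ℕ → K} :
    GermAmk U K s = GermAmk U K s' ↔ ∀ᶠ t in (U : Filter ℕ), s t = s' t := Germ.coe_eq

/-- Constant germs. -/
noncomputable def GermAcK (U : Ultrafilter ℕ) (K : Type) [Field K] [Algebra ℂ K] :
    K →ₐ[ℂ] GermAU U K :=
  { (GermAmk U K).comp (Pi.constRingHom ℕ K) with commutes' := fun _ => rfl }

/-- Germs of scalars. -/
noncomputable def GermAcF (U : Ultrafilter ℕ) (K : Type) [Field K] [Algebra ℂ K] :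
    GermAU U ℂ →ₐ[ℂ] GermAU U K where
  toFun := Germ.map (l := (U : Filter ℕ)) (algebraMap ℂ K)
  map_one' := GermA_eq.2 (Eventually.of_forall fun _ => map_one (algebraMap ℂ K))
  map_zero' := GermA_eq.2 (Eventually.of_forall fun _ => map_zero (algebraMap ℂ K))
  map_mul' x y := by
    obtain ⟨f, rfl⟩ := GermA_surj U x
    obtain ⟨g, rfl⟩ := GermA_surj U y
    exact GermA_eq.2 (Eventually.of_forall fun t => map_mul (algebraMap ℂ K) (f t) (g t))
  map_add' x y := by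
    obtain ⟨f, rfl⟩ := GermA_surj U x
    obtain ⟨g, rfl⟩ := GermA_surj U y
    exact GermA_eq.2 (Eventually.of_forall fun t => map_add (algebraMap ℂ K) (f t) (g t))
  commutes' _ := rfl

lemma GermA_sum (U : Ultrafilter ℕ) {ι : Type} (S : Finset ι) (e : ι → K) (s : ι → ℕ → ℂ) :
    productMap (GermAcK U K) (GermAcF U K) (∑ i ∈ S, e i ⊗ₜ[ℂ] GermAmk U ℂ (s i)) =
      GermAmk U K fun t => ∑ i ∈ S, s i t • e i := by
  rw [map_sum, ← Finset.sum_fn, map_sum]
  refine Finset.sum_congr rfl fun i _ => ?_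
  rw [productMap_apply_tmul]
  exact GermA_eq.2 (Eventually.of_forall fun t =>
    (mul_comm _ _).trans (Algebra.smul_def (s i t) (e i)).symm)

/-- The ultrapower `F` of `ℂ` and the embedding of `K ⊗ F` into the ultrapower of `K`. Sketch:
`F = Germ U ℂ` (`Filter.Germ.instField`) with `Algebra ℂ F` given by
`(Germ.coeRingHom U).comp (Pi.constRingHom ℕ ℂ)`; likewise (locally) `Algebra ℂ (Germ U K)`;
`j = productMap cK cF`, `cK` the constant germs, `cF` induced by `algebraMap ℂ K`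
(`Germ.map`, a ring hom by `Germ.inductionOn`). Injectivity: write `b = ∑ e i ⊗ c i` with `e`
linearly independent; a finite intersection of `U`-large sets is `U`-large. Range: take a finite
basis `e` of `W` and the coordinate sequences (`0` where `s t ∉ W`). -/
theorem exists_ultra (U : Ultrafilter ℕ) : ∃ (F : Type) (_ : Field F) (_ : Algebra ℂ F)
    (j : K ⊗[ℂ] F →+* Germ (U : Filter ℕ) K), Function.Injective j ∧
      (∀ a : K, j (a ⊗ₜ[ℂ] (1 : F)) = ((fun _ => a : ℕ → K) : Germ (U : Filter ℕ) K)) ∧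
      (∀ c : F, ∃ s : ℕ → ℂ, j ((1 : K) ⊗ₜ[ℂ] c) =
        ((fun t => algebraMap ℂ K (s t) : ℕ → K) : Germ (U : Filter ℕ) K)) ∧
      ∀ (W : Submodule ℂ K) (_ : FiniteDimensional ℂ W) (s : ℕ → K),
        (∀ᶠ t in (U : Filter ℕ), s t ∈ W) → ∃ b, j b = (s : Germ (U : Filter ℕ) K) := by
  refine ⟨GermAU U ℂ, inferInstance, inferInstance,
    (productMap (GermAcK U K) (GermAcF U K)).toRingHom, ?_, fun a => ?_, fun c => ?_,
    fun W _ s hs => ?_⟩
  · refine (injective_iff_map_eq_zero (productMap (GermAcK U K) (GermAcF U K))).2 fun b hb => ?_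
    obtain ⟨c, rfl⟩ := TensorProduct.eq_repr_basis_left (Module.Basis.ofVectorSpace ℂ K) b
    choose s hs using fun i => GermA_surj U (c i)
    simp only [Finsupp.sum, ← hs] at hb ⊢
    rw [GermA_sum, ← map_zero (GermAmk U K), GermA_eq] at hb
    refine Finset.sum_eq_zero fun i hi => ?_
    have : GermAmk U ℂ (s i) = GermAmk U ℂ 0 := GermA_eq.2 (hb.mono fun t ht =>
      linearIndependent_iff'.1 (Module.Basis.ofVectorSpace ℂ K).linearIndependent _ _ ht i hi)
    rw [this, map_zero, TensorProduct.tmul_zero]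
  · exact (productMap_apply_tmul (GermAcK U K) (GermAcF U K) a 1).trans (by
      rw [map_one, mul_one]; rfl)
  · obtain ⟨s, rfl⟩ := GermA_surj U c
    exact ⟨s, (productMap_apply_tmul (GermAcK U K) (GermAcF U K) 1 _).trans (by
      rw [map_one, one_mul]; rfl)⟩
  · classical
    let e := Module.finBasis ℂ W
    refine ⟨∑ i, (e i : K) ⊗ₜ[ℂ] GermAmk U ℂ fun t => if h : s t ∈ W then e.repr ⟨s t, h⟩ i else 0,
      (GermA_sum U _ _ _).trans (GermA_eq.2 (hs.mono fun t ht => ?_))⟩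
    simp only [dif_pos ht]
    simpa only [Submodule.coe_sum, Submodule.coe_smul] using
      congrArg Subtype.val (e.sum_repr ⟨s t, ht⟩)

/-- Equivariance: induction on `b`, with `a ⊗ c = (a ⊗ 1) * (1 ⊗ c)`. -/
theorem ultra_map {U : Ultrafilter ℕ} {F : Type} [Field F] [Algebra ℂ F]
    (j : K ⊗[ℂ] F →+* Germ (U : Filter ℕ) K)
    (h₁ : ∀ a : K, j (a ⊗ₜ[ℂ] (1 : F)) = ((fun _ => a : ℕ → K) : Germ (U : Filter ℕ) K))
    (h₂ : ∀ c : F, ∃ s : ℕ → ℂ, j ((1 : K) ⊗ₜ[ℂ] c) =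
      ((fun t => algebraMap ℂ K (s t) : ℕ → K) : Germ (U : Filter ℕ) K))
    (φ : K →ₐ[ℂ] K) (b : K ⊗[ℂ] F) (s : ℕ → K) (h : j b = (s : Germ (U : Filter ℕ) K)) :
    j (map φ (AlgHom.id ℂ F) b) = ((fun t => φ (s t) : ℕ → K) : Germ (U : Filter ℕ) K) := by
  have key : ∀ b : K ⊗[ℂ] F, ∃ s : ℕ → K, j b = (s : Germ (U : Filter ℕ) K) ∧
      j (map φ (AlgHom.id ℂ F) b) = ((fun t => φ (s t) : ℕ → K) : Germ (U : Filter ℕ) K) := by
    intro b
    induction b using TensorProduct.induction_on with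
    | zero =>
      refine ⟨0, map_zero j, ?_⟩
      rw [map_zero, map_zero]
      exact Germ.coe_eq.2 (Eventually.of_forall fun _ => (map_zero φ).symm)
    | tmul a c =>
      obtain ⟨s, hs⟩ := h₂ c
      have e : ∀ a : K, j (a ⊗ₜ[ℂ] c) =
          ((fun t => a * algebraMap ℂ K (s t) : ℕ → K) : Germ (U : Filter ℕ) K) := fun a => by
        rw [show a ⊗ₜ[ℂ] c = (a ⊗ₜ[ℂ] (1 : F)) * ((1 : K) ⊗ₜ[ℂ] c) by simp, map_mul, h₁, hs]
        rfl
      refine ⟨_, e a, ?_⟩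
      rw [map_tmul, AlgHom.id_apply, e]
      simp
    | add x y hx hy =>
      obtain ⟨s, a1, a2⟩ := hx
      obtain ⟨s', b1, b2⟩ := hy
      refine ⟨s + s', by rw [map_add, a1, b1]; rfl, ?_⟩
      rw [map_add, map_add, a2, b2]
      exact Germ.coe_eq.2 (Eventually.of_forall fun t => (map_add φ _ _).symm)
  obtain ⟨s', a1, a2⟩ := key b
  rw [a2]
  exact Germ.coe_eq.2 ((Germ.coe_eq.1 (a1.symm.trans h)).mono fun t ht => congrArg φ ht)

/-- A graded family of spaces of sections `G t a` over the graded ring `G₀`. -/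
structure Fam (G₀ : ℕ → Submodule ℂ K) (G : ℕ → ℕ → Submodule ℂ K) : Prop where
  mono : ∀ t a a', a ≤ a' → G t a ≤ G t a'
  mul : ∀ t a b r s, r ∈ G₀ b → s ∈ G t a → r * s ∈ G t (a + b)

/-- The ideal of a family: `b` with `r * b t / σ' t ∈ G t a` for almost all `t`. Sketch: closure
under addition by `den` (replace `r, r'` by `d r r'`-type common multiples: choose `d` with
`d r, d r' ∈ G₀ e`; then `(d r') (r b / σ')` and `(d r) (r' b' / σ')` lie in `G t (a + a' + e)`).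
For multiplication by `c : K ⊗ F` use induction on `c`: `a ⊗ 1` changes `r` (or gives `0`),
`1 ⊗ c` is a scalar for each `t`. -/
theorem exists_ideal {U : Ultrafilter ℕ} {F : Type} [Field F] [Algebra ℂ F]
    (j : K ⊗[ℂ] F →+* Germ (U : Filter ℕ) K)
    (h₁ : ∀ a : K, j (a ⊗ₜ[ℂ] (1 : F)) = ((fun _ => a : ℕ → K) : Germ (U : Filter ℕ) K))
    (h₂ : ∀ c : F, ∃ s : ℕ → ℂ, j ((1 : K) ⊗ₜ[ℂ] c) =
      ((fun t => algebraMap ℂ K (s t) : ℕ → K) : Germ (U : Filter ℕ) K))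
    {G₀ : ℕ → Submodule ℂ K} {G : ℕ → ℕ → Submodule ℂ K} (hG : Fam G₀ G)
    (den : ∀ r r' : K, ∃ (e : ℕ) (d : K), d ≠ 0 ∧ d * r ∈ G₀ e ∧ d * r' ∈ G₀ e) (σ' : ℕ → K) :
    ∃ I : Ideal (K ⊗[ℂ] F), ∀ b, b ∈ I ↔ ∃ (r : K) (a : ℕ) (s : ℕ → K), r ≠ 0 ∧
      j b = (s : Germ (U : Filter ℕ) K) ∧ ∀ᶠ t in (U : Filter ℕ), r * s t / σ' t ∈ G t a := by
  let P : K ⊗[ℂ] F → Prop := fun b => ∃ (r : K) (a : ℕ) (s : ℕ → K), r ≠ 0 ∧
    j b = (s : Germ (U : Filter ℕ) K) ∧ ∀ᶠ t in (U : Filter ℕ), r * s t / σ' t ∈ G t a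
  have h0 : P 0 := ⟨1, 0, 0, one_ne_zero, map_zero j, Eventually.of_forall fun t => by simp⟩
  have hadd : ∀ x y, P x → P y → P (x + y) := by
    rintro x y ⟨r, a, s, hr, e, h⟩ ⟨r', a', s', hr', e', h'⟩
    obtain ⟨n, d, hd, d1, d2⟩ := den r r'
    refine ⟨d * r * r', a + a' + n, s + s', mul_ne_zero (mul_ne_zero hd hr) hr',
      by rw [map_add, e, e']; rfl, (h.and h').mono fun t ht => ?_⟩
    have := add_mem (hG.mono t _ (a + a' + n) (by omega) (hG.mul t a n _ _ d2 ht.1))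
      (hG.mono t _ (a + a' + n) (by omega) (hG.mul t a' n _ _ d1 ht.2))
    convert this using 1
    rw [Pi.add_apply]
    ring
  refine ⟨⟨⟨⟨{b | P b}, fun {x y} => hadd x y⟩, h0⟩, fun c x hx => ?_⟩, fun b => Iff.rfl⟩
  change P (c * x)
  induction c using TensorProduct.induction_on with
  | zero => rwa [zero_mul]
  | add c c' i1 i2 => rw [add_mul]; exact hadd _ _ i1 i2
  | tmul k c =>
    rcases eq_or_ne k 0 with rfl | hk
    · rwa [TensorProduct.zero_tmul, zero_mul]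
    obtain ⟨r, a, s, hr, e, h⟩ := hx
    obtain ⟨u, hu⟩ := h₂ c
    refine ⟨r / k, a, fun t => k * algebraMap ℂ K (u t) * s t, div_ne_zero hr hk, ?_,
      h.mono fun t ht => ?_⟩
    · rw [show k ⊗ₜ[ℂ] c = (k ⊗ₜ[ℂ] (1 : F)) * ((1 : K) ⊗ₜ[ℂ] c) by simp, map_mul, map_mul, h₁, hu,
        e]
      rfl
    · convert (G t a).smul_mem (u t) ht using 1
      rw [Algebra.smul_def]
      field_simp

end Pool.Agent.Lib.MP_bc213e_ag.Hyp
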