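import Pool.Agent.Lib.MP_bc213e_ag.Hyp.ADefs

/-! From the dynamical degrees to the inequality `HYP`. -/

namespace Pool.Agent.Lib.MP_bc213e_ag.Hyp

open Filter Topology

theorem hypL_sum {n : ℕ} (f g : ℕ → ℝ) {c B : ℝ} (hc : 0 ≤ c)
    (hf : ∀ j ≤ n, f j = n.choose j * (c * g j)) (h : ∀ j ≤ n, g j ≤ B) :
    ∑ j ∈ Finset.range (n + 1), f j ≤ 2 ^ n * (c * B) := by
  have e : (2 : ℝ) ^ n = ∑ j ∈ Finset.range (n + 1), (n.choose j : ℝ) := by
    exact_mod_cast (Nat.sum_range_choose n).symm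
  rw [e, Finset.sum_mul]
  refine Finset.sum_le_sum fun j hj => ?_
  have hj' : j ≤ n := Nat.lt_succ_iff.1 (Finset.mem_range.1 hj)
  rw [hf j hj']
  exact mul_le_mul_of_nonneg_left (mul_le_mul_of_nonneg_left (h j hj') hc) (Nat.cast_nonneg _)

theorem hypL_root {x : ℝ} (hx : 0 ≤ x) {k : ℕ} (hk : 0 < k) : (x ^ (1 / k : ℝ)) ^ k = x := by
  rw [one_div]
  exact Real.rpow_inv_natCast_pow hx hk.ne'

theorem hypL_up {a : ℕ → ℕ} {l r : ℝ}
    (h : Tendsto (fun k : ℕ => (a k : ℝ) ^ (1 / k : ℝ)) atTop (𝓝 l)) (hr : l < r) :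
    ∀ᶠ k : ℕ in atTop, (a k : ℝ) ≤ r ^ k := by
  filter_upwards [h.eventually (gt_mem_nhds hr), eventually_gt_atTop 0] with k h1 h2
  rw [← hypL_root (Nat.cast_nonneg (a k)) h2]
  exact pow_le_pow_left₀ (Real.rpow_nonneg (Nat.cast_nonneg _) _) h1.le k

theorem hypL_low {a : ℕ → ℕ} {l r : ℝ}
    (h : Tendsto (fun k : ℕ => (a k : ℝ) ^ (1 / k : ℝ)) atTop (𝓝 l)) (h0 : 0 ≤ r) (hr : r < l) :
    ∀ᶠ k : ℕ in atTop, r ^ k ≤ (a k : ℝ) := by
  filter_upwards [h.eventually (lt_mem_nhds hr), eventually_gt_atTop 0] with k h1 h2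
  rw [← hypL_root (Nat.cast_nonneg (a k)) h2]
  exact pow_le_pow_left₀ h0 h1.le k

/-- The numerical core. Sketch: `L = lam p > 0` (some `j ≠ p` has `0 ≤ lam j < lam p`). Choose
`ρ < L` with `lam j < ρ` for `j ≠ p`, `θ > 1` with `ρ θ ^ n ≤ L`, `ε > 0` with
`((1 + ε) / (1 - ε)) ^ 4 < θ`, `Λ = L (1 + ε)`. For large `k`: `d k j ≤ ρ ^ k` (`j ≠ p`),
`d k p ≤ Λ ^ k`, `d (2 k) p ≥ (L (1 - ε)) ^ (2 k)`. Put `T = ⌈θ ^ k⌉ ≤ 2 θ ^ k`. Each product
`d k j * d k j' * T ^ (n + j - j')` is at most `2 ^ n Λ ^ (2 k) T ^ n` (for `j = j' = p` directly,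
otherwise one factor is at most `ρ ^ k` and `T ^ (n + j - j') ≤ T ^ n * T ^ n`), and the last sum
is at least `d (2 k) p * T ^ n`. -/
theorem hyp_core {n p : ℕ} (npos : 0 < n) (hp : p ≤ n) (d : ℕ → ℕ → ℕ) (lam : ℕ → ℝ)
    (hl : ∀ j ≤ n, Tendsto (fun k : ℕ => (d k j : ℝ) ^ (1 / k : ℝ)) atTop (𝓝 (lam j)))
    (hyp : ∀ j ≤ n, j ≠ p → lam j < lam p) (C k₀ : ℕ) (hC : 0 < C) :
    ∃ k T : ℕ, k₀ ≤ k ∧ 0 < T ∧
      (C : ℝ) * ((∑ j ∈ Finset.range (n + 1),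
          (n.choose j * d k j * (C : ℕ) ^ (n - j) * (C * T : ℕ) ^ j : ℝ)) *
        ∑ j ∈ Finset.range (n + 1),
          (n.choose j * d k j * (C * T : ℕ) ^ (n - j) * (C : ℕ) ^ j : ℝ)) ^ 2 <
      T * (∑ j ∈ Finset.range (n + 1),
          (n.choose j * d (2 * k) j * (T : ℕ) ^ (n - j) * (T : ℕ) ^ j : ℝ)) ^ 2 := by
  have hL : 0 < lam p := by
    obtain ⟨j, hj, hjp⟩ : ∃ j ≤ n, j ≠ p := by
      by_cases h : p = 0
      · exact ⟨n, le_rfl, by omega⟩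
      · exact ⟨0, Nat.zero_le _, fun e => h e.symm⟩
    exact (ge_of_tendsto' (hl j hj) fun k => Real.rpow_nonneg (Nat.cast_nonneg _) _).trans_lt
      (hyp j hj hjp)
  obtain ⟨η, hη, hη'⟩ : ∃ η : ℝ, 1 < η ∧
      ∀ j ∈ (Finset.range (n + 1)).erase p, lam j * η ^ (9 * n) < lam p := by
    have h1 : ∀ᶠ η : ℝ in 𝓝 1,
        ∀ j ∈ (Finset.range (n + 1)).erase p, lam j * η ^ (9 * n) < lam p := by
      rw [eventually_all_finset]
      intro j hj
      rw [Finset.mem_erase, Finset.mem_range] at hj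
      have h2 : ContinuousAt (fun η : ℝ => lam j * η ^ (9 * n)) 1 := by fun_prop
      refine h2.eventually (gt_mem_nhds ?_)
      simpa using hyp j (by omega) hj.1
    have h3 : ∀ᶠ η : ℝ in 𝓝[>] 1, 1 < η := self_mem_nhdsWithin
    exact (h3.and (h1.filter_mono nhdsWithin_le_nhds)).exists
  have hη0 : 0 < η := one_pos.trans hη
  have e1 : ∀ᶠ k : ℕ in atTop, ∀ j ∈ (Finset.range (n + 1)).erase p,
      (d k j : ℝ) ≤ (lam p / η ^ (9 * n)) ^ k := by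
    rw [eventually_all_finset]
    intro j hj
    have hj' := hj
    rw [Finset.mem_erase, Finset.mem_range] at hj'
    refine hypL_up (a := fun k => d k j) (hl j (by omega)) ?_
    rw [lt_div_iff₀ (pow_pos hη0 _)]
    exact hη' j hj
  have e2 : ∀ᶠ k : ℕ in atTop, (d k p : ℝ) ≤ (lam p * η) ^ k :=
    hypL_up (a := fun k => d k p) (hl p hp) (lt_mul_of_one_lt_right hL hη)
  have e3 : ∀ᶠ k : ℕ in atTop, (lam p / η) ^ (2 * k) ≤ (d (2 * k) p : ℝ) :=
    (tendsto_id.const_mul_atTop' two_pos).eventually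
      (hypL_low (a := fun k => d k p) (hl p hp) (div_pos hL hη0).le (div_lt_self hL hη))
  have e4 : ∀ᶠ k : ℕ in atTop, (C : ℝ) * (2 ^ n * C ^ n * 2 ^ n) ^ 4 < η ^ k :=
    (tendsto_pow_atTop_atTop_of_one_lt hη).eventually (eventually_gt_atTop _)
  obtain ⟨k, ⟨⟨h1, h2⟩, h3, h4⟩, hk⟩ :=
    (((e1.and e2).and (e3.and e4)).and (eventually_ge_atTop k₀)).exists
  obtain ⟨T, hT1, hT2⟩ : ∃ T : ℕ, η ^ (9 * k) ≤ T ∧ (T : ℝ) ≤ 2 * η ^ (9 * k) := by
    refine ⟨⌈η ^ (9 * k)⌉₊, Nat.le_ceil _, ?_⟩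
    have := Nat.ceil_lt_add_one (pow_pos hη0 (9 * k)).le
    have := one_le_pow₀ (n := 9 * k) hη.le
    linarith
  have hT : (1 : ℝ) ≤ T := (one_le_pow₀ hη.le).trans hT1
  have hT0 : (0 : ℝ) < T := one_pos.trans_le hT
  refine ⟨k, T, hk, by exact_mod_cast hT0, ?_⟩
  have hΛ : 0 < (lam p * η) ^ k := pow_pos (mul_pos hL hη0) k
  have key : ∀ e : ℕ → ℕ, (∀ j ≤ n, e j ≤ n) → ∀ j ≤ n,
      (d k j : ℝ) * T ^ e j ≤ 2 ^ n * (lam p * η) ^ k * T ^ e p := by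
    intro e he j hj
    by_cases hjp : j = p
    · rw [hjp]
      refine mul_le_mul_of_nonneg_right (h2.trans ?_) (pow_pos hT0 _).le
      exact le_mul_of_one_le_left hΛ.le (one_le_pow₀ one_le_two)
    · have a1 := h1 j (by rw [Finset.mem_erase, Finset.mem_range]; exact ⟨hjp, by omega⟩)
      have a2 : (T : ℝ) ^ e j ≤ (2 * η ^ (9 * k)) ^ n :=
        (pow_le_pow_right₀ hT (he j hj)).trans (pow_le_pow_left₀ hT0.le hT2 n)
      have a3 : (lam p / η ^ (9 * n)) ^ k * (2 * η ^ (9 * k)) ^ n = 2 ^ n * lam p ^ k := by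
        rw [div_pow, mul_pow, ← pow_mul, ← pow_mul, show 9 * k * n = 9 * n * k by ring]
        field_simp
      have a4 : lam p ^ k ≤ (lam p * η) ^ k :=
        pow_le_pow_left₀ hL.le (le_mul_of_one_le_right hL.le hη.le) k
      calc (d k j : ℝ) * T ^ e j ≤ (lam p / η ^ (9 * n)) ^ k * (2 * η ^ (9 * k)) ^ n :=
            mul_le_mul a1 a2 (pow_pos hT0 _).le (by positivity)
        _ ≤ 2 ^ n * (lam p * η) ^ k := by
            rw [a3]
            exact mul_le_mul_of_nonneg_left a4 (by positivity)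
        _ ≤ _ := le_mul_of_one_le_right (by positivity) (one_le_pow₀ hT)
  have s1 := hypL_sum (n := n)
    (fun j => (n.choose j * d k j * (C : ℕ) ^ (n - j) * (C * T : ℕ) ^ j : ℝ))
    (fun j => (d k j : ℝ) * T ^ j) (c := (C : ℝ) ^ n) (by positivity)
    (fun j hj => by
      have e : (C : ℝ) ^ n = C ^ (n - j) * C ^ j := by rw [← pow_add, Nat.sub_add_cancel hj]
      rw [e]
      push_cast
      ring) (key (fun j => j) fun j hj => hj)
  have s2 := hypL_sum (n := n)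
    (fun j => (n.choose j * d k j * (C * T : ℕ) ^ (n - j) * (C : ℕ) ^ j : ℝ))
    (fun j => (d k j : ℝ) * T ^ (n - j)) (c := (C : ℝ) ^ n) (by positivity)
    (fun j hj => by
      have e : (C : ℝ) ^ n = C ^ (n - j) * C ^ j := by rw [← pow_add, Nat.sub_add_cancel hj]
      rw [e]
      push_cast
      ring) (key (fun j => n - j) fun j _ => Nat.sub_le _ _)
  have s3 : (lam p / η) ^ (2 * k) * T ^ n ≤ ∑ j ∈ Finset.range (n + 1),
      (n.choose j * d (2 * k) j * (T : ℕ) ^ (n - j) * (T : ℕ) ^ j : ℝ) := by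
    refine le_trans ?_ (Finset.single_le_sum
      (f := fun j => (n.choose j * d (2 * k) j * (T : ℕ) ^ (n - j) * (T : ℕ) ^ j : ℝ))
      (fun j _ => by positivity) (Finset.mem_range.2 (Nat.lt_succ_of_le hp)))
    have e : (T : ℝ) ^ n = T ^ (n - p) * T ^ p := by rw [← pow_add, Nat.sub_add_cancel hp]
    have c1 : (1 : ℝ) ≤ n.choose p := by exact_mod_cast Nat.choose_pos hp
    rw [mul_assoc, ← e]
    exact mul_le_mul_of_nonneg_right (h3.trans (le_mul_of_one_le_left (Nat.cast_nonneg _) c1))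
      (pow_pos hT0 _).le
  have s4 := mul_le_mul s1 s2 (Finset.sum_nonneg fun j _ => by positivity) (by positivity)
  have s5 := pow_le_pow_left₀ (mul_nonneg (Finset.sum_nonneg fun j _ => by positivity)
    (Finset.sum_nonneg fun j _ => by positivity)) s4 2
  have s6 := pow_le_pow_left₀ (by positivity) s3 2
  refine (mul_le_mul_of_nonneg_left s5 (Nat.cast_nonneg _)).trans_lt
    (lt_of_lt_of_le ?_ (mul_le_mul hT1 s6 (by positivity) hT0.le))
  have e : (T : ℝ) ^ n = T ^ (n - p) * T ^ p := by rw [← pow_add, Nat.sub_add_cancel hp]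
  have f1 : η ^ (9 * k) * ((lam p / η) ^ (2 * k) * T ^ n) ^ 2 =
      η ^ k * (((lam p * η) ^ k) ^ 4 * (T ^ n) ^ 2) := by
    rw [div_pow, mul_pow (lam p) η]
    field_simp
    ring
  rw [f1]
  refine lt_of_eq_of_lt ?_ (mul_lt_mul_of_pos_right h4 (by positivity))
  rw [e]
  ring

variable {K : Type} [Field K] [Algebra ℂ K]

/-- Sketch: take `k, T` from `hyp_core`. With `f₁, f₂, f₃` the three normalised functions
`n! dm / μ ^ n`, eventually `C (f₁ f₂) ^ 2 < T f₃ ^ 2` (`Filter.Tendsto.eventually_lt`); multiply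
by `μ ^ (4 n) / n! ^ 2` and use `1 ≤ n!`. -/
theorem hyp_of_degrees {n p : ℕ} (npos : 0 < n) (hp : p ≤ n) (V : Submodule ℂ K) (φ : K →ₐ[ℂ] K)
    (lam : ℕ → ℝ) (hl : IsDynDegrees n V φ lam) (hyp : ∀ j ≤ n, j ≠ p → lam j < lam p) :
    HYP n V φ := by
  obtain ⟨d, hd, hl⟩ := hl
  intro C k₀ hC
  obtain ⟨k, T, hk, hT, h⟩ := hyp_core npos hp d lam hl hyp C k₀ hC
  refine ⟨k, T, hk, hT, ?_⟩
  have t1 := hd k C (C * T) hC (Nat.mul_pos hC hT)
  have t2 := hd k (C * T) C (Nat.mul_pos hC hT) hC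
  have t3 := hd (2 * k) T T hT hT
  have t4 := (((t1.mul t2).pow 2).const_mul (C : ℝ)).eventually_lt
    ((t3.pow 2).const_mul (T : ℝ)) h
  filter_upwards [t4, eventually_gt_atTop 0] with μ h1 h2
  have hμ : (0 : ℝ) < (μ : ℝ) ^ n := by positivity
  have hn : (1 : ℝ) ≤ n.factorial := by exact_mod_cast n.factorial_pos
  generalize dm V (φ ^ k) (C * μ) (C * T * μ) = x at h1 ⊢
  generalize dm V (φ ^ k) (C * T * μ) (C * μ) = y at h1 ⊢
  generalize dm V (φ ^ (2 * k)) (T * μ) (T * μ) = z at h1 ⊢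
  have h3 : (C : ℝ) * (x * y) ^ 2 < T * μ ^ (2 * n) * z ^ 2 := by
    have h4 := mul_lt_mul_of_pos_right h1
      (show (0 : ℝ) < ((μ : ℝ) ^ n) ^ 4 / (n.factorial : ℝ) ^ 2 by positivity)
    have e1 : (C : ℝ) * (n.factorial * x / μ ^ n * (n.factorial * y / μ ^ n)) ^ 2 *
        (((μ : ℝ) ^ n) ^ 4 / (n.factorial : ℝ) ^ 2) = n.factorial ^ 2 * (C * (x * y) ^ 2) := by
      field_simp
    have e2 : (T : ℝ) * (n.factorial * z / μ ^ n) ^ 2 *
        (((μ : ℝ) ^ n) ^ 4 / (n.factorial : ℝ) ^ 2) = T * μ ^ (2 * n) * z ^ 2 := by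
      rw [mul_comm 2 n, pow_mul]
      field_simp
    rw [e1, e2] at h4
    exact (le_mul_of_one_le_left (by positivity) (one_le_pow₀ hn)).trans_lt h4
  exact_mod_cast h3

end Pool.Agent.Lib.MP_bc213e_ag.Hyp
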