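import Pool.Agent.Lib.MP_bc213e_ag.Hyp.ADefs
import Pool.Agent.Lib.MP_bc213e_ag.TCI.Der1

/-! The chain rule and the pull-back inequality. -/

namespace Pool.Agent.Lib.MP_bc213e_ag.Hyp

open WithZero

variable {K : Type} [Field K] [Algebra ℂ K] {n : ℕ}

/-- `K` as a module over itself through `φ`. -/
def Jac_Tw (_φ : K →ₐ[ℂ] K) : Type := K

instance (φ : K →ₐ[ℂ] K) : AddCommGroup (Jac_Tw φ) := inferInstanceAs (AddCommGroup K)

instance (φ : K →ₐ[ℂ] K) : Module ℂ (Jac_Tw φ) := inferInstanceAs (Module ℂ K)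

instance (φ : K →ₐ[ℂ] K) : Module K (Jac_Tw φ) := Module.compHom K φ.toRingHom

instance (φ : K →ₐ[ℂ] K) : IsScalarTower ℂ K (Jac_Tw φ) :=
  ⟨fun c x (y : K) => by
    change φ (c • x) * y = c • (φ x * y)
    rw [map_smul, smul_mul_assoc]⟩

theorem Jac_zero (τ : Fin n → K) (hτ : IsTranscendenceBasis ℂ τ) (φ : K →ₐ[ℂ] K) (L : K →ₗ[ℂ] K)
    (hL : ∀ u v, L (u * v) = φ u * L v + φ v * L u) (h : ∀ a, L (τ a) = 0) (u : K) : L u = 0 := by
  let L' : K →ₗ[ℂ] Jac_Tw φ := L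
  let δ : Derivation ℂ K (Jac_Tw φ) := Derivation.mk' L' hL
  exact congrArg (fun δ : Derivation ℂ K (Jac_Tw φ) => δ u) (TCI.der_eq_zero τ hτ δ h)

/-- Chain rule. Sketch: for fixed `a`, `u ↦ D a (φ u)` and `u ↦ ∑ b, D a (φ (τ b)) * φ (D b u)`
are derivations of `K` with values in `K` seen as a module through `φ` (use a type synonym or
`Derivation.compAlgebraMap`), equal on `τ`, hence equal (`TCI.der_eq_zero`); `Matrix.det_mul`,
`AlgHom.map_det`. -/
theorem jac_comp (τ : Fin n → K) (hτ : IsTranscendenceBasis ℂ τ) (D : Fin n → Derivation ℂ K K)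
    (hD : ∀ a b, D a (τ b) = if a = b then 1 else 0) (φ : K →ₐ[ℂ] K) (u : Fin n → K) :
    jac D (fun b => φ (u b)) = jac D (fun b => φ (τ b)) * φ (jac D u) := by
  have key : ∀ a v, D a (φ v) = ∑ b, D a (φ (τ b)) * φ (D b v) := by
    intro a v
    have e : ∀ v, ((D a : K →ₗ[ℂ] K) ∘ₗ φ.toLinearMap -
        ∑ b, D a (φ (τ b)) • (φ.toLinearMap ∘ₗ (D b : K →ₗ[ℂ] K))) v =
        D a (φ v) - ∑ b, D a (φ (τ b)) * φ (D b v) := fun v => by
      rw [LinearMap.sub_apply, LinearMap.sum_apply]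
      rfl
    refine sub_eq_zero.1 ((e v).symm.trans (Jac_zero τ hτ φ _ (fun x y => ?_) (fun c => ?_) v))
    · simp only [e, map_mul, map_add, Derivation.leibniz, smul_eq_mul, mul_add, mul_sub,
        Finset.sum_add_distrib, Finset.mul_sum, mul_left_comm (D a (φ (τ _)))]
      ring
    · simp [e, hD, apply_ite φ]
  rw [jac, jac, jac, AlgHom.map_det, ← Matrix.det_mul]
  congr 1
  ext a b
  rw [Matrix.mul_apply, Matrix.of_apply, key]
  rfl

/-- Sketch: `φ ∘ τ` is algebraically independent with `n` elements, so a transcendence basis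
(`TCI.isTrBasis_of_card`, `TCI.trdeg_eq_card`); with its dual derivations `D'`
(`TCI.exists_dual`), `TCI.det_der_expand` gives `1 = det (D' a (τ b)) * jac D (φ ∘ τ)`. -/
theorem jac_ne_zero (τ : Fin n → K) (hτ : IsTranscendenceBasis ℂ τ) (D : Fin n → Derivation ℂ K K)
    (hD : ∀ a b, D a (τ b) = if a = b then 1 else 0) (φ : K →ₐ[ℂ] K) :
    jac D (fun b => φ (τ b)) ≠ 0 := by
  have h1 := TCI.isTrBasis_of_card _ (hτ.1.map' (f := φ) φ.toRingHom.injective)
    (TCI.trdeg_eq_card τ hτ).le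
  obtain ⟨D', hD'⟩ := TCI.exists_dual _ h1
  have h2 := TCI.det_der_expand τ hτ D hD D' (φ ∘ τ)
  have h3 : (Matrix.of fun a b => D' a ((φ ∘ τ) b)) = 1 := by
    ext a b
    rw [Matrix.of_apply, hD', Matrix.one_apply]
  rw [h3, Matrix.det_one] at h2
  exact right_ne_zero_of_mul_eq_one h2.symm

/-- Sketch: let `c` be the largest integer with `LD D m w g c` (`0 ≤ c ≤ m`, `LD` is antitone in
`c`). `hf` gives `u, a` for `w ∘ φ` and `g'`; if the conclusion failed, then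
`w g ≤ exp (-1) * w (φ g' * h)`, and `φ ∘ u, a` would witness `LD D m w g (c + 1)` by `jac_comp`. -/
theorem pull_of_LD (τ : Fin n → K) (hτ : IsTranscendenceBasis ℂ τ) (D : Fin n → Derivation ℂ K K)
    (hD : ∀ a b, D a (τ b) = if a = b then 1 else 0) (φ : K →ₐ[ℂ] K) (m : ℕ) (w : Val K)
    {g g' : K} (h0 : LD D m w g 0) (h1 : ¬ LD D m w g (m + 1))
    (hf : ∀ c, LD D m w g c → LD D m (w.comap φ.toRingHom) g' c) :
    w (φ g' * jac D (fun b => φ (τ b)) ^ m) ≤ w g := by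
  obtain ⟨c, hc, hc'⟩ : ∃ c : ℕ, LD D m w g c ∧ ¬ LD D m w g (c + 1) := by
    by_contra hn
    have key : ∀ k : ℕ, LD D m w g k := by
      intro k
      induction k with
      | zero => exact h0
      | succ k ih => exact not_not.1 fun h => hn ⟨k, ih, h⟩
    exact h1 (key (m + 1))
  obtain ⟨u, a, h2, h3, h4⟩ := hf c hc
  by_contra hlt
  have h5 := not_le.1 hlt
  have hJ := jac_ne_zero τ hτ D hD φ
  have h6 : φ (jac D u) ≠ 0 := (map_ne_zero φ).2 h3
  have h7 : φ g' * jac D (fun b => φ (τ b)) ^ m ≠ 0 := w.ne_zero_iff.1 (zero_le.trans_lt h5).ne'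
  have h8 := left_ne_zero_of_mul h7
  refine hc' ⟨fun b => φ (u b), a, h2, ?_, ?_⟩
  · rw [jac_comp τ hτ D hD]
    exact mul_ne_zero hJ h6
  · have e : g * φ (u a) ^ m / jac D (fun b => φ (u b)) ^ m =
        g / (φ g' * jac D (fun b => φ (τ b)) ^ m) * φ (g' * u a ^ m / jac D u ^ m) := by
      rw [jac_comp τ hτ D hD, map_div₀, map_mul, map_pow, map_pow, mul_pow]
      field_simp
    have h9 : w (g / (φ g' * jac D (fun b => φ (τ b)) ^ m)) ≤ exp (-1) := by
      rw [← lt_mul_exp_iff_le exp_ne_zero, ← exp_add, neg_add_cancel, exp_zero, map_div₀]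
      exact (div_lt_one₀ (zero_le.trans_lt h5)).2 h5
    rw [e, map_mul, neg_add_rev, exp_add]
    exact mul_le_mul' h9 h4

end Pool.Agent.Lib.MP_bc213e_ag.Hyp
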