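import Pool.Agent.Lib.MP_bc213e_ag.Hyp.NN

/-! Degree bounds for traces and norms. -/

namespace Pool.Agent.Lib.MP_bc213e_ag.Hyp

open MvPolynomial IntermediateField

variable {K : Type} [Field K] [Algebra ℂ K] {n : ℕ}

section core

variable {F L : Type} [Field F] [Field L] [Algebra F L]

theorem kl_int (O : ValuationSubring L) {z : L}
    (hz : ∀ V : ValuationSubring L,
      (∀ a : F, algebraMap F L a ∈ O → algebraMap F L a ∈ V) → z ∈ V) :
    IsIntegral (O.comap (algebraMap F L)) z := by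
  have h1 : z ∈ (integralClosure
      (Subring.closure (Set.range (algebraMap (O.comap (algebraMap F L)) L))) L).toSubring := by
    rw [← iInf_valuationSubring_superset, Subring.mem_iInf]
    exact fun V => hz V.1 fun a ha => V.2 ⟨⟨a, ha⟩, rfl⟩
  have h2 : IsIntegral (Subring.closure (Set.range (algebraMap (O.comap (algebraMap F L)) L))) z :=
    h1
  let : Algebra (O.comap (algebraMap F L))
      (Subring.closure (Set.range (algebraMap (O.comap (algebraMap F L)) L))) :=
    ((algebraMap (O.comap (algebraMap F L)) L).codRestrict _ fun a =>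
      Subring.subset_closure (Set.mem_range_self a)).toAlgebra
  have : IsScalarTower (O.comap (algebraMap F L))
      (Subring.closure (Set.range (algebraMap (O.comap (algebraMap F L)) L))) L :=
    IsScalarTower.of_algebraMap_eq fun _ => rfl
  have : Algebra.IsIntegral (O.comap (algebraMap F L))
      (Subring.closure (Set.range (algebraMap (O.comap (algebraMap F L)) L))) := by
    refine Algebra.isIntegral_of_surjective fun b => ?_
    have h3 : (b : L) ∈ (algebraMap (O.comap (algebraMap F L)) L).range :=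
      (Subring.closure_le (t := (algebraMap (O.comap (algebraMap F L)) L).range)).2
        (fun _ h => h) b.2
    obtain ⟨a, ha⟩ := h3
    exact ⟨a, Subtype.ext ha⟩
  exact isIntegral_trans z h2

theorem kl_mem (O : ValuationSubring L) {a : F} (ha : IsIntegral (O.comap (algebraMap F L)) a) :
    algebraMap F L a ∈ O := by
  obtain ⟨b, rfl⟩ := IsIntegrallyClosed.isIntegral_iff.1 ha
  exact b.2

theorem kl_div [FiniteDimensional F L] (O : ValuationSubring L) {z : L} (h0 : z ≠ 0) (hO : z ∈ O)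
    (hz : IsIntegral (O.comap (algebraMap F L)) z) :
    algebraMap F L (Algebra.norm F z) / z ∈ O := by
  have hF : IsIntegral F z := Algebra.IsIntegral.isIntegral z
  have hmem : ∀ g : Polynomial (O.comap (algebraMap F L)), Polynomial.aeval z g ∈ O := by
    intro g
    induction g using Polynomial.induction_on' with
    | add p q hp hq => rw [map_add]; exact O.add_mem _ _ hp hq
    | monomial k a =>
      rw [Polynomial.aeval_monomial]
      exact O.mul_mem _ _ a.2 (pow_mem hO k)
  have h1 := minpoly.aeval (O.comap (algebraMap F L)) z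
  rw [← Polynomial.divX_mul_X_add (minpoly (O.comap (algebraMap F L)) z), map_add, map_mul,
    Polynomial.aeval_X, Polynomial.aeval_C] at h1
  have h2 : algebraMap (O.comap (algebraMap F L)) L ((minpoly (O.comap (algebraMap F L)) z).coeff 0)
      / z = -Polynomial.aeval z (minpoly (O.comap (algebraMap F L)) z).divX := by
    rw [div_eq_iff h0]
    linear_combination h1
  have h3 : algebraMap F L ((minpoly F z).coeff 0) =
      algebraMap (O.comap (algebraMap F L)) L ((minpoly (O.comap (algebraMap F L)) z).coeff 0) := by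
    rw [minpoly.isIntegrallyClosed_eq_field_fractions' F hz, Polynomial.coeff_map]
    rfl
  have h4 : algebraMap F L ((minpoly F z).coeff 0) ∈ O := by
    rw [h3]
    exact ((minpoly (O.comap (algebraMap F L)) z).coeff 0).2
  have h5 : algebraMap F L ((minpoly F z).coeff 0) / z ∈ O := by
    rw [h3, h2]
    exact O.neg_mem _ (hmem _)
  have h6 := Algebra.PowerBasis.norm_gen_eq_coeff_zero_minpoly (adjoin.powerBasis hF)
  rw [adjoin.powerBasis_gen, minpoly_gen] at h6
  obtain ⟨j, hj⟩ := Nat.exists_eq_succ_of_ne_zero (Module.finrank_pos (R := F⟮z⟯) (M := L)).ne'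
  have h7 : (-1 : L) ^ (adjoin.powerBasis hF).dim ∈ O := pow_mem (O.neg_mem _ O.one_mem) _
  rw [Algebra.norm_eq_norm_adjoin, h6, hj, pow_succ, map_mul, map_pow, map_mul, map_pow, map_neg,
    map_one, mul_div_assoc, mul_div_assoc]
  exact O.mul_mem _ _ (pow_mem (O.mul_mem _ _ h7 h4) _) (O.mul_mem _ _ h7 h5)

end core

theorem kl_choose (y : Fin n → K) (O : ValuationSubring K) {c : K} (h3 : c⁻¹ ∈ O)
    (h4 : ∀ l, y l / c ∈ O) : ∃ d : adjoin ℂ (Set.range y), (d : K) ≠ 0 ∧ (d : K)⁻¹ ∈ O ∧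
      (∀ l, y l / d ∈ O) ∧ (d : K) / c ∈ O := by
  let u : Option (Fin n) → adjoin ℂ (Set.range y) := fun i =>
    i.elim 1 fun l => ⟨y l, subset_adjoin ℂ _ ⟨l, rfl⟩⟩
  obtain ⟨i, -, hi⟩ := Finset.exists_max_image Finset.univ (fun i => O.valuation (u i))
    ⟨none, Finset.mem_univ _⟩
  have h1 : 1 ≤ O.valuation (u i) := by
    have := hi none (Finset.mem_univ _)
    simpa [u] using this
  have h2 : O.valuation (u i) ≠ 0 := (zero_lt_one.trans_le h1).ne'
  have key : ∀ j, (u j : K) / u i ∈ O := fun j => by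
    rw [← O.valuation_le_one_iff, map_div₀]
    exact div_le_one_of_le₀ (hi j (Finset.mem_univ _)) zero_le
  refine ⟨u i, fun h => h2 (by rw [h, map_zero]), ?_, fun l => key (some l), ?_⟩
  · have := key none
    simpa [u] using this
  · rcases i with _ | l
    · simpa [u] using h3
    · exact h4 l

theorem kl_int_Bd (y : Fin n → K) {μ : ℕ} {r : K} (hr : r ∈ Bd y μ) (O : ValuationSubring K)
    (h1 : ∀ z : ℂ, algebraMap ℂ K z ∈ O) {d : adjoin ℂ (Set.range y)} (h2 : (d : K) ≠ 0)
    (h3 : (d : K)⁻¹ ∈ O) (h4 : ∀ l, y l / d ∈ O) :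
    IsIntegral (O.comap (algebraMap (adjoin ℂ (Set.range y)) K)) (r / (d : K) ^ μ) :=
  kl_int O fun V hV => hr V d (fun z => hV (algebraMap ℂ _ z) (h1 z)) h2 (hV d⁻¹ h3)
    fun l => hV (⟨y l, subset_adjoin ℂ _ ⟨l, rfl⟩⟩ / d) (h4 l)

/-- Quotients of polynomials with a degree gap of at least `t`. -/
def klS (y : Fin n → K) (t : ℕ) (z : K) : Prop :=
  z = 0 ∨ ∃ p q : MvPolynomial (Fin n) ℂ, q ≠ 0 ∧ p.totalDegree + t ≤ q.totalDegree ∧
    z * aeval y q = aeval y p

theorem klS_add {y : Fin n → K} {t : ℕ} {z w : K} (hz : klS y t z) (hw : klS y t w) :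
    klS y t (z + w) := by
  rcases hz with rfl | ⟨p, q, hq, hd, e⟩
  · rwa [zero_add]
  rcases hw with rfl | ⟨p', q', hq', hd', e'⟩
  · rw [add_zero]
    exact Or.inr ⟨p, q, hq, hd, e⟩
  refine Or.inr ⟨p * q' + p' * q, q * q', mul_ne_zero hq hq', ?_, ?_⟩
  · have h1 := totalDegree_add (p * q') (p' * q)
    have h2 := totalDegree_mul p q'
    have h3 := totalDegree_mul p' q
    rw [totalDegree_mul_of_isDomain hq hq']
    omega
  · rw [map_add, map_mul, map_mul, map_mul, ← e, ← e']
    ring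

theorem klS_mul {y : Fin n → K} {s t : ℕ} {z w : K} (hz : klS y s z) (hw : klS y t w) :
    klS y (s + t) (z * w) := by
  rcases hz with rfl | ⟨p, q, hq, hd, e⟩
  · exact Or.inl (zero_mul _)
  rcases hw with rfl | ⟨p', q', hq', hd', e'⟩
  · exact Or.inl (mul_zero _)
  refine Or.inr ⟨p * p', q * q', mul_ne_zero hq hq', ?_, ?_⟩
  · have h2 := totalDegree_mul p p'
    rw [totalDegree_mul_of_isDomain hq hq']
    omega
  · rw [map_mul, map_mul, ← e, ← e']
    ring

theorem klS_C (y : Fin n → K) (a : ℂ) : klS y 0 (algebraMap ℂ K a) :=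
  Or.inr ⟨C a, 1, one_ne_zero, by rw [totalDegree_C]; exact Nat.zero_le _, by
    rw [map_one, mul_one, aeval_C]⟩

/-- The quotients of degree at most zero. -/
def klR (y : Fin n → K) : Subring K where
  carrier := {z | klS y 0 z}
  mul_mem' := fun ha hb => klS_mul ha hb
  one_mem' := by simpa using klS_C y 1
  add_mem' := fun ha hb => klS_add ha hb
  zero_mem' := Or.inl rfl
  neg_mem' := fun {a} ha => by simpa using klS_mul (klS_C y (-1)) ha

/-- The quotients of negative degree. -/
def klI (y : Fin n → K) : Ideal (klR y) where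
  carrier := {z | klS y 1 (z : K)}
  add_mem' := fun ha hb => klS_add ha hb
  zero_mem' := Or.inl rfl
  smul_mem' := fun c _ hb => klS_mul c.2 hb

/-- An element of `F = ℂ(y)` that is integral over `ℂ[y]` is a polynomial in `y` (a polynomial ring
is integrally closed and `F` is its fraction field). -/
theorem kl_poly (y : Fin n → K) (hy : AlgebraicIndependent ℂ y) {r : K}
    (hF : r ∈ adjoin ℂ (Set.range y)) (hr : IsIntegral (Algebra.adjoin ℂ (Set.range y)) r) :
    ∃ p : MvPolynomial (Fin n) ℂ, aeval y p = r := by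
  obtain ⟨z, hz⟩ := hy.aevalEquivField.surjective ⟨r, hF⟩
  have h1 : IsIntegral (MvPolynomial (Fin n) ℂ) z := by
    obtain ⟨f, hf, e⟩ := hr
    refine ⟨f.map (hy.aevalEquiv.symm : _ →+* _), hf.map _, ?_⟩
    let φ : FractionRing (MvPolynomial (Fin n) ℂ) →+* K :=
      (algebraMap (adjoin ℂ (Set.range y)) K).comp hy.aevalEquivField.toRingEquiv.toRingHom
    have h2 : φ z = r := congrArg Subtype.val hz
    have h3 : (φ.comp (algebraMap (MvPolynomial (Fin n) ℂ) _)).comp
        (hy.aevalEquiv.symm : _ →+* _) = algebraMap (Algebra.adjoin ℂ (Set.range y)) K := by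
      refine RingHom.ext fun a => ?_
      obtain ⟨q, rfl⟩ := hy.aevalEquiv.surjective a
      rw [hy.algebraMap_aevalEquiv, ← hy.aevalEquivField_algebraMap_apply_coe]
      simp [φ]
    apply φ.injective
    rw [map_zero, Polynomial.hom_eval₂, Polynomial.eval₂_map, h3, h2, e]
  obtain ⟨p, rfl⟩ := IsIntegrallyClosed.isIntegral_iff.1 h1
  exact ⟨p, (hy.aevalEquivField_algebraMap_apply_coe p).symm.trans (congrArg Subtype.val hz)⟩

/-- A polynomial in `y` that lies in `Bd y μ` has degree at most `μ`. Sketch: trivial for `n = 0`.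
Otherwise let `R = {aeval y p / aeval y q | q ≠ 0, deg p ≤ deg q}` (a subring of `K`, by
`totalDegree_mul_of_isDomain`) with the proper ideal `I` of the quotients with `deg p < deg q` or
`p = 0`; take a valuation subring `O ⊇ R` with `I` inside the nonunits
(`Ideal.image_subset_nonunits_valuationSubring`), `c = y 0`. If `deg p > μ` then
`c ^ μ / aeval y p ∈ I`, while `aeval y p / c ^ μ ∈ O`. -/
theorem kl_deg (y : Fin n → K) (hy : AlgebraicIndependent ℂ y) {μ : ℕ} (p : MvPolynomial (Fin n) ℂ)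
    (hp : aeval y p ∈ Bd y μ) : p.totalDegree ≤ μ := by
  have hinj := algebraicIndependent_iff_injective_aeval.1 hy
  have hne : ∀ q : MvPolynomial (Fin n) ℂ, q ≠ 0 → aeval y q ≠ 0 := fun q hq h =>
    hq (hinj (by rw [h, map_zero]))
  rcases Nat.eq_zero_or_pos n with rfl | hn
  · rw [eq_C_of_isEmpty p, totalDegree_C]
    exact Nat.zero_le _
  by_contra hlt
  have hp0 : p ≠ 0 := by
    rintro rfl
    exact hlt (by rw [totalDegree_zero]; exact Nat.zero_le _)
  have hI : klI y ≠ ⊤ := by
    rw [Ideal.ne_top_iff_one]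
    rintro (h | ⟨a, b, -, hd, e⟩)
    · exact one_ne_zero h
    · have e' : aeval y b = aeval y a := by simpa using e
      rw [hinj e'] at hd
      omega
  obtain ⟨O, hO, hOI⟩ := Ideal.image_subset_nonunits_valuationSubring (klI y) hI
  let i : Fin n := ⟨0, hn⟩
  have hc : y i ≠ 0 := by simpa using hne (X i) (X_ne_zero i)
  have h1 := hp O (y i) (fun z => hO (klS_C y z)) hc
    (hO (Or.inr ⟨1, X i, X_ne_zero i, by rw [totalDegree_one]; exact Nat.zero_le _, by
      rw [aeval_X, map_one, inv_mul_cancel₀ hc]⟩))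
    fun l => hO (Or.inr ⟨X l, X i, X_ne_zero i, by rw [totalDegree_X, totalDegree_X], by
      rw [aeval_X, aeval_X, div_mul_cancel₀ _ hc]⟩)
  have h2 : ∀ t ≤ 1, klS y t (aeval y p / y i ^ μ)⁻¹ := fun t ht =>
    Or.inr ⟨X i ^ μ, p, hp0, by rw [totalDegree_X_pow]; omega, by
      rw [inv_div, div_mul_cancel₀ _ (hne p hp0), map_pow, aeval_X]⟩
  have h3 := hOI ⟨⟨_, h2 0 (Nat.zero_le _)⟩, h2 1 le_rfl, rfl⟩
  rcases O.inv_mem_nonunits_iff.1 h3 with h4 | h4
  · exact div_ne_zero (hne p hp0) (pow_ne_zero _ hc) h4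
  · exact h4 h1

/-- Traces and norms to `F = ℂ(y)` respect `Bd y`. Sketch: for an `F`-algebra hom `σ` from `K` to
an algebraic closure `E` of `K`, and `O, c` as in `Bd`, WLOG `c ∈ {1, y l}` (the one of largest
value), so `c ∈ F`. Then `r / c ^ μ` lies in every valuation subring containing `O ⊓ F`, so it is
integral over the subring `O ⊓ F` (a valuation subring of `F`, integrally closed);
`Algebra.isIntegral_trace`, `Algebra.isIntegral_norm` and `trace (r / c ^ μ) = trace r / c ^ μ`. -/
theorem trace_mem_Bd (y : Fin n → K) [FiniteDimensional (adjoin ℂ (Set.range y)) K] {μ : ℕ} {r : K}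
    (hr : r ∈ Bd y μ) :
    ((Algebra.trace (adjoin ℂ (Set.range y)) K r : adjoin ℂ (Set.range y)) : K) ∈ Bd y μ := by
  intro O c h1 _ h3 h4
  obtain ⟨d, k1, k2, k3, k4⟩ := kl_choose y O h3 h4
  have h5 := kl_mem O (Algebra.isIntegral_trace (L := adjoin ℂ (Set.range y))
    (kl_int_Bd y hr O h1 k1 k2 k3))
  have e : r / (d : K) ^ μ = (d ^ μ)⁻¹ • r := by
    rw [Algebra.smul_def, div_eq_inv_mul]
    rfl
  rw [e, map_smul, smul_eq_mul, map_mul] at h5
  have h6 := O.mul_mem _ _ h5 (pow_mem k4 μ)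
  convert h6 using 1
  change _ = ((d : K) ^ μ)⁻¹ * (_ : K) * _
  rw [div_pow]
  field_simp
  rfl

theorem norm_mem_Bd (y : Fin n → K) [FiniteDimensional (adjoin ℂ (Set.range y)) K] {μ : ℕ} {r : K}
    (hr : r ∈ Bd y μ) :
    ((Algebra.norm (adjoin ℂ (Set.range y)) r : adjoin ℂ (Set.range y)) : K) ∈
      Bd y (μ * Module.finrank (adjoin ℂ (Set.range y)) K) := by
  intro O c h1 _ h3 h4
  obtain ⟨d, k1, k2, k3, k4⟩ := kl_choose y O h3 h4
  have h5 := kl_mem O (Algebra.isIntegral_norm (adjoin ℂ (Set.range y))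
    (kl_int_Bd y hr O h1 k1 k2 k3))
  have e : r / (d : K) ^ μ = algebraMap (adjoin ℂ (Set.range y)) K (d ^ μ)⁻¹ * r := by
    rw [div_eq_inv_mul]
    rfl
  rw [e, map_mul, Algebra.norm_algebraMap, map_mul, inv_pow, ← pow_mul] at h5
  have h6 := O.mul_mem _ _ h5 (pow_mem k4 (μ * Module.finrank (adjoin ℂ (Set.range y)) K))
  convert h6 using 1
  change _ = ((d : K) ^ _)⁻¹ * (_ : K) * _
  rw [div_pow]
  field_simp
  rfl

theorem kl_trace (y : Fin n → K) (hy : AlgebraicIndependent ℂ y)
    [FiniteDimensional (adjoin ℂ (Set.range y)) K] {μ : ℕ} {r : K} (hr : r ∈ Bd y μ) :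
    ∃ p : MvPolynomial (Fin n) ℂ, p.totalDegree ≤ μ ∧
      aeval y p = ((Algebra.trace (adjoin ℂ (Set.range y)) K r : adjoin ℂ (Set.range y)) : K) := by
  have h1 := trace_mem_Bd y hr
  obtain ⟨p, hp⟩ := kl_poly y hy (Subtype.property _) (isIntegral_of_Bd y h1)
  exact ⟨p, kl_deg y hy p (hp ▸ h1), hp⟩

/-- Sketch: `p(y)` is the norm of `r`. For a valuation subring `O` containing `ℂ` and `y`, `r` is
integral over `O ⊓ F`; the norm is (up to sign) a power `a₀ ^ j`, `j ≥ 1`, of the constant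
coefficient of the minimal polynomial, whose coefficients lie in `O`, and
`a₀ / r = - (r ^ (d - 1) + ⋯) ∈ O`. (Or Cayley-Hamilton for `Algebra.lmul`.) -/
theorem kl_norm (y : Fin n → K) (hy : AlgebraicIndependent ℂ y)
    [FiniteDimensional (adjoin ℂ (Set.range y)) K] {μ : ℕ} {r : K} (hr : r ∈ Bd y μ) (h0 : r ≠ 0) :
    ∃ p : MvPolynomial (Fin n) ℂ, p ≠ 0 ∧
      p.totalDegree ≤ μ * Module.finrank (adjoin ℂ (Set.range y)) K ∧
      ∀ O : ValuationSubring K, (∀ z : ℂ, algebraMap ℂ K z ∈ O) → (∀ l, y l ∈ O) →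
        aeval y p / r ∈ O := by
  have h1 := norm_mem_Bd y hr
  obtain ⟨p, hp⟩ := kl_poly y hy (Subtype.property _) (isIntegral_of_Bd y h1)
  refine ⟨p, ?_, kl_deg y hy p (hp ▸ h1), fun O k1 k2 => ?_⟩
  · rintro rfl
    rw [map_zero] at hp
    exact Algebra.norm_ne_zero_iff.2 h0 (Subtype.ext hp.symm)
  · have h2 := kl_int_Bd y hr O k1 (d := 1) one_ne_zero (by simp)
      (by simpa using k2)
    have h3 := hr O 1 k1 one_ne_zero (by simp) (by simpa using k2)
    rw [one_pow, div_one] at h3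
    rw [OneMemClass.coe_one, one_pow, div_one] at h2
    rw [hp]
    exact kl_div O h0 h3 h2

end Pool.Agent.Lib.MP_bc213e_ag.Hyp
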