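import Pool.Agent.Lib.MP_bc213e_ag.Hyp.Mon
import Pool.Agent.Lib.MP_bc213e_ag.Hyp.Gauss

/-! The product map has no invariant rational function. -/

namespace Pool.Agent.Lib.MP_bc213e_ag.Hyp

open Module Filter
open scoped TensorProduct

variable {K : Type} [Field K] [Algebra ℂ K]

theorem ni_map_inj {A B : Type} [CommRing A] [Algebra ℂ A] [CommRing B] [Algebra ℂ B]
    {f g : A →ₐ[ℂ] B} (hf : Function.Injective f) (hg : Function.Injective g) :
    Function.Injective (Algebra.TensorProduct.map f g) :=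
  TensorProduct.map_injective_of_flat_flat f.toLinearMap g.toLinearMap hf hg

/-- Sketch: `L = FractionRing (K ⊗ K)` (`isDomain_tensor`), `ψ = IsFractionRing.liftAlgHom` of
`algebraMap ∘ map φ φ` (injective: `TensorProduct.map_injective_of_flat_flat`, or
`Algebra.TensorProduct.map` as a composition of `rTensor` and `lTensor` over a field). -/
theorem exists_two (φ : K →ₐ[ℂ] K) :
    ∃ (L : Type) (_ : Field L) (_ : Algebra ℂ L), Nonempty (Two φ L) := by
  have := isDomain_tensor K K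
  let j : K ⊗[ℂ] K →ₐ[ℂ] FractionRing (K ⊗[ℂ] K) := IsScalarTower.toAlgHom ℂ _ _
  have hj : Function.Injective j := IsFractionRing.injective _ _
  have h1 : Function.Injective (j.comp (Algebra.TensorProduct.map φ φ)) :=
    hj.comp (ni_map_inj φ.injective φ.injective)
  have h2 : Algebra.TensorProduct.productMap (j.comp Algebra.TensorProduct.includeLeft)
      (j.comp Algebra.TensorProduct.includeRight) = j := by
    ext a <;> simp [← Algebra.TensorProduct.one_def]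
  have h3 : ∀ x, IsFractionRing.liftAlgHom (K := FractionRing (K ⊗[ℂ] K)) h1 (j x) =
      j (Algebra.TensorProduct.map φ φ x) := fun x => IsFractionRing.lift_algebraMap h1 x
  refine ⟨FractionRing (K ⊗[ℂ] K), inferInstance, inferInstance,
    ⟨⟨j.comp Algebra.TensorProduct.includeLeft, j.comp Algebra.TensorProduct.includeRight,
      IsFractionRing.liftAlgHom h1, fun a => ?_, fun a => ?_, h2.symm ▸ hj, fun l => ?_⟩⟩⟩
  · rw [AlgHom.comp_apply, h3]
    simp
  · rw [AlgHom.comp_apply, h3]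
    simp
  · obtain ⟨a, d, hd, rfl⟩ := IsFractionRing.div_surjective (A := K ⊗[ℂ] K) l
    have hd' := nonZeroDivisors.ne_zero hd
    refine ⟨a, d, hd', ?_⟩
    rw [h2]
    exact div_mul_cancel₀ _ ((map_ne_zero_iff j hj).2 hd')

namespace Two

variable {φ : K →ₐ[ℂ] K} {L : Type} [Field L] [Algebra ℂ L] (T : Two φ L)

/-- The product of the images of two subspaces. -/
def box (A B : Submodule ℂ K) : Submodule ℂ L := A.map T.ι₁.toLinearMap * B.map T.ι₂.toLinearMap

/-- Sketch: `box A B` is the range of the injective linear map `A ⊗ B → K ⊗ K → L`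
(`TensorProduct.mapIncl`, `Submodule.mul_eq_map₂`, `finrank_tensorProduct`). -/
theorem finrank_box (A B : Submodule ℂ K) [FiniteDimensional ℂ A] [FiniteDimensional ℂ B] :
    finrank ℂ (T.box A B) = finrank ℂ A * finrank ℂ B := by
  let f : A ⊗[ℂ] B →ₗ[ℂ] L :=
    (Algebra.TensorProduct.productMap T.ι₁ T.ι₂).toLinearMap ∘ₗ TensorProduct.mapIncl A B
  have hf : Function.Injective f := T.inj.comp
    (TensorProduct.map_injective_of_flat_flat _ _ A.injective_subtype B.injective_subtype)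
  have h : LinearMap.range f = T.box A B := by
    refine le_antisymm ?_ (Submodule.mul_le.2 ?_)
    · rintro _ ⟨x, rfl⟩
      induction x with
      | zero => simp
      | tmul a b => exact Submodule.mul_mem_mul ⟨a, a.2, rfl⟩ ⟨b, b.2, rfl⟩
      | add x y hx hy => rw [map_add]; exact add_mem hx hy
    · rintro _ ⟨a, ha, rfl⟩ _ ⟨b, hb, rfl⟩
      exact ⟨(⟨a, ha⟩ : A) ⊗ₜ (⟨b, hb⟩ : B), rfl⟩
  rw [← h, LinearMap.finrank_range_of_inj hf, finrank_tensorProduct]

theorem pow_comm₁ (k : ℕ) (a : K) : (T.ψ ^ k) (T.ι₁ a) = T.ι₁ ((φ ^ k) a) := by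
  induction k with
  | zero => rfl
  | succ k ih => rw [pow_succ', pow_succ', AlgHom.mul_apply, AlgHom.mul_apply, ih, T.comm₁]

theorem pow_comm₂ (k : ℕ) (a : K) : (T.ψ ^ k) (T.ι₂ a) = T.ι₂ ((φ ^ k) a) := by
  induction k with
  | zero => rfl
  | succ k ih => rw [pow_succ', pow_succ', AlgHom.mul_apply, AlgHom.mul_apply, ih, T.comm₂]

theorem ni_box_mul (A B A' B' : Submodule ℂ K) :
    T.box A B * T.box A' B' = T.box (A * A') (B * B') := by
  rw [box, box, box, Submodule.map_mul, Submodule.map_mul, mul_mul_mul_comm]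

theorem ni_box_pow (A B : Submodule ℂ K) (a : ℕ) : T.box A B ^ a = T.box (A ^ a) (B ^ a) := by
  rw [box, box, Submodule.map_pow, Submodule.map_pow, mul_pow]

theorem ni_box_map (A B : Submodule ℂ K) (k : ℕ) : (T.box A B).map (T.ψ ^ k).toLinearMap =
    T.box (A.map (φ ^ k).toLinearMap) (B.map (φ ^ k).toLinearMap) := by
  rw [box, box, Submodule.map_mul, ← Submodule.map_comp, ← Submodule.map_comp,
    ← Submodule.map_comp, ← Submodule.map_comp]
  congr 2
  · exact LinearMap.ext (T.pow_comm₁ k)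
  · exact LinearMap.ext (T.pow_comm₂ k)

theorem ni_one_mem {V : Submodule ℂ K} (h1 : (1 : K) ∈ V) : (1 : L) ∈ T.box V V := by
  rw [← mul_one (1 : L)]
  exact Submodule.mul_mem_mul ⟨1, h1, map_one T.ι₁⟩ ⟨1, h1, map_one T.ι₂⟩

theorem ni_mem₁ {V : Submodule ℂ K} (h1 : (1 : K) ∈ V) {b : ℕ} {a : K} (ha : a ∈ V ^ b) :
    T.ι₁ a ∈ T.box V V ^ b := by
  rw [ni_box_pow, ← mul_one (T.ι₁ a)]
  exact Submodule.mul_mem_mul ⟨a, ha, rfl⟩
    ⟨1, by simpa using Submodule.pow_mem_pow V h1 b, map_one T.ι₂⟩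

theorem ni_mem₂ {V : Submodule ℂ K} (h1 : (1 : K) ∈ V) {b : ℕ} {a : K} (ha : a ∈ V ^ b) :
    T.ι₂ a ∈ T.box V V ^ b := by
  rw [ni_box_pow, ← one_mul (T.ι₂ a)]
  exact Submodule.mul_mem_mul ⟨1, by simpa using Submodule.pow_mem_pow V h1 b, map_one T.ι₁⟩
    ⟨a, ha, rfl⟩

theorem dm_box (V : Submodule ℂ K) [FiniteDimensional ℂ V] (k a b : ℕ) :
    dm (T.box V V) (T.ψ ^ k) a b = dm V (φ ^ k) a b ^ 2 := by
  have := fd_pow V a
  have := fd_pow (V.map (φ ^ k).toLinearMap) b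
  have := fd_mul (V ^ a) (V.map (φ ^ k).toLinearMap ^ b)
  rw [dm, ni_box_map, ni_box_pow, ni_box_pow, ni_box_mul, finrank_box, dm, sq]

/-- Sketch: every element of `K ⊗ K` has an image `r` with `ι₁ d * ι₂ d * r ∈ box V V ^ b` for some
`d ∈ V ^ b`, `d ≠ 0` (induction, or `den_fin`); then `frac`. -/
theorem den_box (V : Submodule ℂ K) (h1 : (1 : K) ∈ V) (h : Den V) : Den (T.box V V) := by
  have hm : ∀ {b b' : ℕ} {x x' : L}, x ∈ T.box V V ^ b → x' ∈ T.box V V ^ b' →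
      x * x' ∈ T.box V V ^ (b + b') := fun hx hx' => by
    rw [pow_add]
    exact Submodule.mul_mem_mul hx hx'
  have key : ∀ x : K ⊗[ℂ] K, ∃ (b : ℕ) (d : L), d ∈ T.box V V ^ b ∧ d ≠ 0 ∧
      d * Algebra.TensorProduct.productMap T.ι₁ T.ι₂ x ∈ T.box V V ^ b := fun x => by
    induction x with
    | zero => exact ⟨1, 1, by simpa using T.ni_one_mem h1, one_ne_zero, by simp⟩
    | tmul a a' =>
      obtain ⟨b, d, hd, h0, ha⟩ := h a
      obtain ⟨b', d', hd', h0', ha'⟩ := h a'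
      refine ⟨b + b', T.ι₁ d * T.ι₂ d', hm (T.ni_mem₁ h1 hd) (T.ni_mem₂ h1 hd'),
        mul_ne_zero ((map_ne_zero _).2 h0) ((map_ne_zero _).2 h0'), ?_⟩
      rw [Algebra.TensorProduct.productMap_apply_tmul, mul_mul_mul_comm, ← map_mul, ← map_mul]
      exact hm (T.ni_mem₁ h1 ha) (T.ni_mem₂ h1 ha')
    | add x y hx hy =>
      obtain ⟨b, d, hd, h0, ha⟩ := hx
      obtain ⟨b', d', hd', h0', ha'⟩ := hy
      refine ⟨b + b', d * d', hm hd hd', mul_ne_zero h0 h0', ?_⟩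
      rw [map_add, mul_add, mul_right_comm, mul_assoc d d']
      exact add_mem (hm ha hd') (hm hd ha')
  intro l
  obtain ⟨a, e, he, hl⟩ := T.frac l
  obtain ⟨b, d, hd, h0, ha⟩ := key a
  obtain ⟨b', d', hd', h0', ha'⟩ := key e
  refine ⟨b + b', _, hm hd ha', mul_ne_zero h0 (mul_ne_zero h0' ((map_ne_zero_iff _ T.inj).2 he)),
    ?_⟩
  rw [mul_assoc, mul_assoc, mul_comm _ l, hl, mul_comm d', ← mul_assoc]
  exact hm ha hd'

/-- Sketch: `AlgebraicIndependent` through monomials: the products `ι₁ (y ^ a) * ι₂ (y ^ b)` are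
linearly independent (`LinearIndependent.tmul_of_isDomain` or `Module.Basis.tensorProduct`, `inj`);
or `MvPolynomial.tensorEquivSum`. -/
theorem indep {κ : Type} (y : κ → K) (hy : AlgebraicIndependent ℂ y) :
    AlgebraicIndependent ℂ (Sum.elim (fun l => T.ι₁ (y l)) fun l => T.ι₂ (y l)) := by
  have h : (MvPolynomial.aeval (Sum.elim (fun l => T.ι₁ (y l)) fun l => T.ι₂ (y l))).comp
      (MvPolynomial.tensorEquivSum ℂ κ κ ℂ).toAlgHom =
      (Algebra.TensorProduct.productMap T.ι₁ T.ι₂).comp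
        (Algebra.TensorProduct.map (MvPolynomial.aeval y) (MvPolynomial.aeval y)) := by
    ext l <;> simp
  have h2 : Function.Injective ((MvPolynomial.aeval (Sum.elim (fun l => T.ι₁ (y l))
      fun l => T.ι₂ (y l))).comp (MvPolynomial.tensorEquivSum ℂ κ κ ℂ).toAlgHom) := by
    rw [h]
    exact T.inj.comp (ni_map_inj hy hy)
  exact Function.Injective.of_comp_right (g := MvPolynomial.tensorEquivSum ℂ κ κ ℂ) h2
    (MvPolynomial.tensorEquivSum ℂ κ κ ℂ).surjective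

end Two

/-- The estimate for an invariant function. Sketch: `l₀` from `ind`;
`A = W ^ μ * span {θ ^ a | a ≤ τ}`; `mon` with `β l₀ = τ`, `β l = μ / card κ` otherwise, gives
`τ μ ^ (card κ - 1) ≤ card κ ^ (card κ - 1) dim A`. With `θ₁, θ₁ θ ∈ W ^ b`: `θ₁ ^ τ θ ^ a ∈ W ^ (b τ)`
and `ψ (θ₁) ^ τ θ ^ a = ψ (θ₁ ^ τ θ ^ a)`. Apply `prg` with `z = ψ θ₁ ^ τ`, `z' = θ₁ ^ τ`. -/
theorem ni_est {L κ : Type} [Field L] [Algebra ℂ L] [Fintype κ] [Nonempty κ] (W : Submodule ℂ L)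
    [FiniteDimensional ℂ W] (h1 : (1 : L) ∈ W) (y : κ → L) (hy : AlgebraicIndependent ℂ y)
    (hW : ∀ l, y l ∈ W) (ψ : L →ₐ[ℂ] L) {θ θ₁ : L} (hθ : Transcendental ℂ θ) (fix : ψ θ = θ)
    {b : ℕ} (h0 : θ₁ ≠ 0) (m₁ : θ₁ ∈ W ^ b) (m₂ : θ₁ * θ ∈ W ^ b) (μ τ : ℕ) :
    τ * μ ^ (Fintype.card κ - 1) * dm W (ψ * ψ) τ τ ≤
      Fintype.card κ ^ (Fintype.card κ - 1) * (dm W ψ μ (b * τ + τ) * dm W ψ (b * τ + τ) μ) := by
  classical
  obtain ⟨l₀, hl⟩ := ind y hy hθ
  set c := Fintype.card κ with hc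
  have c0 : 0 < c := Fintype.card_pos
  let S : Submodule ℂ L := Submodule.span ℂ (Set.range fun a : Fin (τ + 1) => θ ^ (a : ℕ))
  have : FiniteDimensional ℂ S := FiniteDimensional.span_of_finite ℂ (Set.finite_range _)
  have := fd_pow W μ
  have := fd_mul (W ^ μ) S
  have h2 := mon _ hl (Function.update (fun _ => μ / c) l₀ τ) (W ^ μ * S) fun a ha => by
    rw [← Finset.prod_erase_mul _ _ (Finset.mem_univ l₀), Function.update_self]
    refine Submodule.mul_mem_mul (prod_pow_mem W h1 _ _ (fun l h => ?_) a ?_)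
      (Submodule.subset_span ⟨⟨a l₀, Nat.lt_succ_of_le (by simpa using ha l₀)⟩, rfl⟩)
    · rw [Function.update_of_ne (Finset.ne_of_mem_erase h)]
      exact hW l
    · refine (Finset.sum_le_card_nsmul _ _ (μ / c) fun l h => ?_).trans ?_
      · have h3 := ha l
        rwa [Function.update_of_ne (Finset.ne_of_mem_erase h)] at h3
      · rw [smul_eq_mul]
        refine le_trans (Nat.mul_le_mul_right _ ?_) (Nat.mul_div_le μ c)
        exact Finset.card_le_univ _
  rw [← Finset.prod_erase_mul _ _ (Finset.mem_univ l₀), Function.update_self,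
    Finset.prod_congr rfl (g := fun _ => μ / c + 1) fun l h => by
      rw [Function.update_of_ne (Finset.ne_of_mem_erase h)],
    Finset.prod_const, Finset.card_erase_of_mem (Finset.mem_univ _), Finset.card_univ, ← hc] at h2
  have h3 : τ * μ ^ (c - 1) ≤ c ^ (c - 1) * finrank ℂ ↥(W ^ μ * S) := by
    refine le_trans ?_ (Nat.mul_le_mul_left _ h2)
    rw [← mul_assoc, ← mul_pow, mul_comm τ]
    exact Nat.mul_le_mul (Nat.pow_le_pow_left (Nat.lt_mul_div_succ μ c0).le _) (Nat.le_succ τ)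
  have h4 : ∀ a : Fin (τ + 1), θ₁ ^ τ * θ ^ (a : ℕ) ∈ W ^ (b * τ) := fun a => by
    obtain ⟨e, he⟩ := Nat.exists_eq_add_of_le a.is_le
    have h5 : θ₁ ^ τ * θ ^ (a : ℕ) = (θ₁ * θ) ^ (a : ℕ) * θ₁ ^ e := by
      rw [mul_pow, mul_right_comm, ← pow_add, ← he]
    have h6 : W ^ (b * τ) = (W ^ b) ^ (a : ℕ) * (W ^ b) ^ e := by
      rw [← pow_add, ← he, pow_mul]
    rw [h5, h6]
    exact Submodule.mul_mem_mul (Submodule.pow_mem_pow _ m₂ _) (Submodule.pow_mem_pow _ m₁ _)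
  have h5 : ∀ s ∈ S, θ₁ ^ τ * s ∈ W ^ (b * τ) ∧ ψ s = s := fun s hs => by
    induction hs using Submodule.span_induction with
    | mem x hx =>
      obtain ⟨a, rfl⟩ := hx
      exact ⟨h4 a, by rw [map_pow, fix]⟩
    | zero => simp
    | add x x' _ _ hx hx' =>
      exact ⟨by rw [mul_add]; exact add_mem hx.1 hx'.1, by rw [map_add, hx.2, hx'.2]⟩
    | smul r x _ hx =>
      exact ⟨by rw [mul_smul_comm]; exact Submodule.smul_mem _ _ hx.1, by rw [map_smul, hx.2]⟩
  have h6 := prg W (W ^ μ * S) ψ μ (b * τ) τ (z := ψ (θ₁ ^ τ)) (z' := θ₁ ^ τ)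
    ((map_ne_zero _).2 (pow_ne_zero _ h0)) (pow_ne_zero _ h0)
    (fun a ha => Submodule.mul_induction_on ha (fun w hw s hs => by
      rw [mul_left_comm, ← (h5 s hs).2, ← map_mul, ← Submodule.map_pow]
      exact Submodule.mul_mem_mul hw ⟨_, (h5 s hs).1, rfl⟩)
      fun x x' hx hx' => by rw [mul_add]; exact add_mem hx hx')
    fun a ha => Submodule.mul_induction_on ha (fun w hw s hs => by
      rw [map_mul, (h5 s hs).2, mul_left_comm, ← Submodule.map_pow]
      exact Submodule.mul_mem_mul ⟨_, hw, rfl⟩ (h5 s hs).1)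
      fun x x' hx hx' => by rw [map_add, mul_add]; exact add_mem hx hx'
  refine (Nat.mul_le_mul_right _ h3).trans ?_
  rw [mul_assoc]
  exact Nat.mul_le_mul_left _ h6

/-- Sketch: if `θ` is not constant it is transcendental. Apply `hyp` with
`C = b + 1 + (2 n) ^ (2 n - 1)` and `ni_est` to `box V V`, `ψ ^ k`, `τ = T μ`; `dm_box`, `dm_mono`. -/
theorem ni {n : ℕ} (npos : 0 < n) (V : Submodule ℂ K) [FiniteDimensional ℂ V] (h1 : (1 : K) ∈ V)
    (den : Den V) (y : Fin n → K) (hy : AlgebraicIndependent ℂ y) (hV : ∀ l, y l ∈ V)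
    {φ : K →ₐ[ℂ] K} (hyp : HYP n V φ) {L : Type} [Field L] [Algebra ℂ L] (T : Two φ L) (θ : L)
    (fix : T.ψ θ = θ) : ∃ c : ℂ, algebraMap ℂ L c = θ := by
  by_contra hc
  have hθ : Transcendental ℂ θ := fun h => hc (minpoly.mem_range_of_degree_eq_one ℂ θ
    (IsAlgClosed.degree_eq_one_of_irreducible ℂ (minpoly.irreducible h.isIntegral)))
  obtain ⟨b, θ₁, m₁, h0, m₂⟩ := T.den_box V h1 den θ
  have : FiniteDimensional ℂ (T.box V V) := fd_mul _ _
  have : Nonempty (Fin n) := ⟨⟨0, npos⟩⟩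
  obtain ⟨k, t, -, ht, h⟩ := hyp (b + 1 + (2 * n) ^ (2 * n - 1)) 0 (by positivity)
  obtain ⟨μ, hμ⟩ := h.exists
  have hfix : (T.ψ ^ k) θ = θ := by
    clear h hμ
    induction k with
    | zero => rfl
    | succ k ih => rw [pow_succ', AlgHom.mul_apply, ih, fix]
  have h2 := ni_est (T.box V V) (T.ni_one_mem h1) _ (T.indep y hy) (by
    rintro (l | l)
    · simpa using T.ni_mem₁ h1 (b := 1) (a := y l) (by simpa using hV l)
    · simpa using T.ni_mem₂ h1 (b := 1) (a := y l) (by simpa using hV l))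
    (T.ψ ^ k) hθ hfix h0 m₁ m₂ μ (t * μ)
  rw [← pow_add, ← two_mul, T.dm_box, T.dm_box, T.dm_box, Fintype.card_sum, Fintype.card_fin,
    ← two_mul, ← mul_pow, mul_assoc t, ← pow_succ',
    Nat.sub_add_cancel (by omega : 1 ≤ 2 * n)] at h2
  refine absurd (h2.trans ?_) (not_le.2 hμ)
  have e1 : μ ≤ (b + 1 + (2 * n) ^ (2 * n - 1)) * μ := Nat.le_mul_of_pos_left _ (by positivity)
  have e2 : b * (t * μ) + t * μ ≤ (b + 1 + (2 * n) ^ (2 * n - 1)) * t * μ := by
    rw [mul_assoc, ← add_one_mul]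
    exact Nat.mul_le_mul_right _ (Nat.le_add_right _ _)
  exact Nat.mul_le_mul (Nat.le_add_left _ _)
    (Nat.pow_le_pow_left (Nat.mul_le_mul (dm_mono V h1 _ e1 e2) (dm_mono V h1 _ e2 e1)) 2)

end Pool.Agent.Lib.MP_bc213e_ag.Hyp
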