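import Pool.Agent.Lib.MP_bc213e_ag.Hyp.US
import Pool.Agent.Lib.MP_bc213e_ag.Hyp.NI
import Pool.Agent.Lib.MP_bc213e_ag.Hyp.Germ
import Pool.Agent.Lib.MP_bc213e_ag.Hyp.Jac
import Pool.Agent.Lib.MP_bc213e_ag.Hyp.HypL

/-! The torsion theorem. -/

namespace Pool.Agent.Lib.MP_bc213e_ag.Hyp

open WithZero

variable {K ι : Type} [Field K] [Algebra ℂ K]

theorem Su.main [Fintype ι] {n : ℕ} (S : Su K ι n) : ∃ (N : ℕ) (s : K), 0 < N ∧ s ≠ 0 ∧
    ∀ i, s / (S.g i : K) ^ N ∈ chart S.x i ∧ (S.g i : K) ^ N / s ∈ chart S.x i := by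
  obtain ⟨L, _, _, ⟨T⟩⟩ := exists_two S.φ
  obtain ⟨y, hy, hV⟩ := S.exists_indep
  obtain ⟨a₀, us⟩ := S.us
  obtain ⟨a₁, z, hz, inv⟩ := S.inv
  obtain ⟨B, hB⟩ := S.dim_le
  have fam : ∀ τ : ℕ → ℤ, Fam (fun a : ℕ => S.Γ fun w => a * S.H w)
      fun t a : ℕ => S.Γ fun w => τ t * S.M w + a * S.H w := fun τ =>
    ⟨fun t a a' h => Gam_mono fun w _ _ => by
      have := S.H_nonneg w
      have h' : (a : ℤ) ≤ a' := by exact_mod_cast h
      nlinarith,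
    fun t a b r s hr hs => Gam_mono (fun w _ _ => le_of_eq (by push_cast; ring))
      (mul_mem_Gam hr hs)⟩
  obtain ⟨a, r, A, hr, hA, h⟩ := germ T (ni S.npos S.V S.one_mem S.den y hy hV S.hyp T)
    (fam fun t => (t : ℤ)) (fam fun t => - (t : ℤ)) (fun a => (hB a).1)
    (fun r r' => by
      obtain ⟨b, d, -, hd, h⟩ := den_fin S.V S.one_mem S.den ![r, r']
      exact ⟨b, d, hd, S.pow_le_Γ b (h 0), S.pow_le_Γ b (h 1)⟩)
    (fun t a a' s s' hs hs' => Gam_mono (fun w _ _ => le_of_eq (by push_cast; ring))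
      (mul_mem_Gam hs hs'))
    (a₀ := a₀) (a₁ := a₁) (fun t => us t) (fun t => us (- (t : ℤ))) (η := fun t => S.h ^ t)
    (fun t => pow_ne_zero t S.hne) hz
    (fun t a s hs => by simpa only [zpow_natCast] using inv t a s hs)
    (fun t a s hs => by simpa only [zpow_neg, zpow_natCast] using inv (- (t : ℤ)) a s hs)
  obtain ⟨N, s, hN, hs, hw⟩ := S.pigeon a hr A hA h
  exact ⟨N, s, hN, hs, S.concl hs hw⟩

end Pool.Agent.Lib.MP_bc213e_ag.Hyp
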