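import Pool.Agent.Lib.MP_bc213e_ag.Hyp.Pull

/-! The stable pull-back of `M` is anti-pseudo-effective. -/

namespace Pool.Agent.Lib.MP_bc213e_ag.Hyp

open WithZero Module

variable {K ι : Type} [Field K] [Algebra ℂ K]

theorem main1_mul (ψ : K →ₐ[ℂ] K) {A A' B B' : Submodule ℂ K} {κ κ' : K}
    (h : ∀ a ∈ A, κ * ψ a ∈ B) (h' : ∀ a ∈ A', κ' * ψ a ∈ B') :
    ∀ a ∈ A * A', κ * κ' * ψ a ∈ B * B' := by
  intro a ha
  refine Submodule.mul_induction_on ha (fun x hx y hy => ?_) (fun x y hx hy => ?_)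
  · rw [map_mul, mul_mul_mul_comm]
    exact Submodule.mul_mem_mul (h x hx) (h' y hy)
  · rw [map_add, mul_add]
    exact add_mem hx hy

theorem main1_pow (ψ : K →ₐ[ℂ] K) {A B : Submodule ℂ K} {κ : K}
    (h : ∀ a ∈ A, κ * ψ a ∈ B) (j : ℕ) : ∀ a ∈ A ^ j, κ ^ j * ψ a ∈ B ^ j := by
  induction j with
  | zero =>
    intro a ha
    rw [pow_zero] at ha
    obtain ⟨c, rfl⟩ := Submodule.mem_one.1 ha
    rw [pow_zero, pow_zero, one_mul, AlgHom.commutes]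
    exact Submodule.algebraMap_mem c
  | succ j ih =>
    rw [pow_succ, pow_succ, pow_succ]
    exact main1_mul ψ ih h

theorem main1_span (ψ : K →ₐ[ℂ] K) {B : Submodule ℂ K} {κ u₀ u₁ : K}
    (h₀ : κ * ψ u₀ ∈ B) (h₁ : κ * ψ u₁ ∈ B) :
    ∀ a ∈ Submodule.span ℂ {u₀, u₁}, κ * ψ a ∈ B := by
  intro a ha
  obtain ⟨x, y, rfl⟩ := Submodule.mem_span_pair.1 ha
  rw [map_add, map_smul, map_smul, mul_add, mul_smul_comm, mul_smul_comm]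
  exact add_mem (B.smul_mem x h₀) (B.smul_mem y h₁)

theorem main1_map (ψ : K →ₐ[ℂ] K) {V : Submodule ℂ K} {j : ℕ} {a : K} (h : a ∈ V ^ j) :
    ψ a ∈ V.map ψ.toLinearMap ^ j := by
  have := main1_pow ψ (A := V) (B := V.map ψ.toLinearMap) (κ := 1)
    (fun x hx => by rw [one_mul]; exact Submodule.mem_map_of_mem hx) j a h
  rwa [one_pow, one_mul] at this

namespace Su

variable [Fintype ι] {n : ℕ} (S : Su K ι n)

/-- A generating pencil of the pull-back of `N t M + N H`. Sketch: `exists_gen`, `exists_pencil`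
for the family `φ^k s * hh k ^ (N t)` (`val_pull_eq`, `supp_finite`); the span of this family is
the image of the span of `T`, which lies in `Γ (N t M + N H)`. -/
theorem exists_pull_pencil (k t : ℕ) : ∃ (N : ℕ) (s₀ s₁ : K), 0 < N ∧ s₀ ≠ 0 ∧ s₁ ≠ 0 ∧
    (s₀ ∈ S.Γ fun w => (N * t : ℕ) * S.M w + N * S.H w) ∧
    (s₁ ∈ S.Γ fun w => (N * t : ℕ) * S.M w + N * S.H w) ∧
    ∀ w ∈ S.W,
      w ((S.φ ^ k) s₀ * S.hh k ^ (N * t)) = exp ((N * t : ℕ) * S.Mk k w + N * S.Hk k w) ∨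
      w ((S.φ ^ k) s₁ * S.hh k ^ (N * t)) = exp ((N * t : ℕ) * S.Mk k w + N * S.Hk k w) := by
  classical
  obtain ⟨N, T, hN, hT, h1, h2⟩ := S.exists_gen t
  let f : K →ₗ[ℂ] K := LinearMap.mulRight ℂ (S.hh k ^ (N * t)) ∘ₗ (S.φ ^ k).toLinearMap
  have hf : ∀ s, f s = (S.φ ^ k) s * S.hh k ^ (N * t) := fun _ => rfl
  have hT' : ∀ s ∈ T, s ∈ S.Γ fun w => ((N * t : ℕ) : ℤ) * S.M w + N * S.H w := by
    intro s hs
    have := S.sec_iff.1 (h1 s hs).2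
    rwa [← Nat.cast_mul] at this
  obtain ⟨u₀, u₁, hu₀, hu₁, m₀, m₁, h⟩ := exists_pencil (W := S.W)
    (E := fun w => ((N * t : ℕ) : ℤ) * S.Mk k w + N * S.Hk k w)
    (fun z hz => S.supp_finite hz) (T.image f) (hT.image f)
    (by
      intro s hs
      obtain ⟨s', hs', rfl⟩ := Finset.mem_image.1 hs
      rw [hf]
      exact mul_ne_zero ((map_ne_zero _).2 (h1 s' hs').1) (pow_ne_zero _ (S.hh_ne k)))
    (by
      intro s hs
      obtain ⟨s', hs', rfl⟩ := Finset.mem_image.1 hs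
      have := S.pull_mem k (hT' s' hs')
      rw [zpow_natCast] at this
      exact this)
    (by
      intro w _ hw
      obtain ⟨s, hs, h3⟩ := h2 _ (hw.comap (S.φ ^ k))
      rw [← Nat.cast_mul] at h3
      have := S.val_pull_eq h3
      rw [zpow_natCast] at this
      exact ⟨f s, Finset.mem_image_of_mem f hs, this⟩)
  rw [Finset.coe_image, ← Submodule.map_span] at m₀ m₁
  obtain ⟨s₀, hs₀, rfl⟩ := m₀
  obtain ⟨s₁, hs₁, rfl⟩ := m₁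
  have hle : Submodule.span ℂ (T : Set K) ≤
      S.Γ fun w => ((N * t : ℕ) : ℤ) * S.M w + N * S.H w := Submodule.span_le.2 hT'
  exact ⟨N, s₀, s₁, hN, fun h0 => hu₀ (by rw [h0, map_zero]), fun h0 => hu₁ (by rw [h0, map_zero]),
    hle hs₀, hle hs₁, fun w hw => h w hw (S.triv hw)⟩

theorem pencil_pow_mem {e : K} {c₀ : ℕ}
    (he : ∀ μ : ℕ, ∀ r ∈ S.Γ fun w => μ * S.H w, e * r ∈ S.V ^ (μ + c₀)) {u₀ u₁ κ : K} {b : ℕ}
    (h₀ : κ * u₀ ∈ S.Γ fun w => b * S.H w) (h₁ : κ * u₁ ∈ S.Γ fun w => b * S.H w) (j : ℕ) :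
    ∀ a ∈ Submodule.span ℂ {u₀, u₁} ^ j, e * κ ^ j * a ∈ S.V ^ (b * j + c₀) := by
  intro a ha
  have h2 := main1_pow (AlgHom.id ℂ K) (main1_span (AlgHom.id ℂ K) h₀ h₁) j a ha
  have h3 := pow_le_Gam (W := S.W) (D := fun w => b * S.H w) le_rfl j h2
  rw [mul_assoc]
  refine he _ _ (Gam_mono (fun w _ _ => le_of_eq ?_) h3)
  push_cast
  ring

theorem main1_lb {k T c N t ρ : ℕ} (hN : 0 < N) (ht : 0 < t) (hρ : 0 < ρ)
    (H : ∀ (μ ν : ℕ) (s : K), 0 < μ → s ≠ 0 → (s ∈ S.Γ fun w => μ * S.H w - ν * S.Mk k w) →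
      ν ≤ c * μ) {u₀ u₁ : K} (h₀ : u₀ ≠ 0) (h₁ : u₁ ≠ 0)
    (m₀ : u₀ ∈ S.Γ fun w => (N * t : ℕ) * S.Mk k w + N * S.Hk k w)
    (m₁ : u₁ ∈ S.Γ fun w => (N * t : ℕ) * S.Mk k w + N * S.Hk k w)
    (cop : ∀ w ∈ S.W, w u₀ = exp ((N * t : ℕ) * S.Mk k w + N * S.Hk k w) ∨
      w u₁ = exp ((N * t : ℕ) * S.Mk k w + N * S.Hk k w)) :
    T * (N * t * ρ) ^ n ≤ (c + 1) * n ^ n * finrank ℂ
      ↥((S.Γ fun w => (N * t * ρ : ℕ) * S.H w) * Submodule.span ℂ {u₀, u₁} ^ (T * ρ)) := by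
  obtain ⟨B, hB⟩ := S.dim_le
  have : FiniteDimensional ℂ (Gam S.W fun w => (N * t * ρ : ℕ) * S.H w) := (hB _).1
  have h1 := lb (W := S.W) (D := fun w => (N * t * ρ : ℕ) * S.H w) h₀ h₁ m₀ m₁
    (fun w hw _ => cop w hw) (c * ρ + 1) (T * ρ) (by
      rw [eq_bot_iff]
      intro s hs
      by_contra h0
      have h2 := H (N * t * ρ) ((c * ρ + 1) * (N * t)) s (by positivity) h0
        (Gam_mono (fun w _ _ => ?_) hs)
      · have h3 : 0 < N * t := by positivity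
        nlinarith
      · have h3 : (0 : ℤ) ≤ (c * ρ + 1) * N * S.Hk k w :=
          mul_nonneg (by positivity) (S.Hk_nonneg k w)
        push_cast
        linarith)
  have h2 := S.le_dim (N * t * ρ)
  change (T * ρ + 1) * finrank ℂ (S.Γ fun w => (N * t * ρ : ℕ) * S.H w) ≤ (c * ρ + 1) * finrank ℂ
    ↥((S.Γ fun w => (N * t * ρ : ℕ) * S.H w) * Submodule.span ℂ {u₀, u₁} ^ (T * ρ)) at h1
  generalize finrank ℂ (S.Γ fun w => (N * t * ρ : ℕ) * S.H w) = d at h1 h2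
  generalize finrank ℂ ↥((S.Γ fun w => (N * t * ρ : ℕ) * S.H w) *
    Submodule.span ℂ {u₀, u₁} ^ (T * ρ)) = d' at h1 ⊢
  refine Nat.le_of_mul_le_mul_left ?_ hρ
  calc ρ * (T * (N * t * ρ) ^ n) ≤ ρ * (T * (n ^ n * d)) := by gcongr
    _ ≤ n ^ n * ((T * ρ + 1) * d) := by nlinarith [Nat.zero_le (n ^ n * d)]
    _ ≤ n ^ n * ((c * ρ + 1) * d') := by gcongr
    _ ≤ n ^ n * ((c * ρ + ρ) * d') := by gcongr; exact hρ
    _ = ρ * ((c + 1) * n ^ n * d') := by ring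

theorem main1_sig {c₂ N t : ℕ} (ht : 0 < t) {σ s : K}
    (hσ : ∀ v : Val K, Triv v → v σ ≤ exp (c₂ * S.H v - S.M v))
    (hs : s ∈ S.Γ fun w => (N * t : ℕ) * S.M w + N * S.H w) :
    σ ^ (N * t) * s ∈ S.Γ fun w => ((c₂ + 1) * (N * t) : ℕ) * S.H w := by
  have h1 : σ ∈ Gam S.W fun v => c₂ * S.H v - S.M v := fun w _ hw => hσ w hw
  refine Gam_mono (fun w _ _ => ?_) (mul_mem_Gam (pow_mem_Gam h1 (N * t)) hs)
  have h2 : (0 : ℤ) ≤ N * ((t : ℤ) - 1) * S.H w :=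
    mul_nonneg (mul_nonneg (by positivity) (by omega)) (S.H_nonneg w)
  push_cast
  linarith

theorem main1_two {k c₂ N a : ℕ} {σ z s : K}
    (hσ : ∀ v : Val K, Triv v → v σ ≤ exp (c₂ * S.H v - S.M v))
    (hz : ∀ v : Val K, Triv v → v z ≤ exp (a * S.H v - S.Hk (2 * k) v))
    (hs : s ∈ S.Γ fun w => (N * (a + 1) : ℕ) * S.M w + N * S.H w) :
    S.hh k ^ (N * (a + 1)) * z ^ N * σ ^ (N * (a + 1)) *
      (S.φ ^ k) ((S.φ ^ k) s * S.hh k ^ (N * (a + 1))) ∈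
      S.Γ fun w => ((c₂ + 1) * (N * (a + 1)) : ℕ) * S.H w := by
  have h1 : σ ∈ Gam S.W fun v => c₂ * S.H v - S.M v := fun w _ hw => hσ w hw
  have h2 : z ∈ Gam S.W fun v => a * S.H v - S.Hk (2 * k) v := fun w _ hw => hz w hw
  have h3 := S.pull_mem (2 * k) hs
  rw [zpow_natCast] at h3
  have h4 : S.hh k ^ (N * (a + 1)) * z ^ N * σ ^ (N * (a + 1)) *
      (S.φ ^ k) ((S.φ ^ k) s * S.hh k ^ (N * (a + 1))) =
      (S.φ ^ (2 * k)) s * S.hh (2 * k) ^ (N * (a + 1)) * z ^ N * σ ^ (N * (a + 1)) := by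
    rw [two_mul, S.hh_add, pow_add S.φ, AlgHom.mul_apply, map_mul, map_pow, mul_pow]
    ring
  rw [h4]
  refine Gam_mono (fun w _ hw => ?_)
    (mul_mem_Gam (mul_mem_Gam h3 (pow_mem_Gam h2 N)) (pow_mem_Gam h1 (N * (a + 1))))
  have h5 : (0 : ℤ) ≤ N * S.H w := mul_nonneg (by positivity) (S.H_nonneg w)
  have h6 : (0 : ℤ) ≤ N * (a + 1) * (S.M w - S.Mk (2 * k) w) :=
    mul_nonneg (by positivity) (sub_nonneg.2 (S.Mk_le _ hw))
  push_cast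
  linarith

/-- The estimate for one iterate. Sketch: `e, c₀` from `cond`; `c₂, σ` from `exists_σ`;
`C₁ = c₂ + 2 + c₀`. Given `k, T, c`: `a, z` from `exists_z (2 k)`, `t = a + 1`, `N, s₀, s₁` from
`exists_pull_pencil k t`, `ψ = φ ^ k`, `u i = ψ (s i) * hh k ^ (N t)`, `E = N t Mk k + N Hk k`. For
`ρ ≥ 1`, `μ = N t ρ`: `Γ (μ H - (c ρ + 1) E) = ⊥` (`Hk_nonneg` and the hypothesis with
`ν = (c ρ + 1) N t`), so `lb` gives `(T ρ + 1) dim Γ (μ H) ≤ (c ρ + 1) dim A` for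
`A = Γ (μ H) * span {u₀, u₁} ^ (T ρ)`; with `le_dim`, `T μ ^ n ≤ (c + 1) n ^ n dim A`. Apply `prg`
with `α = μ + c₀`, `β = (c₂ + 1) T μ + c₀`, `τ = T μ`: `σ ^ (N t) s i ∈ Γ (N t (c₂ + 1) H)` and
`span {u₀, u₁} ^ j` is `hh k ^ (N t j)` times the image of `span {s₀, s₁} ^ j` under `ψ`;
`(hh k ^ (N t) z ^ N σ ^ (N t)) ψ (u i) ∈ Γ (N t (c₂ + 1) H)` by `hh_add`, `pull_mem (2 k)`,
`Mk_le`. Finish with `dm_mono`. -/
theorem est : ∃ C₁ : ℕ, ∀ k T c : ℕ,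
    (∀ (μ ν : ℕ) (s : K), 0 < μ → s ≠ 0 → (s ∈ S.Γ fun w => μ * S.H w - ν * S.Mk k w) →
      ν ≤ c * μ) → ∃ q : ℕ, 0 < q ∧ ∀ ρ : ℕ, 0 < ρ → 0 < T →
      T * (q * ρ) ^ n * dm S.V (S.φ ^ (2 * k)) (T * (q * ρ)) (T * (q * ρ)) ≤
        (c + 1) * n ^ n * (dm S.V (S.φ ^ k) (C₁ * (q * ρ)) (C₁ * T * (q * ρ)) *
          dm S.V (S.φ ^ k) (C₁ * T * (q * ρ)) (C₁ * (q * ρ))) := by
  obtain ⟨e, c₀, he0, he⟩ := S.cond
  obtain ⟨c₂, σ, hσ0, hσ⟩ := S.exists_σ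
  refine ⟨c₂ + 2 + c₀, fun k T c H => ?_⟩
  obtain ⟨a, z, hz0, hz⟩ := S.exists_z (2 * k)
  obtain ⟨N, s₀, s₁, hN, h₀, h₁, m₀, m₁, cop⟩ := S.exists_pull_pencil k (a + 1)
  refine ⟨N * (a + 1), by positivity, fun ρ hρ hT => ?_⟩
  have hh0 : S.hh k ^ (N * (a + 1)) ≠ 0 := pow_ne_zero _ (S.hh_ne k)
  have p₀ := S.pull_mem k m₀
  have p₁ := S.pull_mem k m₁
  rw [zpow_natCast] at p₀ p₁
  have h1 := S.main1_lb (T := T) hN a.succ_pos hρ H (mul_ne_zero ((map_ne_zero _).2 h₀) hh0)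
    (mul_ne_zero ((map_ne_zero _).2 h₁) hh0) p₀ p₁ cop
  have q1 := S.pencil_pow_mem he (S.main1_sig a.succ_pos hσ m₀) (S.main1_sig a.succ_pos hσ m₁)
    (T * ρ)
  have q2 := S.pencil_pow_mem he (S.main1_two hσ hz m₀) (S.main1_two hσ hz m₁) (T * ρ)
  simp only [Nat.succ_eq_add_one] at h1 q1
  set q := N * (a + 1) with hq
  set ψ := S.φ ^ k with hψ
  set u₀ := ψ s₀ * S.hh k ^ q with hu₀
  set u₁ := ψ s₁ * S.hh k ^ q with hu₁
  have r1 : ∀ p ∈ Submodule.span ℂ {u₀, u₁} ^ (T * ρ),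
      ψ (e * (σ ^ q) ^ (T * ρ)) * (S.hh k ^ q)⁻¹ ^ (T * ρ) * (AlgHom.id ℂ K) p ∈
        S.V.map ψ.toLinearMap ^ ((c₂ + 1) * q * (T * ρ) + c₀) := by
    intro p hp
    have h2 := main1_pow (AlgHom.id ℂ K) (κ := (S.hh k ^ q)⁻¹)
      (B := (Submodule.span ℂ {s₀, s₁}).map ψ.toLinearMap) (main1_span (u₀ := u₀) (u₁ := u₁) _
        (by
          rw [AlgHom.id_apply, hu₀, mul_comm, mul_inv_cancel_right₀ hh0]
          exact Submodule.mem_map_of_mem (Submodule.subset_span (by simp)))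
        (by
          rw [AlgHom.id_apply, hu₁, mul_comm, mul_inv_cancel_right₀ hh0]
          exact Submodule.mem_map_of_mem (Submodule.subset_span (by simp)))) (T * ρ) p hp
    rw [← Submodule.map_pow] at h2
    obtain ⟨p', hp', h3⟩ := h2
    rw [mul_assoc (ψ _), ← h3, AlgHom.toLinearMap_apply, ← map_mul]
    exact main1_map ψ (q1 p' hp')
  have r2 : ∀ p ∈ Submodule.span ℂ {u₀, u₁} ^ (T * ρ),
      e * (S.hh k ^ q * z ^ N * σ ^ q) ^ (T * ρ) * ψ p ∈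
        S.V ^ ((c₂ + 1) * q * (T * ρ) + c₀) := by
    intro p hp
    refine q2 _ ?_
    have h2 := main1_map ψ hp
    rwa [Submodule.map_span, Set.image_pair] at h2
  have h2 := prg S.V ((S.Γ fun w => (q * ρ : ℕ) * S.H w) * Submodule.span ℂ {u₀, u₁} ^ (T * ρ)) ψ
    (q * ρ + c₀) ((c₂ + 1) * q * (T * ρ) + c₀) (T * (q * ρ))
    (z := e * (ψ (e * (σ ^ q) ^ (T * ρ)) * (S.hh k ^ q)⁻¹ ^ (T * ρ)))
    (z' := ψ e * (e * (S.hh k ^ q * z ^ N * σ ^ q) ^ (T * ρ)))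
    (mul_ne_zero he0 (mul_ne_zero
      ((map_ne_zero _).2 (mul_ne_zero he0 (pow_ne_zero _ (pow_ne_zero _ hσ0))))
      (pow_ne_zero _ (inv_ne_zero hh0))))
    (mul_ne_zero ((map_ne_zero _).2 he0) (mul_ne_zero he0 (pow_ne_zero _
      (mul_ne_zero (mul_ne_zero hh0 (pow_ne_zero _ hz0)) (pow_ne_zero _ hσ0)))))
    (main1_mul (AlgHom.id ℂ K) (he (q * ρ)) r1)
    (main1_mul ψ (fun r hr => by
      rw [← map_mul]
      exact main1_map ψ (he (q * ρ) r hr)) r2)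
  have hμ : 0 < q * ρ := by positivity
  have hTμ : 0 < T * (q * ρ) := by positivity
  have hα : q * ρ + c₀ ≤ (c₂ + 2 + c₀) * (q * ρ) := by nlinarith
  have hβ : (c₂ + 1) * q * (T * ρ) + c₀ + T * (q * ρ) ≤ (c₂ + 2 + c₀) * T * (q * ρ) := by
    have := Nat.le_mul_of_pos_right c₀ hTμ
    nlinarith
  have h3 := h2.trans (Nat.mul_le_mul (dm_mono S.V S.one_mem ψ hα hβ)
    (dm_mono S.V S.one_mem ψ hβ hα))
  rw [two_mul k, pow_add S.φ]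
  refine (Nat.mul_le_mul_right _ h1).trans ?_
  rw [mul_assoc]
  exact Nat.mul_le_mul_left _ h3

/-- Sketch: `k₀` from `stable`. If `c` were a counterexample, the hypothesis of `est` holds for all
`k ≥ k₀`; apply `hyp` with `C = C₁ + ((c + 1) n ^ n) ^ 2`, square `est`, use `dm_mono`, `1 ≤ T`. -/
theorem main1 : ∃ k₀ : ℕ, ∀ c : ℕ, ∃ (μ ν : ℕ) (s : K), 0 < μ ∧ c * μ < ν ∧ s ≠ 0 ∧
    s ∈ S.Γ fun w => μ * S.H w - ν * S.Mk k₀ w := by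
  obtain ⟨k₀, hk₀⟩ := S.stable
  refine ⟨k₀, fun c => ?_⟩
  by_contra hc
  obtain ⟨C₁, hC₁⟩ := S.est
  have hn := S.npos
  obtain ⟨k, T, hk, hT, hev⟩ := S.hyp (C₁ + ((c + 1) * n ^ n) ^ 2) k₀ (by positivity)
  obtain ⟨μ₀, hμ₀⟩ := Filter.eventually_atTop.1 hev
  obtain ⟨q, hq, h⟩ := hC₁ k T c fun μ ν s hμ hs hm => by
    by_contra h
    refine hc ⟨μ, ν, s, hμ, not_le.1 h, hs, Gam_mono (fun w hw _ => le_of_eq ?_) hm⟩
    rw [hk₀ k hk w hw]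
  have h1 := h (μ₀ + 1) μ₀.succ_pos hT
  have h2 := hμ₀ (q * (μ₀ + 1)) (by nlinarith)
  change (C₁ + ((c + 1) * n ^ n) ^ 2) * (dm S.V _ _ _ * dm S.V _ _ _) ^ 2 <
    T * _ ^ (2 * n) * dm S.V _ _ _ ^ 2 at h2
  set μ := q * (μ₀ + 1) with hμ
  set C := C₁ + ((c + 1) * n ^ n) ^ 2 with hC
  have hle : C₁ ≤ C := Nat.le_add_right _ _
  have ha : C₁ * μ ≤ C * μ := by gcongr
  have hb : C₁ * T * μ ≤ C * T * μ := by gcongr
  have h3 := h1.trans (Nat.mul_le_mul_left _ (Nat.mul_le_mul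
    (dm_mono S.V S.one_mem (S.φ ^ k) ha hb) (dm_mono S.V S.one_mem (S.φ ^ k) hb ha)))
  have h4 := Nat.pow_le_pow_left h3 2
  generalize dm S.V (S.φ ^ k) (C * μ) (C * T * μ) * dm S.V (S.φ ^ k) (C * T * μ) (C * μ) = P
    at h2 h4
  generalize dm S.V (S.φ ^ (2 * k)) (T * μ) (T * μ) = d at h2 h4
  refine absurd h2 (not_lt.2 ?_)
  calc T * μ ^ (2 * n) * d ^ 2 = 1 * (T * μ ^ (2 * n) * d ^ 2) := (one_mul _).symm
    _ ≤ T * (T * μ ^ (2 * n) * d ^ 2) := Nat.mul_le_mul_right _ hT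
    _ = (T * μ ^ n * d) ^ 2 := by ring
    _ ≤ ((c + 1) * n ^ n * P) ^ 2 := h4
    _ = ((c + 1) * n ^ n) ^ 2 * P ^ 2 := by ring
    _ ≤ C * P ^ 2 := Nat.mul_le_mul_right _ (Nat.le_add_left _ _)

end Su

end Pool.Agent.Lib.MP_bc213e_ag.Hyp
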