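import Pool.Agent.Lib.MP_bc213e_ag.Hyp.ADefs
import Pool.Agent.Lib.MP_bc213e_ag.TCI.Der1

/-! Pole bounds and linear Noether normalisation. -/

namespace Pool.Agent.Lib.MP_bc213e_ag.Hyp

variable {K κ κ' : Type} [Field K] [Algebra ℂ K]

theorem Bd_mono (y : κ → K) {μ ν : ℕ} (h : μ ≤ ν) : Bd y μ ≤ Bd y ν := by
  intro r hr O c h1 h2 h3 h4
  obtain ⟨k, rfl⟩ := Nat.exists_eq_add_of_le h
  rw [pow_add, ← div_div, div_eq_mul_inv, ← inv_pow]
  exact O.mul_mem _ _ (hr O c h1 h2 h3 h4) (pow_mem h3 k)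

theorem mul_mem_Bd (y : κ → K) {μ ν : ℕ} {r s : K} (hr : r ∈ Bd y μ) (hs : s ∈ Bd y ν) :
    r * s ∈ Bd y (μ + ν) := by
  intro O c h1 h2 h3 h4
  rw [pow_add, mul_div_mul_comm]
  exact O.mul_mem _ _ (hr O c h1 h2 h3 h4) (hs O c h1 h2 h3 h4)

theorem pow_mem_Bd (y : κ → K) {μ : ℕ} {r : K} (hr : r ∈ Bd y μ) (j : ℕ) :
    r ^ j ∈ Bd y (μ * j) := by
  intro O c h1 h2 h3 h4
  rw [pow_mul, ← div_pow]
  exact pow_mem (hr O c h1 h2 h3 h4) j

theorem span_le_Bd (y : κ → K) : Submodule.span ℂ (Set.range y) ≤ Bd y 1 := by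
  refine Submodule.span_le.2 ?_
  rintro _ ⟨l, rfl⟩ O c _ _ _ h4
  rw [pow_one]
  exact h4 l

theorem span_pow_le_Bd (y : κ → K) (μ : ℕ) : Submodule.span ℂ (Set.range y) ^ μ ≤ Bd y μ := by
  induction μ with
  | zero =>
    rw [pow_zero, Submodule.one_le]
    intro O c _ _ _ _
    rw [pow_zero, div_one]
    exact O.one_mem
  | succ μ ih =>
    rw [pow_succ]
    exact Submodule.mul_le.2 fun r hr s hs => mul_mem_Bd y (ih hr) (span_le_Bd y hs)

theorem Bd_le_Bd (x : κ → K) (y : κ' → K) (h : ∀ i, x i ∈ Bd y 1) (μ : ℕ) : Bd x μ ≤ Bd y μ := by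
  intro r hr O c h1 h2 h3 h4
  refine hr O c h1 h2 h3 fun i => ?_
  have := h i O c h1 h2 h3 h4
  rwa [pow_one] at this

/-- Polynomials respect congruences modulo the maximal ideal. -/
theorem nn_cong (O : ValuationSubring K) (h1 : ∀ z : ℂ, algebraMap ℂ K z ∈ O) (u : κ → K)
    (a : κ → ℂ) (h : ∀ i, O.valuation (u i - algebraMap ℂ K (a i)) < 1) (Q : MvPolynomial κ ℂ) :
    O.valuation (MvPolynomial.aeval u Q - algebraMap ℂ K (MvPolynomial.eval a Q)) < 1 := by
  induction Q using MvPolynomial.induction_on with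
  | C c => simp
  | add P Q hP hQ =>
    rw [map_add, map_add, map_add, add_sub_add_comm]
    exact O.valuation.map_add_lt hP hQ
  | mul_X P i hP =>
    have hu : O.valuation (u i) ≤ 1 := by
      rw [← sub_add_cancel (u i) (algebraMap ℂ K (a i))]
      exact O.valuation.map_add_le (h i).le ((O.valuation_le_one_iff _).2 (h1 _))
    have e : MvPolynomial.aeval u (P * MvPolynomial.X i) -
        algebraMap ℂ K (MvPolynomial.eval a (P * MvPolynomial.X i)) =
        (MvPolynomial.aeval u P - algebraMap ℂ K (MvPolynomial.eval a P)) * u i +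
          algebraMap ℂ K (MvPolynomial.eval a P) * (u i - algebraMap ℂ K (a i)) := by
      rw [map_mul, map_mul, map_mul, MvPolynomial.aeval_X, MvPolynomial.eval_X]
      ring
    rw [e]
    refine O.valuation.map_add_lt ?_ ?_
    · rw [map_mul]
      exact mul_lt_one_of_lt_of_le hP hu
    · rw [map_mul, mul_comm]
      exact mul_lt_one_of_lt_of_le (h i) ((O.valuation_le_one_iff _).2 (h1 _))

theorem nn_hom [Fintype κ] (u : κ → K) (t : K) {k : ℕ} {Q : MvPolynomial κ ℂ}
    (hQ : Q.IsHomogeneous k) :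
    MvPolynomial.aeval (fun i => t * u i) Q = t ^ k * MvPolynomial.aeval u Q := by
  rw [MvPolynomial.aeval_def, MvPolynomial.aeval_def, MvPolynomial.eval₂_eq,
    MvPolynomial.eval₂_eq, Finset.mul_sum]
  refine Finset.sum_congr rfl fun s hs => ?_
  simp only [mul_pow]
  rw [Finset.prod_mul_distrib, Finset.prod_pow_eq_pow_sum, ← hQ.degree_eq_sum_deg_support hs]
  ring

theorem nn_top {P : MvPolynomial κ ℂ} (hP : P ≠ 0) :
    MvPolynomial.homogeneousComponent P.totalDegree P ≠ 0 := by
  obtain ⟨s, hs, e⟩ := Finset.exists_mem_eq_sup P.support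
    (MvPolynomial.support_nonempty.2 hP) fun s => s.sum fun _ e => e
  intro h0
  have h1 := MvPolynomial.coeff_homogeneousComponent P.totalDegree P s
  have h2 : s.degree = P.totalDegree := e.symm
  rw [h0, if_pos h2, MvPolynomial.coeff_zero] at h1
  exact MvPolynomial.mem_support_iff.1 hs h1.symm

theorem nn_key [Fintype κ] (O : ValuationSubring K) (h1 : ∀ z : ℂ, algebraMap ℂ K z ∈ O)
    (u : κ → K) (a : κ → ℂ) (h : ∀ i, O.valuation (u i - algebraMap ℂ K (a i)) < 1) {t : K}
    (ht : t ≠ 0) (ht' : O.valuation t⁻¹ < 1) {P : MvPolynomial κ ℂ}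
    (hP : MvPolynomial.aeval (fun i => t * u i) P = 0) :
    MvPolynomial.eval a (MvPolynomial.homogeneousComponent P.totalDegree P) = 0 := by
  rw [← MvPolynomial.sum_homogeneousComponent P, map_sum, Finset.sum_range_succ,
    Finset.sum_congr rfl fun k _ =>
      nn_hom u t (MvPolynomial.homogeneousComponent_isHomogeneous k P),
    nn_hom u t (MvPolynomial.homogeneousComponent_isHomogeneous _ P)] at hP
  generalize P.totalDegree = d at hP ⊢
  have h2 : MvPolynomial.aeval u (MvPolynomial.homogeneousComponent d P) =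
      -∑ k ∈ Finset.range d,
        t⁻¹ ^ (d - k) * MvPolynomial.aeval u (MvPolynomial.homogeneousComponent k P) := by
    refine mul_left_cancel₀ (pow_ne_zero d ht) ?_
    rw [eq_neg_of_add_eq_zero_right hP, mul_neg, Finset.mul_sum]
    refine congrArg _ (Finset.sum_congr rfl fun k hk => ?_)
    obtain ⟨j, rfl⟩ := Nat.exists_eq_add_of_le (Finset.mem_range.1 hk).le
    rw [Nat.add_sub_cancel_left, pow_add, ← mul_assoc, mul_assoc (t ^ k), ← mul_pow,
      mul_inv_cancel₀ ht, one_pow, mul_one]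
  have h3 : O.valuation (MvPolynomial.aeval u (MvPolynomial.homogeneousComponent d P)) < 1 := by
    rw [h2, Valuation.map_neg]
    refine O.valuation.map_sum_lt one_ne_zero fun k hk => ?_
    rw [map_mul, map_pow]
    refine mul_lt_one_of_lt_of_le (pow_lt_one₀ zero_le ht' ?_) ?_
    · exact Nat.sub_ne_zero_of_lt (Finset.mem_range.1 hk)
    · rw [← sub_add_cancel (MvPolynomial.aeval u _) (algebraMap ℂ K (MvPolynomial.eval a
        (MvPolynomial.homogeneousComponent k P)))]
      exact O.valuation.map_add_le (nn_cong O h1 u a h _).le ((O.valuation_le_one_iff _).2 (h1 _))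
  have h4 := O.valuation.map_sub_lt h3 (nn_cong O h1 u a h (MvPolynomial.homogeneousComponent d P))
  rw [sub_sub_cancel] at h4
  by_contra h0
  have h5 := mul_lt_one_of_lt_of_le h4 ((O.valuation_le_one_iff _).2
    (h1 (MvPolynomial.eval a (MvPolynomial.homogeneousComponent d P))⁻¹))
  rw [← map_mul, ← map_mul, mul_inv_cancel₀ h0, map_one, map_one] at h5
  exact lt_irrefl _ h5

/-- One step. Sketch: let `P ≠ 0` with `aeval x P = 0`, `d` its total degree (`d ≥ 1`), `Pd` its top
homogeneous component; choose `a : κ → ℂ` with `eval a Pd ≠ 0` (`MvPolynomial.funext`); `a ≠ 0`;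
rescale so that `a i₁ = 1`. Put `y i = x i - a i • x i₁`. Given `O, c` with `c⁻¹, y i / c ∈ O`
(`i ≠ i₁`), if `x i₁ / c ∉ O` then `c / x i₁`, `1 / x i₁` and `x i / x i₁ - a i` lie in the
maximal ideal, and `0 = aeval x P / x i₁ ^ d` is congruent to `eval a Pd`, a unit. -/
theorem nn_step [Fintype κ] (x : κ → K) (h : ¬ AlgebraicIndependent ℂ x) :
    ∃ (i₁ : κ) (y : {i // i ≠ i₁} → K), (∀ l, y l ∈ Submodule.span ℂ (Set.range x)) ∧
      (∀ i, x i ∈ Bd y 1) := by
  obtain ⟨i₁⟩ : Nonempty κ := by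
    by_contra h0
    have := not_nonempty_iff.1 h0
    exact h (algebraicIndependent_empty_type)
  rw [algebraicIndependent_iff] at h
  push Not at h
  obtain ⟨P, hP, hP0⟩ := h
  obtain ⟨a, ha⟩ : ∃ a : κ → ℂ, MvPolynomial.eval a
      (MvPolynomial.X i₁ * MvPolynomial.homogeneousComponent P.totalDegree P) ≠ 0 := by
    by_contra h0
    push Not at h0
    exact mul_ne_zero (MvPolynomial.X_ne_zero i₁) (nn_top hP0)
      (MvPolynomial.funext fun a => by rw [h0 a, map_zero])
  rw [map_mul, MvPolynomial.eval_X] at ha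
  have ha1 : a i₁ ≠ 0 := left_ne_zero_of_mul ha
  obtain ⟨t, htd⟩ : ∃ t : K, t = (a i₁)⁻¹ • x i₁ := ⟨_, rfl⟩
  have hx : x i₁ = a i₁ • t := by rw [htd, smul_smul, mul_inv_cancel₀ ha1, one_smul]
  have hts : t ∈ Submodule.span ℂ (Set.range x) :=
    htd ▸ Submodule.smul_mem _ _ (Submodule.subset_span ⟨i₁, rfl⟩)
  refine ⟨i₁, fun l => x l - a l • t, fun l => Submodule.sub_mem _
    (Submodule.subset_span ⟨l, rfl⟩) (Submodule.smul_mem _ _ hts), ?_⟩
  have ht : t ∈ Bd (fun l : {i // i ≠ i₁} => x l - a l • t) 1 := by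
    intro O c h1 h2 h3 h4
    rw [pow_one]
    by_contra h0
    have ht0 : t ≠ 0 := fun e => h0 (by rw [e, zero_div]; exact O.zero_mem)
    have h5 : O.valuation (c / t) < 1 := by
      rw [← inv_div, ← ValuationSubring.mem_nonunits_iff, ValuationSubring.inv_mem_nonunits_iff]
      exact Or.inr h0
    refine right_ne_zero_of_mul ha (nn_key O h1 (fun i => x i / t) a (fun i => ?_) ht0 ?_ ?_)
    · by_cases hi : i = i₁
      · rw [hi, hx, Algebra.smul_def, mul_div_cancel_right₀ _ ht0, sub_self, map_zero]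
        exact zero_lt_one
      · have e : x i / t - algebraMap ℂ K (a i) = c / t * ((x i - a i • t) / c) := by
          rw [Algebra.smul_def]
          field_simp
        rw [e, map_mul]
        exact mul_lt_one_of_lt_of_le h5 ((O.valuation_le_one_iff _).2 (h4 ⟨i, hi⟩))
    · have e : t⁻¹ = c / t * c⁻¹ := by field_simp
      rw [e, map_mul]
      exact mul_lt_one_of_lt_of_le h5 ((O.valuation_le_one_iff _).2 h3)
    · simpa only [mul_div_cancel₀ _ ht0] using hP
  intro i
  by_cases hi : i = i₁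
  · rw [hi, hx]
    exact Submodule.smul_mem _ _ ht
  · rw [← sub_add_cancel (x i) (a i • t)]
    exact Submodule.add_mem _ (span_le_Bd _ (Submodule.subset_span ⟨⟨i, hi⟩, rfl⟩))
      (Submodule.smul_mem _ _ ht)

theorem nn_ind (m : ℕ) : ∀ (κ : Type) [Fintype κ] (x : κ → K), Fintype.card κ = m →
    ∃ (κ' : Type) (_ : Fintype κ') (y : κ' → K), (∀ l, y l ∈ Submodule.span ℂ (Set.range x)) ∧
      AlgebraicIndependent ℂ y ∧ ∀ i, x i ∈ Bd y 1 := by
  classical
  induction m using Nat.strong_induction_on with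
  | h m ih =>
    intro κ _ x hm
    by_cases h : AlgebraicIndependent ℂ x
    · exact ⟨κ, inferInstance, x, fun l => Submodule.subset_span ⟨l, rfl⟩, h,
        fun l => span_le_Bd x (Submodule.subset_span ⟨l, rfl⟩)⟩
    obtain ⟨i₁, y, h1, h2⟩ := nn_step x h
    obtain ⟨κ', _, z, h3, h4, h5⟩ := ih _
      (hm ▸ Fintype.card_subtype_lt (p := fun i => i ≠ i₁) (x := i₁) fun e => e rfl) _ y rfl
    refine ⟨κ', inferInstance, z, fun l => Submodule.span_le.2 ?_ (h3 l), h4,
      fun i => Bd_le_Bd y z h5 1 (h2 i)⟩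
    rintro _ ⟨j, rfl⟩
    exact h1 j

theorem nn_int (y : κ → K) {μ : ℕ} {r : K} (hr : r ∈ Bd y μ) :
    IsIntegral (Algebra.adjoin ℂ (Set.range y)) r := by
  have h := iInf_valuationSubring_superset (K := K) (s := Algebra.adjoin ℂ (Set.range y))
  have h1 : r ∈ (integralClosure (Subring.closure
      (Algebra.adjoin ℂ (Set.range y) : Set K)) K).toSubring := by
    rw [← h, Subring.mem_iInf]
    intro V
    have := hr V.1 1 (fun z => V.2 (Subalgebra.algebraMap_mem _ z)) one_ne_zero
      (by rw [inv_one]; exact V.1.one_mem)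
      fun l => by rw [div_one]; exact V.2 (Algebra.subset_adjoin ⟨l, rfl⟩)
    rwa [one_pow, div_one] at this
  have e : Subring.closure (Algebra.adjoin ℂ (Set.range y) : Set K) =
      (Algebra.adjoin ℂ (Set.range y)).toSubring :=
    Subring.closure_eq (Algebra.adjoin ℂ (Set.range y)).toSubring
  rw [e] at h1
  exact h1

/-- Sketch: by strong induction on the cardinality (`nn_step`, `Bd_le_Bd`) there is an
algebraically independent finite family `y` in the span with `x i ∈ Bd y 1`. Then each `x i` lies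
in every valuation subring that contains `ℂ` and `y` (take `c = 1`), so it is integral over
`ℂ[y]` (`iInf_valuationSubring_superset`); hence `K` is algebraic over `ℂ[y]`, `y` is a
transcendence basis and has `n` elements (`TCI.trdeg_eq_card`); reindex. -/
theorem nn [Fintype κ] (x : κ → K) {n : ℕ}
    (gen : IntermediateField.adjoin ℂ (Set.range x) = ⊤) (dim : Algebra.trdeg ℂ K = n) :
    ∃ y : Fin n → K, (∀ l, y l ∈ Submodule.span ℂ (Set.range x)) ∧ IsTranscendenceBasis ℂ y ∧
      ∀ i, x i ∈ Bd y 1 := by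
  obtain ⟨κ', _, y, h1, h2, h3⟩ := nn_ind _ κ x rfl
  have h4 : IsTranscendenceBasis ℂ y := by
    refine h2.isTranscendenceBasis_iff_isAlgebraic.2 ⟨fun z => ?_⟩
    have hz : z ∈ IntermediateField.adjoin ℂ (Set.range x) := gen ▸ IntermediateField.mem_top
    induction hz using IntermediateField.adjoin_induction with
    | mem z hz =>
      obtain ⟨i, rfl⟩ := hz
      exact (nn_int y (h3 i)).isAlgebraic
    | algebraMap c =>
      exact isAlgebraic_algebraMap (R := Algebra.adjoin ℂ (Set.range y))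
        ⟨_, Subalgebra.algebraMap_mem _ c⟩
    | add a b _ _ ha hb => exact ha.add hb
    | inv a _ ha => exact ha.inv
    | mul a b _ _ ha hb => exact ha.mul hb
  have h5 : Fintype.card κ' = n := by
    have := TCI.trdeg_eq_card y h4
    rw [dim] at this
    exact_mod_cast this.symm
  let e := Fintype.equivFinOfCardEq h5
  refine ⟨y ∘ e.symm, fun l => h1 _, (isTranscendenceBasis_equiv e.symm).2 h4,
    fun i => Bd_le_Bd y _ (fun l => ?_) 1 (h3 i)⟩
  exact span_le_Bd _ (Submodule.subset_span ⟨e l, congrArg y (e.symm_apply_apply l)⟩)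

/-- An element of `Bd y μ` is integral over `ℂ[y]` (take `c = 1`). -/
theorem isIntegral_of_Bd (y : κ → K) {μ : ℕ} {r : K} (hr : r ∈ Bd y μ) :
    IsIntegral (Algebra.adjoin ℂ (Set.range y)) r :=
  nn_int y hr

end Pool.Agent.Lib.MP_bc213e_ag.Hyp
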