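import Pool.Agent.Lib.MP_bc213e_ag.Hyp.Main1

/-! `M` is numerically trivial and invariant. -/

namespace Pool.Agent.Lib.MP_bc213e_ag.Hyp

open WithZero Module

variable {K ι : Type} [Field K] [Algebra ℂ K]

theorem neg_fin {A B : Submodule ℂ K} [FiniteDimensional ℂ B] (ψ : K →ₐ[ℂ] K) {κ : K}
    (hκ : κ ≠ 0) (h : ∀ s ∈ A, ψ s * κ ∈ B) :
    FiniteDimensional ℂ A ∧ finrank ℂ A ≤ finrank ℂ B := by
  let f : A →ₗ[ℂ] B := (LinearMap.mulRight ℂ κ ∘ₗ ψ.toLinearMap).restrict h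
  have hf : Function.Injective f := fun a b e =>
    Subtype.ext (ψ.toRingHom.injective (mul_right_cancel₀ hκ (congrArg Subtype.val e)))
  exact ⟨FiniteDimensional.of_injective f hf, LinearMap.finrank_le_finrank_of_injective hf⟩

namespace Su

variable [Fintype ι] {n : ℕ} (S : Su K ι n)

omit [Fintype ι] in
theorem neg_mono {D E : Val K → ℤ} {s : K} (hs : s ∈ Gam S.W D) (h : ∀ w ∈ S.W, D w ≤ E w) :
    s ∈ S.Γ E := Gam_mono (fun w hw _ => h w hw) hs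

theorem neg_z (k : ℕ) : ∃ (a : ℕ) (z : K), z ≠ 0 ∧ z ∈ S.Γ fun w => a * S.H w - S.Hk k w :=
  let ⟨a, z, h0, h⟩ := S.exists_z k
  ⟨a, z, h0, fun w _ => h w⟩

theorem neg_gen (t : ℕ) : ∃ (N : ℕ) (s : K), 0 < N ∧ s ≠ 0 ∧
    s ∈ S.Γ fun w => (N * t : ℤ) * S.M w + N * S.H w :=
  let ⟨N, _, hN, ⟨s, hs⟩, h, _⟩ := S.exists_gen t
  ⟨N, s, hN, (h s hs).1, S.sec_iff.1 (h s hs).2⟩

/-- Volume bound. Sketch: `a, z` from `exists_z k`, `B` from `dim_le`; the injective linear map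
`s ↦ φ^k s * hh k ^ (j ν) * σ ^ j * z ^ (j μ)` sends `Γ (j ν M + j μ H)` to
`Γ (j μ (1 + a) H)`; `B' = B (2 + a) ^ n`. -/
theorem vol (k : ℕ) : ∃ B' : ℕ, ∀ (μ ν j : ℕ) (σ : K), 0 < μ → 0 < j → σ ≠ 0 →
    (σ ∈ S.Γ fun w => μ * S.H w - ν * S.Mk k w) →
    FiniteDimensional ℂ (S.Γ fun w => (j * ν : ℕ) * S.M w + (j * μ : ℕ) * S.H w) ∧
    finrank ℂ (S.Γ fun w => (j * ν : ℕ) * S.M w + (j * μ : ℕ) * S.H w) ≤ B' * (j * μ) ^ n := by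
  obtain ⟨a, z, hz0, hz⟩ := S.neg_z k
  obtain ⟨B, hB⟩ := S.dim_le
  refine ⟨B * (2 + a) ^ n, fun μ ν j σ hμ hj hσ0 hσ => ?_⟩
  obtain ⟨h1, h2⟩ := hB (j * μ * (1 + a))
  obtain ⟨h3, h4⟩ := neg_fin (A := S.Γ fun w => (j * ν : ℕ) * S.M w + (j * μ : ℕ) * S.H w)
    (B := S.Γ fun w => (j * μ * (1 + a) : ℕ) * S.H w) (S.φ ^ k)
    (κ := S.hh k ^ ((j * ν : ℕ) : ℤ) * σ ^ j * z ^ (j * μ))
    (mul_ne_zero (mul_ne_zero (zpow_ne_zero _ (S.hh_ne k)) (pow_ne_zero _ hσ0)) (pow_ne_zero _ hz0))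
    fun s hs => by
      rw [← mul_assoc, ← mul_assoc]
      refine S.neg_mono (mul_mem_Gam (mul_mem_Gam (S.pull_mem k hs) (pow_mem_Gam hσ j))
        (pow_mem_Gam hz (j * μ))) fun w _ => le_of_eq ?_
      push_cast
      ring
  refine ⟨h3, h4.trans (h2.trans ?_)⟩
  rw [mul_assoc B, ← mul_pow]
  have := Nat.mul_pos hj hμ
  gcongr
  nlinarith

/-- Sketch: `C₁ = B' (2 n) ^ n + 1`; `μ, ν, σ` from `main1` for `C₁ c`; `N, s₀, s₁` from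
`exists_pull_pencil 0 (2 ν)` (`Mk_zero`, `Hk 0 = H`), `E = 2 N ν M + N H`, `j = 2 C₁ N`,
`b = C₁ N (2 μ - 1)`, `D = b H`. Then `D + C₁ E = j ν M + j μ H`. If `Γ (D - E) = ⊥`, `lb` with
`ν = 1`, `μ = C₁` gives `(C₁ + 1) dim Γ (b H) ≤ B' (j μ) ^ n ≤ B' (2 b) ^ n`, against `le_dim`.
So `Γ (j μ H - 2 N ν M) ≠ ⊥`. -/
theorem neg0 (c : ℕ) : ∃ (μ ν : ℕ) (s : K), 0 < μ ∧ c * μ ≤ ν ∧ s ≠ 0 ∧
    s ∈ S.Γ fun w => μ * S.H w - ν * S.M w := by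
  obtain ⟨k₀, hk⟩ := S.main1
  obtain ⟨B, hB⟩ := S.vol k₀
  obtain ⟨C, hC⟩ : ∃ C, C = B * (2 * n) ^ n + 1 := ⟨_, rfl⟩
  have hC0 : 0 < C := by omega
  obtain ⟨μ, ν, σ, hμ, hν, hσ0, hσ⟩ := hk (C * c)
  obtain ⟨N, s₀, s₁, hN, h₀, h₁, m₀, m₁, cop⟩ := S.exists_pull_pencil 0 (2 * ν)
  obtain ⟨μ, rfl⟩ : ∃ m, μ = m + 1 := ⟨μ - 1, by omega⟩
  obtain ⟨h1, h2⟩ := hB (μ + 1) ν (2 * C * N) σ hμ (by positivity) hσ0 hσ
  obtain ⟨b, hb⟩ : ∃ b, b = C * N * (2 * μ + 1) := ⟨_, rfl⟩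
  have hb0 : 0 < b := by rw [hb]; positivity
  have hne : Gam S.W (fun w => (b : ℤ) * S.H w -
      (1 : ℕ) * ((N * (2 * ν) : ℕ) * S.M w + N * S.H w)) ≠ ⊥ := by
    intro e
    obtain ⟨B₀, hB₀⟩ := S.dim_le
    have : FiniteDimensional ℂ (Gam S.W fun w => (b : ℤ) * S.H w) := (hB₀ b).1
    have h3 := lb h₀ h₁ m₀ m₁ (fun w hw _ => by
      have := cop w hw
      simp only [pow_zero, AlgHom.one_apply, hh, one_pow, mul_one, Mk_zero] at this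
      exact this) 1 C e
    have h4 : Gam S.W (fun w => (b : ℤ) * S.H w) * Submodule.span ℂ {s₀, s₁} ^ C ≤
        S.Γ fun w => (2 * C * N * ν : ℕ) * S.M w + (2 * C * N * (μ + 1) : ℕ) * S.H w := by
      refine (mul_le_Gam le_rfl (pow_le_Gam (Submodule.span_le.2 (Set.insert_subset m₀
        (Set.singleton_subset_iff.2 m₁))) C)).trans (Gam_mono fun w _ _ => le_of_eq ?_)
      rw [hb]
      push_cast
      ring
    have h5 := (Submodule.finrank_mono h4).trans h2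
    have h6 : (2 * C * N * (μ + 1)) ^ n ≤ (2 * b) ^ n :=
      Nat.pow_le_pow_left (by rw [hb]; nlinarith [Nat.zero_le (C * N * μ)]) n
    have h7 : (C + 1) * b ^ n ≤ B * (2 * n) ^ n * b ^ n :=
      calc _ ≤ (C + 1) * (n ^ n * finrank ℂ (Gam S.W fun w => (b : ℤ) * S.H w)) :=
            Nat.mul_le_mul_left _ (S.le_dim b)
        _ ≤ n ^ n * (B * (2 * b) ^ n) := by
            rw [mul_left_comm]
            exact Nat.mul_le_mul_left _ (h3.trans ((one_mul _).trans_le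
              (h5.trans (Nat.mul_le_mul_left _ h6))))
        _ = _ := by ring
    have := Nat.le_of_mul_le_mul_right h7 (pow_pos hb0 n)
    omega
  obtain ⟨s, hs, hs0⟩ := Submodule.exists_mem_ne_zero_of_ne_bot hne
  refine ⟨2 * C * N * (μ + 1), N * (2 * ν), s, by positivity, by nlinarith, hs0,
    S.neg_mono hs fun w _ => ?_⟩
  have : 0 ≤ ((C * N + N : ℕ) : ℤ) * S.H w := mul_nonneg (Nat.cast_nonneg _) (S.H_nonneg w)
  rw [hb]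
  push_cast at this ⊢
  linarith

/-- Sketch: for `t ≥ 0` use `exists_gen` and `H_nonneg`. For `t = - t'`: `μ, ν, σ` from `neg0 t'`,
`s` a nonzero section of `N₁ (ν - t' μ) M + N₁ H`; take `σ ^ N₁ * s`, `N = N₁ μ`. -/
theorem neg (t : ℤ) : ∃ (N : ℕ) (s : K), 0 < N ∧ s ≠ 0 ∧ Sec S.x S.g (N * t) (N * 2) s := by
  obtain ⟨t, rfl | rfl⟩ := Int.eq_nat_or_neg t
  · obtain ⟨N, s, hN, h0, hs⟩ := S.neg_gen t
    refine ⟨N, s, hN, h0, S.sec_iff.2 (S.neg_mono hs fun w _ => ?_)⟩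
    have : 0 ≤ (N : ℤ) * S.H w := mul_nonneg (Nat.cast_nonneg _) (S.H_nonneg w)
    push_cast
    linarith
  · obtain ⟨μ, ν, σ, hμ, hν, hσ0, hσ⟩ := S.neg0 t
    obtain ⟨d, rfl⟩ := Nat.exists_eq_add_of_le hν
    obtain ⟨N, s, hN, h0, hs⟩ := S.neg_gen d
    obtain ⟨μ, rfl⟩ : ∃ m, μ = m + 1 := ⟨μ - 1, by omega⟩
    refine ⟨N * (μ + 1), σ ^ N * s, Nat.mul_pos hN hμ, mul_ne_zero (pow_ne_zero _ hσ0) h0,
      S.sec_iff.2 (S.neg_mono (mul_mem_Gam (pow_mem_Gam hσ N) hs) fun w _ => ?_)⟩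
    have : 0 ≤ ((N * μ : ℕ) : ℤ) * S.H w := mul_nonneg (Nat.cast_nonneg _) (S.H_nonneg w)
    push_cast at this ⊢
    linarith

/-- Sketch: `D = M - Mk 1 ≥ 0`. With `σ` from `neg (- t)` and a nonzero section `s` of
`N' t M + N' H`, `r = σ ^ N' * (φ s * h ^ (N' t) * z ^ N') ^ N` is a nonzero element of
`Γ (N N' (2 + a) H - N N' t D)`; `bz` with `Z = {w}` gives `t D w ≤ δ (2 + a)` for all `t`. -/
theorem Mk_one_eq {w : Val K} (hw : w ∈ S.W) : S.Mk 1 w = S.M w := by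
  obtain ⟨a, z, hz0, hz⟩ := S.neg_z 1
  obtain ⟨δ, cls, -, hδ⟩ := S.bz
  refine (S.Mk_one_le_W hw).antisymm (not_lt.1 fun hlt => ?_)
  obtain ⟨t, ht⟩ : ∃ t, t = δ * (2 + a) + 1 := ⟨_, rfl⟩
  obtain ⟨N, σ, hN, hσ0, hσ⟩ := S.neg (-(t : ℤ))
  obtain ⟨N', s, hN', h0, hs⟩ := S.neg_gen t
  have h1 : σ ^ N' * ((S.φ ^ 1) s * S.hh 1 ^ (N' * t : ℤ) * z ^ N') ^ N ∈ S.Γ fun w =>
      (N * N' * (2 + a) : ℕ) * S.H w - (N * N' * t : ℕ) * (S.M w - S.Mk 1 w) :=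
    S.neg_mono (mul_mem_Gam (pow_mem_Gam (S.sec_iff.1 hσ) N') (pow_mem_Gam
      (mul_mem_Gam (S.pull_mem 1 hs) (pow_mem_Gam hz N')) N)) fun w _ => le_of_eq (by
        push_cast
        ring)
  have h2 : σ ^ N' * ((S.φ ^ 1) s * S.hh 1 ^ (N' * t : ℤ) * z ^ N') ^ N ≠ 0 :=
    mul_ne_zero (pow_ne_zero _ hσ0) (pow_ne_zero _ (mul_ne_zero (mul_ne_zero
      ((map_ne_zero (S.φ ^ 1)).2 h0) (zpow_ne_zero _ (S.hh_ne 1))) (pow_ne_zero _ hz0)))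
  have h3 := hδ (N * N' * (2 + a)) _ h2 (S.neg_mono h1 fun w hw => sub_le_self _
    (mul_nonneg (Nat.cast_nonneg _) (sub_nonneg.2 (S.Mk_one_le_W hw)))) {w} (by simpa using hw)
    (by simp)
  have h4 := (log_le_iff_le_exp ((Valuation.ne_zero_iff w).2 h2)).2 (h1 w hw (S.triv hw))
  rw [Finset.sum_singleton] at h3
  have h5 : ((N * N' * t : ℕ) : ℤ) * 1 ≤ (N * N' * t : ℕ) * (S.M w - S.Mk 1 w) :=
    mul_le_mul_of_nonneg_left (by omega) (Nat.cast_nonneg _)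
  have h6 : N * N' * t ≤ δ * (N * N' * (2 + a)) := by
    have : ((N * N' * t : ℕ) : ℤ) ≤ δ * (N * N' * (2 + a) : ℕ) := by linarith
    exact_mod_cast this
  have := Nat.mul_pos hN hN'
  rw [ht] at h6
  nlinarith

theorem inv : ∃ (a₁ : ℕ) (z : K), z ≠ 0 ∧ ∀ (t : ℤ) (a : ℕ) (s : K),
    (s ∈ S.Γ fun w => t * S.M w + a * S.H w) →
      S.φ s * S.h ^ t * z ^ a ∈ S.Γ fun w => t * S.M w + (a * a₁ : ℕ) * S.H w := by
  obtain ⟨a₁, z, hz0, hz⟩ := S.neg_z 1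
  refine ⟨a₁, z, hz0, fun t a s hs => ?_⟩
  have := S.pull_mem 1 hs
  rw [pow_one, hh_one] at this
  refine S.neg_mono (mul_mem_Gam this (pow_mem_Gam hz a)) fun w hw => le_of_eq ?_
  rw [S.Mk_one_eq hw]
  push_cast
  ring

end Su

end Pool.Agent.Lib.MP_bc213e_ag.Hyp
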