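import Pool.Agent.Lib.MP_bc213e_ag.Hyp.BasicB

/-! Pull-backs under the iterates. -/

namespace Pool.Agent.Lib.MP_bc213e_ag.Hyp

open WithZero Module

variable {K ι : Type} [Field K] [Algebra ℂ K]

omit [Algebra ℂ K] in
theorem pull_val_zpow (v : Val K) {z : K} (hz : z ≠ 0) (t : ℤ) :
    v (z ^ t) = exp (t * log (v z)) := by
  have h : v z ≠ 0 := (map_ne_zero v).2 hz
  rw [map_zpow₀, ← smul_eq_mul, exp_zsmul, exp_log h]

omit [Algebra ℂ K] in
theorem pull_val_pow_le (v : Val K) {z : K} {d : ℤ} (h : v z ≤ exp d) (m : ℕ) :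
    v (z ^ m) ≤ exp (m * d) := by
  rw [map_pow, ← nsmul_eq_mul, exp_nsmul]
  exact pow_le_pow_left' h m

namespace Su

variable [Fintype ι] {n : ℕ} (S : Su K ι n)

omit [Fintype ι] in
theorem hh_ne (k : ℕ) : S.hh k ≠ 0 := by
  induction k with
  | zero => exact one_ne_zero
  | succ k ih => exact mul_ne_zero ih ((map_ne_zero (S.φ ^ k)).2 S.hne)

omit [Fintype ι] in
theorem hh_add (k l : ℕ) : S.hh (k + l) = S.hh k * (S.φ ^ k) (S.hh l) := by
  induction l with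
  | zero => simp [hh]
  | succ l ih =>
    rw [← add_assoc]
    simp only [hh]
    rw [ih, map_mul, pow_add, AlgHom.mul_apply, mul_assoc]

omit [Fintype ι] in
theorem hh_one : S.hh 1 = S.h := by
  simp [hh]

theorem Mk_zero (v : Val K) : S.Mk 0 v = S.M v := by
  have h : v.comap (S.φ ^ 0).toRingHom = v := by
    ext z
    simp
  simp only [Mk, h]
  simp [hh]

theorem Mk_add (k l : ℕ) (v : Val K) :
    S.Mk (k + l) v = S.Mk l (v.comap (S.φ ^ k).toRingHom) + log (v (S.hh k)) := by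
  have h : (v.comap (S.φ ^ k).toRingHom).comap (S.φ ^ l).toRingHom =
      v.comap (S.φ ^ (k + l)).toRingHom := by
    ext z
    simp [pow_add]
  have h1 : v (S.hh k) ≠ 0 := (map_ne_zero v).2 (S.hh_ne k)
  have h2 : v ((S.φ ^ k) (S.hh l)) ≠ 0 :=
    (map_ne_zero v).2 ((map_ne_zero (S.φ ^ k)).2 (S.hh_ne l))
  simp only [Mk, h]
  rw [S.hh_add, map_mul, log_mul h1 h2]
  have h3 : (v.comap (S.φ ^ k).toRingHom) (S.hh l) = v ((S.φ ^ k) (S.hh l)) := rfl
  rw [h3]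
  ring

theorem Hk_nonneg (k : ℕ) (v : Val K) : 0 ≤ S.Hk k v := by
  exact S.H_nonneg _

theorem val_pull {k : ℕ} {t a : ℤ} {s : K} {v : Val K}
    (h : (v.comap (S.φ ^ k).toRingHom) s ≤ exp (t * S.M (v.comap (S.φ ^ k).toRingHom) +
      a * S.H (v.comap (S.φ ^ k).toRingHom))) :
    v ((S.φ ^ k) s * S.hh k ^ t) ≤ exp (t * S.Mk k v + a * S.Hk k v) := by
  rw [map_mul, pull_val_zpow v (S.hh_ne k)]
  refine (mul_le_mul_left h _).trans_eq ?_
  rw [← exp_add]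
  congr 1
  simp only [Mk, Hk]
  ring

theorem val_pull_eq {k : ℕ} {t a : ℤ} {s : K} {v : Val K}
    (h : (v.comap (S.φ ^ k).toRingHom) s = exp (t * S.M (v.comap (S.φ ^ k).toRingHom) +
      a * S.H (v.comap (S.φ ^ k).toRingHom))) :
    v ((S.φ ^ k) s * S.hh k ^ t) = exp (t * S.Mk k v + a * S.Hk k v) := by
  have h' : v ((S.φ ^ k) s) = _ := h
  rw [map_mul, pull_val_zpow v (S.hh_ne k), h', ← exp_add]
  congr 1
  simp only [Mk, Hk]
  ring

theorem pull_mem (k : ℕ) {t : ℤ} {a : ℕ} {s : K}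
    (h : s ∈ S.Γ fun w => t * S.M w + a * S.H w) :
    (S.φ ^ k) s * S.hh k ^ t ∈ S.Γ fun w => t * S.Mk k w + a * S.Hk k w := by
  intro w _ ht
  exact S.val_pull (S.le_of_mem h (ht.comap _))

/-- Sketch: `den_fin` for the family `(φ ^ k) (x j)`, `le_of_mem_pow`. -/
theorem exists_z (k : ℕ) : ∃ (a : ℕ) (z : K), z ≠ 0 ∧
    ∀ v : Val K, Triv v → v z ≤ exp (a * S.H v - S.Hk k v) := by
  obtain ⟨b, d, -, hd, h⟩ := den_fin S.V S.one_mem S.den fun j => (S.φ ^ k) (S.x j)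
  refine ⟨b, d, hd, fun v hv => ?_⟩
  have h1 := S.le_of_mem_pow (h (S.ctr (v.comap (S.φ ^ k).toRingHom))) hv
  have h2 : v ((S.φ ^ k) (S.x (S.ctr (v.comap (S.φ ^ k).toRingHom)))) = exp (S.Hk k v) :=
    S.exp_H (S.ctr_max (v.comap (S.φ ^ k).toRingHom))
  rw [map_mul, h2] at h1
  rw [exp_sub, le_div_iff₀ exp_pos]
  exact h1

theorem exists_σ : ∃ (c : ℕ) (σ : K), σ ≠ 0 ∧
    ∀ v : Val K, Triv v → v σ ≤ exp (c * S.H v - S.M v) := by
  obtain ⟨b, s, hs, h⟩ := S.exists_sec (-1)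
  refine ⟨b, s, hs, fun v hv => (S.le_of_sec h hv).trans_eq ?_⟩
  congr 1
  ring

/-- Sketch: `pull` with `j = ctr (w ∘ φ)`. -/
theorem Mk_one_le_W {w : Val K} (hw : w ∈ S.W) : S.Mk 1 w ≤ S.M w := by
  have ht := S.triv hw
  obtain ⟨i, hi⟩ := hw
  have h1 := (chart_le_iff S.x _ (ht.comap (S.φ ^ 1))).2
    (S.ctr_max (w.comap (S.φ ^ 1).toRingHom))
  have h2 := S.pull i (S.ctr (w.comap (S.φ ^ 1).toRingHom)) w hi fun r hr => by
    simpa using h1 r hr
  rw [S.exp_M ht ((chart_le_iff S.x i ht).1 hi.2.1)] at h2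
  have h3 : w (S.φ (S.g (S.ctr (w.comap (S.φ ^ 1).toRingHom)))) ≠ 0 :=
    (map_ne_zero w).2 ((map_ne_zero S.φ).2 (Units.ne_zero _))
  have h4 : w S.h ≠ 0 := (map_ne_zero w).2 S.hne
  rw [map_mul, ← log_le_iff_le_exp (mul_ne_zero h3 h4), log_mul h3 h4] at h2
  refine le_of_eq_of_le ?_ h2
  simp only [Mk, hh_one]
  congr 1

/-- Negativity lemma. Sketch: `a, z` from `exists_z 1`. For each `t`, `N, T` from `exists_gen`,
`s ∈ T` generating at `v ∘ φ`; `φ s * h ^ (N t) * z ^ N ∈ Γ (N t M + N a H)` by `Mk_one_le_W`, so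
`le_of_mem` at `v` gives `t Mk 1 v + Hk 1 v + log (v z) ≤ t M v + a H v` for all `t`. -/
theorem Mk_one_le {v : Val K} (hv : Triv v) : S.Mk 1 v ≤ S.M v := by
  obtain ⟨a, z, hz, hza⟩ := S.exists_z 1
  have key : ∀ t : ℕ, t * S.Mk 1 v + S.Hk 1 v + log (v z) ≤ t * S.M v + a * S.H v := by
    intro t
    obtain ⟨N, T, hN, -, hT, hg⟩ := S.exists_gen t
    obtain ⟨s, hs, hsv⟩ := hg _ (hv.comap (S.φ ^ 1))
    have hr : (S.φ ^ 1) s * S.hh 1 ^ ((N : ℤ) * t) * z ^ N ∈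
        S.Γ fun w => ((N : ℤ) * t) * S.M w + (N * a : ℕ) * S.H w := by
      intro w hw ht
      rw [map_mul]
      refine (mul_le_mul' (S.val_pull (S.le_of_sec (hT s hs).2 (ht.comap _)))
        (pull_val_pow_le w (hza w ht) N)).trans ?_
      rw [← exp_add, exp_le_exp]
      have h1 := S.Mk_one_le_W hw
      have h2 : (0 : ℤ) ≤ (N : ℤ) * t := by positivity
      have h3 := mul_le_mul_of_nonneg_left h1 h2
      push_cast
      linarith
    have h1 := S.le_of_mem hr hv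
    rw [map_mul, S.val_pull_eq hsv, ← zpow_natCast, pull_val_zpow v hz, ← exp_add,
      exp_le_exp] at h1
    have hN' : (0 : ℤ) < N := by exact_mod_cast hN
    refine le_of_mul_le_mul_left ?_ hN'
    push_cast at h1
    linarith
  by_contra hc
  have h1 : S.M v + 1 ≤ S.Mk 1 v := not_le.1 hc
  have h2 := key ((a * S.H v - S.Hk 1 v - log (v z)).toNat + 1)
  have h3 := Int.self_le_toNat (a * S.H v - S.Hk 1 v - log (v z))
  have h4 : (0 : ℤ) ≤ ((a * S.H v - S.Hk 1 v - log (v z)).toNat : ℤ) + 1 := by positivity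
  have h5 := mul_le_mul_of_nonneg_left h1 h4
  push_cast at h2
  linarith

theorem Mk_succ_le (k : ℕ) {v : Val K} (hv : Triv v) : S.Mk (k + 1) v ≤ S.Mk k v := by
  rw [S.Mk_add k 1 v]
  have h := S.Mk_one_le (hv.comap (S.φ ^ k))
  simp only [Mk] at h ⊢
  linarith

theorem Mk_le (k : ℕ) {v : Val K} (hv : Triv v) : S.Mk k v ≤ S.M v := by
  induction k with
  | zero => exact (S.Mk_zero v).le
  | succ k ih => exact (S.Mk_succ_le k hv).trans ih

/-- Sketch: `stab` for `D k w = M w - Mk k w`, `B = δ c` (`bz`, `exists_σ`). For each `t` take a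
nonzero section `s` of `N t M + N H`; `r = φ^k s * hh k ^ (N t) * z ^ N * σ ^ (N t)` is a nonzero
element of `Γ (N (t c + a) H - N t D k)`, so `N t ∑ D k w ≤ δ N (t c + a)`; let `t → ∞`. -/
theorem stable : ∃ k₀, ∀ k, k₀ ≤ k → ∀ w ∈ S.W, S.Mk k w = S.Mk k₀ w := by
  obtain ⟨δ, cls, fin, hb⟩ := S.bz
  obtain ⟨c, σ, hσ, hσc⟩ := S.exists_σ
  have bd : ∀ k, ∀ Z : Finset (Val K), (∀ w ∈ Z, w ∈ S.W) → Set.InjOn cls Z →
      ∑ w ∈ Z, (S.M w - S.Mk k w) ≤ (δ * c : ℕ) := by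
    intro k Z hZ hinj
    obtain ⟨a, z, hz, hza⟩ := S.exists_z k
    have key : ∀ t : ℕ, t * ∑ w ∈ Z, (S.M w - S.Mk k w) ≤ δ * (t * c + a) := by
      intro t
      obtain ⟨N, T, hN, ⟨s, hs⟩, hT, -⟩ := S.exists_gen t
      have hr0 : (S.φ ^ k) s * S.hh k ^ ((N : ℤ) * t) * z ^ N * σ ^ (N * t) ≠ 0 :=
        mul_ne_zero (mul_ne_zero (mul_ne_zero ((map_ne_zero (S.φ ^ k)).2 (hT s hs).1)
          (zpow_ne_zero _ (S.hh_ne k))) (pow_ne_zero _ hz)) (pow_ne_zero _ hσ)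
      have hr : ∀ w ∈ S.W, w ((S.φ ^ k) s * S.hh k ^ ((N : ℤ) * t) * z ^ N * σ ^ (N * t)) ≤
          exp ((N * (t * c + a) : ℕ) * S.H w - N * t * (S.M w - S.Mk k w)) := by
        intro w hw
        have ht := S.triv hw
        rw [map_mul, map_mul]
        refine (mul_le_mul' (mul_le_mul' (S.val_pull (S.le_of_sec (hT s hs).2 (ht.comap _)))
          (pull_val_pow_le w (hza w ht) N)) (pull_val_pow_le w (hσc w ht) (N * t))).trans_eq ?_
        rw [← exp_add, ← exp_add]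
        congr 1
        push_cast
        ring
      have hm : (S.φ ^ k) s * S.hh k ^ ((N : ℤ) * t) * z ^ N * σ ^ (N * t) ∈
          S.Γ fun w => (N * (t * c + a) : ℕ) * S.H w := by
        intro w hw ht
        refine (hr w hw).trans ?_
        rw [exp_le_exp]
        have h1 := S.Mk_le k ht
        have h2 : (0 : ℤ) ≤ (N : ℤ) * t * (S.M w - S.Mk k w) :=
          mul_nonneg (by positivity) (sub_nonneg.2 h1)
        linarith
      have h1 := hb _ _ hr0 hm Z hZ hinj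
      have h2 : ∑ w ∈ Z, (N : ℤ) * t * (S.M w - S.Mk k w) ≤ δ * (N * (t * c + a) : ℕ) := by
        refine le_trans (Finset.sum_le_sum fun w hw => ?_) h1
        have h3 := (log_le_iff_le_exp ((map_ne_zero w).2 hr0)).2 (hr w (hZ w hw))
        linarith
      rw [← Finset.mul_sum] at h2
      have hN' : (0 : ℤ) < N := by exact_mod_cast hN
      refine le_of_mul_le_mul_left ?_ hN'
      push_cast at h2
      linarith
    by_contra hc
    have h1 : ((δ * c : ℕ) : ℤ) + 1 ≤ ∑ w ∈ Z, (S.M w - S.Mk k w) := not_le.1 hc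
    have h2 := key (δ * a + 1)
    have h4 : (0 : ℤ) ≤ (δ : ℤ) * a + 1 := by positivity
    have h5 := mul_le_mul_of_nonneg_left h1 h4
    push_cast at h2 h5
    linarith
  obtain ⟨k₀, h⟩ := stab S.W cls fin (fun k w => S.M w - S.Mk k w)
    (fun k w hw => sub_nonneg.2 (S.Mk_le k (S.triv hw)))
    (fun k w hw => sub_le_sub_left (S.Mk_succ_le k (S.triv hw)) _) (δ * c) bd
  exact ⟨k₀, fun k hk w hw => sub_right_injective (h k hk w hw)⟩

end Su

end Pool.Agent.Lib.MP_bc213e_ag.Hyp
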