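import Pool.Agent.Lib.MP_bc213e_ag.Hyp.GaussB
import Pool.Agent.Lib.MP_bc213e_ag.Hyp.FD

/-! An invariant family of divisor classes is constant: finitely generated parameter field. -/

namespace Pool.Agent.Lib.MP_bc213e_ag.Hyp

open Algebra.TensorProduct
open scoped TensorProduct

variable {K L F : Type} [Field K] [Algebra ℂ K] [Field L] [Algebra ℂ L] [Field F] [Algebra ℂ F]

/-- An eigenvector. Sketch: choose Gauss valuations `G π` for all places `π` of `F`.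
`W = {z ∈ 𝔪 | ∀ π, G π z ≤ G π s}` is an `L`-submodule containing `s`, finite dimensional by
`fd_places` (applied to the coefficients of the normal form of `s`; `G π s` is attained at some
`co ℓ s`, a `ℂ`-combination of them) and `fd_of_co`. Let `z ∈ W` have least value at a fixed place
`π₀` (`exists_min`), `ω Ψ z = τ z₁`. Then `G π z₁ = G π z` for all `π` (`map_eq`), so `z₁ ∈ W`,
and `leaf` gives `l` with `z₁ - l z ∈ W` of smaller value, hence zero. -/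
theorem exists_eigen (gen : ∃ s : Finset F, IntermediateField.adjoin ℂ (s : Set F) = ⊤)
    (ψ : L →ₐ[ℂ] L) (𝔪 : Ideal (L ⊗[ℂ] F)) {s ω τ : L ⊗[ℂ] F} (hs : s ∈ 𝔪) (h0 : s ≠ 0)
    (hτ : τ ≠ 0)
    (val : ∀ (π : Place F) (G : Valuation (L ⊗[ℂ] F) π.O.ValueGroup), IsGauss π G → G ω = G τ)
    (stab : ∀ z ∈ 𝔪, ∃ z₁ ∈ 𝔪, ω * map ψ (AlgHom.id ℂ F) z = τ * z₁) :
    ∃ z ∈ 𝔪, z ≠ 0 ∧ ∃ l : L, ω * map ψ (AlgHom.id ℂ F) z = τ * ((l ⊗ₜ[ℂ] (1 : F)) * z) := by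
  choose G hG using fun π : Place F => exists_gauss (N := L) π
  have hsm : ∀ (l : L) (z : L ⊗[ℂ] F), l • z = (l ⊗ₜ[ℂ] (1 : F)) * z := fun l z => by
    rw [Algebra.smul_def, Algebra.TensorProduct.algebraMap_apply]
    rfl
  let W : Submodule L (L ⊗[ℂ] F) :=
    { carrier := {z | z ∈ 𝔪 ∧ ∀ π, G π z ≤ G π s}
      add_mem' := fun ha hb => ⟨𝔪.add_mem ha.1 hb.1, fun π =>
        ((G π).map_add _ _).trans (max_le (ha.2 π) (hb.2 π))⟩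
      zero_mem' := ⟨𝔪.zero_mem, fun π => by simp⟩
      smul_mem' := fun l z hz => by
        rw [hsm]
        refine ⟨𝔪.mul_mem_left _ hz.1, fun π => ?_⟩
        by_cases hl : l = 0
        · simp [hl]
        · rw [map_mul, (hG π).tmul_one hl, one_mul]
          exact hz.2 π }
  have hW : ∀ z, z ∈ W ↔ z ∈ 𝔪 ∧ ∀ π, G π z ≤ G π s := fun z => Iff.rfl
  obtain ⟨J, _, a, ℓ, hnf⟩ := exists_nf s
  obtain ⟨E, _, hE⟩ := fd_places gen fun o : Option J => o.elim 0 fun j => co (ℓ j) s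
  have hfd : FiniteDimensional L W := fd_of_co E W fun z hz ℓ' => hE _ fun π => by
    obtain ⟨i, hi⟩ := Finite.exists_max fun o : Option J =>
      π.O.valuation (o.elim 0 fun j => co (ℓ j) s)
    refine ⟨i, ((hG π).le ℓ' z).trans ((hz.2 π).trans ?_)⟩
    obtain ⟨ℓ₀, h₀⟩ := (hG π s).1
    rw [← h₀]
    change π.O.valuation (co ℓ₀ s) ≤ _
    conv_lhs => rw [hnf, map_sum]
    refine Valuation.map_sum_le _ fun j _ => ?_
    rw [co_tmul]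
    exact (π.val_smul_le _ _).trans (hi (some j))
  obtain ⟨π₀⟩ := (inferInstance : Nonempty (Place F))
  obtain ⟨z, hz, hz0, hmin⟩ := (hG π₀).exists_min W
    ((Submodule.ne_bot_iff W).2 ⟨s, ⟨hs, fun _ => le_rfl⟩, h0⟩)
  obtain ⟨z₁, hz₁, e⟩ := stab z hz.1
  have hv : ∀ π, G π z₁ = G π z := fun π => by
    have := congrArg (G π) e
    rw [map_mul, map_mul, (hG π).map_eq (hG π) ψ ψ.injective, val π _ (hG π)] at this
    exact (mul_left_cancel₀ (fun h => hτ ((hG π).eq_zero_iff.1 h)) this).symm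
  obtain ⟨l, hl⟩ := (hG π₀).leaf hz0 (hv π₀)
  refine ⟨z, hz.1, hz0, l, ?_⟩
  have hm : z₁ - (l ⊗ₜ[ℂ] (1 : F)) * z ∈ W := by
    rw [← hsm]
    exact W.sub_mem ⟨hz₁, fun π => (hv π).trans_le (hz.2 π)⟩ (W.smul_mem l hz)
  by_contra hne
  refine absurd (hmin _ hm fun h => hne ?_) (not_le.2 hl)
  rw [e, sub_eq_zero.1 h]

/-- Sketch: `J = {c | ∃ m' ∈ 𝔪', z m' = s c}` is an ideal containing `z`. If `z m' = s c` and
`ω' Ψ m' = τ m''` then `s τ τ Ψ c = ω ω' Ψ (z m') = τ τ l z m''`; cancel `τ τ`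
(`isDomain_tensor`); apply `ec`. -/
theorem exists_factor (ψ : L →ₐ[ℂ] L) (fix : ∀ a, ψ a = a → ∃ c : ℂ, algebraMap ℂ L c = a)
    (𝔪' : Ideal (L ⊗[ℂ] F)) {s ω ω' z : L ⊗[ℂ] F} {l : L} (hs : s ∈ 𝔪') (h0 : s ≠ 0) (hz : z ≠ 0)
    (mul : ω * ω' = s * map ψ (AlgHom.id ℂ F) s)
    (eig : ω * map ψ (AlgHom.id ℂ F) z = map ψ (AlgHom.id ℂ F) s * ((l ⊗ₜ[ℂ] (1 : F)) * z))
    (stab : ∀ m ∈ 𝔪', ∃ m₁ ∈ 𝔪', ω' * map ψ (AlgHom.id ℂ F) m = map ψ (AlgHom.id ℂ F) s * m₁) :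
    ∃ z' ∈ 𝔪', z * z' = s := by
  have := isDomain_tensor L F
  set Ψ := map ψ (AlgHom.id ℂ F) with hΨ
  have hτ : Ψ s ≠ 0 := by
    obtain ⟨π⟩ := (inferInstance : Nonempty (Place F))
    obtain ⟨G, hG⟩ := exists_gauss (N := L) π
    intro h
    refine h0 (hG.eq_zero_iff.1 ?_)
    rw [← hG.map_eq hG ψ ψ.injective, ← hΨ, h, map_zero]
  let J : Ideal (L ⊗[ℂ] F) :=
    { carrier := {c | ∃ m ∈ 𝔪', z * m = s * c}
      add_mem' := fun ⟨m, hm, e⟩ ⟨m', hm', e'⟩ =>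
        ⟨m + m', 𝔪'.add_mem hm hm', by rw [mul_add, mul_add, e, e']⟩
      zero_mem' := ⟨0, 𝔪'.zero_mem, by simp⟩
      smul_mem' := fun c x ⟨m, hm, e⟩ =>
        ⟨c * m, 𝔪'.mul_mem_left c hm, by rw [smul_eq_mul]; linear_combination c * e⟩ }
  have hJ : J = ⊤ := ec ψ fix J ((Submodule.ne_bot_iff J).2 ⟨z, ⟨s, hs, mul_comm _ _⟩, hz⟩)
    fun c ⟨m, hm, e⟩ => by
      obtain ⟨m₁, hm₁, e₁⟩ := stab m hm
      refine ⟨(l ⊗ₜ[ℂ] (1 : F)) * m₁, 𝔪'.mul_mem_left _ hm₁,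
        mul_left_cancel₀ (mul_ne_zero hτ hτ) ?_⟩
      have e' := congrArg Ψ e
      rw [map_mul, map_mul] at e'
      rw [← hΨ]
      linear_combination (- (Ψ s * m₁)) * eig - (ω * Ψ z) * e₁ + (ω * ω') * e' + (Ψ s * Ψ c) * mul
  obtain ⟨m, hm, e⟩ : (1 : L ⊗[ℂ] F) ∈ J := hJ ▸ Submodule.mem_top
  exact ⟨m, hm, by rw [e, mul_one]⟩

variable {φ : K →ₐ[ℂ] K} (T : Two φ L)

theorem TT0_comm {ι : K →ₐ[ℂ] L} {ψ : L →ₐ[ℂ] L} (h : ∀ a, ψ (ι a) = ι (φ a)) (b : K ⊗[ℂ] F) :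
    map ψ (AlgHom.id ℂ F) (map ι (AlgHom.id ℂ F) b) =
      map ι (AlgHom.id ℂ F) (map φ (AlgHom.id ℂ F) b) := by
  induction b using TensorProduct.induction_on with
  | zero => simp
  | tmul a c => simp [h]
  | add a b ha hb => simp only [map_add, ha, hb]

theorem TT0_stab {ι : K →ₐ[ℂ] L} {ψ : L →ₐ[ℂ] L} (h : ∀ a, ψ (ι a) = ι (φ a))
    (I : Ideal (K ⊗[ℂ] F)) {σ o : K ⊗[ℂ] F}
    (hI : ∀ b ∈ I, ∃ c ∈ I, o * map φ (AlgHom.id ℂ F) b = map φ (AlgHom.id ℂ F) σ * c) :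
    ∀ z ∈ I.map (map ι (AlgHom.id ℂ F)), ∃ z₁ ∈ I.map (map ι (AlgHom.id ℂ F)),
      map ι (AlgHom.id ℂ F) o * map ψ (AlgHom.id ℂ F) z =
        map ψ (AlgHom.id ℂ F) (map ι (AlgHom.id ℂ F) σ) * z₁ := by
  intro z hz
  induction hz using Submodule.span_induction with
  | mem x hx =>
    obtain ⟨b, hb, rfl⟩ := hx
    obtain ⟨c, hc, e⟩ := hI b hb
    refine ⟨_, Ideal.mem_map_of_mem _ hc, ?_⟩
    rw [TT0_comm h, TT0_comm h, ← map_mul, e, map_mul]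
  | zero => exact ⟨0, zero_mem _, by simp⟩
  | add x y _ _ hx hy =>
    obtain ⟨a, ha, e⟩ := hx
    obtain ⟨b, hb, e'⟩ := hy
    exact ⟨a + b, add_mem ha hb, by rw [map_add, mul_add, mul_add, e, e']⟩
  | smul c x _ hx =>
    obtain ⟨a, ha, e⟩ := hx
    refine ⟨map ψ (AlgHom.id ℂ F) c * a, Ideal.mul_mem_left _ _ ha, ?_⟩
    rw [smul_eq_mul, map_mul]
    linear_combination (map ψ (AlgHom.id ℂ F) c) * e

/-- Stability of the product ideal. Sketch: `Submodule.mul_induction_on`, `Ideal.map` as a span;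
`Ψ ∘ j = j ∘ Φ` for `j = map ι id`. -/
theorem stab_prod (I I' : Ideal (K ⊗[ℂ] F)) {σ o o' : K ⊗[ℂ] F}
    (hI : ∀ b ∈ I, ∃ c ∈ I, o * map φ (AlgHom.id ℂ F) b = map φ (AlgHom.id ℂ F) σ * c)
    (hI' : ∀ b ∈ I', ∃ c ∈ I', o' * map φ (AlgHom.id ℂ F) b = map φ (AlgHom.id ℂ F) σ * c) :
    ∀ z ∈ I.map (map T.ι₁ (AlgHom.id ℂ F)) * I'.map (map T.ι₂ (AlgHom.id ℂ F)),
      ∃ z₁ ∈ I.map (map T.ι₁ (AlgHom.id ℂ F)) * I'.map (map T.ι₂ (AlgHom.id ℂ F)),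
        map T.ι₁ (AlgHom.id ℂ F) o * map T.ι₂ (AlgHom.id ℂ F) o' * map T.ψ (AlgHom.id ℂ F) z =
          map T.ψ (AlgHom.id ℂ F) (map T.ι₁ (AlgHom.id ℂ F) σ * map T.ι₂ (AlgHom.id ℂ F) σ) * z₁ := by
  intro z hz
  refine Submodule.mul_induction_on hz (fun a ha b hb => ?_) fun x y hx hy => ?_
  · obtain ⟨a₁, ha₁, e⟩ := TT0_stab T.comm₁ I hI a ha
    obtain ⟨b₁, hb₁, e'⟩ := TT0_stab T.comm₂ I' hI' b hb
    refine ⟨a₁ * b₁, Ideal.mul_mem_mul ha₁ hb₁, ?_⟩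
    rw [map_mul, map_mul, mul_mul_mul_comm, e, e', mul_mul_mul_comm]
  · obtain ⟨a, ha, e⟩ := hx
    obtain ⟨b, hb, e'⟩ := hy
    exact ⟨a + b, add_mem ha hb, by rw [map_add, mul_add, mul_add, e, e']⟩

/-- The comparison map `(K ⊗ F) ⊗ K → L ⊗ F`. -/
noncomputable def Two.κ (F : Type) [Field F] [Algebra ℂ F] : (K ⊗[ℂ] F) ⊗[ℂ] K →ₐ[ℂ] L ⊗[ℂ] F :=
  productMap (map T.ι₁ (AlgHom.id ℂ F)) (includeLeft.comp T.ι₂)

/-- Sketch: `κ` is `rTensor F (productMap ι₁ ι₂)` after `TensorProduct.rightComm`. -/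
theorem Two.κ_inj : Function.Injective (T.κ F) := by
  have e : ∀ y, T.κ F y = (productMap T.ι₁ T.ι₂).toLinearMap.rTensor F
      (TensorProduct.rightComm ℂ K F K y) := fun y => by
    induction y using TensorProduct.induction_on with
    | zero => simp
    | add a b ha hb => simp only [map_add, ha, hb]
    | tmul b k =>
      induction b using TensorProduct.induction_on with
      | zero => simp
      | add a b ha hb => simp only [TensorProduct.add_tmul, map_add, ha, hb]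
      | tmul a c => simp [Two.κ]
  intro y y' h
  rw [e, e] at h
  exact (TensorProduct.rightComm ℂ K F K).injective
    (Module.Flat.rTensor_preserves_injective_linearMap _ T.inj h)

theorem Two.κ_left (d : K ⊗[ℂ] K) :
    T.κ F (map (includeLeft : K →ₐ[ℂ] K ⊗[ℂ] F) (AlgHom.id ℂ K) d) =
      productMap T.ι₁ T.ι₂ d ⊗ₜ[ℂ] (1 : F) := by
  induction d using TensorProduct.induction_on with
  | zero => simp
  | add a b ha hb => simp only [map_add, ha, hb, TensorProduct.add_tmul]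
  | tmul a c => simp [Two.κ]

theorem Two.κ_right (b : K ⊗[ℂ] F) :
    T.κ F (map (includeRight : F →ₐ[ℂ] K ⊗[ℂ] F) (AlgHom.id ℂ K)
      (Algebra.TensorProduct.comm ℂ K F b)) = map T.ι₂ (AlgHom.id ℂ F) b := by
  induction b using TensorProduct.induction_on with
  | zero => simp
  | add a b ha hb => simp only [map_add, ha, hb]
  | tmul a c => simp [Two.κ]

theorem Two.κ_tmul (b : K ⊗[ℂ] F) : T.κ F (b ⊗ₜ[ℂ] (1 : K)) = map T.ι₁ (AlgHom.id ℂ F) b := by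
  rw [Two.κ, productMap_apply_tmul, map_one, mul_one]

theorem Two.exists_den (r : L ⊗[ℂ] F) : ∃ d : K ⊗[ℂ] K, d ≠ 0 ∧ ∃ y,
    T.κ F y = T.κ F (map (includeLeft : K →ₐ[ℂ] K ⊗[ℂ] F) (AlgHom.id ℂ K) d) * r := by
  have := isDomain_tensor K K
  induction r using TensorProduct.induction_on with
  | zero => exact ⟨1, one_ne_zero, 0, by simp⟩
  | tmul l c =>
    obtain ⟨a, d, hd, e⟩ := T.frac l
    refine ⟨d, hd, map (includeLeft : K →ₐ[ℂ] K ⊗[ℂ] F) (AlgHom.id ℂ K) a *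
      (((1 : K) ⊗ₜ[ℂ] c) ⊗ₜ[ℂ] (1 : K)), ?_⟩
    rw [map_mul, T.κ_left, T.κ_left, T.κ_tmul, ← e]
    simp [mul_comm]
  | add a b ha hb =>
    obtain ⟨d, hd, y, e⟩ := ha
    obtain ⟨d', hd', y', e'⟩ := hb
    refine ⟨d * d', mul_ne_zero hd hd',
      map (includeLeft : K →ₐ[ℂ] K ⊗[ℂ] F) (AlgHom.id ℂ K) d' * y +
        map (includeLeft : K →ₐ[ℂ] K ⊗[ℂ] F) (AlgHom.id ℂ K) d * y', ?_⟩
    simp only [map_add, map_mul, e, e']
    ring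

/-- Sketch: first every `r : L ⊗ F` has `d ≠ 0` with `(μ d ⊗ 1) r` in the range of `κ`
(`μ = productMap ι₁ ι₂`; induction on `r`, `frac`, `K ⊗ K` is a domain;
`κ (map includeLeft id d) = μ d ⊗ 1`); the range of `map ι₂ id` lies in the range of `κ`. Then
the product ideal is contained in `I.map (map ι₁ id)`; span induction. -/
theorem Two.exists_lift (I : Ideal (K ⊗[ℂ] F)) {z : L ⊗[ℂ] F}
    (hz : z ∈ I.map (map T.ι₁ (AlgHom.id ℂ F))) :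
    ∃ d : K ⊗[ℂ] K, d ≠ 0 ∧
      ∃ y ∈ I.map (includeLeft : K ⊗[ℂ] F →ₐ[ℂ] (K ⊗[ℂ] F) ⊗[ℂ] K),
        T.κ F y = T.κ F (map (includeLeft : K →ₐ[ℂ] K ⊗[ℂ] F) (AlgHom.id ℂ K) d) * z := by
  have := isDomain_tensor K K
  induction hz using Submodule.span_induction with
  | mem x hx =>
    obtain ⟨b, hb, rfl⟩ := hx
    exact ⟨1, one_ne_zero, _, Ideal.mem_map_of_mem _ hb, by
      rw [map_one, map_one, one_mul, includeLeft_apply, T.κ_tmul]⟩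
  | zero => exact ⟨1, one_ne_zero, 0, zero_mem _, by simp⟩
  | add a b _ _ ha hb =>
    obtain ⟨d, hd, y, hy, e⟩ := ha
    obtain ⟨d', hd', y', hy', e'⟩ := hb
    refine ⟨d * d', mul_ne_zero hd hd',
      map (includeLeft : K →ₐ[ℂ] K ⊗[ℂ] F) (AlgHom.id ℂ K) d' * y +
        map (includeLeft : K →ₐ[ℂ] K ⊗[ℂ] F) (AlgHom.id ℂ K) d * y',
      add_mem (Ideal.mul_mem_left _ _ hy) (Ideal.mul_mem_left _ _ hy'), ?_⟩
    simp only [map_add, map_mul, e, e']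
    ring
  | smul c x _ hx =>
    obtain ⟨d, hd, y, hy, e⟩ := hx
    obtain ⟨d', hd', y', e'⟩ := T.exists_den c
    refine ⟨d * d', mul_ne_zero hd hd', y' * y, Ideal.mul_mem_left _ _ hy, ?_⟩
    simp only [map_mul, e, e', smul_eq_mul]
    ring

/-- Sketch: `jᵢ = map ιᵢ id`, `s = j₁ σ j₂ σ`, `ω = j₁ o j₂ o'`, `ω' = j₁ o' j₂ o`, `τ = Ψ s`,
`𝔪 = j₁ I j₂ I'`, `𝔪' = j₁ I' j₂ I`. With the Gauss valuation `G₀` on `K ⊗ F`:
`G ω = G₀ (o o') = G₀ σ ^ 2 = G τ` (`map_eq`). `exists_eigen`, `exists_factor`, `exists_lift`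
twice, `κ_inj`, and `spec` with `θ₁ = includeLeft`, `s₁ = d d'`, `θ₂ = includeRight`,
`s₂ = Algebra.TensorProduct.comm σ`. -/
theorem tt0 (gen : ∃ s : Finset F, IntermediateField.adjoin ℂ (s : Set F) = ⊤)
    (fix : ∀ a, T.ψ a = a → ∃ c : ℂ, algebraMap ℂ L c = a) (I I' : Ideal (K ⊗[ℂ] F))
    {σ o o' : K ⊗[ℂ] F} (h0 : σ ≠ 0) (hσ : σ ∈ I) (hσ' : σ ∈ I')
    (mul : o * o' = σ * map φ (AlgHom.id ℂ F) σ)
    (hI : ∀ b ∈ I, ∃ c ∈ I, o * map φ (AlgHom.id ℂ F) b = map φ (AlgHom.id ℂ F) σ * c)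
    (hI' : ∀ b ∈ I', ∃ c ∈ I', o' * map φ (AlgHom.id ℂ F) b = map φ (AlgHom.id ℂ F) σ * c) :
    ∃ b ∈ I, ∃ b' ∈ I', b * b' = σ := by
  have := isDomain_tensor L F
  have := isDomain_tensor K F
  have := isDomain_tensor K K
  have hv : ∀ (π : Place F) (G : Valuation (L ⊗[ℂ] F) π.O.ValueGroup), IsGauss π G →
      ∃ G₀ : Valuation (K ⊗[ℂ] F) π.O.ValueGroup, IsGauss π G₀ ∧
        (∀ b, G (map T.ι₁ (AlgHom.id ℂ F) b) = G₀ b) ∧
        (∀ b, G (map T.ι₂ (AlgHom.id ℂ F) b) = G₀ b) := fun π G hG => by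
    obtain ⟨G₀, hG₀⟩ := exists_gauss (N := K) π
    exact ⟨G₀, hG₀, hG₀.map_eq hG _ T.ι₁.injective, hG₀.map_eq hG _ T.ι₂.injective⟩
  obtain ⟨π₀⟩ := (inferInstance : Nonempty (Place F))
  obtain ⟨G, hG⟩ := exists_gauss (N := L) π₀
  obtain ⟨G₀, hG₀, g₁, g₂⟩ := hv π₀ G hG
  have hs : map T.ι₁ (AlgHom.id ℂ F) σ * map T.ι₂ (AlgHom.id ℂ F) σ ≠ 0 := fun h => by
    have := hG.eq_zero_iff.2 h
    rw [map_mul, g₁, g₂, mul_self_eq_zero] at this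
    exact h0 (hG₀.eq_zero_iff.1 this)
  have hτ : map T.ψ (AlgHom.id ℂ F)
      (map T.ι₁ (AlgHom.id ℂ F) σ * map T.ι₂ (AlgHom.id ℂ F) σ) ≠ 0 := fun h => by
    have := hG.eq_zero_iff.2 h
    rw [hG.map_eq hG _ T.ψ.injective] at this
    exact hs (hG.eq_zero_iff.1 this)
  obtain ⟨z, hz, hz0, l, eig⟩ := exists_eigen gen T.ψ
    (I.map (map T.ι₁ (AlgHom.id ℂ F)) * I'.map (map T.ι₂ (AlgHom.id ℂ F)))
    (ω := map T.ι₁ (AlgHom.id ℂ F) o * map T.ι₂ (AlgHom.id ℂ F) o')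
    (Ideal.mul_mem_mul (Ideal.mem_map_of_mem _ hσ) (Ideal.mem_map_of_mem _ hσ')) hs hτ
    (fun π G hG => by
      obtain ⟨G₀, hG₀, g₁, g₂⟩ := hv π G hG
      rw [hG.map_eq hG _ T.ψ.injective, G.map_mul, G.map_mul, g₁, g₂, g₁, g₂, ← G₀.map_mul, mul,
        G₀.map_mul, hG₀.map_eq hG₀ _ φ.injective])
    (stab_prod T I I' hI hI')
  obtain ⟨z', hz', e⟩ := exists_factor T.ψ fix
    (I'.map (map T.ι₁ (AlgHom.id ℂ F)) * I.map (map T.ι₂ (AlgHom.id ℂ F)))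
    (ω' := map T.ι₁ (AlgHom.id ℂ F) o' * map T.ι₂ (AlgHom.id ℂ F) o)
    (Ideal.mul_mem_mul (Ideal.mem_map_of_mem _ hσ') (Ideal.mem_map_of_mem _ hσ)) hs hz0
    (by
      have e₁ := congrArg (map T.ι₁ (AlgHom.id ℂ F)) mul
      have e₂ := congrArg (map T.ι₂ (AlgHom.id ℂ F)) mul
      rw [map_mul, map_mul] at e₁ e₂
      rw [map_mul (map T.ψ (AlgHom.id ℂ F)), TT0_comm T.comm₁, TT0_comm T.comm₂,
        mul_mul_mul_comm (map T.ι₁ (AlgHom.id ℂ F) σ), ← e₁, ← e₂]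
      ring)
    eig (stab_prod T I' I hI' hI)
  obtain ⟨d, hd, y, hy, ey⟩ := T.exists_lift I (Ideal.mul_le_left hz)
  obtain ⟨d', hd', y', hy', ey'⟩ := T.exists_lift I' (Ideal.mul_le_left hz')
  refine spec (F := K) (includeLeft : K →ₐ[ℂ] K ⊗[ℂ] F) (includeRight : F →ₐ[ℂ] K ⊗[ℂ] F) I I' h0
    hy hy' (mul_ne_zero hd hd') (s₂ := Algebra.TensorProduct.comm ℂ K F σ)
    (fun h => h0 ((Algebra.TensorProduct.comm ℂ K F).injective (h.trans (map_zero _).symm)))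
    (T.κ_inj ?_)
  rw [map_mul, map_mul, map_mul, map_mul, map_mul, ey, ey', T.κ_right, T.κ_tmul, mul_mul_mul_comm,
    e, mul_comm (map T.ι₁ (AlgHom.id ℂ F) σ), ← mul_assoc]

end Pool.Agent.Lib.MP_bc213e_ag.Hyp
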