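import Pool.Agent.Lib.MP_bc213e_ag.Hyp.Neg
import Pool.Agent.Lib.MP_bc213e_ag.Hyp.FT2

/-! Uniform sections of `t M + a₀ H`. -/

namespace Pool.Agent.Lib.MP_bc213e_ag.Hyp

open WithZero Module MvPolynomial

variable {K ι : Type} [Field K] [Algebra ℂ K]

namespace Su

variable [Fintype ι] {n : ℕ} (S : Su K ι n)

/-- Sketch: in the chart `j` the quotient is
`(s / (g j ^ (N t) x j ^ b)) * ((g j / g i) ^ t (x i / x j) ^ e) ^ N`; `sec_iff` with `t = 0` and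
`Γ_le_Bd`. -/
theorem loc_mem_Bd {t : ℤ} {e N b : ℕ}
    (he : ∀ i j, ((S.g j : K) / S.g i) ^ t * ((S.x i : K) / S.x j) ^ e ∈ chart S.x j) {s : K}
    (hs : Sec S.x S.g (N * t) b s) (i : ι) :
    s * ((S.x i : K) ^ e / (S.g i : K) ^ t) ^ N ∈ Bd S.X (N * e + b) := by
  refine S.Γ_le_Bd _ (Gam_mono (fun w _ _ => le_of_eq (by rw [zero_mul, zero_add]))
    ((S.sec_iff (t := 0) (a := N * e + b)).1 fun j => ?_))
  have h1 := mul_mem (hs j) (pow_mem (he i j) N)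
  have e1 : (S.g j : K) ^ ((N : ℤ) * t) = ((S.g j : K) ^ t) ^ N := by
    rw [mul_comm, zpow_mul, zpow_natCast]
  have h2 : (S.g j : K) ^ t ≠ 0 := zpow_ne_zero _ (S.g j).ne_zero
  have h3 : (S.g i : K) ^ t ≠ 0 := zpow_ne_zero _ (S.g i).ne_zero
  have h4 : (S.x j : K) ≠ 0 := (S.x j).ne_zero
  have e2 : s * ((S.x i : K) ^ e / (S.g i : K) ^ t) ^ N /
      ((S.g j : K) ^ (0 : ℤ) * (S.x j : K) ^ (N * e + b)) =
      s / ((S.g j : K) ^ ((N : ℤ) * t) * (S.x j : K) ^ b) *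
        (((S.g j : K) / S.g i) ^ t * ((S.x i : K) / S.x j) ^ e) ^ N := by
    rw [e1, div_zpow, zpow_zero, one_mul, pow_add, mul_comm N e, pow_mul]
    simp only [mul_pow, div_pow]
    field_simp
  rw [e2]
  exact h1

/-- Sketch: `Y, P, e, c₀` from `cd_hyp`, `a₀ = 2 + c₀ + deg P + 1`. Given `t`: `e'` from
`cart_zpow`, `N, σ` from `neg`, `b, σ'` from `exists_sec`, `δ i = x i ^ e' / g i ^ t`;
`aeval Y (η i) = e σ δ i ^ N`, `aeval Y (η' i) = e σ' δ i` (`loc_mem_Bd`); apply `ft` with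
`a = e' + 2`, `b + c₀`, `c₀`; `s = aeval Y (u i) / δ i` does not depend on `i`, and
`s / (g i ^ t x i ^ a₀) = aeval Y (u i) / x i ^ (e' + a₀)` (`aeval_mem_pow`, `div_mem_chart`). -/
theorem us : ∃ a₀ : ℕ, ∀ t : ℤ, ∃ s : K, s ≠ 0 ∧ s ∈ S.Γ fun w => t * S.M w + a₀ * S.H w := by
  obtain ⟨Y, P, e, c₀, hY, he, hP, hker, hBd, hcert⟩ := cd_hyp S.X S.gen S.dim
  refine ⟨2 + c₀ + P.totalDegree + 1, fun t => ?_⟩
  obtain ⟨e', he'⟩ := S.cart_zpow t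
  obtain ⟨N, σ, hN, hσ, hs⟩ := S.neg t
  obtain ⟨b, σ', hσ', hs'⟩ := S.exists_sec t
  have hs'' : Sec S.x S.g ((1 : ℕ) * t) b σ' := by simpa using hs'
  choose η hη eη using fun i => hBd _ _ (S.loc_mem_Bd he' hs i)
  choose η' hη' eη' using fun i => hBd _ _ (S.loc_mem_Bd he' hs'' i)
  have hδ : ∀ i, (S.x i : K) ^ e' / (S.g i : K) ^ t ≠ 0 := fun i =>
    div_ne_zero (pow_ne_zero _ (S.x i).ne_zero) (zpow_ne_zero _ (S.g i).ne_zero)
  obtain ⟨γ, ρ, hρ, hρ', cert⟩ := hcert (η S.i₀ * η' S.i₀) (by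
    rw [map_mul, eη, eη']
    exact mul_ne_zero (mul_ne_zero he (mul_ne_zero hσ (pow_ne_zero _ (hδ _))))
      (mul_ne_zero he (mul_ne_zero hσ' (pow_ne_zero _ (hδ _)))))
  obtain ⟨u, hu, hrel, hn⟩ := ft P none hP S.i₀ η η' N (e' + 2) (b + c₀) c₀ hN
    (fun i => (hη i).trans (le_of_eq (by ring))) (fun i => (hη' i).trans (by omega))
    (fun i j => (hker _).1 (by
      rw [map_sub, map_mul, map_mul, map_pow, map_pow, eη, eη, eη', eη']
      ring)) γ ρ hρ hρ' cert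
  refine ⟨aeval Y (u S.i₀) / ((S.x S.i₀ : K) ^ e' / (S.g S.i₀ : K) ^ t),
    div_ne_zero (fun h => hn ((hker _).1 h)) (hδ _), S.sec_iff.1 fun i => ?_⟩
  have h1 := (hker _).2 (hrel S.i₀ i)
  rw [map_sub, map_mul, map_mul, eη', eη', pow_one, pow_one] at h1
  have h2 : aeval Y (u S.i₀) / ((S.x S.i₀ : K) ^ e' / (S.g S.i₀ : K) ^ t) =
      aeval Y (u i) / ((S.x i : K) ^ e' / (S.g i : K) ^ t) := by
    rw [div_eq_div_iff (hδ _) (hδ _)]
    exact mul_left_cancel₀ (mul_ne_zero he hσ') (by linear_combination h1)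
  have h3 := S.div_mem_chart (aeval_mem_pow S.V S.one_mem Y hY (u i)
    (d := e' + (2 + c₀ + P.totalDegree + 1)) ((hu i).trans (by omega))) i
  have h4 : (S.g i : K) ^ t ≠ 0 := zpow_ne_zero _ (S.g i).ne_zero
  have h5 : (S.x i : K) ≠ 0 := (S.x i).ne_zero
  have h6 : aeval Y (u i) / ((S.x i : K) ^ e' / (S.g i : K) ^ t) /
      ((S.g i : K) ^ t * (S.x i : K) ^ (2 + c₀ + P.totalDegree + 1)) =
      aeval Y (u i) / (S.x i : K) ^ (e' + (2 + c₀ + P.totalDegree + 1)) := by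
    rw [pow_add (S.x i : K) e']
    field_simp
  rw [h2, h6]
  exact h3

end Su

end Pool.Agent.Lib.MP_bc213e_ag.Hyp
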